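import Pool.Agent.SLS.ThmA

/-!
# Integer balancing

`bal k` replaces a descent at the places `k - 1, k` by the two halves of the sum.  Sweeps of these
maps end at a sorted vector; what is moved from the place `k - 1` to the place `k` is `H k ≥ 0`,
and on a block of places with `H > 0` inside the values differ by at most one.
-/

set_option autoImplicit false
namespace Pool.Agent.SLS.Half
open Finset

/-- balance the pair `k - 1, k` -/
def bal (k : ℕ) (v : ℕ → ℤ) (i : ℕ) : ℤ :=
  if i + 1 = k then min (v i) ((v i + v (i + 1)) / 2)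
  else if i = k then max (v i) ((v (i - 1) + v i + 1) / 2) else v i

theorem bal_mono (k : ℕ) (v w : ℕ → ℤ) (h : ∀ i, v i ≤ w i) (i : ℕ) : bal k v i ≤ bal k w i := by
  have h0 := h i
  have h1 := h (i + 1)
  have h2 := h (i - 1)
  unfold bal
  split_ifs
  · exact min_le_min h0 (by omega)
  · exact max_le_max h0 (by omega)
  · exact h0

theorem bal_of_le (k : ℕ) (hk : 1 ≤ k) (v : ℕ → ℤ) (h : v (k - 1) ≤ v k) : bal k v = v := by
  funext i
  unfold bal
  split_ifs with h1 h2
  · have e1 : k - 1 = i := by omega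
    rw [h1]
    rw [e1] at h
    exact min_eq_left (by omega)
  · subst h2
    exact max_eq_left (by omega)
  · rfl

/-- `v` arises from `τ` by moving `H k ≥ 0` from place `k - 1` to place `k` -/
structure Inv (l : ℕ) (τ v H : ℕ → ℤ) : Prop where
  h0 : H 0 = 0
  hl : ∀ k, l ≤ k → H k = 0
  hn : ∀ k, 0 ≤ H k
  hv : ∀ i, v i = τ i + H i - H (i + 1)
  h1 : ∀ i j, i < j → j < l → (∀ k, i < k → k ≤ j → 0 < H k) → v j ≤ v i + 1

theorem inv_step (l : ℕ) (τ v H : ℕ → ℤ) (h : Inv l τ v H) (k : ℕ) (hk : 1 ≤ k) (hkl : k < l)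
    (hlt : v k < v (k - 1)) :
    ∃ H', Inv l τ (bal k v) H' ∧ ∑ i ∈ range l, H i + 1 ≤ ∑ i ∈ range l, H' i := by
  obtain ⟨x, hx⟩ : ∃ x, x = v (k - 1) := ⟨_, rfl⟩
  obtain ⟨y, hy⟩ : ∃ y, y = v k := ⟨_, rfl⟩
  rw [← hx, ← hy] at hlt
  have b1 : bal k v (k - 1) = (x + y) / 2 := by
    unfold bal
    rw [if_pos (by omega), show k - 1 + 1 = k by omega, ← hx, ← hy]
    exact min_eq_right (by omega)
  have b2 : bal k v k = (x + y + 1) / 2 := by
    unfold bal
    rw [if_neg (by omega), if_pos rfl, ← hx, ← hy]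
    exact max_eq_right (by omega)
  have b3 : ∀ i, i ≠ k - 1 → i ≠ k → bal k v i = v i := by
    intro i h1 h2
    unfold bal
    rw [if_neg (by omega), if_neg h2]
  obtain ⟨H', hH⟩ : ∃ H' : ℕ → ℤ, ∀ i, H' i = if i = k then H k + (x - (x + y) / 2) else H i :=
    ⟨_, fun _ => rfl⟩
  have c1 : H' k = H k + (x - (x + y) / 2) := by rw [hH, if_pos rfl]
  have c2 : ∀ i, i ≠ k → H' i = H i := fun i hi => by rw [hH, if_neg hi]
  have n0 := h.hn k
  refine ⟨H', ⟨?_, ?_, ?_, ?_, ?_⟩, ?_⟩
  · rw [c2 0 (by omega)]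
    exact h.h0
  · intro i hi
    rw [c2 i (by omega)]
    exact h.hl i hi
  · intro i
    by_cases hi : i = k
    · subst hi
      rw [c1]
      omega
    · rw [c2 i hi]
      exact h.hn i
  · intro i
    have hv := h.hv i
    by_cases e1 : i = k - 1
    · subst e1
      rw [b1, c2 (k - 1) (by omega), show k - 1 + 1 = k by omega, c1]
      rw [show k - 1 + 1 = k by omega, ← hx] at hv
      omega
    · by_cases e2 : i = k
      · subst e2
        rw [b2, c1, c2 (i + 1) (by omega)]
        rw [← hy] at hv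
        omega
      · rw [b3 i e1 e2, c2 i e2, c2 (i + 1) (by omega)]
        exact hv
  · intro i j hij hj hpos
    rcases (show j < k ∨ k ≤ i ∨ (i < k ∧ k ≤ j) by omega) with h1 | h1 | ⟨h1, h2⟩
    · have h3 := h.h1 i j hij hj fun q a b => by
        have := hpos q a b
        rwa [c2 q (by omega)] at this
      rw [b3 i (by omega) (by omega)]
      by_cases e1 : j = k - 1
      · subst e1
        rw [b1]
        rw [← hx] at h3
        omega
      · rw [b3 j e1 (by omega)]
        exact h3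
    · have h3 := h.h1 i j hij hj fun q a b => by
        have := hpos q a b
        rwa [c2 q (by omega)] at this
      rw [b3 j (by omega) (by omega)]
      by_cases e1 : i = k
      · subst e1
        rw [b2]
        rw [← hy] at h3
        omega
      · rw [b3 i (by omega) e1]
        exact h3
    · have hA : i < k - 1 → x ≤ v i + 1 := fun h3 => by
        rw [hx]
        exact h.h1 i (k - 1) h3 (by omega) fun q a b => by
          have := hpos q a (by omega)
          rwa [c2 q (by omega)] at this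
      have hB : k < j → v j ≤ y + 1 := fun h3 => by
        rw [hy]
        exact h.h1 k j h3 hj fun q a b => by
          have := hpos q (by omega) b
          rwa [c2 q (by omega)] at this
      rcases (show i = k - 1 ∨ i < k - 1 by omega) with e1 | e1 <;>
        rcases (show j = k ∨ k < j by omega) with e2 | e2
      · rw [e1, e2, b1, b2]
        omega
      · rw [e1, b1, b3 j (by omega) (by omega)]
        have := hB e2
        omega
      · rw [e2, b2, b3 i (by omega) (by omega)]
        have := hA e1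
        omega
      · rw [b3 i (by omega) (by omega), b3 j (by omega) (by omega)]
        have := hB e2
        have := hA e1
        omega
  · have e1 : ∑ i ∈ range l, H' i = ∑ i ∈ range l, (H i + if i = k then x - (x + y) / 2 else 0) :=
      sum_congr rfl fun i _ => by
        rw [hH]
        split_ifs with h2
        · rw [h2]
        · rw [add_zero]
    rw [e1, sum_add_distrib, sum_ite_eq', if_pos (mem_range.2 hkl)]
    omega

/-- a sweep of the places `1, …, j` -/
def swp (v : ℕ → ℤ) : ℕ → (ℕ → ℤ)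
  | 0 => v
  | j + 1 => bal (j + 1) (swp v j)

theorem swp_mono (v w : ℕ → ℤ) (h : ∀ i, v i ≤ w i) (j i : ℕ) : swp v j i ≤ swp w j i := by
  induction j generalizing i with
  | zero => exact h i
  | succ j ih => exact bal_mono _ _ _ ih i

theorem swp_sorted (l : ℕ) (v : ℕ → ℤ) (h : ∀ i, i + 1 < l → v i ≤ v (i + 1)) (j : ℕ) (hj : j < l) :
    swp v j = v := by
  induction j with
  | zero => rfl
  | succ j ih =>
    have h1 := ih (by omega)
    show bal (j + 1) (swp v j) = v
    rw [h1]
    exact bal_of_le _ (by omega) _ (h j hj)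

theorem swp_lb (l : ℕ) (m : ℤ) (v : ℕ → ℤ) (h : ∀ i < l, m ≤ v i) (j : ℕ) (hj : j < l) :
    ∀ i < l, m ≤ swp v j i := by
  induction j with
  | zero => exact h
  | succ j ih =>
    have h1 := ih (by omega)
    intro i hi
    show m ≤ bal (j + 1) (swp v j) i
    have h2 := h1 i hi
    unfold bal
    split_ifs with e1 e2
    · have h3 := h1 (i + 1) (by omega)
      exact le_min h2 (by omega)
    · exact h2.trans (le_max_left _ _)
    · exact h2

theorem swp_inv (l : ℕ) (τ v H : ℕ → ℤ) (h : Inv l τ v H) (j : ℕ) (hj : j < l) :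
    ∃ H', Inv l τ (swp v j) H' ∧ (∑ i ∈ range l, H i + 1 ≤ ∑ i ∈ range l, H' i ∨
      (swp v j = v ∧ ∑ i ∈ range l, H' i = ∑ i ∈ range l, H i ∧
        ∀ k, 1 ≤ k → k ≤ j → v (k - 1) ≤ v k)) := by
  induction j with
  | zero => exact ⟨H, h, Or.inr ⟨rfl, rfl, fun k h1 h2 => by omega⟩⟩
  | succ j ih =>
    obtain ⟨H', i1, i2⟩ := ih (by omega)
    by_cases hlt : swp v j (j + 1) < swp v j (j + 1 - 1)
    · obtain ⟨H'', k1, k2⟩ := inv_step l τ _ H' i1 (j + 1) (by omega) hj hlt
      refine ⟨H'', k1, Or.inl ?_⟩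
      rcases i2 with i2 | i2
      · linarith
      · linarith [i2.2.1]
    · have e1 : swp v (j + 1) = swp v j := bal_of_le _ (by omega) _ (by omega)
      rw [e1]
      refine ⟨H', i1, i2.imp_right fun i3 => ⟨i3.1, i3.2.1, fun k h1 h2 => ?_⟩⟩
      by_cases h3 : k ≤ j
      · exact i3.2.2 k h1 h3
      · have h4 : k = j + 1 := by omega
        rw [i3.1] at hlt
        subst h4
        omega

theorem iter_inv (l : ℕ) (hl : 1 ≤ l) (τ : ℕ → ℤ) (n : ℕ) :
    ∃ H, Inv l τ ((fun v => swp v (l - 1))^[n] τ) H ∧ ((n : ℤ) ≤ ∑ i ∈ range l, H i ∨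
      ∀ i, i + 1 < l → (fun v => swp v (l - 1))^[n] τ i ≤ (fun v => swp v (l - 1))^[n] τ (i + 1)) := by
  induction n with
  | zero =>
    refine ⟨fun _ => 0, ⟨rfl, fun _ _ => rfl, fun _ => le_rfl, fun i => ?_, fun i j hij hj h => ?_⟩,
      Or.inl (by simp)⟩
    · simp
    · exact absurd (h j hij le_rfl) (lt_irrefl _)
  | succ n ih =>
    obtain ⟨H, i1, i2⟩ := ih
    rw [Function.iterate_succ_apply']
    obtain ⟨w, hw⟩ : ∃ w, w = (fun v => swp v (l - 1))^[n] τ := ⟨_, rfl⟩
    rw [← hw] at i1 i2 ⊢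
    show ∃ H, Inv l τ (swp w (l - 1)) H ∧ (((n + 1 : ℕ) : ℤ) ≤ ∑ i ∈ range l, H i ∨
      ∀ i, i + 1 < l → swp w (l - 1) i ≤ swp w (l - 1) (i + 1))
    rcases i2 with i2 | i2
    · obtain ⟨H', k1, k2⟩ := swp_inv l τ w H i1 (l - 1) (by omega)
      refine ⟨H', k1, ?_⟩
      rcases k2 with k2 | ⟨k2, -, k3⟩
      · left
        push_cast
        linarith
      · right
        intro i hi
        rw [k2]
        exact k3 (i + 1) (by omega) (by omega)
    · have e1 := swp_sorted l w i2 (l - 1) (by omega)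
      rw [e1]
      exact ⟨H, i1, Or.inr i2⟩

theorem iter_lb (l : ℕ) (hl : 1 ≤ l) (m : ℤ) (τ : ℕ → ℤ) (h : ∀ i < l, m ≤ τ i) (n : ℕ) :
    ∀ i < l, m ≤ (fun v => swp v (l - 1))^[n] τ i := by
  induction n with
  | zero => exact h
  | succ n ih =>
    rw [Function.iterate_succ_apply']
    exact swp_lb l m _ ih (l - 1) (by omega)

/-- **the balancing map** -/
theorem exists_bal (l : ℕ) (hl : 1 ≤ l) (B : ℕ) : ∃ Ψ : (ℕ → ℤ) → (ℕ → ℤ),
    (∀ τ σ : ℕ → ℤ, (∀ i, τ i ≤ σ i) → ∀ i, Ψ τ i ≤ Ψ σ i) ∧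
    ∀ τ : ℕ → ℤ, (∀ i j, i < l → j < l → τ i ≤ τ j + B) →
      (∃ H, Inv l τ (Ψ τ) H) ∧ ∀ i, i + 1 < l → Ψ τ i ≤ Ψ τ (i + 1) := by
  refine ⟨fun τ => (fun v => swp v (l - 1))^[l * (l * B) + 1] τ, ?_, ?_⟩
  · intro τ σ h
    show ∀ i, (fun v => swp v (l - 1))^[l * (l * B) + 1] τ i ≤
      (fun v => swp v (l - 1))^[l * (l * B) + 1] σ i
    generalize l * (l * B) + 1 = n
    induction n with
    | zero => exact h
    | succ n ih =>
      intro i
      rw [Function.iterate_succ_apply', Function.iterate_succ_apply']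
      exact swp_mono _ _ ih _ i
  · intro τ hτ
    obtain ⟨H, i1, i2⟩ := iter_inv l hl τ (l * (l * B) + 1)
    refine ⟨⟨H, i1⟩, i2.resolve_left fun h => ?_⟩
    have h1 : ∀ q < l, τ q - B ≤ (fun v => swp v (l - 1))^[l * (l * B) + 1] τ q := fun q hq =>
      iter_lb l hl (τ q - B) τ (fun j hj => by
        have := hτ q j hq hj
        omega) _ q hq
    have h2 : ∀ k, k ≤ l → H k ≤ k * B := by
      intro k
      induction k with
      | zero =>
        intro _
        rw [i1.h0]
        simp
      | succ k ih =>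
        intro hk
        have h3 := ih (by omega)
        have h4 := i1.hv k
        have h5 := h1 k (by omega)
        push_cast
        linarith
    have h3 : ∑ i ∈ range l, H i ≤ ∑ _i ∈ range l, ((l * B : ℕ) : ℤ) := by
      refine sum_le_sum fun k hk => ?_
      have hk' : k < l := mem_range.1 hk
      refine (h2 k hk'.le).trans ?_
      exact_mod_cast Nat.mul_le_mul_right B hk'.le
    rw [sum_const, card_range, nsmul_eq_mul] at h3
    push_cast at h h3
    linarith

end Pool.Agent.SLS.Half
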