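import Mathlib.Algebra.BigOperators.Intervals
import Mathlib.Algebra.Order.BigOperators.Group.Finset
import Mathlib.Data.Nat.Find
import Mathlib.Tactic.Linarith
import Mathlib.Tactic.Ring

/-!
# SLS: the key estimate for the integer isotonic balancing
-/

set_option autoImplicit false

namespace Pool.Agent.SLS.Half

theorem bal_tel (l : ℕ) (n g τ : ℕ → ℤ)
    (hτ : ∀ k, 1 ≤ k → k < l → τ k = τ (k - 1) + n k - g k) (i : ℕ) :
    ∀ j, i < j → j ≤ l → ∑ q ∈ Finset.Ico (i + 1) j, g q =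
      ∑ q ∈ Finset.Ico (i + 1) j, n q - (τ (j - 1) - τ i) := by
  intro j hij
  induction j, hij using Nat.le_induction with
  | base => intro _; simp
  | succ j hj ih =>
    intro hjl
    have hj' : i + 1 ≤ j := hj
    rw [Finset.sum_Ico_succ_top hj', Finset.sum_Ico_succ_top hj', ih (by omega)]
    have h1 := hτ j (by omega) (by omega)
    have h2 : j + 1 - 1 = j := rfl
    rw [h2, h1]
    ring

theorem bal_key (l r ν : ℕ) (hr : r + 1 ≤ 3 * ν) (n g H v τ : ℕ → ℤ)
    (hn : ∀ k, 1 ≤ k → k < l → (ν : ℤ) ≤ n k) (hg : ∀ k, 1 ≤ k → k < l → 0 ≤ g k)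
    (hgs : ∑ k ∈ Finset.Ico 1 l, g k ≤ r)
    (hτ : ∀ k, 1 ≤ k → k < l → τ k = τ (k - 1) + n k - g k)
    (H0 : H 0 = 0) (Hl : ∀ k, l ≤ k → H k = 0) (Hn : ∀ k, 0 ≤ H k)
    (hv : ∀ i, v i = τ i + H i - H (i + 1))
    (hv1 : ∀ i j, i < j → j < l → (∀ k, i < k → k ≤ j → 0 < H k) → v j ≤ v i + 1) :
    ∀ k, 1 ≤ k → k < l → 2 * H k ≤ g k ∧ H k ≤ ν := by
  intro k hk1 hkl
  have hν : 1 ≤ ν := by omega
  rcases (Hn k).eq_or_lt with h0 | hpos
  · rw [← h0]
    exact ⟨by simpa using hg k hk1 hkl, by positivity⟩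
  -- the run which contains `k`
  obtain ⟨i, hik, hi0, hi⟩ : ∃ i, i < k ∧ H i = 0 ∧ ∀ q, i < q → q < k → 0 < H q := by
    refine ⟨Nat.findGreatest (fun q => H q = 0) (k - 1), ?_, ?_, ?_⟩
    · have := Nat.findGreatest_le (P := fun q => H q = 0) (k - 1)
      omega
    · exact Nat.findGreatest_spec (P := fun q => H q = 0) (Nat.zero_le (k - 1)) H0
    · intro q h1 h2
      have h3 := Nat.findGreatest_is_greatest h1 (by omega : q ≤ k - 1)
      exact lt_of_le_of_ne (Hn q) fun h => h3 h.symm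
  obtain ⟨j, hkj, hj0, hjl, hj⟩ : ∃ j, k < j ∧ H j = 0 ∧ j ≤ l ∧
      ∀ q, k < q → q < j → 0 < H q := by
    have hex : ∃ q, k < q ∧ H q = 0 := ⟨l, hkl, Hl l le_rfl⟩
    refine ⟨Nat.find hex, (Nat.find_spec hex).1, (Nat.find_spec hex).2,
      Nat.find_min' hex ⟨hkl, Hl l le_rfl⟩, ?_⟩
    intro q h1 h2
    have h3 := Nat.find_min hex h2
    exact lt_of_le_of_ne (Hn q) fun h => h3 ⟨h1, h.symm⟩
  have hrun : ∀ q, i < q → q < j → 0 < H q := by
    intro q h1 h2
    rcases lt_trichotomy q k with h | h | h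
    · exact hi q h1 h
    · rw [h]
      exact hpos
    · exact hj q h h2
  have htel := bal_tel l n g τ hτ i j (by omega) hjl
  have hsub : ∑ q ∈ Finset.Ico (i + 1) j, g q ≤ r := by
    refine le_trans ?_ hgs
    apply Finset.sum_le_sum_of_subset_of_nonneg
    · intro q hq
      rw [Finset.mem_Ico] at hq ⊢
      omega
    · intro q hq _
      rw [Finset.mem_Ico] at hq
      exact hg q hq.1 hq.2
  have hnn : ((j - (i + 1) : ℕ) : ℤ) * ν ≤ ∑ q ∈ Finset.Ico (i + 1) j, n q := by
    have h1 := Finset.card_nsmul_le_sum (Finset.Ico (i + 1) j) n (ν : ℤ) (fun q hq => by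
      rw [Finset.mem_Ico] at hq
      exact hn q (by omega) (by omega))
    rw [Nat.card_Ico, nsmul_eq_mul] at h1
    exact h1
  have hvj := hv1 i (j - 1) (by omega) (by omega) (fun q h1 h2 => hrun q h1 (by omega))
  have hvi := hv i
  have hvj2 := hv (j - 1)
  have hj1 : j - 1 + 1 = j := by omega
  rw [hj1, hj0] at hvj2
  have hHi := hrun (i + 1) (by omega) (by omega)
  have hHj := hrun (j - 1) (by omega) (by omega)
  have hlen : j ≤ i + 3 := by
    by_contra hcon
    have h1 : (3 : ℤ) ≤ ((j - (i + 1) : ℕ) : ℤ) := by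
      have : 3 ≤ j - (i + 1) := by omega
      exact_mod_cast this
    have h2 : (3 : ℤ) * ν ≤ ((j - (i + 1) : ℕ) : ℤ) * ν :=
      mul_le_mul_of_nonneg_right h1 (by positivity)
    omega
  have hcase : j = i + 2 ∨ j = i + 3 := by omega
  rcases hcase with rfl | rfl
  · -- a run of length one
    have hki : k = i + 1 := by omega
    subst hki
    have e1 := hτ (i + 1) (by omega) hkl
    have e2 := hn (i + 1) (by omega) hkl
    have e3 : ∑ q ∈ Finset.Ico (i + 1) (i + 2), g q = g (i + 1) := by simp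
    have e4 : i + 2 - 1 = i + 1 := rfl
    have e5 : i + 1 - 1 = i := rfl
    rw [e3] at hsub
    rw [e4] at hvj hvj2
    rw [e5] at e1
    constructor <;> omega
  · -- a run of length two
    have e1 := hτ (i + 1) (by omega) (by omega)
    have e2 := hn (i + 1) (by omega) (by omega)
    have e1' := hτ (i + 2) (by omega) (by omega)
    have e2' := hn (i + 2) (by omega) (by omega)
    have e3 : ∑ q ∈ Finset.Ico (i + 1) (i + 3), g q = g (i + 1) + g (i + 2) := by
      rw [Finset.sum_Ico_succ_top (by omega), Finset.sum_Ico_succ_top (by omega)]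
      simp
    have e4 : i + 3 - 1 = i + 2 := rfl
    have e5 : i + 1 - 1 = i := rfl
    have e6 : i + 2 - 1 = i + 1 := rfl
    have e7 := hg (i + 1) (by omega) (by omega)
    have e8 := hg (i + 2) (by omega) (by omega)
    have e9 := hv (i + 1)
    have e10 : i + 1 + 1 = i + 2 := rfl
    have f1 := hv1 i (i + 1) (by omega) (by omega) (fun q h1 h2 => hrun q h1 (by omega))
    have f2 := hv1 (i + 1) (i + 2) (by omega) (by omega) (fun q h1 h2 => hrun q (by omega) (by omega))
    rw [e3] at hsub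
    rw [e4] at hvj hvj2
    rw [e5] at e1
    rw [e6] at e1'
    rw [e10] at e9
    have hk2 : k = i + 1 ∨ k = i + 2 := by omega
    rcases hk2 with rfl | rfl
    · constructor <;> omega
    · constructor <;> omega

end Pool.Agent.SLS.Half
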