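import Pool.Agent.SLS.BalKey

/-!
# SLS: the key estimate for the balancing, borderline form
-/

set_option autoImplicit false

namespace Pool.Agent.SLS.Half

theorem cross_key (l r : ℕ) (n g H v τ : ℕ → ℤ)
    (hn1 : ∀ k, k ≤ l → 1 ≤ n k)
    (hn : ∀ i j, i ≤ l → j ≤ l → i ≠ j → (r : ℤ) ≤ 2 * n i + n j)
    (hg : ∀ k, 1 ≤ k → k < l → 0 ≤ g k)
    (hgs : ∑ k ∈ Finset.Ico 1 l, g k ≤ r)
    (hτ : ∀ k, 1 ≤ k → k < l → τ k = τ (k - 1) + n k - g k)
    (H0 : H 0 = 0) (Hl : ∀ k, l ≤ k → H k = 0) (Hn : ∀ k, 0 ≤ H k)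
    (hv : ∀ i, v i = τ i + H i - H (i + 1))
    (hvs : ∀ i, i + 1 < l → v i ≤ v (i + 1))
    (hv1 : ∀ i j, i < j → j < l → (∀ k, i < k → k ≤ j → 0 < H k) → v j ≤ v i + 1) :
    (∀ k, 1 ≤ k → k < l → H k ≤ n (k - 1) ∧ H k ≤ n (k + 1)) ∧
    ((∀ k, 1 ≤ k → k < l → 2 * H k ≤ g k) ∨ ∃ a, 1 ≤ a ∧ a + 1 < l ∧ 1 ≤ H a ∧
      1 ≤ H (a + 1) ∧ 2 * H a ≤ g a + 1 ∧ 2 * H (a + 1) ≤ g (a + 1) + 1 ∧
      ∀ k, k ≠ a → k ≠ a + 1 → H k = 0) := by
  have hthree : ∀ a b c, a ≤ l → b ≤ l → c ≤ l → a ≠ b → b ≠ c → a ≠ c →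
      (r : ℤ) ≤ n a + n b + n c := by
    intro a b c ha hb hc hab hbc hac
    have h1 := hn a b ha hb hab
    have h2 := hn b c hb hc hbc
    have h3 := hn c a hc ha hac.symm
    omega
  -- the runs
  have hrun : ∀ k, 1 ≤ k → k < l → 0 < H k → ∃ i j, i < k ∧ k < j ∧ j ≤ l ∧ H i = 0 ∧ H j = 0 ∧
      (∀ q, i < q → q < j → 0 < H q) ∧ j ≤ i + 3 ∧
      ∑ q ∈ Finset.Ico (i + 1) j, n q + 1 ≤ ∑ q ∈ Finset.Ico (i + 1) j, g q := by
    intro k hk1 hkl hpos
    obtain ⟨i, hik, hi0, hi⟩ : ∃ i, i < k ∧ H i = 0 ∧ ∀ q, i < q → q < k → 0 < H q := by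
      refine ⟨Nat.findGreatest (fun q => H q = 0) (k - 1), ?_, ?_, ?_⟩
      · have := Nat.findGreatest_le (P := fun q => H q = 0) (k - 1)
        omega
      · exact Nat.findGreatest_spec (P := fun q => H q = 0) (Nat.zero_le (k - 1)) H0
      · intro q h1 h2
        have h3 := Nat.findGreatest_is_greatest h1 (by omega : q ≤ k - 1)
        exact lt_of_le_of_ne (Hn q) fun h => h3 h.symm
    obtain ⟨j, hkj, hj0, hjl, hj⟩ : ∃ j, k < j ∧ H j = 0 ∧ j ≤ l ∧
        ∀ q, k < q → q < j → 0 < H q := by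
      have hex : ∃ q, k < q ∧ H q = 0 := ⟨l, hkl, Hl l le_rfl⟩
      refine ⟨Nat.find hex, (Nat.find_spec hex).1, (Nat.find_spec hex).2,
        Nat.find_min' hex ⟨hkl, Hl l le_rfl⟩, ?_⟩
      intro q h1 h2
      have h3 := Nat.find_min hex h2
      exact lt_of_le_of_ne (Hn q) fun h => h3 ⟨h1, h.symm⟩
    have hrun : ∀ q, i < q → q < j → 0 < H q := by
      intro q h1 h2
      rcases lt_trichotomy q k with h | h | h
      · exact hi q h1 h
      · rw [h]
        exact hpos
      · exact hj q h h2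
    have htel := bal_tel l n g τ hτ i j (by omega) hjl
    have hsub : ∑ q ∈ Finset.Ico (i + 1) j, g q ≤ r := by
      refine le_trans ?_ hgs
      apply Finset.sum_le_sum_of_subset_of_nonneg
      · intro q hq
        rw [Finset.mem_Ico] at hq ⊢
        omega
      · intro q hq _
        rw [Finset.mem_Ico] at hq
        exact hg q hq.1 hq.2
    have hvj := hv1 i (j - 1) (by omega) (by omega) (fun q h1 h2 => hrun q h1 (by omega))
    have hvi := hv i
    have hvj2 := hv (j - 1)
    have hj1 : j - 1 + 1 = j := by omega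
    rw [hj1, hj0] at hvj2
    have hHi := hrun (i + 1) (by omega) (by omega)
    have hHj := hrun (j - 1) (by omega) (by omega)
    have hsum : ∑ q ∈ Finset.Ico (i + 1) j, n q + 1 ≤ ∑ q ∈ Finset.Ico (i + 1) j, g q := by
      omega
    refine ⟨i, j, hik, hkj, hjl, hi0, hj0, hrun, ?_, hsum⟩
    by_contra hcon
    have h1 : n (i + 1) + n (i + 2) + n (i + 3) ≤ ∑ q ∈ Finset.Ico (i + 1) j, n q := by
      have h2 : ∑ q ∈ Finset.Ico (i + 1) (i + 4), n q = n (i + 1) + n (i + 2) + n (i + 3) := by
        rw [Finset.sum_Ico_succ_top (by omega), Finset.sum_Ico_succ_top (by omega),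
          Finset.sum_Ico_succ_top (by omega)]
        simp
      rw [← h2]
      apply Finset.sum_le_sum_of_subset_of_nonneg
      · intro q hq
        rw [Finset.mem_Ico] at hq ⊢
        omega
      · intro q hq _
        rw [Finset.mem_Ico] at hq
        have := hn1 q (by omega)
        omega
    have h3 := hthree (i + 1) (i + 2) (i + 3) (by omega) (by omega) (by omega) (by omega)
      (by omega) (by omega)
    omega
  -- the estimates on one run
  have hest : ∀ k, 1 ≤ k → k < l → 0 < H k → (H k ≤ n (k - 1) ∧ H k ≤ n (k + 1)) ∧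
      (2 * H k ≤ g k ∨ ∃ i, i + 2 < l ∧ (k = i + 1 ∨ k = i + 2) ∧ H i = 0 ∧ H (i + 3) = 0 ∧
        1 ≤ H (i + 1) ∧ 1 ≤ H (i + 2) ∧ 2 * H (i + 1) ≤ g (i + 1) + 1 ∧
        2 * H (i + 2) ≤ g (i + 2) + 1 ∧
        n (i + 1) + n (i + 2) + 1 ≤ g (i + 1) + g (i + 2)) := by
    intro k hk1 hkl hpos
    obtain ⟨i, j, hik, hkj, hjl, hi0, hj0, hr, hlen, hsum⟩ := hrun k hk1 hkl hpos
    have hvi := hv i
    have hsub : ∑ q ∈ Finset.Ico (i + 1) j, g q ≤ r := by
      refine le_trans ?_ hgs
      apply Finset.sum_le_sum_of_subset_of_nonneg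
      · intro q hq
        rw [Finset.mem_Ico] at hq ⊢
        omega
      · intro q hq _
        rw [Finset.mem_Ico] at hq
        exact hg q hq.1 hq.2
    have hcase : j = i + 2 ∨ j = i + 3 := by omega
    rcases hcase with rfl | rfl
    · have hki : k = i + 1 := by omega
      subst hki
      have e1 := hτ (i + 1) (by omega) hkl
      have e2 := hn1 (i + 1) (by omega)
      have e3 : ∑ q ∈ Finset.Ico (i + 1) (i + 2), g q = g (i + 1) := by simp
      have e5 : i + 1 - 1 = i := rfl
      have e6 := hn i (i + 1) (by omega) (by omega) (by omega)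
      have e7 := hn (i + 2) (i + 1) (by omega) (by omega) (by omega)
      have e9 := hv (i + 1)
      have e8 : i + 1 + 1 = i + 2 := rfl
      have f1 := hv1 i (i + 1) (by omega) (by omega) (fun q h1 h2 => hr q h1 (by omega))
      rw [e3] at hsub
      rw [e5] at e1 ⊢
      rw [e8] at e9 ⊢
      exact ⟨⟨by omega, by omega⟩, Or.inl (by omega)⟩
    · have e1 := hτ (i + 1) (by omega) (by omega)
      have e2 := hn1 (i + 1) (by omega)
      have e1' := hτ (i + 2) (by omega) (by omega)
      have e2' := hn1 (i + 2) (by omega)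
      have e3 : ∑ q ∈ Finset.Ico (i + 1) (i + 3), g q = g (i + 1) + g (i + 2) := by
        rw [Finset.sum_Ico_succ_top (by omega), Finset.sum_Ico_succ_top (by omega)]
        simp
      have e3' : ∑ q ∈ Finset.Ico (i + 1) (i + 3), n q = n (i + 1) + n (i + 2) := by
        rw [Finset.sum_Ico_succ_top (by omega), Finset.sum_Ico_succ_top (by omega)]
        simp
      have e5 : i + 1 - 1 = i := rfl
      have e6 : i + 2 - 1 = i + 1 := rfl
      have e7 := hg (i + 1) (by omega) (by omega)
      have e8 := hg (i + 2) (by omega) (by omega)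
      have e9 := hv (i + 1)
      have e9' := hv (i + 2)
      have e10 : i + 1 + 1 = i + 2 := rfl
      have e11 : i + 2 + 1 = i + 3 := rfl
      have f1 := hv1 i (i + 1) (by omega) (by omega) (fun q h1 h2 => hr q h1 (by omega))
      have f2 := hv1 (i + 1) (i + 2) (by omega) (by omega)
        (fun q h1 h2 => hr q (by omega) (by omega))
      have f3 := hv1 i (i + 2) (by omega) (by omega) (fun q h1 h2 => hr q h1 (by omega))
      have s1 := hvs i (by omega)
      have s2 := hvs (i + 1) (by omega)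
      have p1 := hn (i + 1) (i + 2) (by omega) (by omega) (by omega)
      have p2 := hn (i + 2) (i + 1) (by omega) (by omega) (by omega)
      have p3 := hn i (i + 1) (by omega) (by omega) (by omega)
      have p4 := hn (i + 3) (i + 2) (by omega) (by omega) (by omega)
      have q1 := hthree i (i + 1) (i + 2) (by omega) (by omega) (by omega) (by omega) (by omega)
        (by omega)
      have q2 := hthree (i + 1) (i + 2) (i + 3) (by omega) (by omega) (by omega) (by omega)
        (by omega) (by omega)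
      have g1 := hr (i + 1) (by omega) (by omega)
      have g2 := hr (i + 2) (by omega) (by omega)
      rw [e3] at hsub
      rw [e3, e3'] at hsum
      rw [e5] at e1
      rw [e6] at e1'
      rw [e10] at e9 s2
      rw [e11] at e9'
      have hk2 : k = i + 1 ∨ k = i + 2 := by omega
      refine ⟨?_, Or.inr ⟨i, by omega, hk2, hi0, hj0, by omega, by omega, by omega, by omega,
        by omega⟩⟩
      rcases hk2 with rfl | rfl
      · rw [e5, e10]
        exact ⟨by omega, by omega⟩
      · rw [e6, e11]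
        exact ⟨by omega, by omega⟩
  refine ⟨fun k hk1 hkl => ?_, ?_⟩
  · rcases (Hn k).eq_or_lt with h0 | hpos
    · rw [← h0]
      have h1 := hn1 (k - 1) (by omega)
      have h2 := hn1 (k + 1) (by omega)
      exact ⟨by omega, by omega⟩
    · exact (hest k hk1 hkl hpos).1
  · by_cases hall : ∀ k, 1 ≤ k → k < l → 2 * H k ≤ g k
    · exact Or.inl hall
    right
    push Not at hall
    obtain ⟨k, hk1, hkl, hk⟩ := hall
    have hpos : 0 < H k := by
      rcases (Hn k).eq_or_lt with h0 | hpos
      · have := hg k hk1 hkl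
        omega
      · exact hpos
    rcases (hest k hk1 hkl hpos).2 with h | ⟨i, hil, hki, hi0, hi3, h1, h2, h3, h4, h5⟩
    · omega
    refine ⟨i + 1, by omega, by omega, h1, h2, h3, h4, fun q hq1 hq2 => ?_⟩
    by_contra hq
    have hqpos : 0 < H q := lt_of_le_of_ne (Hn q) (Ne.symm hq)
    have hql : q < l := by
      by_contra hcon
      exact hq (Hl q (by omega))
    have hq0 : 1 ≤ q := by
      rcases Nat.eq_zero_or_pos q with h | h
      · rw [h] at hq
        exact absurd H0 hq
      · exact h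
    obtain ⟨i', j', hiq, hqj, hjl, hi0', hj0', hr', hlen', hsum'⟩ := hrun q hq0 hql hqpos
    -- the other run is disjoint from `{i + 1, i + 2}`
    have hdis : j' ≤ i + 1 ∨ i + 3 ≤ i' + 1 := by
      by_contra hcon
      push Not at hcon
      rcases Nat.lt_or_ge i' i with h | h
      · have := hr' i h (by omega)
        omega
      rcases Nat.lt_or_ge (i + 3) j' with h' | h'
      · have := hr' (i + 3) (by omega) h'
        omega
      have hqq : q = i + 1 ∨ q = i + 2 := by omega
      omega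
    have hdisj : Disjoint (Finset.Ico (i + 1) (i + 3)) (Finset.Ico (i' + 1) j') := by
      rw [Finset.disjoint_left]
      intro x hx hx'
      rw [Finset.mem_Ico] at hx hx'
      omega
    have hsumg : ∑ x ∈ Finset.Ico (i + 1) (i + 3) ∪ Finset.Ico (i' + 1) j', g x ≤ r := by
      refine le_trans ?_ hgs
      apply Finset.sum_le_sum_of_subset_of_nonneg
      · intro x hx
        rw [Finset.mem_union, Finset.mem_Ico, Finset.mem_Ico] at hx
        rw [Finset.mem_Ico]
        omega
      · intro x hx _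
        rw [Finset.mem_Ico] at hx
        exact hg x hx.1 hx.2
    rw [Finset.sum_union hdisj] at hsumg
    have e3 : ∑ q ∈ Finset.Ico (i + 1) (i + 3), g q = g (i + 1) + g (i + 2) := by
      rw [Finset.sum_Ico_succ_top (by omega), Finset.sum_Ico_succ_top (by omega)]
      simp
    have hnq : n q ≤ ∑ x ∈ Finset.Ico (i' + 1) j', n x := by
      have h6 := Finset.single_le_sum (f := n) (s := Finset.Ico (i' + 1) j') (fun x hx => by
        rw [Finset.mem_Ico] at hx
        have := hn1 x (by omega)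
        omega) (Finset.mem_Ico.2 ⟨by omega, hqj⟩ : q ∈ Finset.Ico (i' + 1) j')
      exact h6
    have h7 := hthree (i + 1) (i + 2) q (by omega) (by omega) (by omega) (by omega) (by omega)
      (by omega)
    omega

end Pool.Agent.SLS.Half
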