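import Pool.Agent.SLS.ThirdA
import Pool.Agent.SLS.CrossKey

/-!
# Skew diagrams up to repairable defects, the borderline case
-/

set_option autoImplicit false
namespace Pool.Agent.SLS.Half
open Finset

section
variable (l : ℕ) (p : ℕ → ℕ) (t r : ℕ) (C : ℕ → ℤ)

/-- the flows of the balancing of an allowed vector are small -/
theorem dm_cross (n : ℕ → ℤ) (hn1 : ∀ k, k ≤ l → 1 ≤ n k)
    (hn : ∀ i j, i ≤ l → j ≤ l → i ≠ j → (r : ℤ) ≤ 2 * n i + n j)
    (hC1 : ∀ k, 1 ≤ k → k < l → C (k - 1) - C k = n k) (τ : ℕ → ℤ) (h : τ ∈ Dm l r C)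
    (v H : ℕ → ℤ) (hI : Inv l τ v H) (hvs : ∀ i, i + 1 < l → v i ≤ v (i + 1)) (hl : 1 ≤ l) :
    (∀ k, 1 ≤ k → k < l → H k ≤ n (k - 1) ∧ H k ≤ n (k + 1)) ∧
    ((∀ k, 1 ≤ k → k < l → 2 * H k ≤ τ (k - 1) + C (k - 1) - (τ k + C k)) ∨
      ∃ a, 1 ≤ a ∧ a + 1 < l ∧ 1 ≤ H a ∧ 1 ≤ H (a + 1) ∧
        2 * H a ≤ τ (a - 1) + C (a - 1) - (τ a + C a) + 1 ∧
        2 * H (a + 1) ≤ τ (a + 1 - 1) + C (a + 1 - 1) - (τ (a + 1) + C (a + 1)) + 1 ∧
        ∀ k, k ≠ a → k ≠ a + 1 → H k = 0) := by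
  have hs : ∀ j, 1 ≤ j → j ≤ l → ∑ k ∈ Ico 1 j, (τ (k - 1) + C (k - 1) - (τ k + C k)) =
      τ 0 + C 0 - (τ (j - 1) + C (j - 1)) := by
    intro j hj
    induction j, hj using Nat.le_induction with
    | base => intro _; simp
    | succ j hj ih =>
      intro hjl
      rw [Finset.sum_Ico_succ_top hj, ih (by omega), Nat.add_sub_cancel]
      ring
  refine cross_key l r n (fun k => τ (k - 1) + C (k - 1) - (τ k + C k)) H v τ hn1 hn
    (fun k h1 h2 => ?_) ?_ (fun k h1 h2 => ?_) hI.h0 hI.hl hI.hn hI.hv hvs hI.h1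
  · have := (h.2 (k - 1) k (by omega) h2).1
    show 0 ≤ τ (k - 1) + C (k - 1) - (τ k + C k)
    linarith
  · rw [hs l (by omega) le_rfl]
    have := (h.2 0 (l - 1) (by omega) (by omega)).2
    linarith
  · show τ k = τ (k - 1) + n k - (τ (k - 1) + C (k - 1) - (τ k + C k))
    rw [← hC1 k h1 h2]
    ring

theorem exists_good_cross (hl : 1 ≤ l) (n : ℕ → ℤ) (hn1 : ∀ k, k ≤ l → 1 ≤ n k)
    (hn : ∀ i j, i ≤ l → j ≤ l → i ≠ j → (r : ℤ) ≤ 2 * n i + n j)
    (hC1 : ∀ k, 1 ≤ k → k < l → C (k - 1) - C k = n k) (hCl : C (l - 1) = n l)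
    (hCa : ∀ i j, i ≤ j → j < l → C j ≤ C i) :
    ∃ Ψ, Good l r C Ψ ∧ ∀ τ ∈ Dm l r C, ∃ H, Inv l τ (Ψ τ) H := by
  have hC0 : 0 ≤ C 0 := by
    have := hCa 0 (l - 1) (by omega) (by omega)
    have := hn1 l le_rfl
    linarith
  obtain ⟨Ψ, h1, h2⟩ := exists_bal l hl (r + (C 0).toNat)
  have hB : ((r + (C 0).toNat : ℕ) : ℤ) = r + C 0 := by
    push_cast
    rw [Int.toNat_of_nonneg hC0]
  have hsp : ∀ τ ∈ Dm l r C, ∀ i j, i < l → j < l → τ i ≤ τ j + ((r + (C 0).toNat : ℕ) : ℤ) := by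
    intro τ h i j hi hj
    rw [hB]
    have c1 := hCa 0 j (by omega) hj
    have c2 := hCa i (l - 1) (by omega) (by omega)
    have c3 := hn1 l le_rfl
    have c4 : (0 : ℤ) ≤ r := by positivity
    rcases le_total i j with hij | hij
    · have := (h.2 i j hij hj).2
      linarith
    · have := (h.2 j i hij hi).1
      linarith
  refine ⟨Ψ, ⟨h1, fun τ h => (h2 τ (hsp τ h)).2, ?_, ?_⟩, fun τ h => (h2 τ (hsp τ h)).1⟩
  · intro τ h
    obtain ⟨H, hI⟩ := (h2 τ (hsp τ h)).1
    have e1 : ∀ j, ∑ i ∈ range j, Ψ τ i = ∑ i ∈ range j, τ i - H j := by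
      intro j
      induction j with
      | zero =>
        rw [hI.h0]
        simp
      | succ j ih =>
        rw [sum_range_succ, sum_range_succ, ih, hI.hv j]
        ring
    rw [e1, hI.hl l le_rfl, sub_zero]
  · intro τ h i hi
    obtain ⟨H, hI⟩ := (h2 τ (hsp τ h)).1
    have e1 := hI.hv (l - 1)
    have e2 : H (l - 1 + 1) = 0 := hI.hl _ (by omega)
    have e3 := (h.2 i (l - 1) (by omega) (by omega)).1
    rw [e2] at e1
    have hν := hn1 l le_rfl
    rcases (show l = 1 ∨ 2 ≤ l by omega) with h0 | h0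
    · subst h0
      have e4 := hI.h0
      have e5 : H (1 - 1) = H 0 := rfl
      rw [e5, e4] at e1
      constructor
      · linarith
      · intro _
        linarith
    · have e40 := dm_cross l r C n hn1 hn hC1 τ h _ H hI (h2 τ (hsp τ h)).2 hl
      have e4a := (e40.1 (l - 1) (by omega) (by omega)).2
      rw [show l - 1 + 1 = l by omega] at e4a
      have e5 := hI.hn (l - 1)
      have e4b : 2 * H (l - 1) ≤ τ (l - 1 - 1) + C (l - 1 - 1) - (τ (l - 1) + C (l - 1)) + 1 := by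
        rcases e40.2 with e41 | ⟨a, a1, a2, a3, a4, a5, a6, a7⟩
        · have := e41 (l - 1) (by omega) (by omega)
          linarith
        · by_cases c1 : l - 1 = a
          · rw [c1]
            exact a5
          · by_cases c2 : l - 1 = a + 1
            · rw [c2]
              exact a6
            · rw [a7 (l - 1) c1 c2]
              have := (h.2 (l - 1 - 1) (l - 1) (by omega) (by omega)).1
              linarith
      refine ⟨by linarith, fun hi0 => ?_⟩
      subst hi0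
      have e6 := (h.2 0 (l - 1 - 1) (by omega) (by omega)).1
      rcases (show H (l - 1) = 0 ∨ 0 < H (l - 1) by omega) with e7 | e7
      · linarith
      · have e8 : 1 ≤ H (l - 1) := e7
        linarith

end

/-- **rows, columns with `2 * n i + n j ≥ r`**: the number of columns of height `q` is
`n q + 2 * H q - H (q - 1) - H (q + 1)`; behind the starts of all rows the columns of height `k`
are the columns `u` with `b k ≤ u < b (k - 1)` -/
theorem crossA (l r t : ℕ) (hl : 1 ≤ l) (p : ℕ → ℕ)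
    (hr : ∀ i < t, p i ≤ r) (n : ℕ → ℕ) (hn1 : ∀ q, q ≤ l → 1 ≤ n q)
    (hn : ∀ i j, i ≤ l → j ≤ l → i ≠ j → r ≤ 2 * n i + n j)
    (hsum : ∑ i ∈ range t, p i = ∑ q ∈ Icc 1 l, q * n q) :
    ∃ (x : ℕ → ℕ) (c : ℕ) (H b : ℕ → ℕ), (∀ i j, i ≤ j → j < t → x i ≤ x j) ∧
      (∀ i < t, x i + p i ≤ c) ∧ H 0 = 0 ∧ (∀ k, l ≤ k → H k = 0) ∧ H 1 ≤ n 0 ∧
      (c = ∑ q ∈ Icc 1 l, n q + H 1) ∧
      (∀ q ∈ Icc 1 l, ((range c).filter fun u =>
        ((range t).filter fun s => x s ≤ u ∧ u < x s + p s).card = q).card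
        + H (q - 1) + H (q + 1) = n q + 2 * H q) ∧
      (∀ k, 1 ≤ k → k < l → ∀ u, b k ≤ u → u < b (k - 1) → u < c ∧
        ((range t).filter fun s => x s ≤ u ∧ u < x s + p s).card = k) ∧
      (∀ k < l, ∀ i < t, x i ≤ b k) ∧
      (∀ u < c, ((range t).filter fun s => x s ≤ u ∧ u < x s + p s).card ≤ l) ∧
      ((∀ k, 1 ≤ k → k < l → b k + 2 * H k ≤ b (k - 1)) ∨
        ∃ a, 1 ≤ a ∧ a + 1 < l ∧ 1 ≤ H a ∧ 1 ≤ H (a + 1) ∧ b a + 2 * H a ≤ b (a - 1) + 1 ∧
          b (a + 1) + 2 * H (a + 1) ≤ b a + 1 ∧ ∀ k, k ≠ a → k ≠ a + 1 → H k = 0) := by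
  set Cn : ℕ → ℕ := fun i => ∑ q ∈ Icc (i + 1) l, n q with hCn
  have Cn_succ : ∀ i, i < l → Cn i = n (i + 1) + Cn (i + 1) := by
    intro i hi
    simp only [hCn]
    rw [← Finset.add_sum_Ioc_eq_sum_Icc (show i + 1 ≤ l by omega)]
    congr 1
    apply sum_congr _ fun _ _ => rfl
    ext q
    simp only [mem_Ioc, mem_Icc]
    omega
  have Cn_l : Cn l = 0 := by simp [hCn]
  have Cn_last : Cn (l - 1) = n l := by
    have := Cn_succ (l - 1) (by omega)
    rw [show l - 1 + 1 = l by omega, Cn_l] at this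
    omega
  have Cn_anti : ∀ i j, i ≤ j → j < l → Cn j ≤ Cn i := by
    intro i j hij
    induction j, hij using Nat.le_induction with
    | base => intro _; exact le_rfl
    | succ k hk ih =>
      intro hkl
      have h1 := Cn_succ k (by omega)
      have h2 := ih (by omega)
      omega
  -- areas
  have harea : ∀ k, k ≤ l → ∑ i ∈ range k, Cn i = ∑ q ∈ Icc 1 k, q * n q + k * Cn k := by
    intro k
    induction k with
    | zero => intro _; simp
    | succ k ih =>
      intro hk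
      rw [sum_range_succ, ih (by omega), Finset.sum_Icc_succ_top (by omega), Cn_succ k (by omega)]
      ring
  have harea' : ∑ i ∈ range t, p i = ∑ i ∈ range l, Cn i := by
    rw [harea l le_rfl, hsum, Cn_l]
    ring
  have hn1' : ∀ k, k ≤ l → 1 ≤ (n k : ℤ) := fun k hk => by exact_mod_cast hn1 k hk
  have hn' : ∀ i j, i ≤ l → j ≤ l → i ≠ j → (r : ℤ) ≤ 2 * (n i : ℤ) + (n j : ℤ) :=
    fun i j hi hj hij => by exact_mod_cast hn i j hi hj hij
  have hC1 : ∀ k, 1 ≤ k → k < l → (Cn (k - 1) : ℤ) - (Cn k : ℤ) = n k := by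
    intro k h1 h2
    have h3 := Cn_succ (k - 1) (by omega)
    rw [show k - 1 + 1 = k by omega] at h3
    omega
  have hCa : ∀ i j, i ≤ j → j < l → (Cn j : ℤ) ≤ (Cn i : ℤ) := fun i j hij hj => by
    exact_mod_cast Cn_anti i j hij hj
  obtain ⟨Ψ, hG, hH⟩ := exists_good_cross l r (fun i => (Cn i : ℤ)) hl (fun k => (n k : ℤ))
    hn1' hn' hC1 (by rw [Cn_last]) hCa
  obtain ⟨τ, hτ, hfix⟩ := exists_fixedB l p t r (fun i => (Cn i : ℤ)) Ψ hl hr hG hCa
    (Int.natCast_nonneg _) (by exact_mod_cast harea')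
  obtain ⟨H, hI⟩ := hH τ hτ
  have hτ2 : ∀ i j, i ≤ j → j < l → τ j + (Cn j : ℤ) ≤ τ i + (Cn i : ℤ) ∧
      τ i + (Cn i : ℤ) ≤ τ j + (Cn j : ℤ) + r := hτ.2
  obtain ⟨hkey, hkey2⟩ := dm_cross l r (fun i => (Cn i : ℤ)) (fun k => (n k : ℤ)) hn1' hn' hC1 τ
    hτ _ H hI (hG.sorted τ hτ) hl
  obtain ⟨v, hv⟩ : ∃ v, v = Ψ τ := ⟨_, rfl⟩
  have hso := hG.sorted τ hτ
  rw [← hv] at hI hso hfix
  obtain ⟨G, hGH⟩ : ∃ G : ℕ → ℕ, ∀ k, (G k : ℤ) = H k :=
    ⟨fun k => (H k).toNat, fun k => Int.toNat_of_nonneg (hI.hn k)⟩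
  have g0 : G 0 = 0 := by
    have h1 := hGH 0
    rw [hI.h0] at h1
    omega
  have gl : ∀ k, l ≤ k → G k = 0 := by
    intro k hk
    have h1 := hGH k
    rw [hI.hl k hk] at h1
    omega
  have g1 : G 1 ≤ n 0 := by
    rcases (show l = 1 ∨ 1 < l by omega) with h1 | h1
    · rw [gl 1 (by omega)]
      omega
    · have h2 : H 1 ≤ n 0 := (hkey 1 le_rfl h1).1
      have h3 := hGH 1
      omega
  have gC : ∀ k < l, G k ≤ Cn k := by
    intro k hk
    rcases (show k = 0 ∨ 1 ≤ k by omega) with h1 | h1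
    · rw [h1, g0]
      omega
    · have h2 : H k ≤ n (k + 1) := (hkey k h1 hk).2
      have h3 := hGH k
      have h4 := Cn_succ k hk
      omega
  obtain ⟨C', hC'⟩ : ∃ C' : ℕ → ℕ, ∀ j, C' j = Cn j + G (j + 1) - G j := ⟨_, fun _ => rfl⟩
  have hC'2 : ∀ j < l, C' j + G j = Cn j + G (j + 1) := by
    intro j hj
    have h2 := gC j hj
    rw [hC']
    omega
  have hbeta : ∀ j < l, v j + C' j = τ j + Cn j := by
    intro j hj
    have h1 := hI.hv j
    have h2 := hC'2 j hj
    have h3 := hGH j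
    have h4 := hGH (j + 1)
    omega
  have hfix' : ∀ j < l, run l p v t (l - 1 - j) = v j + C' j := by
    intro j hj
    rw [hbeta j hj]
    exact hfix j hj
  obtain ⟨x, a, hak, hx1, hx2, hx3, hcov⟩ := assemble l t hl p v C' hso hfix'
  have ha : ∀ j, j + 1 < l → a j ≤ a (j + 1) := by
    intro j hj
    have h1 := hak j (by omega)
    have h2 := hak (j + 1) hj
    have h3 := hso j hj
    omega
  have hb : ∀ j k, j ≤ k → k < l → a k + C' k ≤ a j + C' j := by
    intro j k hjk hk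
    have h1 := hak j (by omega)
    have h2 := hak k hk
    have h3 := hbeta j (by omega)
    have h4 := hbeta k hk
    have h7 := (hτ2 j k hjk hk).1
    omega
  have hgap : ∀ k, 1 ≤ k → k < l → ((a (k - 1) + C' (k - 1) : ℕ) : ℤ) - ((a k + C' k : ℕ) : ℤ) =
      τ (k - 1) + (Cn (k - 1) : ℤ) - (τ k + (Cn k : ℤ)) := by
    intro k h0 hk
    have h1 := hak (k - 1) (by omega)
    have h2 := hak k hk
    have h3 := hbeta (k - 1) (by omega)
    have h4 := hbeta k hk
    push_cast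
    omega
  have ha0 : a 0 = 0 := by
    have := hak 0 (by omega)
    omega
  have ham : ∀ j k, j ≤ k → k < l → a j ≤ a k := by
    intro j k hjk hk
    induction k, hjk using Nat.le_induction with
    | base => exact le_rfl
    | succ k hk' ih => exact (ih (by omega)).trans (ha k hk)
  have hC0 : (∑ q ∈ Icc 1 l, n q) = Cn 0 := rfl
  refine ⟨x, C' 0, G, fun k => a k + C' k, hx1, hx2, g0, gl, g1, ?_, ?_, ?_, ?_, ?_, ?_⟩
  · have h1 : C' 0 + G 0 = Cn 0 + G 1 := hC'2 0 (by omega)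
    rw [hC0]
    omega
  · intro q hq
    rw [mem_Icc] at hq
    simp only [hcov]
    rw [nested_count l a C' ha (fun j hj => hb j (j + 1) (by omega) hj) ha0 q hq.1 hq.2]
    have e1 := Cn_succ (q - 1) (by omega)
    rw [show q - 1 + 1 = q by omega] at e1
    have e2 := hC'2 (q - 1) (by omega)
    rw [show q - 1 + 1 = q by omega] at e2
    by_cases hql : q < l
    · rw [if_pos hql]
      have e3 := hC'2 q hql
      have e4 := hb (q - 1) q (by omega) hql
      have e5 := ham (q - 1) q (by omega) hql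
      omega
    · have e3 : q = l := by omega
      rw [if_neg hql]
      have e4 := gl q (by omega)
      have e5 := gl (q + 1) (by omega)
      rw [e3] at e1 e2 e4 e5 ⊢
      omega
  · intro k hk0 hkl u hu1 hu2
    have k1 := hb 0 (k - 1) (by omega) (by omega)
    have k2 := hb k (l - 1) (by omega) (by omega)
    have hu1' : a k + C' k ≤ u := hu1
    have hu2' : u < a (k - 1) + C' (k - 1) := hu2
    refine ⟨by omega, ?_⟩
    rw [hcov u, show ((range l).filter fun j => a j ≤ u ∧ u < a j + C' j) = range k from ?_,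
      card_range]
    ext j
    rw [mem_filter, mem_range, mem_range]
    constructor
    · rintro ⟨h1, h2, h3⟩
      by_contra h4
      have h5 := hb k j (by omega) h1
      omega
    · intro h1
      have h2 := ham j (l - 1) (by omega) (by omega)
      have h3 := hb j (k - 1) (by omega) (by omega)
      exact ⟨by omega, by omega, by omega⟩
  · intro k hk s hs
    exact (hx3 s hs).trans (hb k (l - 1) (by omega) (by omega))
  · intro u _
    rw [hcov u]
    exact (card_filter_le _ _).trans (card_range l).le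
  · rcases hkey2 with h1 | ⟨e, e1, e2, e3, e4, e5, e6, e7⟩
    · left
      intro k k1 k2
      have h2 := h1 k k1 k2
      have h3 := hgap k k1 k2
      have h4 := hGH k
      show a k + C' k + 2 * G k ≤ a (k - 1) + C' (k - 1)
      push_cast at h3
      omega
    · right
      have h3 := hgap e e1 (by omega)
      have h4 := hGH e
      have h5 := hgap (e + 1) (by omega) e2
      have h6 := hGH (e + 1)
      push_cast at h3 h5
      refine ⟨e, e1, e2, by omega, by omega, ?_, ?_, fun k k1 k2 => ?_⟩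
      · show a e + C' e + 2 * G e ≤ a (e - 1) + C' (e - 1) + 1
        omega
      · show a (e + 1) + C' (e + 1) + 2 * G (e + 1) ≤ a e + C' e + 1
        rw [show e + 1 - 1 = e by omega] at e6
        omega
      · have h7 := e7 k k1 k2
        have h8 := hGH k
        omega

end Pool.Agent.SLS.Half
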