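import Pool.Agent.SLS.HalfB

/-!
# Exchanges of columns behind all the starts: general form
-/

set_option autoImplicit false
namespace Pool.Agent.SLS.Half
open Finset

/-- the rows started before the end of `w`: those which cover `w` and those which ended -/
theorem cov_split (T : ℕ) (x p : ℕ → ℕ) (w : ℕ) :
    ((range T).filter fun s => x s ≤ w).card =
      ((range T).filter fun s => x s ≤ w ∧ w < x s + p s).card +
      ((range T).filter fun s => x s + p s ≤ w).card := by
  rw [← card_union_of_disjoint]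
  · congr 1
    ext s
    simp only [mem_union, mem_filter, mem_range]
    constructor
    · rintro ⟨a, b⟩
      by_cases h : w < x s + p s
      · exact Or.inl ⟨a, b, h⟩
      · exact Or.inr ⟨a, by omega⟩
    · rintro (⟨a, b, -⟩ | ⟨a, b⟩)
      · exact ⟨a, b⟩
      · exact ⟨a, by omega⟩
  · rw [disjoint_left]
    intro s hs hs'
    rw [mem_filter] at hs hs'
    omega

/-- rows and columns after an involution of the columns behind all the starts -/
theorem rz_items_perm (T c : ℕ) (x p : ℕ → ℕ) (hx : ∀ i j, i ≤ j → j < T → x i ≤ x j)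
    (hp : ∀ i j, i ≤ j → j < T → x i + p i ≤ x j + p j) (he : ∀ i < T, x i + p i ≤ c)
    (u0 : ℕ) (hxu : ∀ i < T, x i ≤ u0) (sw L : ℕ → ℕ) (hsw : ∀ u < c, sw u < c)
    (hsw2 : ∀ u < c, sw (sw u) = u) (hfix : ∀ u < u0, sw u = u)
    (hL : ∀ u < c, (L u : ℤ) = (((range T).filter fun s => x s ≤ sw u ∧
      sw u < x s + p s).card : ℤ) + u - sw u) :
    Rz (fun a : Fin T ⊕ Fin c => Sum.elim (fun s : Fin T => ((p s : ℕ) : ℤ))
      (fun u : Fin c => -((L (u : ℕ) : ℕ) : ℤ)) a) (T + c) := by
  have h1 := merge_bij T c x hx fun i hi => (Nat.le_add_right _ _).trans (he i hi)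
  have h2 := merge_bij T c (fun s => x s + p s) hp he
  refine ⟨mg T c x, h1, ?_⟩
  let sg : Fin T ⊕ Fin c → Fin T ⊕ Fin c :=
    Sum.map id fun u => ⟨sw u, hsw u u.2⟩
  have hsg : Function.Involutive sg := by
    rintro (s | u)
    · rfl
    · exact congrArg Sum.inr (Fin.ext (hsw2 u u.2))
  have h3 : Set.BijOn (fun a => ((mg T c (fun s => x s + p s) (sg a) : ℕ) : ℤ)) Set.univ
      (Set.Ico 0 (((T + c : ℕ)) : ℤ)) :=
    (bijOn_cast h2).comp (Set.bijOn_univ.2 hsg.bijective)
  refine (Set.EqOn.bijOn_iff ?_).1 h3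
  rintro (s | u) -
  · show (((x s + p s + s : ℕ)) : ℤ) = ((x s + s : ℕ) : ℤ) + (p s : ℤ)
    push_cast
    ring
  · show ((sw u + ((range T).filter fun s => x s + p s ≤ sw u).card : ℕ) : ℤ) =
      (((u : ℕ) + ((range T).filter fun s => x s ≤ (u : ℕ)).card : ℕ) : ℤ) +
        -((L (u : ℕ) : ℕ) : ℤ)
    have hA : ((range T).filter fun s => x s ≤ sw u).card =
        ((range T).filter fun s => x s ≤ (u : ℕ)).card := by
      by_cases hu : (u : ℕ) < u0
      · rw [hfix u hu]
      · have hs : ¬ sw u < u0 := by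
          intro h4
          have h5 := hfix (sw u) h4
          rw [hsw2 u u.2] at h5
          omega
        have e1 : ((range T).filter fun s => x s ≤ sw u) = range T :=
          filter_true_of_mem fun s hs' => (hxu s (mem_range.1 hs')).trans (not_lt.1 hs)
        have e2 : ((range T).filter fun s => x s ≤ (u : ℕ)) = range T :=
          filter_true_of_mem fun s hs' => (hxu s (mem_range.1 hs')).trans (not_lt.1 hu)
        rw [e1, e2]
    have h4 := cov_split T x p (sw u)
    have h5 := hL u u.2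
    rw [hA] at h4
    rw [h5]
    have h6 : (((range T).filter fun s => x s ≤ (u : ℕ)).card : ℤ) =
        (((range T).filter fun s => x s ≤ sw u ∧ sw u < x s + p s).card : ℤ) +
        (((range T).filter fun s => x s + p s ≤ sw u).card : ℤ) := by
      exact_mod_cast h4
    push_cast
    linarith

/-- **from rows to the permutation, with an involution of the columns behind all the starts** -/
theorem rz_of_rows_perm {t : ℕ} (m : Fin t → ℕ) (d : Fin t → ℤ) (l r : ℕ)
    (hinj : Function.Injective d)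
    (hran : ∀ z : ℤ, (-(l : ℤ) ≤ z ∧ z ≤ r) ↔ ∃ i, d i = z)
    (T c : ℕ) (x p : ℕ → ℕ)
    (hp2 : ∀ s < T, 1 ≤ p s ∧ p s ≤ r)
    (hp3 : ∀ δ ∈ Icc 1 r, ((range T).filter fun s => p s = δ).card = Mz m d δ)
    (hx1 : ∀ i j, i ≤ j → j < T → x i ≤ x j)
    (hx1' : ∀ i j, i ≤ j → j < T → x i + p i ≤ x j + p j)
    (hx2 : ∀ i < T, x i + p i ≤ c)
    (u0 : ℕ) (hxu : ∀ i < T, x i ≤ u0) (sw L : ℕ → ℕ) (hsw : ∀ u < c, sw u < c)
    (hsw2 : ∀ u < c, sw (sw u) = u) (hfix : ∀ u < u0, sw u = u)
    (hL : ∀ u < c, (L u : ℤ) = (((range T).filter fun s => x s ≤ sw u ∧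
      sw u < x s + p s).card : ℤ) + u - sw u)
    (hLl : ∀ u < c, L u ≤ l)
    (hLc : ∀ q ∈ Icc 1 l, ((range c).filter fun u => L u = q).card = Mz m d (-(q : ℤ)))
    (hL0 : ((range c).filter fun u => L u = 0).card ≤ Mz m d 0) :
    Rz (fun x : (Σ i, Fin (m i)) => d x.1) (∑ i, m i) := by
  classical
  obtain ⟨M, hM⟩ : ∃ M : ℤ → ℕ, M = Mz m d := ⟨_, rfl⟩
  have hMd : ∀ i, M (d i) = m i := fun i => by rw [hM, Mz_apply m d hinj]
  rw [← hM] at hp3 hLc hL0
  obtain ⟨z0, hz0⟩ : ∃ z0 : ℕ, z0 = ((range c).filter fun u => L u = 0).card := ⟨_, rfl⟩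
  rw [← hz0] at hL0
  have hR := rz_zero (rz_items_perm T c x p hx1 hx1' hx2 u0 hxu sw L hsw hsw2 hfix hL) (M 0 - z0)
  obtain ⟨D, hDef⟩ : ∃ D : (Fin T ⊕ Fin c) ⊕ Fin (M 0 - z0) → ℤ, D = fun a => Sum.elim
    (fun a : Fin T ⊕ Fin c => Sum.elim (fun s : Fin T => ((p s : ℕ) : ℤ))
      (fun u : Fin c => -((L u : ℕ) : ℤ)) a) (fun _ => (0 : ℤ)) a := ⟨_, rfl⟩
  rw [← hDef] at hR
  have hcount : ∀ v : ℤ, (univ.filter fun a => D a = v).card =
      ((range T).filter fun s => (p s : ℤ) = v).card +
      ((range c).filter fun u => -(L u : ℤ) = v).card + if (0 : ℤ) = v then M 0 - z0 else 0 := by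
    intro v
    rw [card_filter, Fintype.sum_sum_type, Fintype.sum_sum_type, card_filter, card_filter,
      ← Fin.sum_univ_eq_sum_range (fun s => if (p s : ℤ) = v then 1 else 0),
      ← Fin.sum_univ_eq_sum_range (fun u => if -(L u : ℤ) = v then 1 else 0), hDef]
    congr 1
    show ∑ _k : Fin (M 0 - z0), (if (0 : ℤ) = v then 1 else 0) = _
    rw [sum_const, card_univ, Fintype.card_fin, smul_eq_mul]
    split_ifs <;> simp
  have hDr : ∀ a, ∃ i, d i = D a := by
    intro a
    refine (hran (D a)).1 ?_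
    rw [hDef]
    rcases a with (s | u) | k
    · have := hp2 s s.2
      show -(l : ℤ) ≤ ((p s : ℕ) : ℤ) ∧ ((p s : ℕ) : ℤ) ≤ r
      omega
    · have := hLl u u.2
      show -(l : ℤ) ≤ -((L u : ℕ) : ℤ) ∧ -((L u : ℕ) : ℤ) ≤ r
      omega
    · show -(l : ℤ) ≤ 0 ∧ (0 : ℤ) ≤ r
      omega
  have hDc : ∀ i, (univ.filter fun a => D a = d i).card = m i := by
    intro i
    rw [hcount, ← hMd]
    obtain ⟨hv1, hv2⟩ := (hran (d i)).2 ⟨i, rfl⟩
    generalize d i = v at hv1 hv2
    rcases lt_trichotomy v 0 with hv | hv | hv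
    · have h1 : ((range T).filter fun s => (p s : ℤ) = v) = ∅ := by
        refine filter_eq_empty_iff.2 fun s _ => ?_
        omega
      have h2 := hLc v.natAbs (mem_Icc.2 ⟨by omega, by omega⟩)
      have h3 : -((v.natAbs : ℕ) : ℤ) = v := by omega
      rw [h3] at h2
      have h4 : ((range c).filter fun u => -(L u : ℤ) = v) =
          (range c).filter fun u => L u = v.natAbs := by
        refine filter_congr fun u _ => ?_
        omega
      rw [h1, h4, h2, if_neg (by omega), card_empty]
      omega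
    · have h1 : ((range T).filter fun s => (p s : ℤ) = v) = ∅ := by
        refine filter_eq_empty_iff.2 fun s hs => ?_
        have := hp2 s (mem_range.1 hs)
        omega
      have h2 : ((range c).filter fun u => -(L u : ℤ) = v) =
          (range c).filter fun u => L u = 0 := by
        refine filter_congr fun u _ => ?_
        omega
      rw [h1, h2, ← hz0, if_pos hv.symm, hv, card_empty]
      omega
    · have h1 := hp3 v.natAbs (mem_Icc.2 ⟨by omega, by omega⟩)
      have h3 : ((v.natAbs : ℕ) : ℤ) = v := by omega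
      rw [h3] at h1
      have h4 : ((range T).filter fun s => (p s : ℤ) = v) =
          (range T).filter fun s => p s = v.natAbs := by
        refine filter_congr fun s _ => ?_
        omega
      have h2 : ((range c).filter fun u => -(L u : ℤ) = v) = ∅ := by
        refine filter_eq_empty_iff.2 fun u hu => ?_
        omega
      rw [h4, h1, h2, if_neg (by omega), card_empty]
      omega
  obtain ⟨φ, hφ⟩ := exists_equiv m d hinj D hDr hDc
  have hN : T + c + (M 0 - z0) = ∑ i, m i := by
    have h1 := Fintype.card_congr φ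
    rw [Fintype.card_sigma, Fintype.card_sum, Fintype.card_sum] at h1
    simp only [Fintype.card_fin] at h1
    exact h1.symm
  have h2 := rz_equiv hR φ
  rw [hN] at h2
  simpa only [hφ] using h2

end Pool.Agent.SLS.Half
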