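import Pool.Agent.SLS.HalfB

/-!
# Exchanges of neighbouring columns in several strips
-/

set_option autoImplicit false
namespace Pool.Agent.SLS.Half
open Finset

/-- the column `u` lies in the strip of its coverage -/
def Ins (cov H b : ℕ → ℕ) (u : ℕ) : Prop := b (cov u) ≤ u ∧ u < b (cov u) + 2 * H (cov u)

instance (cov H b : ℕ → ℕ) (u : ℕ) : Decidable (Ins cov H b u) := by
  unfold Ins
  infer_instance

/-- the exchange of neighbours in all the strips -/
def swm (cov H b : ℕ → ℕ) (u : ℕ) : ℕ :=
  if Ins cov H b u then (if (u - b (cov u)) % 2 = 0 then u + 1 else u - 1) else u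

/-- the new labels of the columns -/
def labm (cov H b : ℕ → ℕ) (u : ℕ) : ℕ :=
  if Ins cov H b u then (if (u - b (cov u)) % 2 = 0 then cov u - 1 else cov u + 1) else cov u

section
variable {cov H b : ℕ → ℕ} {c : ℕ}

theorem swm_sw (hb : ∀ k, ∀ u, b k ≤ u → u < b k + 2 * H k → u < c ∧ cov u = k) (u : ℕ) :
    swm cov H b (swm cov H b u) = u := by
  by_cases hu : Ins cov H b u
  · obtain ⟨h1, h2⟩ := hu
    obtain ⟨k, hk⟩ : ∃ k, k = cov u := ⟨_, rfl⟩
    rw [← hk] at h1 h2
    have hin : ∀ w, b k ≤ w → w < b k + 2 * H k → Ins cov H b w ∧ cov w = k := by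
      intro w a1 a2
      have a3 := (hb k w a1 a2).2
      exact ⟨⟨by rw [a3]; exact a1, by rw [a3]; exact a2⟩, a3⟩
    have e0 := hin u h1 h2
    by_cases hev : (u - b k) % 2 = 0
    · have e1 : swm cov H b u = u + 1 := by
        unfold swm
        rw [if_pos e0.1, e0.2, if_pos hev]
      have e2 := hin (u + 1) (by omega) (by omega)
      rw [e1]
      unfold swm
      rw [if_pos e2.1, e2.2, if_neg (by omega)]
      omega
    · have e1 : swm cov H b u = u - 1 := by
        unfold swm
        rw [if_pos e0.1, e0.2, if_neg hev]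
      have e2 := hin (u - 1) (by omega) (by omega)
      rw [e1]
      unfold swm
      rw [if_pos e2.1, e2.2, if_pos (by omega)]
      omega
  · have e1 : swm cov H b u = u := by
      unfold swm
      rw [if_neg hu]
    rw [e1, e1]

theorem swm_lt (hb : ∀ k, ∀ u, b k ≤ u → u < b k + 2 * H k → u < c ∧ cov u = k) {u : ℕ}
    (hu : u < c) : swm cov H b u < c := by
  unfold swm
  by_cases h1 : Ins cov H b u
  · rw [if_pos h1]
    obtain ⟨h2, h3⟩ := h1
    by_cases hev : (u - b (cov u)) % 2 = 0
    · rw [if_pos hev]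
      exact (hb (cov u) (u + 1) (by omega) (by omega)).1
    · rw [if_neg hev]
      omega
  · rw [if_neg h1]
    exact hu

/-- the columns of the strip of coverage `k` with an even offset -/
theorem card_even (hb : ∀ k, ∀ u, b k ≤ u → u < b k + 2 * H k → u < c ∧ cov u = k) (k : ℕ) :
    ((range c).filter fun u => Ins cov H b u ∧ cov u = k ∧ (u - b (cov u)) % 2 = 0).card = H k := by
  have h1 : ((range c).filter fun u => Ins cov H b u ∧ cov u = k ∧ (u - b (cov u)) % 2 = 0) =
      (range (H k)).image fun i => b k + 2 * i := by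
    ext u
    simp only [mem_filter, mem_image, mem_range]
    constructor
    · rintro ⟨-, ⟨h2, h3⟩, h4, h5⟩
      rw [h4] at h2 h3 h5
      exact ⟨(u - b k) / 2, by omega, by omega⟩
    · rintro ⟨i, hi, rfl⟩
      obtain ⟨h2, h3⟩ := hb k (b k + 2 * i) (by omega) (by omega)
      unfold Ins
      rw [h3]
      exact ⟨h2, ⟨by omega, by omega⟩, rfl, by omega⟩
  rw [h1, card_image_of_injective _ (fun i j hij => by
    have hij' : b k + 2 * i = b k + 2 * j := hij
    omega), card_range]

/-- the columns of the strip of coverage `k` with an odd offset -/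
theorem card_odd (hb : ∀ k, ∀ u, b k ≤ u → u < b k + 2 * H k → u < c ∧ cov u = k) (k : ℕ) :
    ((range c).filter fun u => Ins cov H b u ∧ cov u = k ∧
      ¬ (u - b (cov u)) % 2 = 0).card = H k := by
  have h1 : ((range c).filter fun u => Ins cov H b u ∧ cov u = k ∧ ¬ (u - b (cov u)) % 2 = 0) =
      (range (H k)).image fun i => b k + 2 * i + 1 := by
    ext u
    simp only [mem_filter, mem_image, mem_range]
    constructor
    · rintro ⟨-, ⟨h2, h3⟩, h4, h5⟩
      rw [h4] at h2 h3 h5
      exact ⟨(u - b k) / 2, by omega, by omega⟩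
    · rintro ⟨i, hi, rfl⟩
      obtain ⟨h2, h3⟩ := hb k (b k + 2 * i + 1) (by omega) (by omega)
      unfold Ins
      rw [h3]
      exact ⟨h2, ⟨by omega, by omega⟩, rfl, by omega⟩
  rw [h1, card_image_of_injective _ (fun i j hij => by
    have hij' : b k + 2 * i + 1 = b k + 2 * j + 1 := hij
    omega), card_range]

theorem labm_count (hb : ∀ k, ∀ u, b k ≤ u → u < b k + 2 * H k → u < c ∧ cov u = k)
    (H0 : H 0 = 0) (q : ℕ) :
    ((range c).filter fun u => labm cov H b u = q).card + 2 * H q =
      ((range c).filter fun u => cov u = q).card + H (q + 1) +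
        (if 1 ≤ q then H (q - 1) else 0) := by
  have h1 : ((range c).filter fun u => labm cov H b u = q).card +
      (((range c).filter fun u => Ins cov H b u ∧ cov u = q ∧ (u - b (cov u)) % 2 = 0).card +
      ((range c).filter fun u => Ins cov H b u ∧ cov u = q ∧ ¬ (u - b (cov u)) % 2 = 0).card) =
      ((range c).filter fun u => cov u = q).card +
      ((range c).filter fun u => Ins cov H b u ∧ cov u = q + 1 ∧ (u - b (cov u)) % 2 = 0).card +
      ((range c).filter fun u => Ins cov H b u ∧ cov u + 1 = q ∧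
        ¬ (u - b (cov u)) % 2 = 0).card := by
    simp only [card_filter, ← sum_add_distrib]
    refine sum_congr rfl fun u _ => ?_
    unfold labm
    by_cases hu : Ins cov H b u
    · have hpos : cov u ≠ 0 := by
        intro h0
        obtain ⟨h2, h3⟩ := hu
        rw [h0, H0] at h3
        rw [h0] at h2
        omega
      by_cases hev : (u - b (cov u)) % 2 = 0
      · simp only [hu, hev, if_true, true_and, and_true, not_true, and_false, if_false]
        split_ifs <;> omega
      · simp only [hu, hev, if_true, true_and, and_true, not_false_iff, and_false, if_false]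
        split_ifs <;> omega
    · simp only [hu, if_false, false_and]
      omega
  rw [card_even hb, card_odd hb, card_even hb] at h1
  by_cases hq : 1 ≤ q
  · have h2 : ((range c).filter fun u => Ins cov H b u ∧ cov u + 1 = q ∧
        ¬ (u - b (cov u)) % 2 = 0).card = H (q - 1) := by
      rw [← card_odd hb (q - 1)]
      congr 1
      refine filter_congr fun u _ => ?_
      have : cov u + 1 = q ↔ cov u = q - 1 := by omega
      rw [this]
    rw [h2] at h1
    rw [if_pos hq]
    omega
  · have h2 : ((range c).filter fun u => Ins cov H b u ∧ cov u + 1 = q ∧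
        ¬ (u - b (cov u)) % 2 = 0) = ∅ := by
      refine filter_eq_empty_iff.2 fun u _ => ?_
      omega
    rw [h2, card_empty] at h1
    rw [if_neg hq]
    omega

end

theorem shift_sums (H : ℕ → ℕ) (l : ℕ) :
    ∑ q ∈ Icc 1 l, H (q - 1) + H l = ∑ q ∈ Icc 1 l, H q + H 0 ∧
      ∑ q ∈ Icc 1 l, H (q + 1) + H 1 = ∑ q ∈ Icc 1 l, H q + H (l + 1) := by
  induction l with
  | zero => simp
  | succ l ih =>
    rw [sum_Icc_succ_top (by omega), sum_Icc_succ_top (by omega), sum_Icc_succ_top (by omega)]
    have : l + 1 - 1 = l := rfl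
    rw [this]
    omega

/-- rows and columns after the exchanges in the strips -/
theorem rz_items_multi (T c : ℕ) (x p : ℕ → ℕ) (hx : ∀ i j, i ≤ j → j < T → x i ≤ x j)
    (hp : ∀ i j, i ≤ j → j < T → x i + p i ≤ x j + p j) (he : ∀ i < T, x i + p i ≤ c)
    (cov H b : ℕ → ℕ)
    (hcov : ∀ u, ((range T).filter fun s => x s ≤ u ∧ u < x s + p s).card = cov u)
    (H0 : H 0 = 0)
    (hb : ∀ k, ∀ u, b k ≤ u → u < b k + 2 * H k → u < c ∧ cov u = k)
    (hxu : ∀ k, 0 < H k → ∀ i < T, x i ≤ b k) :
    Rz (fun a : Fin T ⊕ Fin c => Sum.elim (fun s : Fin T => ((p s : ℕ) : ℤ))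
      (fun u : Fin c => -((labm cov H b (u : ℕ) : ℕ) : ℤ)) a) (T + c) := by
  have h1 := merge_bij T c x hx fun i hi => (Nat.le_add_right _ _).trans (he i hi)
  have h2 := merge_bij T c (fun s => x s + p s) hp he
  refine ⟨mg T c x, h1, ?_⟩
  let sg : Fin T ⊕ Fin c → Fin T ⊕ Fin c :=
    Sum.map id fun u => ⟨swm cov H b u, swm_lt hb u.2⟩
  have hsg : Function.Involutive sg := by
    rintro (s | u)
    · rfl
    · exact congrArg Sum.inr (Fin.ext (swm_sw hb u))
  have h3 : Set.BijOn (fun a => ((mg T c (fun s => x s + p s) (sg a) : ℕ) : ℤ)) Set.univ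
      (Set.Ico 0 (((T + c : ℕ)) : ℤ)) :=
    (bijOn_cast h2).comp (Set.bijOn_univ.2 hsg.bijective)
  refine (Set.EqOn.bijOn_iff ?_).1 h3
  rintro (s | u) -
  · show (((x s + p s + s : ℕ)) : ℤ) = ((x s + s : ℕ) : ℤ) + (p s : ℤ)
    push_cast
    ring
  · show ((swm cov H b u + ((range T).filter fun s => x s + p s ≤ swm cov H b u).card : ℕ) : ℤ) =
      (((u : ℕ) + ((range T).filter fun s => x s ≤ u).card : ℕ) : ℤ) +
        -((labm cov H b (u : ℕ) : ℕ) : ℤ)
    by_cases hbl : Ins cov H b (u : ℕ)
    · have hbl' := hbl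
      obtain ⟨hb1, hb2⟩ := hbl'
      obtain ⟨k, hk⟩ : ∃ k, k = cov (u : ℕ) := ⟨_, rfl⟩
      rw [← hk] at hb1 hb2
      have hH : 0 < H k := by omega
      have hend : ∀ w, b k ≤ w → w < b k + 2 * H k →
          ((range T).filter fun s => x s ≤ w).card = T ∧
            ((range T).filter fun s => x s + p s ≤ w).card + k = T := fun w a1 a2 =>
        col_end x p w k (fun i hi => (hxu k hH i hi).trans a1)
          (by rw [hcov]; exact (hb k w a1 a2).2)
      have hk0 : k ≠ 0 := by
        intro h0
        rw [h0, H0] at hH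
        omega
      have h5 := (hend u hb1 hb2).1
      rw [h5]
      unfold swm labm
      rw [if_pos hbl, if_pos hbl, ← hk]
      by_cases hev : ((u : ℕ) - b k) % 2 = 0
      · rw [if_pos hev, if_pos hev]
        have h6 := (hend ((u : ℕ) + 1) (by omega) (by omega)).2
        omega
      · rw [if_neg hev, if_neg hev]
        have h6 := (hend ((u : ℕ) - 1) (by omega) (by omega)).2
        omega
    · unfold swm labm
      rw [if_neg hbl, if_neg hbl]
      have h4 : ((range T).filter fun s => x s ≤ (u : ℕ)).card =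
          ((range T).filter fun s => x s ≤ (u : ℕ) ∧ (u : ℕ) < x s + p s).card +
          ((range T).filter fun s => x s + p s ≤ (u : ℕ)).card := by
        rw [← card_union_of_disjoint]
        · congr 1
          ext s
          simp only [mem_union, mem_filter, mem_range]
          constructor
          · rintro ⟨a, b⟩
            by_cases h : (u : ℕ) < x s + p s
            · exact Or.inl ⟨a, b, h⟩
            · exact Or.inr ⟨a, by omega⟩
          · rintro (⟨a, b, -⟩ | ⟨a, b⟩)
            · exact ⟨a, b⟩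
            · exact ⟨a, by omega⟩
        · rw [disjoint_left]
          intro s hs hs'
          rw [mem_filter] at hs hs'
          omega
      rw [h4, hcov]
      push_cast
      ring

/-- **from rows to the permutation, with exchanges in several strips** -/
theorem rz_of_rows_multi {t : ℕ} (m : Fin t → ℕ) (d : Fin t → ℤ) (l r : ℕ)
    (hinj : Function.Injective d)
    (hran : ∀ z : ℤ, (-(l : ℤ) ≤ z ∧ z ≤ r) ↔ ∃ i, d i = z)
    (T c : ℕ) (x p : ℕ → ℕ)
    (hp2 : ∀ s < T, 1 ≤ p s ∧ p s ≤ r)
    (hp3 : ∀ δ ∈ Icc 1 r, ((range T).filter fun s => p s = δ).card = Mz m d δ)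
    (hx1 : ∀ i j, i ≤ j → j < T → x i ≤ x j)
    (hx1' : ∀ i j, i ≤ j → j < T → x i + p i ≤ x j + p j)
    (hx2 : ∀ i < T, x i + p i ≤ c)
    (H b : ℕ → ℕ) (H0 : H 0 = 0) (Hl : ∀ k, l ≤ k → H k = 0)
    (hst : ∀ k, 0 < H k → (∀ u, b k ≤ u → u < b k + 2 * H k → u < c ∧
      ((range T).filter fun s => x s ≤ u ∧ u < x s + p s).card = k) ∧ ∀ i < T, x i ≤ b k)
    (hx3 : ∀ q ∈ Icc 1 l, ((range c).filter fun u =>
        ((range T).filter fun s => x s ≤ u ∧ u < x s + p s).card = q).card
        + H (q - 1) + H (q + 1) = Mz m d (-(q : ℤ)) + 2 * H q)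
    (hc : c = ∑ q ∈ Icc 1 l, Mz m d (-(q : ℤ)) + H 1)
    (hz : H 1 ≤ Mz m d 0) :
    Rz (fun x : (Σ i, Fin (m i)) => d x.1) (∑ i, m i) := by
  classical
  obtain ⟨M, hM⟩ : ∃ M : ℤ → ℕ, M = Mz m d := ⟨_, rfl⟩
  have hMd : ∀ i, M (d i) = m i := fun i => by rw [hM, Mz_apply m d hinj]
  rw [← hM] at hc hp3 hx3 hz
  obtain ⟨cov, hcov⟩ : ∃ cov : ℕ → ℕ, ∀ u,
    ((range T).filter fun s => x s ≤ u ∧ u < x s + p s).card = cov u := ⟨_, fun _ => rfl⟩
  simp only [hcov] at hx3 hst
  have hb : ∀ k, ∀ u, b k ≤ u → u < b k + 2 * H k → u < c ∧ cov u = k :=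
    fun k u a1 a2 => (hst k (by omega)).1 u a1 a2
  have hR := rz_zero (rz_items_multi T c x p hx1 hx1' hx2 cov H b hcov H0 hb
    (fun k hk => (hst k hk).2)) (M 0 - H 1)
  have hcovr : ∀ u < c, 1 ≤ cov u ∧ cov u ≤ l := by
    have h1 : ((range c).filter fun u => cov u ∈ Icc 1 l).card = (range c).card := by
      rw [card_range, card_eq_sum_card_fiberwise (s := (range c).filter fun u => cov u ∈ Icc 1 l)
        (f := cov) (t := Icc 1 l) (fun u hu => (mem_filter.1 hu).2)]
      have h2 : ∑ q ∈ Icc 1 l, (((range c).filter fun u => cov u = q).card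
          + H (q - 1) + H (q + 1)) = ∑ q ∈ Icc 1 l, (M (-(q : ℤ)) + 2 * H q) :=
        sum_congr rfl fun q hq => hx3 q hq
      rw [sum_add_distrib, sum_add_distrib, sum_add_distrib, ← mul_sum] at h2
      obtain ⟨h3, h5⟩ := shift_sums H l
      rw [H0, Hl l le_rfl] at h3
      rw [Hl (l + 1) (by omega)] at h5
      have h4 : ∑ q ∈ Icc 1 l, (((range c).filter fun u => cov u ∈ Icc 1 l).filter
          fun u => cov u = q).card = ∑ q ∈ Icc 1 l, ((range c).filter fun u => cov u = q).card := by
        refine sum_congr rfl fun q hq => ?_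
        congr 1
        ext u
        simp only [mem_filter]
        constructor
        · rintro ⟨⟨a, -⟩, b⟩
          exact ⟨a, b⟩
        · rintro ⟨a, b⟩
          exact ⟨⟨a, by rw [b]; exact hq⟩, b⟩
      rw [h4]
      omega
    intro u hu
    exact mem_Icc.1 (filter_card_eq h1 u (mem_range.2 hu))
  obtain ⟨L, hL⟩ : ∃ L : ℕ → ℕ, L = labm cov H b := ⟨_, rfl⟩
  rw [← hL] at hR
  have hLr : ∀ u < c, L u ≤ l := by
    intro u hu
    have h1 := hcovr u hu
    rw [hL]
    unfold labm
    by_cases h2 : Ins cov H b u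
    · rw [if_pos h2]
      obtain ⟨h3, h4⟩ := h2
      have h5 : cov u < l := by
        by_contra h6
        rw [Hl (cov u) (by omega)] at h4
        omega
      split_ifs <;> omega
    · rw [if_neg h2]
      exact h1.2
  have hLc : ∀ q ∈ Icc 1 l, ((range c).filter fun u => L u = q).card = M (-(q : ℤ)) := by
    intro q hq
    have h1 := labm_count hb H0 q
    have h2 := hx3 q hq
    rw [mem_Icc] at hq
    rw [← hL, if_pos hq.1] at h1
    omega
  have hL0 : ((range c).filter fun u => L u = 0).card = H 1 := by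
    have h1 := labm_count hb H0 0
    rw [← hL, if_neg (by omega), H0, zero_add] at h1
    have h2 : ((range c).filter fun u => cov u = 0) = ∅ := by
      refine filter_eq_empty_iff.2 fun u hu => ?_
      have := hcovr u (mem_range.1 hu)
      omega
    rw [h2, card_empty] at h1
    omega
  obtain ⟨D, hDef⟩ : ∃ D : (Fin T ⊕ Fin c) ⊕ Fin (M 0 - H 1) → ℤ, D = fun a => Sum.elim
    (fun a : Fin T ⊕ Fin c => Sum.elim (fun s : Fin T => ((p s : ℕ) : ℤ))
      (fun u : Fin c => -((L u : ℕ) : ℤ)) a) (fun _ => (0 : ℤ)) a := ⟨_, rfl⟩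
  rw [← hDef] at hR
  have hcount : ∀ v : ℤ, (univ.filter fun a => D a = v).card =
      ((range T).filter fun s => (p s : ℤ) = v).card +
      ((range c).filter fun u => -(L u : ℤ) = v).card + if (0 : ℤ) = v then M 0 - H 1 else 0 := by
    intro v
    rw [card_filter, Fintype.sum_sum_type, Fintype.sum_sum_type, card_filter, card_filter,
      ← Fin.sum_univ_eq_sum_range (fun s => if (p s : ℤ) = v then 1 else 0),
      ← Fin.sum_univ_eq_sum_range (fun u => if -(L u : ℤ) = v then 1 else 0), hDef]
    congr 1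
    show ∑ _k : Fin (M 0 - H 1), (if (0 : ℤ) = v then 1 else 0) = _
    rw [sum_const, card_univ, Fintype.card_fin, smul_eq_mul]
    split_ifs <;> simp
  have hDr : ∀ a, ∃ i, d i = D a := by
    intro a
    refine (hran (D a)).1 ?_
    rw [hDef]
    rcases a with (s | u) | k
    · have := hp2 s s.2
      show -(l : ℤ) ≤ ((p s : ℕ) : ℤ) ∧ ((p s : ℕ) : ℤ) ≤ r
      omega
    · have := hLr u u.2
      show -(l : ℤ) ≤ -((L u : ℕ) : ℤ) ∧ -((L u : ℕ) : ℤ) ≤ r
      omega
    · show -(l : ℤ) ≤ 0 ∧ (0 : ℤ) ≤ r
      omega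
  have hDc : ∀ i, (univ.filter fun a => D a = d i).card = m i := by
    intro i
    rw [hcount, ← hMd]
    obtain ⟨hv1, hv2⟩ := (hran (d i)).2 ⟨i, rfl⟩
    generalize d i = v at hv1 hv2
    rcases lt_trichotomy v 0 with hv | hv | hv
    · have h1 : ((range T).filter fun s => (p s : ℤ) = v) = ∅ := by
        refine filter_eq_empty_iff.2 fun s _ => ?_
        omega
      have h2 := hLc v.natAbs (mem_Icc.2 ⟨by omega, by omega⟩)
      have h3 : -((v.natAbs : ℕ) : ℤ) = v := by omega
      rw [h3] at h2
      have h4 : ((range c).filter fun u => -(L u : ℤ) = v) =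
          (range c).filter fun u => L u = v.natAbs := by
        refine filter_congr fun u _ => ?_
        omega
      rw [h1, h4, h2, if_neg (by omega), card_empty]
      omega
    · have h1 : ((range T).filter fun s => (p s : ℤ) = v) = ∅ := by
        refine filter_eq_empty_iff.2 fun s hs => ?_
        have := hp2 s (mem_range.1 hs)
        omega
      have h2 : ((range c).filter fun u => -(L u : ℤ) = v) =
          (range c).filter fun u => L u = 0 := by
        refine filter_congr fun u _ => ?_
        omega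
      rw [h1, h2, hL0, if_pos hv.symm, hv, card_empty]
      omega
    · have h1 := hp3 v.natAbs (mem_Icc.2 ⟨by omega, by omega⟩)
      have h3 : ((v.natAbs : ℕ) : ℤ) = v := by omega
      rw [h3] at h1
      have h4 : ((range T).filter fun s => (p s : ℤ) = v) =
          (range T).filter fun s => p s = v.natAbs := by
        refine filter_congr fun s _ => ?_
        omega
      have h2 : ((range c).filter fun u => -(L u : ℤ) = v) = ∅ := by
        refine filter_eq_empty_iff.2 fun u hu => ?_
        omega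
      rw [h4, h1, h2, if_neg (by omega), card_empty]
      omega
  obtain ⟨φ, hφ⟩ := exists_equiv m d hinj D hDr hDc
  have hN : T + c + (M 0 - H 1) = ∑ i, m i := by
    have h1 := Fintype.card_congr φ
    rw [Fintype.card_sigma, Fintype.card_sum, Fintype.card_sum] at h1
    simp only [Fintype.card_fin] at h1
    exact h1.symm
  have h2 := rz_equiv hR φ
  rw [hN] at h2
  simpa only [hφ] using h2

end Pool.Agent.SLS.Half
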