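import Pool.Agent.SLS.CrossA
import Pool.Agent.SLS.CrossB
import Pool.Agent.SLS.ThirdB
import Pool.Agent.SLS.Gen

/-!
# All centres in `V_1`: `t ≤ 4 * m i + 2 * m j + 2` for all `i ≠ j`
-/

set_option autoImplicit false
namespace Pool.Agent.SLS.Half
open Finset Pool.Agent.StarF

/-- the exchange across the boundary of two strips, together with the exchanges inside the two
strips: the counts of the labels -/
theorem cross_labels (c l a : ℕ) (cov H b n : ℕ → ℕ) (ha1 : 1 ≤ a) (hal : a + 1 < l)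
    (hH : 1 ≤ H a) (hH' : 1 ≤ H (a + 1)) (H0 : H 0 = 0)
    (hst : ∀ k, 1 ≤ k → k < l → ∀ u, b k ≤ u → u < b (k - 1) → u < c ∧ cov u = k)
    (hcl : ∀ u < c, cov u ≤ l)
    (hc : c = ∑ q ∈ Icc 1 l, n q + H 1)
    (hx3 : ∀ q ∈ Icc 1 l, ((range c).filter fun u => cov u = q).card
        + H (q - 1) + H (q + 1) = n q + 2 * H q)
    (h1 : b a + 2 * H a ≤ b (a - 1) + 1) (h2 : b (a + 1) + 2 * H (a + 1) ≤ b a + 1)
    (h3 : ∀ k, k ≠ a → k ≠ a + 1 → H k = 0) :
    ∃ sw L : ℕ → ℕ, (∀ u < c, sw u < c) ∧ (∀ u < c, sw (sw u) = u) ∧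
      (∀ u < b (a + 1), sw u = u) ∧ (∀ u < c, (L u : ℤ) = (cov (sw u) : ℤ) + u - sw u) ∧
      (∀ u < c, L u ≤ l) ∧ (∀ q ∈ Icc 1 l, ((range c).filter fun u => L u = q).card = n q) ∧
      ((range c).filter fun u => L u = 0).card = H 1 := by
  obtain ⟨e, he⟩ : ∃ e, e = b a := ⟨_, rfl⟩
  rw [← he] at h1 h2
  -- the exchanges inside
  obtain ⟨G, hG⟩ : ∃ G : ℕ → ℕ, ∀ k, G k = if k = a ∨ k = a + 1 then H k - 1 else 0 :=
    ⟨_, fun _ => rfl⟩
  have Ga : G a + 1 = H a := by
    rw [hG, if_pos (Or.inl rfl)]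
    omega
  have Ga1 : G (a + 1) + 1 = H (a + 1) := by
    rw [hG, if_pos (Or.inr rfl)]
    omega
  have Go : ∀ k, k ≠ a → k ≠ a + 1 → G k = 0 := fun k k1 k2 => by
    rw [hG, if_neg (by omega)]
  obtain ⟨b', hb'⟩ : ∃ b' : ℕ → ℕ, ∀ k, b' k = if k = a then e + 1 else b k := ⟨_, fun _ => rfl⟩
  have ba : b' a = e + 1 := by rw [hb', if_pos rfl]
  have ba1 : b' (a + 1) = b (a + 1) := by rw [hb', if_neg (by omega)]
  have s1 : ∀ u, e ≤ u → u < b (a - 1) → u < c ∧ cov u = a := fun u u1 u2 =>
    hst a ha1 (by omega) u (by omega) u2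
  have s2 : ∀ u, b (a + 1) ≤ u → u < e → u < c ∧ cov u = a + 1 := fun u u1 u2 =>
    hst (a + 1) (by omega) hal u u1 (by rw [show a + 1 - 1 = a by omega, ← he]; exact u2)
  have hb : ∀ k, ∀ u, b' k ≤ u → u < b' k + 2 * G k → u < c ∧ cov u = k := by
    intro k u u1 u2
    by_cases k1 : k = a
    · subst k1
      rw [ba] at u1 u2
      exact s1 u (by omega) (by omega)
    · by_cases k2 : k = a + 1
      · subst k2
        rw [ba1] at u1 u2
        exact s2 u u1 (by omega)
      · rw [Go k k1 k2] at u2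
        omega
  have G0 : G 0 = 0 := by
    by_cases k1 : 0 = a
    · omega
    · exact Go 0 k1 (by omega)
  obtain ⟨e1, e2⟩ := s1 e le_rfl (by omega)
  obtain ⟨f1, f2⟩ := s2 (e - 1) (by omega) (by omega)
  have ie : ¬ Ins cov G b' e := by
    unfold Ins
    rw [e2, ba]
    omega
  have if' : ¬ Ins cov G b' (e - 1) := by
    unfold Ins
    rw [f2, ba1]
    omega
  have se : swm cov G b' e = e := by
    unfold swm
    rw [if_neg ie]
  have sf : swm cov G b' (e - 1) = e - 1 := by
    unfold swm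
    rw [if_neg if']
  have hne : ∀ u, u ≠ e → u ≠ e - 1 → swm cov G b' u ≠ e ∧ swm cov G b' u ≠ e - 1 := by
    intro u u1 u2
    have k1 := swm_sw (cov := cov) (H := G) (b := b') hb u
    constructor
    · intro h
      rw [h, se] at k1
      exact u1 k1.symm
    · intro h
      rw [h, sf] at k1
      exact u2 k1.symm
  obtain ⟨sw, hsw⟩ : ∃ sw : ℕ → ℕ, ∀ u, sw u = if u = e then e - 1 else if u = e - 1 then e else
    swm cov G b' u := ⟨_, fun _ => rfl⟩
  obtain ⟨L, hL⟩ : ∃ L : ℕ → ℕ, ∀ u, L u = if u = e then a + 2 else if u = e - 1 then a - 1 else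
    labm cov G b' u := ⟨_, fun _ => rfl⟩
  have w1 : sw e = e - 1 := by rw [hsw, if_pos rfl]
  have w2 : sw (e - 1) = e := by rw [hsw, if_neg (by omega), if_pos rfl]
  have w3 : ∀ u, u ≠ e → u ≠ e - 1 → sw u = swm cov G b' u := fun u u1 u2 => by
    rw [hsw, if_neg u1, if_neg u2]
  have L1 : L e = a + 2 := by rw [hL, if_pos rfl]
  have L2 : L (e - 1) = a - 1 := by rw [hL, if_neg (by omega), if_pos rfl]
  have L3 : ∀ u, u ≠ e → u ≠ e - 1 → L u = labm cov G b' u := fun u u1 u2 => by
    rw [hL, if_neg u1, if_neg u2]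
  -- labels inside
  have hin : ∀ u, Ins cov G b' u → 1 ≤ cov u ∧ cov u + 1 ≤ l ∧ b (a + 1) ≤ u := by
    intro u hu
    obtain ⟨u1, u2⟩ := hu
    have u3 : cov u = a ∨ cov u = a + 1 := by
      by_contra hcon
      rw [Go (cov u) (fun h => hcon (Or.inl h)) (fun h => hcon (Or.inr h))] at u2
      omega
    rcases u3 with u3 | u3
    · rw [u3, ba] at u1
      omega
    · rw [u3, ba1] at u1
      omega
  have hlab : ∀ u, (labm cov G b' u : ℤ) = (cov (swm cov G b' u) : ℤ) + u - swm cov G b' u := by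
    intro u
    by_cases hu : Ins cov G b' u
    · have hu' := hin u hu
      obtain ⟨u1, u2⟩ := hu
      have hu : Ins cov G b' u := ⟨u1, u2⟩
      by_cases hev : (u - b' (cov u)) % 2 = 0
      · have k1 : swm cov G b' u = u + 1 := by
          unfold swm
          rw [if_pos hu, if_pos hev]
        have k2 : labm cov G b' u = cov u - 1 := by
          unfold labm
          rw [if_pos hu, if_pos hev]
        have k3 := (hb (cov u) (u + 1) (by omega) (by omega)).2
        rw [k1, k2, k3]
        omega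
      · have k1 : swm cov G b' u = u - 1 := by
          unfold swm
          rw [if_pos hu, if_neg hev]
        have k2 : labm cov G b' u = cov u + 1 := by
          unfold labm
          rw [if_pos hu, if_neg hev]
        have k3 := (hb (cov u) (u - 1) (by omega) (by omega)).2
        rw [k1, k2, k3]
        omega
    · have k1 : swm cov G b' u = u := by
        unfold swm
        rw [if_neg hu]
      have k2 : labm cov G b' u = cov u := by
        unfold labm
        rw [if_neg hu]
      rw [k1, k2]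
      omega
  have hlabl : ∀ u < c, labm cov G b' u ≤ l := by
    intro u hu
    have k0 := hcl u hu
    unfold labm
    by_cases hi : Ins cov G b' u
    · have hi' := hin u hi
      rw [if_pos hi]
      split_ifs <;> omega
    · rw [if_neg hi]
      exact k0
  -- counts
  have le1 : labm cov G b' e = a := by
    unfold labm
    rw [if_neg ie, e2]
  have le2 : labm cov G b' (e - 1) = a + 1 := by
    unfold labm
    rw [if_neg if', f2]
  have hcount : ∀ q, ((range c).filter fun u => L u = q).card +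
      ((if a = q then 1 else 0) + (if a + 1 = q then 1 else 0)) =
      ((range c).filter fun u => labm cov G b' u = q).card +
      ((if a + 2 = q then 1 else 0) + (if a - 1 = q then 1 else 0)) := by
    intro q
    have k1 := two_pt (range c) e (e - 1) (mem_range.2 e1) (mem_range.2 f1) (by omega)
      (fun u => if L u = q then 1 else 0) (fun u => if labm cov G b' u = q then 1 else 0)
      (fun u _ u1 u2 => by rw [L3 u u1 u2])
    simp only [L1, L2, le1, le2] at k1
    rw [card_filter, card_filter]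
    exact k1
  refine ⟨sw, L, ?_, ?_, ?_, ?_, ?_, ?_, ?_⟩
  · intro u hu
    by_cases u1 : u = e
    · rw [u1, w1]
      exact f1
    · by_cases u2 : u = e - 1
      · rw [u2, w2]
        exact e1
      · rw [w3 u u1 u2]
        exact swm_lt hb hu
  · intro u hu
    by_cases u1 : u = e
    · rw [u1, w1, w2]
    · by_cases u2 : u = e - 1
      · rw [u2, w2, w1]
      · obtain ⟨u3, u4⟩ := hne u u1 u2
        rw [w3 u u1 u2, w3 _ u3 u4]
        exact swm_sw hb u
  · intro u hu
    rw [w3 u (by omega) (by omega)]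
    unfold swm
    rw [if_neg fun h => by
      have := (hin u h).2.2
      omega]
  · intro u hu
    by_cases u1 : u = e
    · rw [u1, w1, L1, f2]
      omega
    · by_cases u2 : u = e - 1
      · rw [u2, w2, L2, e2]
        omega
      · rw [w3 u u1 u2, L3 u u1 u2]
        exact hlab u
  · intro u hu
    by_cases u1 : u = e
    · rw [u1, L1]
      omega
    · by_cases u2 : u = e - 1
      · rw [u2, L2]
        omega
      · rw [L3 u u1 u2]
        exact hlabl u hu
  · intro q hq
    have k1 := hcount q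
    have k2 := labm_count hb G0 q
    have k3 := hx3 q hq
    rw [mem_Icc] at hq
    rw [if_pos hq.1] at k2
    have k4 : ∀ k, H k = G k + ((if a = k then 1 else 0) + (if a + 1 = k then 1 else 0)) := by
      intro k
      by_cases c1 : a = k
      · subst c1
        rw [if_pos rfl, if_neg (by omega)]
        omega
      · by_cases c2 : a + 1 = k
        · subst c2
          rw [if_neg c1, if_pos rfl]
          omega
        · rw [if_neg c1, if_neg c2, Go k (by omega) (by omega), h3 k (by omega) (by omega)]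
    have k5 := k4 q
    have k6 := k4 (q - 1)
    have k7 := k4 (q + 1)
    have t1 : (if a = q - 1 then 1 else 0) = (if a + 1 = q then 1 else 0 : ℕ) := by
      split_ifs <;> omega
    have t2 : (if a + 1 = q - 1 then 1 else 0) = (if a + 2 = q then 1 else 0 : ℕ) := by
      split_ifs <;> omega
    have t3 : (if a = q + 1 then 1 else 0) = (if a - 1 = q then 1 else 0 : ℕ) := by
      split_ifs <;> omega
    have t4 : (if a + 1 = q + 1 then 1 else 0) = (if a = q then 1 else 0 : ℕ) := by
      split_ifs <;> omega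
    rw [t1, t2] at k6
    rw [t3, t4] at k7
    omega
  · have k1 := hcount 0
    have k2 := labm_count hb G0 0
    rw [if_neg (by omega), G0, show (0 : ℕ) + 1 = 1 from rfl] at k2
    have k0 : ((range c).filter fun u => cov u = 0).card = 0 := by
      have s : ∑ q ∈ Icc 1 l, (((range c).filter fun u => cov u = q).card
          + H (q - 1) + H (q + 1)) = ∑ q ∈ Icc 1 l, (n q + 2 * H q) :=
        sum_congr rfl fun q hq => hx3 q hq
      rw [sum_add_distrib, sum_add_distrib, sum_add_distrib, ← mul_sum] at s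
      obtain ⟨s3, s4⟩ := shift_sums H l
      rw [H0, h3 l (by omega) (by omega)] at s3
      rw [h3 (l + 1) (by omega) (by omega)] at s4
      have s5 : (range c).card = ∑ q ∈ Icc 0 l, ((range c).filter fun u => cov u = q).card :=
        card_eq_sum_card_fiberwise fun u hu => mem_Icc.2 ⟨Nat.zero_le _, hcl u (mem_range.1 hu)⟩
      rw [card_range] at s5
      have s6 : Icc 0 l = insert 0 (Icc 1 l) := by
        ext q
        rw [mem_insert, mem_Icc, mem_Icc]
        omega
      rw [s6, sum_insert (by simp)] at s5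
      omega
    rw [k0] at k2
    have k4 : H 1 = G 1 + (if a - 1 = 0 then 1 else 0) := by
      by_cases c1 : a = 1
      · rw [c1] at Ga ⊢
        rw [if_pos (by omega)]
        omega
      · rw [if_neg (by omega), Go 1 (by omega) (by omega), h3 1 (by omega) (by omega)]
    rw [if_neg (by omega), if_neg (by omega), if_neg (by omega)] at k1
    omega

/-- the columns on the side of the negative values, `r ≤ 2 * m i + m j` -/
theorem core_cross {t : ℕ} (m : Fin t → ℕ) (d : Fin t → ℤ) (l r : ℕ) (hrl : r ≤ l)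
    (hinj : Function.Injective d)
    (hran : ∀ z : ℤ, (-(l : ℤ) ≤ z ∧ z ≤ r) ↔ ∃ i, d i = z)
    (hm : ∀ i j, i ≠ j → d i ≤ 0 → d j ≤ 0 → r ≤ 2 * m i + m j)
    (hm1 : ∀ i, 1 ≤ m i) (hs : ∑ i, (m i : ℤ) * d i = 0) :
    Rz (fun x : (Σ i, Fin (m i)) => d x.1) (∑ i, m i) := by
  have hMd := Mz_apply m d hinj
  have hM1 : ∀ q : ℕ, q ≤ l → 1 ≤ Mz m d (-(q : ℤ)) := by
    intro q h1
    obtain ⟨i, hi⟩ := (hran (-(q : ℤ))).1 ⟨by omega, by omega⟩
    rw [← hi, hMd]
    exact hm1 i
  have hM2 : ∀ a b : ℕ, a ≤ l → b ≤ l → a ≠ b →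
      r ≤ 2 * Mz m d (-(a : ℤ)) + Mz m d (-(b : ℤ)) := by
    intro a b ha hb hab
    obtain ⟨i, hi⟩ := (hran (-(a : ℤ))).1 ⟨by omega, by omega⟩
    obtain ⟨j, hj⟩ := (hran (-(b : ℤ))).1 ⟨by omega, by omega⟩
    rw [← hi, ← hj, hMd, hMd]
    refine hm i j (fun h => hab ?_) (by omega) (by omega)
    rw [h, hj] at hi
    omega
  obtain ⟨p, hp1, hp2, hp3⟩ := exists_sorted (fun δ => Mz m d δ) r
  obtain ⟨T, hT⟩ : ∃ T, T = ∑ δ ∈ Icc 1 r, Mz m d (δ : ℤ) := ⟨_, rfl⟩
  rw [← hT] at hp1 hp2 hp3
  have hsump : ∑ i ∈ range T, p i = ∑ q ∈ Icc 1 l, q * Mz m d (-(q : ℤ)) := by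
    rw [sum_of_mult (fun δ => Mz m d δ) r T p hp2 hp3]
    exact balance m d l r hran hs
  rcases Nat.eq_zero_or_pos l with hl | hl
  · subst hl
    have hr : r = 0 := by omega
    subst hr
    exact core m d 0 0 le_rfl hinj hran (fun i h1 h2 => by omega) hm1 hs
  · obtain ⟨x, c, H, b, hx1, hx2, H0, Hl, H1, hc, hx3, hst, hxb, hcl, hcase⟩ := crossA l r T hl p
      (fun i hi => (hp2 i hi).2) (fun q => Mz m d (-(q : ℤ))) hM1 hM2 hsump
    have hx1' : ∀ i j, i ≤ j → j < T → x i + p i ≤ x j + p j :=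
      fun i j hij hj => add_le_add (hx1 i j hij hj) (hp1 i j hij hj)
    have H1' : H 1 ≤ Mz m d 0 := by simpa using H1
    rcases hcase with hd | ⟨a, a1, a2, a3, a4, a5, a6, a7⟩
    · refine rz_of_rows_multi m d l r hinj hran T c x p hp2 hp3 hx1 hx1' hx2 H b H0 Hl
        (fun k hk => ?_) hx3 hc H1'
      have hk0 : k ≠ 0 := fun h => by
        rw [h, H0] at hk
        omega
      have hkl : k < l := by
        by_contra h
        rw [Hl k (by omega)] at hk
        omega
      have h1 := hd k (by omega) hkl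
      exact ⟨fun u u1 u2 => hst k (by omega) hkl u u1 (by omega), hxb k hkl⟩
    · obtain ⟨cov, hcov⟩ : ∃ cov : ℕ → ℕ, ∀ u,
        ((range T).filter fun s => x s ≤ u ∧ u < x s + p s).card = cov u := ⟨_, fun _ => rfl⟩
      simp only [hcov] at hst hcl hx3
      obtain ⟨sw, L, w1, w2, w3, w4, w5, w6, w7⟩ := cross_labels c l a cov H b
        (fun q => Mz m d (-(q : ℤ))) a1 a2 a3 a4 H0 hst hcl hc hx3 a5 a6 a7
      refine rz_of_rows_perm m d l r hinj hran T c x p hp2 hp3 hx1 hx1' hx2 (b (a + 1))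
        (hxb (a + 1) a2) sw L w1 w2 w3 (fun u hu => ?_) w5 w6 (w7.le.trans H1')
      rw [hcov]
      exact w4 u hu

/-- **positions and shifted positions both fill an interval**: `min l r ≤ 2 * m i + m j` for all
`i ≠ j` -/
theorem exists_pos_cross {t : ℕ} (m : Fin t → ℕ) (d : Fin t → ℤ) (l r : ℕ)
    (hinj : Function.Injective d)
    (hran : ∀ z : ℤ, (-(l : ℤ) ≤ z ∧ z ≤ r) ↔ ∃ i, d i = z)
    (hm : ∀ i j, i ≠ j → min l r ≤ 2 * m i + m j)
    (hm1 : ∀ i, 1 ≤ m i) (hs : ∑ i, (m i : ℤ) * d i = 0) :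
    ∃ pos : (Σ i, Fin (m i)) → ℕ, Set.BijOn pos Set.univ (Set.Iio (∑ i, m i)) ∧
      Set.BijOn (fun x => (pos x : ℤ) + d x.1) Set.univ (Set.Ico 0 ((∑ i, m i : ℕ) : ℤ)) := by
  rcases le_total r l with h | h
  · rw [min_eq_right h] at hm
    exact core_cross m d l r h hinj hran (fun i j hij _ _ => hm i j hij) hm1 hs
  · rw [min_eq_left h] at hm
    have h1 := core_cross m (fun i => -d i) r l h
      (fun i j hij => hinj (neg_injective hij)) (by
      intro z
      have h2 := hran (-z)
      constructor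
      · intro h3
        obtain ⟨i, hi⟩ := h2.1 ⟨by omega, by omega⟩
        exact ⟨i, by rw [hi, neg_neg]⟩
      · rintro ⟨i, hi⟩
        have h3 := h2.2 ⟨i, by rw [← hi, neg_neg]⟩
        omega) (fun i j hij _ _ => hm i j hij) hm1 (by
        rw [← neg_zero, ← hs, ← sum_neg_distrib]
        exact sum_congr rfl fun i _ => by ring)
    have h2 := rz_neg h1
    simp only [neg_neg] at h2
    exact h2

/-- **characterisation**: `t ≤ 4 * m i + 2 * m j + 2` for all `i ≠ j` -/
theorem with_iff_cross {t : ℕ} (ht : 0 < t) (m : Fin t → ℕ) (hm1 : ∀ i, 1 ≤ m i)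
    (hm : ∀ i j, i ≠ j → t ≤ 4 * m i + 2 * m j + 2) :
    SSEMWith (starForest m) (centres m) ↔
      ∃ σ : Equiv.Perm (Fin t), ∑ i, m i ∣ ∑ i, ((σ i : ℕ) + 1) * m i :=
  with_iff_gen ht m hm1 fun d l r hlr hinj hran hs =>
    exists_pos_cross m d l r hinj hran (fun i j hij => by
      have := hm i j hij
      omega) hm1 hs

end Pool.Agent.SLS.Half
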