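import Pool.Agent.SLS.ThmA

/-!
# Skew diagrams up to one repairable defect

List scheduling as in `ThmA`, but the release times need not be sorted before a round.  If the
column multiplicities are at least `r / 2` there is at most one descent, and the schedule of the
sorted release times has a long final stretch of columns of the height where there are too many.
-/

set_option autoImplicit false
namespace Pool.Agent.SLS.Half
open Finset

/-- A monotone sum preserving self map of a set of integer vectors which is closed under meets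
and bounded has a fixed point. -/
theorem fixedA (l : ℕ) (Φ : (ℕ → ℤ) → (ℕ → ℤ)) (D : Set (ℕ → ℤ)) (A B : ℤ)
    (hD : ∀ τ ∈ D, Φ τ ∈ D) (hinf : ∀ τ ∈ D, ∀ σ ∈ D, τ ⊓ σ ∈ D)
    (hsupp : ∀ τ ∈ D, ∀ i, l ≤ i → τ i = 0)
    (hbd : ∀ τ ∈ D, ∑ i ∈ range l, τ i = A → ∀ i < l, -B ≤ τ i ∧ τ i ≤ B)
    (hmono : ∀ τ ∈ D, ∀ σ ∈ D, τ ≤ σ → Φ τ ≤ Φ σ)
    (hsum : ∀ τ ∈ D, ∑ i ∈ range l, Φ τ i = ∑ i ∈ range l, τ i)
    (τ0 : ℕ → ℤ) (h0 : τ0 ∈ D) (hs0 : ∑ i ∈ range l, τ0 i = A) :
    ∃ τ ∈ D, Φ τ = τ := by
  set s : ℕ → ℕ → ℤ := fun n => Φ^[n] τ0 with hs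
  have s_succ : ∀ n, s (n + 1) = Φ (s n) := fun n => Function.iterate_succ_apply' Φ n τ0
  have sD : ∀ n, s n ∈ D := by
    intro n
    induction n with
    | zero => exact h0
    | succ n ih => rw [s_succ]; exact hD _ ih
  have sS : ∀ n, ∑ i ∈ range l, s n i = A := by
    intro n
    induction n with
    | zero => exact hs0
    | succ n ih => rw [s_succ, hsum _ (sD n)]; exact ih
  let f : ℕ → ↥(Set.Icc (fun _ : Fin l => -B) (fun _ => B)) := fun n =>
    ⟨fun i => s n i, fun i => (hbd _ (sD n) (sS n) i i.2).1, fun i => (hbd _ (sD n) (sS n) i i.2).2⟩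
  have hfin : Finite ↥(Set.Icc (fun _ : Fin l => -B) (fun _ => B)) :=
    (Set.finite_Icc _ _).to_subtype
  obtain ⟨m', n', hne, he⟩ := Finite.exists_ne_map_eq_of_infinite f
  have hval : ∀ m n, f m = f n → s m = s n := by
    intro m n h
    funext i
    by_cases hi : i < l
    · have := congrFun (congrArg Subtype.val h) ⟨i, hi⟩
      exact this
    · rw [hsupp _ (sD m) i (by omega), hsupp _ (sD n) i (by omega)]
  obtain ⟨m, n, hmn, hs1⟩ : ∃ m n, m < n ∧ s m = s n := by
    rcases lt_or_gt_of_ne hne with h | h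
    · exact ⟨m', n', h, hval _ _ he⟩
    · exact ⟨n', m', h, hval _ _ he.symm⟩
  obtain ⟨k, rfl⟩ : ∃ k, n = m + (k + 1) := ⟨n - m - 1, by omega⟩
  have hne' : (range (k + 1)).Nonempty := ⟨0, by simp⟩
  set a : ℕ → ℤ := (range (k + 1)).inf' hne' (fun j => s (m + j)) with ha
  have haD : a ∈ D := by
    refine Finset.inf'_induction hne' _ (p := fun x => x ∈ D) (fun x hx y hy => hinf x hx y hy) ?_
    intro j _
    exact sD _
  have hle : ∀ j < k + 1, a ≤ s (m + j) := fun j hj => Finset.inf'_le _ (by simpa using hj)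
  have hΦ : Φ a ≤ a := by
    refine Finset.le_inf' _ _ ?_
    intro j hj
    rcases Nat.eq_zero_or_pos j with rfl | hj0
    · have := hmono _ haD _ (sD _) (hle k (by omega))
      rw [← s_succ] at this
      rw [show m + 0 = m from rfl, hs1]
      exact this
    · have hj' : j < k + 1 := by simpa using hj
      have := hmono _ haD _ (sD _) (hle (j - 1) (by omega))
      rw [← s_succ] at this
      rwa [show m + (j - 1) + 1 = m + j by omega] at this
  refine ⟨a, haD, ?_⟩
  funext i
  by_cases hi : i < l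
  · have h1 : ∑ i ∈ range l, (a i - Φ a i) = 0 := by
      rw [sum_sub_distrib, hsum _ haD]; ring
    have h2 := (sum_eq_zero_iff_of_nonneg (fun i _ => sub_nonneg.mpr (hΦ i))).mp h1 i
      (by simpa using hi)
    linarith
  · rw [hsupp _ haD i (by omega), hsupp _ (hD _ haD) i (by omega)]



/-- the sorted vector, for vectors with `τ i ≤ τ j` if `i + 2 ≤ j` -/
def srt (l : ℕ) (τ : ℕ → ℤ) (j : ℕ) : ℤ :=
  max (if j + 1 < l then min (τ j) (τ (j + 1)) else τ j)
    (if 0 < j then τ (j - 1) else min (τ 0) (τ 1))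

theorem srt_mono (l : ℕ) (τ σ : ℕ → ℤ) (h : ∀ i, τ i ≤ σ i) (j : ℕ) :
    srt l τ j ≤ srt l σ j := by
  unfold srt
  refine max_le_max ?_ ?_
  · split_ifs
    · exact min_le_min (h _) (h _)
    · exact h _
  · split_ifs
    · exact h _
    · exact min_le_min (h _) (h _)

theorem srt_sorted (l : ℕ) (τ : ℕ → ℤ) (h : ∀ i j, i + 2 ≤ j → j < l → τ i ≤ τ j) (i : ℕ)
    (hi : i + 1 < l) : srt l τ i ≤ srt l τ (i + 1) := by
  have h3 : τ i ≤ srt l τ (i + 1) := by
    unfold srt
    rw [if_pos (Nat.succ_pos i)]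
    exact le_max_right _ _
  rw [srt, if_pos hi]
  refine max_le ((min_le_left _ _).trans h3) ?_
  split_ifs with h0
  · refine le_trans ?_ (le_max_left _ _)
    split_ifs with h1
    · exact le_min (h _ _ (by omega) (by omega)) (h _ _ (by omega) (by omega))
    · exact h _ _ (by omega) (by omega)
  · have : i = 0 := by omega
    subst this
    exact (min_le_left _ _).trans h3

theorem srt_sum (l : ℕ) (hl : 1 ≤ l) (τ : ℕ → ℤ) (h : ∀ i j, i + 2 ≤ j → j < l → τ i ≤ τ j) :
    ∑ i ∈ range l, srt l τ i = ∑ i ∈ range l, τ i := by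
  have key : ∀ k, k + 1 < l → ∑ i ∈ range (k + 1), srt l τ i + τ k =
      ∑ i ∈ range (k + 1), τ i + min (τ k) (τ (k + 1)) := by
    intro k
    induction k with
    | zero =>
      intro hk
      rw [sum_range_one, sum_range_one, srt, if_pos hk, if_neg (lt_irrefl 0), max_self, add_comm]
    | succ k ih =>
      intro hk
      rw [sum_range_succ, sum_range_succ (fun i => τ i) (k + 1)]
      have h1 := ih (by omega)
      have h2 : srt l τ (k + 1) = max (min (τ (k + 1)) (τ (k + 1 + 1))) (τ k) := by
        rw [srt, if_pos hk, if_pos (Nat.succ_pos k)]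
        rfl
      have h3 := h k (k + 1 + 1) (by omega) hk
      rw [h2]
      simp only [max_def, min_def] at h1 ⊢
      split_ifs at h1 ⊢ <;> linarith
  obtain ⟨k, rfl⟩ : ∃ k, l = k + 1 := ⟨l - 1, by omega⟩
  rcases Nat.eq_zero_or_pos k with hk | hk
  · subst hk
    rw [sum_range_one, sum_range_one, srt, if_neg (by omega), if_neg (lt_irrefl 0)]
    exact max_eq_left (min_le_left _ _)
  · obtain ⟨j, rfl⟩ : ∃ j, k = j + 1 := ⟨k - 1, by omega⟩
    have h1 := key j (by omega)
    rw [sum_range_succ, sum_range_succ (fun i => τ i) (j + 1)]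
    have h2 : srt (j + 1 + 1) τ (j + 1) = max (τ (j + 1)) (τ j) := by
      rw [srt, if_neg (by omega), if_pos (Nat.succ_pos j)]
      rfl
    rw [h2]
    simp only [max_def, min_def] at h1 ⊢
    split_ifs at h1 ⊢ <;> linarith

section
variable (l : ℕ) (p : ℕ → ℕ) (t r : ℕ) (C : ℕ → ℤ)

/-- the release times that are allowed -/
def Dm : Set (ℕ → ℤ) :=
  {τ | (∀ i, l ≤ i → τ i = 0) ∧ ∀ i j, i ≤ j → j < l →
    τ j + C j ≤ τ i + C i ∧ τ i + C i ≤ τ j + C j + r}

/-- ends of the schedule of the sorted release times, in descending order, minus `C` -/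
def Ph (τ : ℕ → ℤ) (i : ℕ) : ℤ := if i < l then run l p (srt l τ) t (l - 1 - i) - C i else 0

theorem dm_two (hCa : ∀ i j, i ≤ j → j < l → C j ≤ C i)
    (hC2 : ∀ i, i + 1 < l → (r : ℤ) ≤ 2 * (C i - C (i + 1))) (τ : ℕ → ℤ) (h : τ ∈ Dm l r C)
    (i j : ℕ) (hij : i + 2 ≤ j) (hj : j < l) : τ i ≤ τ j := by
  have h1 := (h.2 i j (by omega) hj).2
  have h2 := hC2 i (by omega)
  have h3 := hC2 (i + 1) (by omega)
  have h4 := hCa (i + 1 + 1) j (by omega) hj
  linarith

theorem ph_sum (hl : 1 ≤ l) (hCa : ∀ i j, i ≤ j → j < l → C j ≤ C i)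
    (hC2 : ∀ i, i + 1 < l → (r : ℤ) ≤ 2 * (C i - C (i + 1)))
    (hC : ∑ k ∈ range t, (p k : ℤ) = ∑ i ∈ range l, C i)
    (τ : ℕ → ℤ) (h : τ ∈ Dm l r C) :
    ∑ i ∈ range l, Ph l p t C τ i = ∑ i ∈ range l, τ i := by
  have h2 := dm_two l r C hCa hC2 τ h
  have h1 : ∑ i ∈ range l, Ph l p t C τ i =
      ∑ i ∈ range l, (run l p (srt l τ) t (l - 1 - i) - C i) := by
    apply sum_congr rfl
    intro i hi
    unfold Ph
    rw [if_pos (by simpa using hi)]
  rw [h1, sum_sub_distrib, sum_range_reflect (fun i => run l p (srt l τ) t i) l,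
    run_total l p t hl (srt l τ) (srt_sorted l τ h2), hC, srt_sum l hl τ h2]
  ring

theorem gapA (hl : 1 ≤ l) (hr : ∀ k < t, p k ≤ r) (hCa : ∀ i j, i ≤ j → j < l → C j ≤ C i)
    (hC2 : ∀ i, i + 1 < l → (r : ℤ) ≤ 2 * (C i - C (i + 1)))
    (hC : ∑ k ∈ range t, (p k : ℤ) = ∑ i ∈ range l, C i) (hC1 : 1 ≤ C (l - 1))
    (hCl : (r : ℤ) ≤ 2 * C (l - 1)) (τ : ℕ → ℤ) (h : τ ∈ Dm l r C) :
    run l p (srt l τ) t (l - 1) ≤ run l p (srt l τ) t 0 + r := by
  have hd := dm_two l r C hCa hC2 τ h
  have hso := srt_sorted l τ hd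
  have hs := run_sorted l p (srt l τ) hso t
  have h1 := run_gap l p hl r (srt l τ) hso t hr t le_rfl
  rcases le_max_iff.mp h1 with h2 | h2
  · exfalso
    have h3 := run_total l p t hl (srt l τ) hso
    rw [srt_sum l hl τ hd, hC, ← sum_add_distrib] at h3
    have h4 : ∑ i ∈ range l, run l p (srt l τ) t i ≤ ∑ i ∈ range l, srt l τ (l - 1) := by
      apply sum_le_sum
      intro i hi
      have hi' : i < l := by simpa using hi
      exact (sorted_le l _ hs i (l - 1) (by omega) (by omega)).trans h2
    have h5 : ∀ i < l, srt l τ (l - 1) ≤ τ i + C i ∧ (i = 0 → srt l τ (l - 1) < τ i + C i) := by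
      intro i hi
      have e1 : srt l τ (l - 1) = max (τ (l - 1))
          (if 0 < l - 1 then τ (l - 1 - 1) else min (τ 0) (τ 1)) := by
        rw [srt, if_neg (by omega)]
      have f1 := (h.2 i (l - 1) (by omega) (by omega)).1
      rcases Nat.eq_zero_or_pos (l - 1) with h0 | h0
      · have e2 : srt l τ (l - 1) = τ (l - 1) := by
          rw [e1, if_neg (by omega), h0]
          exact max_eq_left (min_le_left _ _)
        rw [e2]
        constructor
        · linarith
        · intro _
          linarith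
      · rw [if_pos h0] at e1
        have g1 := hC2 (l - 1 - 1) (by omega)
        rw [show l - 1 - 1 + 1 = l - 1 by omega] at g1
        have g2 : τ (l - 1 - 1) ≤ τ i + C i ∧ (i = 0 → τ (l - 1 - 1) < τ i + C i) := by
          rcases Nat.lt_or_ge i (l - 1) with h6 | h6
          · have f2 := (h.2 i (l - 1 - 1) (by omega) (by omega)).1
            have f3 := hCa (l - 1 - 1) (l - 1) (by omega) (by omega)
            exact ⟨by linarith, fun _ => by linarith⟩
          · have h7 : i = l - 1 := by omega
            have f2 := (h.2 (l - 1 - 1) (l - 1) (by omega) (by omega)).2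
            rw [h7]
            exact ⟨by linarith, fun h8 => by omega⟩
        rw [e1]
        refine ⟨max_le (by linarith) g2.1, fun h8 => max_lt (by linarith) (g2.2 h8)⟩
    have h6 : ∑ i ∈ range l, srt l τ (l - 1) < ∑ i ∈ range l, (τ i + C i) :=
      sum_lt_sum (fun i hi => (h5 i (by simpa using hi)).1)
        ⟨0, by simp; omega, (h5 0 (by omega)).2 rfl⟩
    rw [h3] at h4
    linarith
  · exact h2

theorem ph_dom (hl : 1 ≤ l) (hr : ∀ k < t, p k ≤ r) (hCa : ∀ i j, i ≤ j → j < l → C j ≤ C i)
    (hC2 : ∀ i, i + 1 < l → (r : ℤ) ≤ 2 * (C i - C (i + 1)))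
    (hC : ∑ k ∈ range t, (p k : ℤ) = ∑ i ∈ range l, C i) (hC1 : 1 ≤ C (l - 1))
    (hCl : (r : ℤ) ≤ 2 * C (l - 1)) (τ : ℕ → ℤ) (h : τ ∈ Dm l r C) :
    Ph l p t C τ ∈ Dm l r C := by
  have hd := dm_two l r C hCa hC2 τ h
  have hs := run_sorted l p (srt l τ) (srt_sorted l τ hd) t
  have hg := gapA l p t r C hl hr hCa hC2 hC hC1 hCl τ h
  refine ⟨?_, ?_⟩
  · intro i hi
    unfold Ph
    rw [if_neg (by omega)]
  · intro i j hij hj
    have e1 : Ph l p t C τ i = run l p (srt l τ) t (l - 1 - i) - C i := by
      unfold Ph; rw [if_pos (by omega)]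
    have e2 : Ph l p t C τ j = run l p (srt l τ) t (l - 1 - j) - C j := by
      unfold Ph; rw [if_pos hj]
    have h1 := sorted_le l _ hs (l - 1 - j) (l - 1 - i) (by omega) (by omega)
    have h2 := sorted_le l _ hs (l - 1 - i) (l - 1) (by omega) (by omega)
    have h3 := sorted_le l _ hs 0 (l - 1 - j) (by omega) (by omega)
    rw [e1, e2]
    constructor <;> linarith

theorem exists_fixedA (hl : 1 ≤ l) (hr : ∀ k < t, p k ≤ r)
    (hCa : ∀ i j, i ≤ j → j < l → C j ≤ C i)
    (hC2 : ∀ i, i + 1 < l → (r : ℤ) ≤ 2 * (C i - C (i + 1)))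
    (hC : ∑ k ∈ range t, (p k : ℤ) = ∑ i ∈ range l, C i) (hC1 : 1 ≤ C (l - 1))
    (hCl : (r : ℤ) ≤ 2 * C (l - 1)) :
    ∃ τ ∈ Dm l r C, ∀ i < l, run l p (srt l τ) t (l - 1 - i) = τ i + C i := by
  have hr0 : (0 : ℤ) ≤ r := by positivity
  obtain ⟨τ, hτ, he⟩ := fixedA l (Ph l p t C) (Dm l r C) (-∑ i ∈ range l, C i) (r + C 0)
    (fun τ h => ph_dom l p t r C hl hr hCa hC2 hC hC1 hCl τ h)
    (by
      intro τ h σ h'
      refine ⟨?_, ?_⟩
      · intro i hi
        simp [h.1 i hi, h'.1 i hi]
      · intro i j hij hj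
        have h1 := h.2 i j hij hj
        have h2 := h'.2 i j hij hj
        simp only [Pi.inf_apply]
        rcases le_total (τ i) (σ i) with h3 | h3 <;> rcases le_total (τ j) (σ j) with h4 | h4
        · rw [inf_eq_left.2 h3, inf_eq_left.2 h4]
          exact h1
        · rw [inf_eq_left.2 h3, inf_eq_right.2 h4]
          constructor <;> linarith [h1.1, h1.2, h2.1, h2.2]
        · rw [inf_eq_right.2 h3, inf_eq_left.2 h4]
          constructor <;> linarith [h1.1, h1.2, h2.1, h2.2]
        · rw [inf_eq_right.2 h3, inf_eq_right.2 h4]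
          exact h2)
    (fun τ h => h.1)
    (by
      intro τ h hS i hi
      have hS' : ∑ j ∈ range l, (τ j + C j) = 0 := by
        rw [sum_add_distrib, hS]
        ring
      have h0 : ∑ j ∈ range l, (τ (l - 1) + C (l - 1)) ≤ ∑ j ∈ range l, (τ j + C j) :=
        sum_le_sum fun j hj => by
          have hj' : j < l := by simpa using hj
          exact (h.2 j (l - 1) (by omega) (by omega)).1
      have h1 : ∑ j ∈ range l, (τ j + C j) ≤ ∑ j ∈ range l, (τ 0 + C 0) :=
        sum_le_sum fun j hj => by
          have hj' : j < l := by simpa using hj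
          exact (h.2 0 j (by omega) (by omega)).1
      rw [hS'] at h0 h1
      rw [sum_const, card_range, nsmul_eq_mul] at h0 h1
      have hl0 : (0 : ℤ) < l := by exact_mod_cast hl
      have h2 : τ (l - 1) + C (l - 1) ≤ 0 := by nlinarith
      have h3 : 0 ≤ τ 0 + C 0 := by nlinarith
      have h4 := h.2 0 (l - 1) (by omega) (by omega)
      have h5 := h.2 0 i (by omega) hi
      have h6 := h.2 i (l - 1) (by omega) (by omega)
      have h7 := hCa i (l - 1) (by omega) (by omega)
      have h8 := hCa 0 i (by omega) hi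
      constructor <;> linarith [h4.1, h4.2, h5.1, h5.2, h6.1, h6.2])
    (by
      intro τ _ σ _ hle i
      unfold Ph
      split_ifs with hi
      · exact sub_le_sub_right (run_mono l p _ _ (srt_mono l τ σ hle) t _) _
      · exact le_rfl)
    (fun τ h => ph_sum l p t r C hl hCa hC2 hC τ h)
    (fun i => if i < l then -C i else 0)
    (by
      refine ⟨fun i hi => if_neg (by omega), fun i j hij hj => ?_⟩
      simp only
      rw [if_pos (by omega : i < l), if_pos hj]
      constructor <;> linarith)
    (by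
      rw [← sum_neg_distrib]
      exact sum_congr rfl fun i hi => if_pos (by simpa using hi))
  refine ⟨τ, hτ, ?_⟩
  intro i hi
  have := congrFun he i
  unfold Ph at this
  rw [if_pos hi] at this
  linarith

end

/-- from a schedule with sorted release times `s` and ends `s i + C i` to the rows -/
theorem assemble (l t : ℕ) (hl : 1 ≤ l) (p : ℕ → ℕ) (s : ℕ → ℤ) (C : ℕ → ℕ)
    (hso : ∀ i, i + 1 < l → s i ≤ s (i + 1))
    (hfix : ∀ i < l, run l p s t (l - 1 - i) = s i + C i) :
    ∃ x a : ℕ → ℕ, (∀ i < l, (a i : ℤ) = s i - s 0) ∧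
      (∀ i j, i ≤ j → j < t → x i ≤ x j) ∧ (∀ i < t, x i + p i ≤ C 0) ∧
      (∀ i < t, x i ≤ a (l - 1) + C (l - 1)) ∧
      ∀ u : ℕ, ((range t).filter fun s => x s ≤ u ∧ u < x s + p s).card
        = ((range l).filter fun i => a i ≤ u ∧ u < a i + C i).card := by
  have hx0 : ∀ k, s 0 ≤ run l p s k 0 := fun k => run_zero_mono l p s hso 0 k (by omega)
  set x : ℕ → ℕ := fun k => (run l p s k 0 - s 0).toNat with hx
  set a : ℕ → ℕ := fun i => (s i - s 0).toNat with ha
  have hxk : ∀ k, (x k : ℤ) = run l p s k 0 - s 0 := by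
    intro k
    have := hx0 k
    simp only [hx]
    omega
  have hak : ∀ i < l, (a i : ℤ) = s i - s 0 := by
    intro i hi
    have := sorted_le l s hso 0 i (by omega) hi
    simp only [ha]
    omega
  refine ⟨x, a, hak, ?_, ?_, ?_, ?_⟩
  · intro i j hij _
    have h1 := run_zero_mono l p s hso i j hij
    have h2 := hxk i
    have h3 := hxk j
    omega
  · intro i hi
    have h1 : run l p s i 0 + p i ≤ run l p s (i + 1) (l - 1) := by
      change _ ≤ stp l (p i) (run l p s i) (l - 1)
      unfold stp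
      rw [if_neg (by omega)]
      exact le_max_right _ _
    have h2 := run_last_mono l hl p s (i + 1) t (by omega)
    have h3 := hfix 0 (by omega)
    rw [show l - 1 - 0 = l - 1 by omega] at h3
    have h4 := hxk i
    omega
  · intro i hi
    have h1 := run_zero_mono l p s hso i t (by omega)
    have h3 := hfix (l - 1) (by omega)
    rw [show l - 1 - (l - 1) = 0 by omega] at h3
    have h4 := hxk i
    have h5 := hak (l - 1) (by omega)
    omega
  · intro u
    set g : ℤ → ℤ := fun z => if z ≤ s 0 + u then 1 else 0 with hg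
    have h1 := run_sum l p hl s hso g t
    have h2 : ∑ i ∈ range l, g (run l p s t i) = ∑ i ∈ range l, g (s i + C i) := by
      rw [← sum_range_reflect (fun i => g (run l p s t i)) l]
      apply sum_congr rfl
      intro i hi
      rw [hfix i (by simpa using hi)]
    have h3 : (((range t).filter fun s => x s ≤ u ∧ u < x s + p s).card : ℤ)
        = ∑ k ∈ range t, (g (run l p s k 0) - g (run l p s k 0 + p k)) := by
      rw [card_filter]
      push_cast
      apply sum_congr rfl
      intro k _
      have := hxk k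
      simp only [hg]
      split_ifs <;> omega
    have h4 : (((range l).filter fun i => a i ≤ u ∧ u < a i + C i).card : ℤ)
        = ∑ i ∈ range l, (g (s i) - g (s i + C i)) := by
      rw [card_filter]
      push_cast
      apply sum_congr rfl
      intro i hi
      have := hak i (by simpa using hi)
      simp only [hg]
      split_ifs <;> omega
    rw [sum_sub_distrib] at h3 h4
    have h5 : (((range t).filter fun s => x s ≤ u ∧ u < x s + p s).card : ℤ)
        = (((range l).filter fun i => a i ≤ u ∧ u < a i + C i).card : ℤ) := by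
      rw [h3, h4]
      linarith
    exact_mod_cast h5

theorem srt_eq (l : ℕ) (τ : ℕ → ℤ) (j : ℕ) (hj : j < l)
    (h1 : j + 1 < l → τ j ≤ τ (j + 1)) (h2 : 0 < j → τ (j - 1) ≤ τ j) : srt l τ j = τ j := by
  unfold srt
  rcases Nat.eq_zero_or_pos j with h0 | h0
  · subst h0
    rw [if_neg (lt_irrefl 0)]
    split_ifs with h3
    · rw [max_self, min_eq_left (h1 h3)]
    · exact max_eq_left (min_le_left _ _)
  · rw [if_pos h0]
    split_ifs with h3
    · rw [min_eq_left (h1 h3), max_eq_left (h2 h0)]
    · exact max_eq_left (h2 h0)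

theorem srt_swap1 (l : ℕ) (τ : ℕ → ℤ) (i : ℕ) (hi : i + 1 < l) (h : τ (i + 1) < τ i)
    (h1 : 0 < i → τ (i - 1) ≤ τ (i + 1)) : srt l τ i = τ (i + 1) := by
  unfold srt
  rw [if_pos hi, min_eq_right h.le]
  rcases Nat.eq_zero_or_pos i with h0 | h0
  · subst h0
    rw [if_neg (lt_irrefl 0)]
    exact max_eq_left (min_le_right _ _)
  · rw [if_pos h0]
    exact max_eq_left (h1 h0)

theorem srt_swap2 (l : ℕ) (τ : ℕ → ℤ) (i : ℕ) (h : τ (i + 1) < τ i) :
    srt l τ (i + 1) = τ i := by
  unfold srt
  rw [if_pos (Nat.succ_pos i)]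
  refine max_eq_right ?_
  show (if i + 1 + 1 < l then min (τ (i + 1)) (τ (i + 1 + 1)) else τ (i + 1)) ≤ τ i
  split_ifs
  · exact (min_le_left _ _).trans h.le
  · exact h.le

/-- **rows, columns of height at least `r / 2` times**: the columns of some height `k` are `2 h`
too many, those of the heights `k - 1` and `k + 1` are `h` too few, and after the last start of a
row there are `2 h` consecutive columns of height `k` -/
theorem halfA (l r t : ℕ) (hl : 1 ≤ l) (p : ℕ → ℕ) (hr : ∀ i < t, p i ≤ r) (n : ℕ → ℕ)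
    (hn : ∀ q, 1 ≤ q → q ≤ l → r ≤ 2 * n q) (hnl : 1 ≤ n l)
    (hsum : ∑ i ∈ range t, p i = ∑ q ∈ Icc 1 l, q * n q) :
    ∃ (x : ℕ → ℕ) (c k h u0 : ℕ), (∀ i j, i ≤ j → j < t → x i ≤ x j) ∧
      (∀ i < t, x i + p i ≤ c) ∧ (c = ∑ q ∈ Icc 1 l, n q + if k = 1 then h else 0) ∧
      (∀ q ∈ Icc 1 l, ((range c).filter fun u =>
        ((range t).filter fun s => x s ≤ u ∧ u < x s + p s).card = q).card
        + (if q + 1 = k then h else 0) + (if q = k + 1 then h else 0)
        = n q + (if q = k then 2 * h else 0)) ∧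
      (h = 0 ∨ (1 ≤ k ∧ k < l ∧ 2 * h ≤ r ∧ (∀ u, u0 ≤ u → u < u0 + 2 * h → u < c ∧
        ((range t).filter fun s => x s ≤ u ∧ u < x s + p s).card = k) ∧ ∀ i < t, x i ≤ u0)) := by
  set Cn : ℕ → ℕ := fun i => ∑ q ∈ Icc (i + 1) l, n q with hCn
  have Cn_succ : ∀ i, i < l → Cn i = n (i + 1) + Cn (i + 1) := by
    intro i hi
    simp only [hCn]
    rw [← Finset.add_sum_Ioc_eq_sum_Icc (show i + 1 ≤ l by omega)]
    congr 1
    apply sum_congr _ fun _ _ => rfl
    ext q
    simp only [mem_Ioc, mem_Icc]
    omega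
  have Cn_last : Cn (l - 1) = n l := by
    have := Cn_succ (l - 1) (by omega)
    rw [show l - 1 + 1 = l by omega] at this
    rw [this]
    simp [hCn]
  have Cn_anti : ∀ i j, i ≤ j → j < l → Cn j ≤ Cn i := by
    intro i j hij hj
    induction j, hij using Nat.le_induction with
    | base => exact le_rfl
    | succ k hk ih =>
      have h1 := Cn_succ k (by omega)
      have h2 := ih (by omega)
      omega
  -- areas
  have harea : ∀ k, k ≤ l → ∑ i ∈ range k, Cn i = ∑ q ∈ Icc 1 k, q * n q + k * Cn k := by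
    intro k
    induction k with
    | zero => intro _; simp
    | succ k ih =>
      intro hk
      rw [sum_range_succ, ih (by omega), Finset.sum_Icc_succ_top (by omega), Cn_succ k (by omega)]
      ring
  have harea' : ∑ i ∈ range t, p i = ∑ i ∈ range l, Cn i := by
    rw [harea l le_rfl, hsum]
    have : Cn l = 0 := by simp [hCn]
    rw [this]
    ring
  have hnl2 := hn l hl le_rfl
  have hCZ2 : ∀ i, i + 1 < l → (r : ℤ) ≤ 2 * ((Cn i : ℤ) - (Cn (i + 1) : ℤ)) := by
    intro i hi
    have h1 := Cn_succ i (by omega)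
    have h2 := hn (i + 1) (by omega) (by omega)
    omega
  obtain ⟨τ, hτ, hfix⟩ := exists_fixedA l p t r (fun i => (Cn i : ℤ)) hl hr
    (fun i j hij hj => by exact_mod_cast Cn_anti i j hij hj) hCZ2
    (by exact_mod_cast harea') (by
      rw [Cn_last]
      exact_mod_cast hnl) (by
      rw [Cn_last]
      exact_mod_cast hnl2)
  have hτ2 : ∀ i j, i ≤ j → j < l → τ j + (Cn j : ℤ) ≤ τ i + (Cn i : ℤ) ∧
      τ i + (Cn i : ℤ) ≤ τ j + (Cn j : ℤ) + r := hτ.2
  have hd : ∀ i j, i + 2 ≤ j → j < l → τ i ≤ τ j :=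
    fun i j hij hj => dm_two l r (fun i => (Cn i : ℤ))
      (fun i j hij hj => by exact_mod_cast Cn_anti i j hij hj) hCZ2 τ hτ i j hij hj
  have hso := srt_sorted l τ hd
  have hC0 : (∑ q ∈ Icc 1 l, n q) = Cn 0 := rfl
  by_cases hinv : ∃ i, i + 1 < l ∧ τ (i + 1) < τ i
  · obtain ⟨i, hi, hlt⟩ := hinv
    obtain ⟨h, hh⟩ : ∃ h : ℕ, (h : ℤ) = τ i - τ (i + 1) := ⟨(τ i - τ (i + 1)).toNat, by omega⟩
    have hh1 : 1 ≤ h := by omega
    have hgap := (hτ2 i (i + 1) (by omega) hi).2
    have hCi := Cn_succ i (by omega)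
    have hni := hn (i + 1) (by omega) (by omega)
    have h2r : 2 * h ≤ r := by omega
    have hhn : h ≤ n (i + 1) := by omega
    -- no other descent
    have hno : ∀ j, j + 1 < l → j ≠ i → τ j ≤ τ (j + 1) := by
      intro j hj hji
      by_contra hcon
      push Not at hcon
      have f1 := Cn_succ j (by omega)
      have f2 := hn (j + 1) (by omega) (by omega)
      rcases Nat.lt_or_ge j i with h3 | h3
      · have f3 := (hτ2 j (i + 1) (by omega) hi).2
        have f4 := (hτ2 (j + 1) i (by omega) (by omega)).1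
        omega
      · have f3 := (hτ2 i (j + 1) (by omega) hj).2
        have f4 := (hτ2 (i + 1) j (by omega) (by omega)).1
        omega
    have s1 : srt l τ i = τ (i + 1) := srt_swap1 l τ i hi hlt fun h0 => hd _ _ (by omega) hi
    have s2 : srt l τ (i + 1) = τ i := srt_swap2 l τ i hlt
    have s3 : ∀ j < l, j ≠ i → j ≠ i + 1 → srt l τ j = τ j := by
      intro j hj h1 h2
      refine srt_eq l τ j hj (fun h3 => hno j h3 h1) fun h3 => ?_
      have := hno (j - 1) (by omega) (by omega)
      rwa [show j - 1 + 1 = j by omega] at this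
    have hCl1 : h ≤ Cn (i + 1) := by
      have h1 := Cn_anti (i + 1) (l - 1) (by omega) (by omega)
      omega
    obtain ⟨C', hC'⟩ : ∃ C' : ℕ → ℕ, ∀ j, C' j = if j = i then Cn i + h else
      if j = i + 1 then Cn (i + 1) - h else Cn j := ⟨_, fun _ => rfl⟩
    have c1 : C' i = Cn i + h := by rw [hC', if_pos rfl]
    have c2 : C' (i + 1) = Cn (i + 1) - h := by rw [hC', if_neg (by omega), if_pos rfl]
    have c3 : ∀ j, j ≠ i → j ≠ i + 1 → C' j = Cn j := fun j h1 h2 => by
      rw [hC', if_neg h1, if_neg h2]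
    have hfix' : ∀ j < l, run l p (srt l τ) t (l - 1 - j) = srt l τ j + C' j := by
      intro j hj
      have h0 : run l p (srt l τ) t (l - 1 - j) = τ j + (Cn j : ℤ) := hfix j hj
      rw [h0]
      by_cases h1 : j = i
      · subst h1
        rw [s1, c1]
        push_cast
        omega
      · by_cases h2 : j = i + 1
        · subst h2
          rw [s2, c2]
          omega
        · rw [s3 j hj h1 h2, c3 j h1 h2]
    obtain ⟨x, a, hak, hx1, hx2, hx3, hcov⟩ := assemble l t hl p (srt l τ) C' hso hfix'
    have ha : ∀ j, j + 1 < l → a j ≤ a (j + 1) := by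
      intro j hj
      have h1 := hak j (by omega)
      have h2 := hak (j + 1) hj
      have h3 := hso j hj
      omega
    have hb : ∀ j k, j ≤ k → k < l → a k + C' k ≤ a j + C' j := by
      intro j k hjk hk
      have h1 := hak j (by omega)
      have h2 := hak k hk
      have h3 := hfix' j (by omega)
      have h4 := hfix' k hk
      have h5 := hfix j (by omega)
      have h6 := hfix k hk
      have h7 := (hτ2 j k hjk hk).1
      have h5' : run l p (srt l τ) t (l - 1 - j) = τ j + (Cn j : ℤ) := h5
      have h6' : run l p (srt l τ) t (l - 1 - k) = τ k + (Cn k : ℤ) := h6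
      omega
    have ha0 : a 0 = 0 := by
      have := hak 0 (by omega)
      omega
    have ham : ∀ j k, j ≤ k → k < l → a j ≤ a k := by
      intro j k hjk hk
      induction k, hjk using Nat.le_induction with
      | base => exact le_rfl
      | succ k hk' ih => exact (ih (by omega)).trans (ha k hk)
    refine ⟨x, C' 0, i + 1, h, a (i + 1) + C' (i + 1), hx1, hx2, ?_, ?_, Or.inr
      ⟨by omega, hi, h2r, ?_, ?_⟩⟩
    · rw [hC0]
      rcases Nat.eq_zero_or_pos i with h0 | h0
      · subst h0
        rw [c1, if_pos rfl]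
      · rw [c3 0 (by omega) (by omega), if_neg (by omega), add_zero]
    · intro q hq
      rw [mem_Icc] at hq
      simp only [hcov]
      rw [nested_count l a C' ha (fun j hj => hb j (j + 1) (by omega) hj) ha0 q hq.1 hq.2]
      have e1 := Cn_succ (q - 1) (by omega)
      rw [show q - 1 + 1 = q by omega] at e1
      have e2 : q = l → Cn q = 0 := by
        intro h1
        subst h1
        simp [hCn]
      have e3 := hn q hq.1 hq.2
      have w3 : ∀ j, j = i → C' j = Cn j + h := fun j hj => by subst hj; exact c1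
      have w4 : ∀ j, j = i + 1 → C' j = Cn j - h := fun j hj => by subst hj; exact c2
      rcases (show q = i + 1 ∨ q = i ∨ q = i + 1 + 1 ∨
        (q ≠ i + 1 ∧ q ≠ i ∧ q ≠ i + 1 + 1) by omega) with h1 | h1 | h1 | ⟨h1, h2, h3⟩
      · have w1 : C' (q - 1) = Cn (q - 1) + h := w3 _ (by omega)
        have w2 : (if q < l then C' q else 0) = Cn q - h := by
          rw [if_pos (show q < l by omega)]
          exact w4 _ h1
        have w5 : h ≤ Cn q := by
          rw [h1]
          exact hCl1
        rw [w1, w2, if_neg (show ¬ (q + 1 = i + 1) by omega),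
          if_neg (show ¬ (q = i + 1 + 1) by omega), if_pos h1]
        omega
      · have w1 : C' (q - 1) = Cn (q - 1) := c3 _ (by omega) (by omega)
        have w2 : (if q < l then C' q else 0) = Cn q + h := by
          rw [if_pos (show q < l by omega)]
          exact w3 _ h1
        rw [w1, w2, if_pos (show q + 1 = i + 1 by omega),
          if_neg (show ¬ (q = i + 1 + 1) by omega), if_neg (show ¬ (q = i + 1) by omega)]
        omega
      · have w1 : C' (q - 1) = Cn (q - 1) - h := w4 _ (by omega)
        have w5 : h ≤ Cn (q - 1) := by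
          rw [show q - 1 = i + 1 by omega]
          exact hCl1
        have w2 : (if q < l then C' q else 0) = Cn q := by
          split_ifs with h4
          · exact c3 q (by omega) (by omega)
          · exact (e2 (by omega)).symm
        have w6 : h ≤ n q := by omega
        rw [w1, w2, if_neg (show ¬ (q + 1 = i + 1) by omega), if_pos h1,
          if_neg (show ¬ (q = i + 1) by omega)]
        omega
      · have w1 : C' (q - 1) = Cn (q - 1) := c3 _ (by omega) (by omega)
        have w2 : (if q < l then C' q else 0) = Cn q := by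
          split_ifs with h4
          · exact c3 q (by omega) (by omega)
          · exact (e2 (by omega)).symm
        rw [w1, w2, if_neg (show ¬ (q + 1 = i + 1) by omega),
          if_neg (show ¬ (q = i + 1 + 1) by omega), if_neg (show ¬ (q = i + 1) by omega)]
        omega
    · intro u hu1 hu2
      have k1 := ham 0 (l - 1) (by omega) (by omega)
      have k2 := hb (i + 1) (l - 1) (by omega) (by omega)
      have k3 : a i + C' i = a (i + 1) + C' (i + 1) + (h + n (i + 1)) := by
        have h1 := hak i (by omega)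
        have h2 := hak (i + 1) hi
        rw [s1] at h1
        rw [s2] at h2
        rw [c1, c2]
        omega
      have k4 := hb 0 i (by omega) (by omega)
      refine ⟨by omega, ?_⟩
      rw [hcov u, show ((range l).filter fun j => a j ≤ u ∧ u < a j + C' j) = range (i + 1) from ?_,
        card_range]
      ext j
      rw [mem_filter, mem_range, mem_range]
      constructor
      · rintro ⟨h1, h2, h3⟩
        by_contra h4
        have h5 := hb (i + 1) j (by omega) h1
        omega
      · intro h1
        have h2 := ham j (l - 1) (by omega) (by omega)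
        have h3 := hb j i (by omega) (by omega)
        exact ⟨by omega, by omega, by omega⟩
    · intro s hs
      exact (hx3 s hs).trans (hb (i + 1) (l - 1) (by omega) (by omega))
  · push Not at hinv
    have s3 : ∀ j < l, srt l τ j = τ j := by
      intro j hj
      refine srt_eq l τ j hj (fun h3 => hinv j h3) fun h3 => ?_
      have := hinv (j - 1) (by omega)
      rwa [show j - 1 + 1 = j by omega] at this
    have hfix' : ∀ j < l, run l p (srt l τ) t (l - 1 - j) = srt l τ j + Cn j := by
      intro j hj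
      rw [s3 j hj]
      exact hfix j hj
    obtain ⟨x, a, hak, hx1, hx2, -, hcov⟩ := assemble l t hl p (srt l τ) Cn hso hfix'
    have ha : ∀ j, j + 1 < l → a j ≤ a (j + 1) := by
      intro j hj
      have h1 := hak j (by omega)
      have h2 := hak (j + 1) hj
      have h3 := hso j hj
      omega
    have hb : ∀ j, j + 1 < l → a (j + 1) + Cn (j + 1) ≤ a j + Cn j := by
      intro j hj
      have h1 := hak j (by omega)
      have h2 := hak (j + 1) hj
      have h3 := s3 j (by omega)
      have h4 := s3 (j + 1) hj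
      have h7 := (hτ2 j (j + 1) (by omega) hj).1
      omega
    have ha0 : a 0 = 0 := by
      have := hak 0 (by omega)
      omega
    refine ⟨x, Cn 0, 0, 0, 0, hx1, hx2, ?_, ?_, Or.inl rfl⟩
    · rw [hC0]
      simp
    · intro q hq
      rw [mem_Icc] at hq
      simp only [hcov]
      rw [nested_count l a Cn ha hb ha0 q hq.1 hq.2]
      have e1 := Cn_succ (q - 1) (by omega)
      rw [show q - 1 + 1 = q by omega] at e1
      have e2 : q = l → Cn q = 0 := by
        intro h1
        subst h1
        simp [hCn]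
      have e3 : (if q < l then Cn q else 0) = Cn q := by
        split_ifs with h4
        · rfl
        · exact (e2 (by omega)).symm
      rw [e3]
      simp only [ite_self, mul_zero, add_zero]
      omega

end Pool.Agent.SLS.Half
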