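import Pool.Agent.SLS.Perm

/-!
# Exchanges of neighbouring columns of the same coverage
-/

set_option autoImplicit false
namespace Pool.Agent.SLS.Half
open Finset

/-- the exchange of neighbours in the block `[u0, u0 + 2h)` -/
def sw (u0 h u : ℕ) : ℕ :=
  if u0 ≤ u ∧ u < u0 + 2 * h then (if (u - u0) % 2 = 0 then u + 1 else u - 1) else u

/-- the new labels of the columns -/
def lab (u0 h k : ℕ) (cov : ℕ → ℕ) (u : ℕ) : ℕ :=
  if u0 ≤ u ∧ u < u0 + 2 * h then (if (u - u0) % 2 = 0 then k - 1 else k + 1) else cov u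

theorem sw_sw (u0 h u : ℕ) : sw u0 h (sw u0 h u) = u := by
  unfold sw
  split_ifs <;> omega

theorem sw_lt {u0 h c : ℕ} (hb : ∀ u, u0 ≤ u → u < u0 + 2 * h → u < c) {u : ℕ} (hu : u < c) :
    sw u0 h u < c := by
  have h1 := hb (u + 1)
  unfold sw
  split_ifs <;> omega

theorem two_pt (s : Finset ℕ) (a b : ℕ) (ha : a ∈ s) (hb : b ∈ s) (hab : a ≠ b) (f g : ℕ → ℕ)
    (hfg : ∀ u ∈ s, u ≠ a → u ≠ b → f u = g u) :
    ∑ u ∈ s, f u + (g a + g b) = ∑ u ∈ s, g u + (f a + f b) := by
  have hb' : b ∈ s.erase a := mem_erase.2 ⟨hab.symm, hb⟩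
  rw [← add_sum_erase s f ha, ← add_sum_erase s g ha, ← add_sum_erase (s.erase a) f hb',
    ← add_sum_erase (s.erase a) g hb']
  have h1 : ∑ u ∈ (s.erase a).erase b, f u = ∑ u ∈ (s.erase a).erase b, g u := by
    refine sum_congr rfl fun u hu => ?_
    rw [mem_erase, mem_erase] at hu
    exact hfg u hu.2.2 hu.2.1 hu.1
  rw [h1]
  ring

theorem lab_count (c k u0 : ℕ) (hk : 1 ≤ k) (cov : ℕ → ℕ) (q h : ℕ)
    (hb : ∀ u, u0 ≤ u → u < u0 + 2 * h → u < c ∧ cov u = k) :
    ((range c).filter fun u => lab u0 h k cov u = q).card + (if q = k then 2 * h else 0) =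
      ((range c).filter fun u => cov u = q).card + (if q + 1 = k then h else 0) +
        (if q = k + 1 then h else 0) := by
  induction h with
  | zero =>
    have h0 : ∀ u, lab u0 0 k cov u = cov u := fun u => by
      unfold lab
      rw [if_neg (by omega)]
    simp only [h0]
    simp
  | succ h ih =>
    have ih' := ih fun u h1 h2 => hb u h1 (by omega)
    obtain ⟨ha1, ha2⟩ := hb (u0 + 2 * h) (by omega) (by omega)
    obtain ⟨hb1, hb2⟩ := hb (u0 + 2 * h + 1) (by omega) (by omega)
    have h3 := two_pt (range c) (u0 + 2 * h) (u0 + 2 * h + 1) (mem_range.2 ha1)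
      (mem_range.2 hb1) (by omega) (fun u => if lab u0 (h + 1) k cov u = q then 1 else 0)
      (fun u => if lab u0 h k cov u = q then 1 else 0) (by
        intro u _ h1 h2
        have h4 : lab u0 (h + 1) k cov u = lab u0 h k cov u := by
          unfold lab
          by_cases h5 : u0 ≤ u ∧ u < u0 + 2 * h
          · rw [if_pos h5, if_pos (by omega)]
          · rw [if_neg h5, if_neg (by omega)]
        simp only [h4])
    have e1 : lab u0 h k cov (u0 + 2 * h) = k := by
      unfold lab
      rw [if_neg (by omega), ha2]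
    have e2 : lab u0 h k cov (u0 + 2 * h + 1) = k := by
      unfold lab
      rw [if_neg (by omega), hb2]
    have e3 : lab u0 (h + 1) k cov (u0 + 2 * h) = k - 1 := by
      unfold lab
      rw [if_pos (by omega), if_pos (by omega)]
    have e4 : lab u0 (h + 1) k cov (u0 + 2 * h + 1) = k + 1 := by
      unfold lab
      rw [if_pos (by omega), if_neg (by omega)]
    simp only [e1, e2, e3, e4] at h3
    rw [← card_filter, ← card_filter] at h3
    by_cases c1 : q = k
    · rw [if_pos c1, if_neg (by omega), if_neg (by omega)] at ih' ⊢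
      rw [if_pos c1.symm, if_neg (by omega), if_neg (by omega)] at h3
      omega
    · by_cases c2 : q + 1 = k
      · rw [if_neg c1, if_pos c2, if_neg (by omega)] at ih' ⊢
        rw [if_neg (by omega), if_pos (by omega), if_neg (by omega)] at h3
        omega
      · by_cases c3 : q = k + 1
        · rw [if_neg c1, if_neg c2, if_pos c3] at ih' ⊢
          rw [if_neg (by omega), if_neg (by omega), if_pos (by omega)] at h3
          omega
        · rw [if_neg c1, if_neg c2, if_neg c3] at ih' ⊢
          rw [if_neg (by omega), if_neg (by omega), if_neg (by omega)] at h3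
          omega

/-- a column beyond all the starts -/
theorem col_end {T : ℕ} (x p : ℕ → ℕ) (u k : ℕ) (hxu : ∀ i < T, x i ≤ u)
    (hcov : ((range T).filter fun s => x s ≤ u ∧ u < x s + p s).card = k) :
    ((range T).filter fun s => x s ≤ u).card = T ∧
      ((range T).filter fun s => x s + p s ≤ u).card + k = T := by
  have h1 : ((range T).filter fun s => x s ≤ u) = range T :=
    filter_true_of_mem fun s hs => hxu s (mem_range.1 hs)
  refine ⟨by rw [h1, card_range], ?_⟩
  have h2 : ((range T).filter fun s => x s ≤ u ∧ u < x s + p s) =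
      (range T).filter fun s => ¬ x s + p s ≤ u := by
    refine filter_congr fun s hs => ?_
    have := hxu s (mem_range.1 hs)
    omega
  rw [← hcov, h2, card_filter_add_card_filter_not, card_range]

/-- rows and columns after the exchanges -/
theorem rz_items_swap (T c : ℕ) (x p : ℕ → ℕ) (hx : ∀ i j, i ≤ j → j < T → x i ≤ x j)
    (hp : ∀ i j, i ≤ j → j < T → x i + p i ≤ x j + p j) (he : ∀ i < T, x i + p i ≤ c)
    (k h u0 : ℕ) (hk1 : 1 ≤ k)
    (hst : ∀ u, u0 ≤ u → u < u0 + 2 * h → u < c ∧
      ((range T).filter fun s => x s ≤ u ∧ u < x s + p s).card = k)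
    (hxu : ∀ i < T, x i ≤ u0) :
    Rz (fun a : Fin T ⊕ Fin c => Sum.elim (fun s : Fin T => ((p s : ℕ) : ℤ))
      (fun u : Fin c => -((lab u0 h k (fun u => ((range T).filter fun s => x s ≤ u ∧
        u < x s + p s).card) (u : ℕ) : ℕ) : ℤ)) a) (T + c) := by
  have h1 := merge_bij T c x hx fun i hi => (Nat.le_add_right _ _).trans (he i hi)
  have h2 := merge_bij T c (fun s => x s + p s) hp he
  have hb : ∀ u, u0 ≤ u → u < u0 + 2 * h → u < c := fun u a b => (hst u a b).1
  refine ⟨mg T c x, h1, ?_⟩
  let sg : Fin T ⊕ Fin c → Fin T ⊕ Fin c :=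
    Sum.map id fun u => ⟨sw u0 h u, sw_lt hb u.2⟩
  have hsg : Function.Involutive sg := by
    rintro (s | u)
    · rfl
    · exact congrArg Sum.inr (Fin.ext (sw_sw u0 h u))
  have h3 : Set.BijOn (fun a => ((mg T c (fun s => x s + p s) (sg a) : ℕ) : ℤ)) Set.univ
      (Set.Ico 0 (((T + c : ℕ)) : ℤ)) :=
    (bijOn_cast h2).comp (Set.bijOn_univ.2 hsg.bijective)
  refine (Set.EqOn.bijOn_iff ?_).1 h3
  rintro (s | u) -
  · show (((x s + p s + s : ℕ)) : ℤ) = ((x s + s : ℕ) : ℤ) + (p s : ℤ)
    push_cast
    ring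
  · show ((sw u0 h u + ((range T).filter fun s => x s + p s ≤ sw u0 h u).card : ℕ) : ℤ) =
      (((u : ℕ) + ((range T).filter fun s => x s ≤ u).card : ℕ) : ℤ) +
        -((lab u0 h k (fun u => ((range T).filter fun s => x s ≤ u ∧
          u < x s + p s).card) (u : ℕ) : ℕ) : ℤ)
    by_cases hbl : u0 ≤ (u : ℕ) ∧ (u : ℕ) < u0 + 2 * h
    · obtain ⟨h5, -⟩ := col_end x p u k (fun i hi => (hxu i hi).trans hbl.1)
        (hst u hbl.1 hbl.2).2
      rw [h5]
      unfold sw lab
      rw [if_pos hbl, if_pos hbl]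
      by_cases hev : ((u : ℕ) - u0) % 2 = 0
      · rw [if_pos hev, if_pos hev]
        obtain ⟨-, h6⟩ := col_end x p ((u : ℕ) + 1) k (fun i hi => (hxu i hi).trans (by omega))
          (hst ((u : ℕ) + 1) (by omega) (by omega)).2
        omega
      · rw [if_neg hev, if_neg hev]
        obtain ⟨-, h6⟩ := col_end x p ((u : ℕ) - 1) k (fun i hi => (hxu i hi).trans (by omega))
          (hst ((u : ℕ) - 1) (by omega) (by omega)).2
        omega
    · unfold sw lab
      rw [if_neg hbl, if_neg hbl]
      have h4 : ((range T).filter fun s => x s ≤ (u : ℕ)).card =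
          ((range T).filter fun s => x s ≤ (u : ℕ) ∧ (u : ℕ) < x s + p s).card +
          ((range T).filter fun s => x s + p s ≤ (u : ℕ)).card := by
        rw [← card_union_of_disjoint]
        · congr 1
          ext s
          simp only [mem_union, mem_filter, mem_range]
          constructor
          · rintro ⟨a, b⟩
            by_cases h : (u : ℕ) < x s + p s
            · exact Or.inl ⟨a, b, h⟩
            · exact Or.inr ⟨a, by omega⟩
          · rintro (⟨a, b, -⟩ | ⟨a, b⟩)
            · exact ⟨a, b⟩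
            · exact ⟨a, by omega⟩
        · rw [disjoint_left]
          intro s hs hs'
          rw [mem_filter] at hs hs'
          omega
      rw [h4]
      push_cast
      ring

/-- **from rows to the permutation, with exchanges**: like `rz_of_rows`; a stretch of `2h` columns
of coverage `k` behind all the starts gets `k - 1` and `k + 1` in turn as new labels -/
theorem rz_of_rows_swap {t : ℕ} (m : Fin t → ℕ) (d : Fin t → ℤ) (l r : ℕ)
    (hinj : Function.Injective d)
    (hran : ∀ z : ℤ, (-(l : ℤ) ≤ z ∧ z ≤ r) ↔ ∃ i, d i = z)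
    (T c : ℕ) (x p : ℕ → ℕ)
    (hp2 : ∀ s < T, 1 ≤ p s ∧ p s ≤ r)
    (hp3 : ∀ δ ∈ Icc 1 r, ((range T).filter fun s => p s = δ).card = Mz m d δ)
    (hx1 : ∀ i j, i ≤ j → j < T → x i ≤ x j)
    (hx1' : ∀ i j, i ≤ j → j < T → x i + p i ≤ x j + p j)
    (hx2 : ∀ i < T, x i + p i ≤ c)
    (k h u0 : ℕ) (hk1 : 1 ≤ k) (hkl : k < l)
    (hst : ∀ u, u0 ≤ u → u < u0 + 2 * h → u < c ∧
      ((range T).filter fun s => x s ≤ u ∧ u < x s + p s).card = k)
    (hxu : ∀ i < T, x i ≤ u0)
    (hx3 : ∀ q ∈ Icc 1 l, ((range c).filter fun u =>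
        ((range T).filter fun s => x s ≤ u ∧ u < x s + p s).card = q).card
        + (if q + 1 = k then h else 0) + (if q = k + 1 then h else 0)
        = Mz m d (-(q : ℤ)) + (if q = k then 2 * h else 0))
    (hc : c = ∑ q ∈ Icc 1 l, Mz m d (-(q : ℤ)) + if k = 1 then h else 0)
    (hz : h ≤ Mz m d 0) :
    Rz (fun x : (Σ i, Fin (m i)) => d x.1) (∑ i, m i) := by
  classical
  obtain ⟨M, hM⟩ : ∃ M : ℤ → ℕ, M = Mz m d := ⟨_, rfl⟩
  have hMd : ∀ i, M (d i) = m i := fun i => by rw [hM, Mz_apply m d hinj]
  rw [← hM] at hc hp3 hx3 hz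
  obtain ⟨z0, hz0⟩ : ∃ z0 : ℕ, z0 = if k = 1 then h else 0 := ⟨_, rfl⟩
  rw [← hz0] at hc
  have hz0' : z0 ≤ M 0 := by
    rw [hz0]
    split_ifs <;> omega
  have hR := rz_zero (rz_items_swap T c x p hx1 hx1' hx2 k h u0 hk1 hst hxu) (M 0 - z0)
  obtain ⟨cov, hcov⟩ : ∃ cov : ℕ → ℕ, cov = fun u =>
    ((range T).filter fun s => x s ≤ u ∧ u < x s + p s).card := ⟨_, rfl⟩
  rw [← hcov] at hR
  have hcov' : ∀ u, ((range T).filter fun s => x s ≤ u ∧ u < x s + p s).card = cov u :=
    fun u => by rw [hcov]
  simp only [hcov'] at hx3 hst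
  have hcovr : ∀ u < c, 1 ≤ cov u ∧ cov u ≤ l := by
    have h1 : ((range c).filter fun u => cov u ∈ Icc 1 l).card = (range c).card := by
      rw [card_range, card_eq_sum_card_fiberwise (s := (range c).filter fun u => cov u ∈ Icc 1 l)
        (f := cov) (t := Icc 1 l) (fun u hu => (mem_filter.1 hu).2)]
      have h2 : ∑ q ∈ Icc 1 l, (((range c).filter fun u => cov u = q).card
          + (if q + 1 = k then h else 0) + (if q = k + 1 then h else 0)) =
          ∑ q ∈ Icc 1 l, (M (-(q : ℤ)) + (if q = k then 2 * h else 0)) :=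
        sum_congr rfl fun q hq => hx3 q hq
      rw [sum_add_distrib, sum_add_distrib, sum_add_distrib, sum_ite_eq', sum_ite_eq',
        if_pos (mem_Icc.2 ⟨by omega, by omega⟩), if_pos (mem_Icc.2 ⟨hk1, hkl.le⟩)] at h2
      have h3 : ∑ q ∈ Icc 1 l, (if q + 1 = k then h else 0) + z0 = h := by
        rw [hz0]
        by_cases hk : k = 1
        · rw [if_pos hk, sum_eq_zero, zero_add]
          intro q hq
          rw [mem_Icc] at hq
          rw [if_neg (by omega)]
        · rw [if_neg hk, add_zero, sum_eq_single (k - 1)]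
          · rw [if_pos (by omega)]
          · intro q _ hq
            rw [if_neg (by omega)]
          · intro hq
            rw [mem_Icc] at hq
            omega
      have h4 : ∑ q ∈ Icc 1 l, (((range c).filter fun u => cov u ∈ Icc 1 l).filter
          fun u => cov u = q).card = ∑ q ∈ Icc 1 l, ((range c).filter fun u => cov u = q).card := by
        refine sum_congr rfl fun q hq => ?_
        congr 1
        ext u
        simp only [mem_filter]
        constructor
        · rintro ⟨⟨a, -⟩, b⟩
          exact ⟨a, b⟩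
        · rintro ⟨a, b⟩
          exact ⟨⟨a, by rw [b]; exact hq⟩, b⟩
      rw [h4]
      omega
    intro u hu
    exact mem_Icc.1 (filter_card_eq h1 u (mem_range.2 hu))
  obtain ⟨L, hL⟩ : ∃ L : ℕ → ℕ, L = lab u0 h k cov := ⟨_, rfl⟩
  rw [← hL] at hR
  have hLr : ∀ u < c, L u ≤ l := by
    intro u hu
    have h1 := hcovr u hu
    rw [hL]
    unfold lab
    split_ifs <;> omega
  have hLc : ∀ q ∈ Icc 1 l, ((range c).filter fun u => L u = q).card = M (-(q : ℤ)) := by
    intro q hq
    have h1 := lab_count c k u0 hk1 cov q h hst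
    have h2 := hx3 q hq
    rw [← hL] at h1
    omega
  have hL0 : ((range c).filter fun u => L u = 0).card = z0 := by
    have h1 := lab_count c k u0 hk1 cov 0 h hst
    rw [← hL, if_neg (by omega), if_neg (show ¬ 0 = k + 1 by omega)] at h1
    have h2 : ((range c).filter fun u => cov u = 0) = ∅ := by
      refine filter_eq_empty_iff.2 fun u hu => ?_
      have := hcovr u (mem_range.1 hu)
      omega
    rw [h2, card_empty] at h1
    rw [hz0]
    by_cases hk : k = 1
    · rw [if_pos hk]
      rw [if_pos (by omega)] at h1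
      omega
    · rw [if_neg hk]
      rw [if_neg (by omega)] at h1
      omega
  obtain ⟨D, hDef⟩ : ∃ D : (Fin T ⊕ Fin c) ⊕ Fin (M 0 - z0) → ℤ, D = fun a => Sum.elim
    (fun a : Fin T ⊕ Fin c => Sum.elim (fun s : Fin T => ((p s : ℕ) : ℤ))
      (fun u : Fin c => -((L u : ℕ) : ℤ)) a) (fun _ => (0 : ℤ)) a := ⟨_, rfl⟩
  rw [← hDef] at hR
  have hcount : ∀ v : ℤ, (univ.filter fun a => D a = v).card =
      ((range T).filter fun s => (p s : ℤ) = v).card +
      ((range c).filter fun u => -(L u : ℤ) = v).card + if (0 : ℤ) = v then M 0 - z0 else 0 := by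
    intro v
    rw [card_filter, Fintype.sum_sum_type, Fintype.sum_sum_type, card_filter, card_filter,
      ← Fin.sum_univ_eq_sum_range (fun s => if (p s : ℤ) = v then 1 else 0),
      ← Fin.sum_univ_eq_sum_range (fun u => if -(L u : ℤ) = v then 1 else 0), hDef]
    congr 1
    show ∑ _k : Fin (M 0 - z0), (if (0 : ℤ) = v then 1 else 0) = _
    rw [sum_const, card_univ, Fintype.card_fin, smul_eq_mul]
    split_ifs <;> simp
  have hDr : ∀ a, ∃ i, d i = D a := by
    intro a
    refine (hran (D a)).1 ?_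
    rw [hDef]
    rcases a with (s | u) | k
    · have := hp2 s s.2
      show -(l : ℤ) ≤ ((p s : ℕ) : ℤ) ∧ ((p s : ℕ) : ℤ) ≤ r
      omega
    · have := hLr u u.2
      show -(l : ℤ) ≤ -((L u : ℕ) : ℤ) ∧ -((L u : ℕ) : ℤ) ≤ r
      omega
    · show -(l : ℤ) ≤ 0 ∧ (0 : ℤ) ≤ r
      omega
  have hDc : ∀ i, (univ.filter fun a => D a = d i).card = m i := by
    intro i
    rw [hcount, ← hMd]
    obtain ⟨hv1, hv2⟩ := (hran (d i)).2 ⟨i, rfl⟩
    generalize d i = v at hv1 hv2
    rcases lt_trichotomy v 0 with hv | hv | hv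
    · have h1 : ((range T).filter fun s => (p s : ℤ) = v) = ∅ := by
        refine filter_eq_empty_iff.2 fun s _ => ?_
        omega
      have h2 := hLc v.natAbs (mem_Icc.2 ⟨by omega, by omega⟩)
      have h3 : -((v.natAbs : ℕ) : ℤ) = v := by omega
      rw [h3] at h2
      have h4 : ((range c).filter fun u => -(L u : ℤ) = v) =
          (range c).filter fun u => L u = v.natAbs := by
        refine filter_congr fun u _ => ?_
        omega
      rw [h1, h4, h2, if_neg (by omega), card_empty]
      omega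
    · have h1 : ((range T).filter fun s => (p s : ℤ) = v) = ∅ := by
        refine filter_eq_empty_iff.2 fun s hs => ?_
        have := hp2 s (mem_range.1 hs)
        omega
      have h2 : ((range c).filter fun u => -(L u : ℤ) = v) =
          (range c).filter fun u => L u = 0 := by
        refine filter_congr fun u _ => ?_
        omega
      rw [h1, h2, hL0, if_pos hv.symm, hv, card_empty]
      omega
    · have h1 := hp3 v.natAbs (mem_Icc.2 ⟨by omega, by omega⟩)
      have h3 : ((v.natAbs : ℕ) : ℤ) = v := by omega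
      rw [h3] at h1
      have h4 : ((range T).filter fun s => (p s : ℤ) = v) =
          (range T).filter fun s => p s = v.natAbs := by
        refine filter_congr fun s _ => ?_
        omega
      have h2 : ((range c).filter fun u => -(L u : ℤ) = v) = ∅ := by
        refine filter_eq_empty_iff.2 fun u hu => ?_
        omega
      rw [h4, h1, h2, if_neg (by omega), card_empty]
      omega
  obtain ⟨φ, hφ⟩ := exists_equiv m d hinj D hDr hDc
  have hN : T + c + (M 0 - z0) = ∑ i, m i := by
    have h1 := Fintype.card_congr φ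
    rw [Fintype.card_sigma, Fintype.card_sum, Fintype.card_sum] at h1
    simp only [Fintype.card_fin] at h1
    exact h1.symm
  have h2 := rz_equiv hR φ
  rw [hN] at h2
  simpa only [hφ] using h2

end Pool.Agent.SLS.Half
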