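import Pool.Agent.SLS.Two

/-!
# At most four positive and at most three negative displacements (or conversely)

A permutation is a closed walk of landing states; closed walks for all minimal zero sum multisets
of displacements in `[-3, 4]` are inserted into one of two base walks.
-/

set_option autoImplicit false
namespace Pool.Agent.SLS.Three
open Finset

/-- the landing states met by a word of throws: bit `i` of the state says that the target at
distance `i` is taken, `none` if the word is not admissible -/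
def run : ℕ → List ℕ → Option ℕ
  | S, [] => some S
  | S, h :: w => if S.testBit h = false ∧ (S ||| 2 ^ h).testBit 0 = true then
      run ((S ||| 2 ^ h) >>> 1) w else none

theorem run_append (u v : List ℕ) (S T : ℕ) (h : run S u = some T) :
    run S (u ++ v) = run T v := by
  induction u generalizing S with
  | nil =>
    have : S = T := Option.some.inj h
    rw [this]
    rfl
  | cons a u ih =>
    rw [run] at h
    rw [List.cons_append, run]
    split_ifs at h ⊢ with h1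
    exact ih _ h

theorem run_spec (w : List ℕ) (S S' : ℕ) (h : run S w = some S') :
    (∀ x, (S.testBit x = true ∨ ∃ a < w.length, a + w.getD a 0 = x) ↔
      (x < w.length ∨ ∃ s, S'.testBit s = true ∧ x = s + w.length)) ∧
    (∀ a < w.length, S.testBit (a + w.getD a 0) = false) ∧
    (∀ a < w.length, ∀ b < w.length, a + w.getD a 0 = b + w.getD b 0 → a = b) := by
  induction w generalizing S with
  | nil =>
    have : S = S' := Option.some.inj h
    subst this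
    refine ⟨fun x => ?_, fun a ha => absurd ha (Nat.not_lt_zero a),
      fun a ha => absurd ha (Nat.not_lt_zero a)⟩
    constructor
    · rintro (h1 | ⟨a, ha, -⟩)
      · exact Or.inr ⟨x, h1, rfl⟩
      · exact absurd ha (Nat.not_lt_zero a)
    · rintro (h1 | ⟨s, h1, rfl⟩)
      · exact absurd h1 (Nat.not_lt_zero x)
      · exact Or.inl h1
  | cons k w ih =>
    rw [run] at h
    split_ifs at h with hk
    obtain ⟨hk1, hk2⟩ := hk
    obtain ⟨i1, i2, i3⟩ := ih _ h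
    have hU : ∀ x, (S ||| 2 ^ k).testBit x = true ↔ (S.testBit x = true ∨ k = x) := by
      intro x
      rw [Nat.testBit_or, Nat.testBit_two_pow]
      simp
    have hS1 : ∀ x, ((S ||| 2 ^ k) >>> 1).testBit x = (S ||| 2 ^ k).testBit (x + 1) := by
      intro x
      rw [Nat.testBit_shiftRight, Nat.add_comm]
    have hlen : (k :: w).length = w.length + 1 := rfl
    have hnot : ∀ a < w.length, ¬ (S ||| 2 ^ k).testBit (a + 1 + w.getD a 0) = true := by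
      intro a ha h1
      have h2 := i2 a ha
      rw [hS1, show a + w.getD a 0 + 1 = a + 1 + w.getD a 0 by omega, h1] at h2
      exact absurd h2 (by simp)
    refine ⟨fun x => ?_, fun a ha => ?_, fun a ha b hb hab => ?_⟩
    · rw [hlen]
      constructor
      · rintro (h1 | ⟨a, ha, h1⟩)
        · cases x with
          | zero => exact Or.inl (Nat.succ_pos _)
          | succ x =>
            have h2 := (i1 x).1 (Or.inl (by rw [hS1, hU]; exact Or.inl h1))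
            rcases h2 with h2 | ⟨s, h2, h3⟩
            · exact Or.inl (by omega)
            · exact Or.inr ⟨s, h2, by omega⟩
        · cases x with
          | zero => exact Or.inl (Nat.succ_pos _)
          | succ x =>
            have h2 : ((S ||| 2 ^ k) >>> 1).testBit x = true ∨
                ∃ a < w.length, a + w.getD a 0 = x := by
              cases a with
              | zero =>
                left
                rw [hS1, hU]
                right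
                rw [List.getD_cons_zero] at h1
                omega
              | succ a =>
                right
                rw [List.getD_cons_succ] at h1
                exact ⟨a, by omega, by omega⟩
            rcases (i1 x).1 h2 with h2 | ⟨s, h2, h3⟩
            · exact Or.inl (by omega)
            · exact Or.inr ⟨s, h2, by omega⟩
      · intro h1
        cases x with
        | zero =>
          rcases (hU 0).1 hk2 with h2 | h2
          · exact Or.inl h2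
          · exact Or.inr ⟨0, Nat.succ_pos _, by rw [List.getD_cons_zero]; omega⟩
        | succ x =>
          have h2 : x < w.length ∨ ∃ s, S'.testBit s = true ∧ x = s + w.length := by
            rcases h1 with h1 | ⟨s, h1, h3⟩
            · exact Or.inl (by omega)
            · exact Or.inr ⟨s, h1, by omega⟩
          rcases (i1 x).2 h2 with h3 | ⟨a, ha, h3⟩
          · rw [hS1, hU] at h3
            rcases h3 with h3 | h3
            · exact Or.inl h3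
            · exact Or.inr ⟨0, Nat.succ_pos _, by rw [List.getD_cons_zero]; omega⟩
          · exact Or.inr ⟨a + 1, by omega, by rw [List.getD_cons_succ]; omega⟩
    · cases a with
      | zero =>
        rw [List.getD_cons_zero, Nat.zero_add]
        exact hk1
      | succ a =>
        rw [List.getD_cons_succ]
        have h1 := hnot a (by rw [hlen] at ha; omega)
        rw [hU] at h1
        push Not at h1
        simpa using h1.1
    · rw [hlen] at ha hb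
      cases a with
      | zero =>
        cases b with
        | zero => rfl
        | succ b =>
          exfalso
          rw [List.getD_cons_zero, List.getD_cons_succ] at hab
          exact hnot b (by omega) ((hU _).2 (Or.inr (by omega)))
      | succ a =>
        cases b with
        | zero =>
          exfalso
          rw [List.getD_cons_zero, List.getD_cons_succ] at hab
          exact hnot a (by omega) ((hU _).2 (Or.inr (by omega)))
        | succ b =>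
          rw [List.getD_cons_succ, List.getD_cons_succ] at hab
          have := i3 a (by omega) b (by omega) (by omega)
          omega

theorem rz_word (w : List ℕ) (h : run 7 w = some 7) :
    Rz (fun a : Fin w.length => ((w.getD a 0 : ℕ) : ℤ) - 3) w.length := by
  obtain ⟨h1, h2, h3⟩ := run_spec w 7 7 h
  have h7 : ∀ x, (7 : ℕ).testBit x = true ↔ x < 3 := by
    intro x
    rw [show (7 : ℕ) = 2 ^ 3 - 1 from rfl, Nat.testBit_two_pow_sub_one]
    simp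
  refine ⟨fun a => a, ⟨fun a _ => a.2, fun a _ b _ hab => Fin.ext hab,
    fun x hx => ⟨⟨x, hx⟩, Set.mem_univ _, rfl⟩⟩, ⟨fun a _ => ?_, fun a _ b _ hab => ?_,
    fun v hv => ?_⟩⟩
  · have e1 : ¬ ((a : ℕ) + w.getD a 0) < 3 := by
      intro h4
      have h5 := h2 a a.2
      rw [(h7 _).2 h4] at h5
      exact absurd h5 (by simp)
    have e2 : (a : ℕ) + w.getD a 0 < w.length + 3 := by
      rcases (h1 _).1 (Or.inr ⟨a, a.2, rfl⟩) with h4 | ⟨s, h4, h5⟩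
      · omega
      · have := (h7 s).1 h4
        omega
    show 0 ≤ ((a : ℕ) : ℤ) + (((w.getD a 0 : ℕ) : ℤ) - 3) ∧
      ((a : ℕ) : ℤ) + (((w.getD a 0 : ℕ) : ℤ) - 3) < w.length
    omega
  · have h4 : ((a : ℕ) : ℤ) + (((w.getD a 0 : ℕ) : ℤ) - 3) =
      ((b : ℕ) : ℤ) + (((w.getD b 0 : ℕ) : ℤ) - 3) := hab
    exact Fin.ext (h3 a a.2 b b.2 (by omega))
  · have hv1 : 0 ≤ v ∧ v < w.length := hv
    have h4 : v.toNat + 3 < w.length ∨ ∃ s, (7 : ℕ).testBit s = true ∧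
        v.toNat + 3 = s + w.length := by
      by_cases h5 : v.toNat + 3 < w.length
      · exact Or.inl h5
      · exact Or.inr ⟨v.toNat + 3 - w.length, (h7 _).2 (by omega), by omega⟩
    rcases (h1 _).2 h4 with h5 | ⟨a, ha, h5⟩
    · have := (h7 _).1 h5
      omega
    · refine ⟨⟨a, ha⟩, Set.mem_univ _, ?_⟩
      show (a : ℤ) + (((w.getD a 0 : ℕ) : ℤ) - 3) = v
      omega

theorem cnt_word (w : List ℕ) (v : ℕ) :
    (univ.filter fun a : Fin w.length => w.getD a 0 = v).card = w.count v := by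
  rw [card_filter]
  induction w with
  | nil => simp
  | cons k w ih =>
    have h1 : ∑ a : Fin (k :: w).length, (if (k :: w).getD a 0 = v then 1 else 0) =
        ∑ a : Fin (w.length + 1), (if (k :: w).getD a 0 = v then 1 else 0) := rfl
    rw [h1, Fin.sum_univ_succ, List.count_cons]
    have h2 : ∑ a : Fin w.length, (if (k :: w).getD (a.succ : Fin (w.length + 1)) 0 = v then 1 else 0)
        = ∑ a : Fin w.length, (if w.getD a 0 = v then 1 else 0) :=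
      sum_congr rfl fun a _ => by rw [Fin.val_succ, List.getD_cons_succ]
    rw [h2, ih, Fin.val_zero, List.getD_cons_zero, add_comm]
    congr 1
    by_cases h3 : k = v <;> simp [h3]

/-- a closed walk at one of the four states `A j` with the throws counted by `a` -/
def Has (A : Fin 4 → ℕ) (a : List ℕ) : Prop :=
  ∃ j e, run (A j) e = some (A j) ∧ (∀ h ∈ e, h ≤ 7) ∧ ∀ v ≤ 7, e.count v = a.getD v 0

/-- closed walks at the four states `A j` with the throws counted by `c` -/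
def Loops (A : Fin 4 → ℕ) (c : ℕ → ℕ) : Prop :=
  ∃ L : Fin 4 → List ℕ, (∀ j, run (A j) (L j) = some (A j)) ∧ (∀ j, ∀ h ∈ L j, h ≤ 7) ∧
    ∀ v ≤ 7, ∑ j, (L j).count v = c v

theorem loops_add (A : Fin 4 → ℕ) (a : List ℕ) (h : Has A a) (c : ℕ → ℕ)
    (hc : ∀ v ≤ 7, a.getD v 0 ≤ c v) (hL : Loops A fun v => c v - a.getD v 0) : Loops A c := by
  obtain ⟨j, e, h1, h2, h3⟩ := h
  obtain ⟨L, l1, l2, l3⟩ := hL
  refine ⟨Function.update L j (e ++ L j), fun i => ?_, fun i => ?_, fun v hv => ?_⟩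
  · by_cases hi : i = j
    · subst hi
      rw [Function.update_self, run_append _ _ _ _ h1]
      exact l1 i
    · rw [Function.update_of_ne hi]
      exact l1 i
  · by_cases hi : i = j
    · subst hi
      rw [Function.update_self]
      intro x hx
      rcases List.mem_append.1 hx with hx | hx
      · exact h2 x hx
      · exact l2 i x hx
    · rw [Function.update_of_ne hi]
      exact l2 i
  · have e1 : ∀ i, (Function.update L j (e ++ L j) i).count v =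
        (L i).count v + if i = j then e.count v else 0 := by
      intro i
      by_cases hi : i = j
      · subst hi
        rw [Function.update_self, List.count_append, if_pos rfl, add_comm]
      · rw [Function.update_of_ne hi, if_neg hi, add_zero]
    rw [sum_congr rfl fun i _ => e1 i, sum_add_distrib, l3 v hv, sum_ite_eq' univ j, if_pos
      (mem_univ j), h3 v hv]
    exact Nat.sub_add_cancel (hc v hv)

theorem a1 (p4 n1 n2 n3 : ℕ) (hb : 4 * p4 = n1 + 2 * n2 + 3 * n3) (hp : 1 ≤ p4)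
    (q6 : ¬ (2 ≤ n2 ∧ 1 ≤ p4)) (q8 : ¬ (1 ≤ n3 ∧ 1 ≤ n1 ∧ 1 ≤ p4))
    (q10 : ¬ (1 ≤ n2 ∧ 2 ≤ n1 ∧ 1 ≤ p4)) (q16 : ¬ (4 ≤ n1 ∧ 1 ≤ p4))
    (q20 : ¬ (2 ≤ n3 ∧ 1 ≤ n2 ∧ 2 ≤ p4)) (q22 : ¬ (4 ≤ n3 ∧ 3 ≤ p4)) : False := by omega

theorem a2 (p2 p4 n1 n3 : ℕ) (hb : 2 * p2 + 4 * p4 = n1 + 3 * n3) (hp : 1 ≤ p2 + p4)
    (q3 : ¬ (2 ≤ n1 ∧ 1 ≤ p2)) (q8 : ¬ (1 ≤ n3 ∧ 1 ≤ n1 ∧ 1 ≤ p4))
    (q13 : ¬ (1 ≤ n3 ∧ 1 ≤ n1 ∧ 2 ≤ p2)) (q15 : ¬ (2 ≤ n3 ∧ 1 ≤ p2 ∧ 1 ≤ p4))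
    (q16 : ¬ (4 ≤ n1 ∧ 1 ≤ p4)) (q18 : ¬ (2 ≤ n3 ∧ 3 ≤ p2)) (q22 : ¬ (4 ≤ n3 ∧ 3 ≤ p4)) :
    False := by
  rcases Nat.eq_zero_or_pos p4 with h | h
  · subst h
    have h1 : n1 = 0 ∨ n1 = 1 := by omega
    rcases h1 with h1 | h1 <;> subst h1
    · have h2 : n3 ≤ 1 ∨ p2 ≤ 2 := by omega
      omega
    · have h2 : n3 = 0 ∨ p2 ≤ 1 := by omega
      omega
  · have h1 : n3 = 0 ∨ n1 = 0 := by omega
    rcases h1 with h1 | h1 <;> subst h1
    · omega
    · have h2 : 2 ≤ n3 := by omega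
      have h3 : p2 = 0 := by omega
      subst h3
      omega

theorem a3 (p1 p4 n2 n3 : ℕ) (hb : p1 + 4 * p4 = 2 * n2 + 3 * n3) (hp : 1 ≤ p1 + p4)
    (q4 : ¬ (1 ≤ n2 ∧ 2 ≤ p1)) (q6 : ¬ (2 ≤ n2 ∧ 1 ≤ p4)) (q12 : ¬ (1 ≤ n3 ∧ 3 ≤ p1))
    (q14 : ¬ (1 ≤ n3 ∧ 1 ≤ n2 ∧ 1 ≤ p1 ∧ 1 ≤ p4)) (q19 : ¬ (2 ≤ n3 ∧ 2 ≤ p1 ∧ 1 ≤ p4))
    (q20 : ¬ (2 ≤ n3 ∧ 1 ≤ n2 ∧ 2 ≤ p4)) (q21 : ¬ (3 ≤ n3 ∧ 1 ≤ p1 ∧ 2 ≤ p4))
    (q22 : ¬ (4 ≤ n3 ∧ 3 ≤ p4)) : False := by
  rcases Nat.eq_zero_or_pos p4 with h | h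
  · subst h
    rcases Nat.eq_zero_or_pos n2 with h1 | h1
    · subst h1
      omega
    · have h2 : p1 ≤ 1 := by omega
      omega
  · have h1 : n2 = 0 ∨ n2 = 1 := by omega
    rcases h1 with h1 | h1 <;> subst h1
    · have h2 : 2 ≤ n3 := by omega
      have h3 : p1 = 0 ∨ p1 = 1 := by omega
      rcases h3 with h3 | h3 <;> subst h3 <;> omega
    · have h3 : p1 = 0 ∨ p1 = 1 := by omega
      rcases h3 with h3 | h3 <;> subst h3
      · have h4 : 2 ≤ n3 := by omega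
        omega
      · have h4 : n3 = 0 := by omega
        omega

theorem a4 (p1 p2 p4 n3 : ℕ) (hb : p1 + 2 * p2 + 4 * p4 = 3 * n3) (hp : 1 ≤ p1 + p2 + p4)
    (q7 : ¬ (1 ≤ n3 ∧ 1 ≤ p1 ∧ 1 ≤ p2)) (q12 : ¬ (1 ≤ n3 ∧ 3 ≤ p1))
    (q15 : ¬ (2 ≤ n3 ∧ 1 ≤ p2 ∧ 1 ≤ p4)) (q18 : ¬ (2 ≤ n3 ∧ 3 ≤ p2))
    (q19 : ¬ (2 ≤ n3 ∧ 2 ≤ p1 ∧ 1 ≤ p4)) (q21 : ¬ (3 ≤ n3 ∧ 1 ≤ p1 ∧ 2 ≤ p4))
    (q22 : ¬ (4 ≤ n3 ∧ 3 ≤ p4)) : False := by
  have h0 : 1 ≤ n3 := by omega
  have h1 : p1 = 0 ∨ p1 = 1 ∨ p1 = 2 := by omega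
  rcases h1 with h1 | h1 | h1 <;> subst h1
  · rcases Nat.eq_zero_or_pos p2 with h2 | h2
    · subst h2
      omega
    · rcases Nat.eq_zero_or_pos p4 with h3 | h3
      · subst h3
        have h4 : n3 ≤ 1 ∨ p2 ≤ 2 := by omega
        omega
      · omega
  · have h2 : p2 = 0 := by omega
    subst h2
    have h3 : n3 ≤ 2 ∨ p4 ≤ 1 := by omega
    omega
  · have h2 : p2 = 0 := by omega
    subst h2
    rcases Nat.eq_zero_or_pos p4 with h3 | h3
    · subst h3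
      omega
    · omega

theorem a5 (p3 p4 n1 n2 : ℕ) (hb : 3 * p3 + 4 * p4 = n1 + 2 * n2) (hp : 1 ≤ p3 + p4)
    (q5 : ¬ (1 ≤ n2 ∧ 1 ≤ n1 ∧ 1 ≤ p3)) (q6 : ¬ (2 ≤ n2 ∧ 1 ≤ p4)) (q9 : ¬ (3 ≤ n1 ∧ 1 ≤ p3))
    (q10 : ¬ (1 ≤ n2 ∧ 2 ≤ n1 ∧ 1 ≤ p4)) (q16 : ¬ (4 ≤ n1 ∧ 1 ≤ p4))
    (q17 : ¬ (3 ≤ n2 ∧ 2 ≤ p3)) : False := by
  rcases Nat.eq_zero_or_pos p3 with h | h
  · subst h
    omega
  · have h1 : n1 ≤ 2 := by omega
    rcases Nat.eq_zero_or_pos n1 with h2 | h2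
    · subst h2
      rcases Nat.eq_zero_or_pos p4 with h3 | h3
      · subst h3
        omega
      · omega
    · have h3 : n2 = 0 := by omega
      omega

theorem a6 (p2 p3 p4 n1 : ℕ) (hb : 2 * p2 + 3 * p3 + 4 * p4 = n1) (hp : 1 ≤ p2 + p3 + p4)
    (q3 : ¬ (2 ≤ n1 ∧ 1 ≤ p2)) (q9 : ¬ (3 ≤ n1 ∧ 1 ≤ p3)) (q16 : ¬ (4 ≤ n1 ∧ 1 ≤ p4)) :
    False := by omega

theorem a7 (p1 p3 p4 n2 : ℕ) (hb : p1 + 3 * p3 + 4 * p4 = 2 * n2) (hp : 1 ≤ p1 + p3 + p4)
    (q4 : ¬ (1 ≤ n2 ∧ 2 ≤ p1)) (q6 : ¬ (2 ≤ n2 ∧ 1 ≤ p4))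
    (q11 : ¬ (2 ≤ n2 ∧ 1 ≤ p1 ∧ 1 ≤ p3)) (q17 : ¬ (3 ≤ n2 ∧ 2 ≤ p3)) : False := by
  have h1 : p1 = 0 ∨ p1 = 1 := by omega
  rcases h1 with h1 | h1 <;> subst h1
  · rcases Nat.eq_zero_or_pos p4 with h3 | h3
    · subst h3
      omega
    · omega
  · rcases Nat.eq_zero_or_pos p3 with h3 | h3
    · subst h3
      omega
    · omega

theorem pz (a b : ℕ) (h : ¬ (1 ≤ a ∧ 1 ≤ b)) : b = 0 ∨ a = 0 := by omega

theorem fin (p1 p2 p3 p4 n1 n2 n3 : ℕ)
    (hb : p1 + 2 * p2 + 3 * p3 + 4 * p4 = n1 + 2 * n2 + 3 * n3) (tot : 1 ≤ p1 + p2 + p3 + p4)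
    (q0 : p3 = 0 ∨ n3 = 0) (r1 : p1 = 0 ∨ n1 = 0) (r2 : p2 = 0 ∨ n2 = 0)
    (q3 : ¬ (2 ≤ n1 ∧ 1 ≤ p2))
    (q4 : ¬ (1 ≤ n2 ∧ 2 ≤ p1))
    (q5 : ¬ (1 ≤ n2 ∧ 1 ≤ n1 ∧ 1 ≤ p3))
    (q6 : ¬ (2 ≤ n2 ∧ 1 ≤ p4))
    (q7 : ¬ (1 ≤ n3 ∧ 1 ≤ p1 ∧ 1 ≤ p2))
    (q8 : ¬ (1 ≤ n3 ∧ 1 ≤ n1 ∧ 1 ≤ p4))
    (q9 : ¬ (3 ≤ n1 ∧ 1 ≤ p3))
    (q10 : ¬ (1 ≤ n2 ∧ 2 ≤ n1 ∧ 1 ≤ p4))
    (q11 : ¬ (2 ≤ n2 ∧ 1 ≤ p1 ∧ 1 ≤ p3))
    (q12 : ¬ (1 ≤ n3 ∧ 3 ≤ p1))
    (q13 : ¬ (1 ≤ n3 ∧ 1 ≤ n1 ∧ 2 ≤ p2))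
    (q14 : ¬ (1 ≤ n3 ∧ 1 ≤ n2 ∧ 1 ≤ p1 ∧ 1 ≤ p4))
    (q15 : ¬ (2 ≤ n3 ∧ 1 ≤ p2 ∧ 1 ≤ p4))
    (q16 : ¬ (4 ≤ n1 ∧ 1 ≤ p4))
    (q17 : ¬ (3 ≤ n2 ∧ 2 ≤ p3))
    (q18 : ¬ (2 ≤ n3 ∧ 3 ≤ p2))
    (q19 : ¬ (2 ≤ n3 ∧ 2 ≤ p1 ∧ 1 ≤ p4))
    (q20 : ¬ (2 ≤ n3 ∧ 1 ≤ n2 ∧ 2 ≤ p4))
    (q21 : ¬ (3 ≤ n3 ∧ 1 ≤ p1 ∧ 2 ≤ p4))
    (q22 : ¬ (4 ≤ n3 ∧ 3 ≤ p4)) : False := by
  rcases q0 with s0 | s0 <;> subst s0
  · rcases r1 with s1 | s1 <;> subst s1
    · rcases r2 with s2 | s2 <;> subst s2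
      · exact a1 p4 n1 n2 n3 (by linarith) (by linarith) q6 q8 q10 q16 q20 q22
      · exact a2 p2 p4 n1 n3 (by linarith) (by linarith) q3 q8 q13 q15 q16 q18 q22
    · rcases r2 with s2 | s2 <;> subst s2
      · exact a3 p1 p4 n2 n3 (by linarith) (by linarith) q4 q6 q12 q14 q19 q20 q21 q22
      · exact a4 p1 p2 p4 n3 (by linarith) (by linarith) q7 q12 q15 q18 q19 q21 q22
  · rcases r1 with s1 | s1 <;> subst s1
    · rcases r2 with s2 | s2 <;> subst s2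
      · exact a5 p3 p4 n1 n2 (by linarith) (by linarith) q5 q6 q9 q10 q16 q17
      · exact a6 p2 p3 p4 n1 (by linarith) (by linarith) q3 q9 q16
    · rcases r2 with s2 | s2 <;> subst s2
      · exact a7 p1 p3 p4 n2 (by linarith) (by linarith) q4 q6 q11 q17
      · linarith

/-- **decomposition into minimal zero sum multisets** -/
theorem decomp (A : Fin 4 → ℕ) (hA : A 0 = 7)
    (h1 : Has A [0, 0, 1, 0, 1, 0, 0, 0])
    (h2 : Has A [0, 1, 0, 0, 0, 1, 0, 0])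
    (h3 : Has A [0, 0, 2, 0, 0, 1, 0, 0])
    (h4 : Has A [0, 1, 0, 0, 2, 0, 0, 0])
    (h5 : Has A [0, 1, 1, 0, 0, 0, 1, 0])
    (h6 : Has A [0, 2, 0, 0, 0, 0, 0, 1])
    (h7 : Has A [1, 0, 0, 0, 1, 1, 0, 0])
    (h8 : Has A [1, 0, 1, 0, 0, 0, 0, 1])
    (h9 : Has A [0, 0, 3, 0, 0, 0, 1, 0])
    (h10 : Has A [0, 1, 2, 0, 0, 0, 0, 1])
    (h11 : Has A [0, 2, 0, 0, 1, 0, 1, 0])
    (h12 : Has A [1, 0, 0, 0, 3, 0, 0, 0])
    (h13 : Has A [1, 0, 1, 0, 0, 2, 0, 0])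
    (h14 : Has A [1, 1, 0, 0, 1, 0, 0, 1])
    (h15 : Has A [2, 0, 0, 0, 0, 1, 0, 1])
    (h16 : Has A [0, 0, 4, 0, 0, 0, 0, 1])
    (h17 : Has A [0, 3, 0, 0, 0, 0, 2, 0])
    (h18 : Has A [2, 0, 0, 0, 0, 3, 0, 0])
    (h19 : Has A [2, 0, 0, 0, 2, 0, 0, 1])
    (h20 : Has A [2, 1, 0, 0, 0, 0, 0, 2])
    (h21 : Has A [3, 0, 0, 0, 1, 0, 0, 2])
    (h22 : Has A [4, 0, 0, 0, 0, 0, 0, 3])
    (n : ℕ) (c : ℕ → ℕ) (hn : c 4 + c 5 + c 6 + c 7 = n)
    (hb : c 4 + 2 * c 5 + 3 * c 6 + 4 * c 7 = c 2 + 2 * c 1 + 3 * c 0)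
    (h0 : c 6 = 0 ∨ c 0 = 0 ∨ Has A [1, 0, 0, 0, 0, 0, 1, 0]) : Loops A c := by
  induction n using Nat.strong_induction_on generalizing c with
  | _ n ih =>
    have key : ∀ a0 a1 a2 a4 a5 a6 a7 : ℕ, Has A [a0, a1, a2, 0, a4, a5, a6, a7] →
        1 ≤ a4 + a5 + a6 + a7 → a4 + 2 * a5 + 3 * a6 + 4 * a7 = a2 + 2 * a1 + 3 * a0 →
        a0 ≤ c 0 ∧ a1 ≤ c 1 ∧ a2 ≤ c 2 ∧ a4 ≤ c 4 ∧ a5 ≤ c 5 ∧ a6 ≤ c 6 ∧ a7 ≤ c 7 →
        Loops A c := by
      rintro a0 a1 a2 a4 a5 a6 a7 h hp hab ⟨b0, b1, b2, b4, b5, b6, b7⟩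
      refine loops_add A _ h c ?_ (ih (c 4 + c 5 + c 6 + c 7 - (a4 + a5 + a6 + a7)) (by omega)
        _ ?_ ?_ ?_)
      · intro v hv
        interval_cases v
        · exact b0
        · exact b1
        · exact b2
        · exact Nat.zero_le _
        · exact b4
        · exact b5
        · exact b6
        · exact b7
      · show c 4 - a4 + (c 5 - a5) + (c 6 - a6) + (c 7 - a7) = _
        omega
      · show c 4 - a4 + 2 * (c 5 - a5) + 3 * (c 6 - a6) + 4 * (c 7 - a7) =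
          c 2 - a2 + 2 * (c 1 - a1) + 3 * (c 0 - a0)
        omega
      · rcases h0 with h0 | h0 | h0
        · left
          show c 6 - a6 = 0
          omega
        · right
          left
          show c 0 - a0 = 0
          omega
        · exact Or.inr (Or.inr h0)
    rcases Nat.eq_zero_or_pos n with hz | hpos
    · refine ⟨fun j => if j = 0 then List.replicate (c 3) 3 else [], fun j => ?_, fun j => ?_,
        fun v hv => ?_⟩
      · by_cases hj : j = 0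
        · subst hj
          rw [hA]
          show run 7 (List.replicate (c 3) 3) = some 7
          generalize c 3 = k
          induction k with
          | zero => rfl
          | succ k ihk => exact ihk
        · show run (A j) (if j = 0 then List.replicate (c 3) 3 else []) = some (A j)
          rw [if_neg hj]
          rfl
      · show ∀ h ∈ (if j = 0 then List.replicate (c 3) 3 else []), h ≤ 7
        by_cases hj : j = 0
        · rw [if_pos hj]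
          intro x hx
          rw [List.eq_of_mem_replicate hx]
          norm_num
        · rw [if_neg hj]
          intro x hx
          exact absurd hx List.not_mem_nil
      · rw [Fin.sum_univ_four]
        show (List.replicate (c 3) 3).count v + ([] : List ℕ).count v + ([] : List ℕ).count v +
          ([] : List ℕ).count v = c v
        rw [List.count_replicate]
        interval_cases v <;> simp <;> omega
    · by_contra hno
      have q1 : ¬ (1 ≤ c 2 ∧ 1 ≤ c 4) := fun hh => hno (key 0 0 1 1 0 0 0 h1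
        (by norm_num) (by norm_num) ⟨Nat.zero_le _, Nat.zero_le _, hh.1, hh.2, Nat.zero_le _, Nat.zero_le _, Nat.zero_le _⟩)
      have q2 : ¬ (1 ≤ c 1 ∧ 1 ≤ c 5) := fun hh => hno (key 0 1 0 0 1 0 0 h2
        (by norm_num) (by norm_num) ⟨Nat.zero_le _, hh.1, Nat.zero_le _, Nat.zero_le _, hh.2, Nat.zero_le _, Nat.zero_le _⟩)
      have q3 : ¬ (2 ≤ c 2 ∧ 1 ≤ c 5) := fun hh => hno (key 0 0 2 0 1 0 0 h3
        (by norm_num) (by norm_num) ⟨Nat.zero_le _, Nat.zero_le _, hh.1, Nat.zero_le _, hh.2, Nat.zero_le _, Nat.zero_le _⟩)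
      have q4 : ¬ (1 ≤ c 1 ∧ 2 ≤ c 4) := fun hh => hno (key 0 1 0 2 0 0 0 h4
        (by norm_num) (by norm_num) ⟨Nat.zero_le _, hh.1, Nat.zero_le _, hh.2, Nat.zero_le _, Nat.zero_le _, Nat.zero_le _⟩)
      have q5 : ¬ (1 ≤ c 1 ∧ 1 ≤ c 2 ∧ 1 ≤ c 6) := fun hh => hno (key 0 1 1 0 0 1 0 h5
        (by norm_num) (by norm_num) ⟨Nat.zero_le _, hh.1, hh.2.1, Nat.zero_le _, Nat.zero_le _, hh.2.2, Nat.zero_le _⟩)
      have q6 : ¬ (2 ≤ c 1 ∧ 1 ≤ c 7) := fun hh => hno (key 0 2 0 0 0 0 1 h6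
        (by norm_num) (by norm_num) ⟨Nat.zero_le _, hh.1, Nat.zero_le _, Nat.zero_le _, Nat.zero_le _, Nat.zero_le _, hh.2⟩)
      have q7 : ¬ (1 ≤ c 0 ∧ 1 ≤ c 4 ∧ 1 ≤ c 5) := fun hh => hno (key 1 0 0 1 1 0 0 h7
        (by norm_num) (by norm_num) ⟨hh.1, Nat.zero_le _, Nat.zero_le _, hh.2.1, hh.2.2, Nat.zero_le _, Nat.zero_le _⟩)
      have q8 : ¬ (1 ≤ c 0 ∧ 1 ≤ c 2 ∧ 1 ≤ c 7) := fun hh => hno (key 1 0 1 0 0 0 1 h8
        (by norm_num) (by norm_num) ⟨hh.1, Nat.zero_le _, hh.2.1, Nat.zero_le _, Nat.zero_le _, Nat.zero_le _, hh.2.2⟩)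
      have q9 : ¬ (3 ≤ c 2 ∧ 1 ≤ c 6) := fun hh => hno (key 0 0 3 0 0 1 0 h9
        (by norm_num) (by norm_num) ⟨Nat.zero_le _, Nat.zero_le _, hh.1, Nat.zero_le _, Nat.zero_le _, hh.2, Nat.zero_le _⟩)
      have q10 : ¬ (1 ≤ c 1 ∧ 2 ≤ c 2 ∧ 1 ≤ c 7) := fun hh => hno (key 0 1 2 0 0 0 1 h10
        (by norm_num) (by norm_num) ⟨Nat.zero_le _, hh.1, hh.2.1, Nat.zero_le _, Nat.zero_le _, Nat.zero_le _, hh.2.2⟩)
      have q11 : ¬ (2 ≤ c 1 ∧ 1 ≤ c 4 ∧ 1 ≤ c 6) := fun hh => hno (key 0 2 0 1 0 1 0 h11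
        (by norm_num) (by norm_num) ⟨Nat.zero_le _, hh.1, Nat.zero_le _, hh.2.1, Nat.zero_le _, hh.2.2, Nat.zero_le _⟩)
      have q12 : ¬ (1 ≤ c 0 ∧ 3 ≤ c 4) := fun hh => hno (key 1 0 0 3 0 0 0 h12
        (by norm_num) (by norm_num) ⟨hh.1, Nat.zero_le _, Nat.zero_le _, hh.2, Nat.zero_le _, Nat.zero_le _, Nat.zero_le _⟩)
      have q13 : ¬ (1 ≤ c 0 ∧ 1 ≤ c 2 ∧ 2 ≤ c 5) := fun hh => hno (key 1 0 1 0 2 0 0 h13
        (by norm_num) (by norm_num) ⟨hh.1, Nat.zero_le _, hh.2.1, Nat.zero_le _, hh.2.2, Nat.zero_le _, Nat.zero_le _⟩)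
      have q14 : ¬ (1 ≤ c 0 ∧ 1 ≤ c 1 ∧ 1 ≤ c 4 ∧ 1 ≤ c 7) := fun hh => hno (key 1 1 0 1 0 0 1 h14
        (by norm_num) (by norm_num) ⟨hh.1, hh.2.1, Nat.zero_le _, hh.2.2.1, Nat.zero_le _, Nat.zero_le _, hh.2.2.2⟩)
      have q15 : ¬ (2 ≤ c 0 ∧ 1 ≤ c 5 ∧ 1 ≤ c 7) := fun hh => hno (key 2 0 0 0 1 0 1 h15
        (by norm_num) (by norm_num) ⟨hh.1, Nat.zero_le _, Nat.zero_le _, Nat.zero_le _, hh.2.1, Nat.zero_le _, hh.2.2⟩)
      have q16 : ¬ (4 ≤ c 2 ∧ 1 ≤ c 7) := fun hh => hno (key 0 0 4 0 0 0 1 h16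
        (by norm_num) (by norm_num) ⟨Nat.zero_le _, Nat.zero_le _, hh.1, Nat.zero_le _, Nat.zero_le _, Nat.zero_le _, hh.2⟩)
      have q17 : ¬ (3 ≤ c 1 ∧ 2 ≤ c 6) := fun hh => hno (key 0 3 0 0 0 2 0 h17
        (by norm_num) (by norm_num) ⟨Nat.zero_le _, hh.1, Nat.zero_le _, Nat.zero_le _, Nat.zero_le _, hh.2, Nat.zero_le _⟩)
      have q18 : ¬ (2 ≤ c 0 ∧ 3 ≤ c 5) := fun hh => hno (key 2 0 0 0 3 0 0 h18
        (by norm_num) (by norm_num) ⟨hh.1, Nat.zero_le _, Nat.zero_le _, Nat.zero_le _, hh.2, Nat.zero_le _, Nat.zero_le _⟩)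
      have q19 : ¬ (2 ≤ c 0 ∧ 2 ≤ c 4 ∧ 1 ≤ c 7) := fun hh => hno (key 2 0 0 2 0 0 1 h19
        (by norm_num) (by norm_num) ⟨hh.1, Nat.zero_le _, Nat.zero_le _, hh.2.1, Nat.zero_le _, Nat.zero_le _, hh.2.2⟩)
      have q20 : ¬ (2 ≤ c 0 ∧ 1 ≤ c 1 ∧ 2 ≤ c 7) := fun hh => hno (key 2 1 0 0 0 0 2 h20
        (by norm_num) (by norm_num) ⟨hh.1, hh.2.1, Nat.zero_le _, Nat.zero_le _, Nat.zero_le _, Nat.zero_le _, hh.2.2⟩)
      have q21 : ¬ (3 ≤ c 0 ∧ 1 ≤ c 4 ∧ 2 ≤ c 7) := fun hh => hno (key 3 0 0 1 0 0 2 h21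
        (by norm_num) (by norm_num) ⟨hh.1, Nat.zero_le _, Nat.zero_le _, hh.2.1, Nat.zero_le _, Nat.zero_le _, hh.2.2⟩)
      have q22 : ¬ (4 ≤ c 0 ∧ 3 ≤ c 7) := fun hh => hno (key 4 0 0 0 0 0 3 h22
        (by norm_num) (by norm_num) ⟨hh.1, Nat.zero_le _, Nat.zero_le _, Nat.zero_le _, Nat.zero_le _, Nat.zero_le _, hh.2⟩)
      have q0 : c 6 = 0 ∨ c 0 = 0 := by
        rcases h0 with h0 | h0 | h0
        · exact Or.inl h0
        · exact Or.inr h0
        · by_contra hcon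
          exact hno (key 1 0 0 0 0 1 0 h0 (by norm_num) (by norm_num)
            ⟨Nat.one_le_iff_ne_zero.2 fun h => hcon (Or.inr h), Nat.zero_le _, Nat.zero_le _,
              Nat.zero_le _, Nat.zero_le _, Nat.one_le_iff_ne_zero.2 fun h => hcon (Or.inl h),
              Nat.zero_le _⟩)
      have tot : 1 ≤ c 4 + c 5 + c 6 + c 7 := by
        rw [hn]
        exact hpos
      exact fin (c 4) (c 5) (c 6) (c 7) (c 2) (c 1) (c 0) hb tot q0 (pz _ _ q1) (pz _ _ q2)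
        q3 q4 q5 q6 q7 q8 q9 q10 q11 q12 q13 q14 q15 q16 q17 q18 q19 q20 q21 q22

/-- from loops to a word -/
theorem word_of_loops (A : Fin 4 → ℕ) (g : Fin 4 → List ℕ) (hA : A 0 = 7)
    (hg0 : run (A 0) (g 0) = some (A 1)) (hg1 : run (A 1) (g 1) = some (A 2))
    (hg2 : run (A 2) (g 2) = some (A 3)) (hg3 : run (A 3) (g 3) = some (A 0))
    (hg : ∀ j, ∀ h ∈ g j, h ≤ 7) (c : ℕ → ℕ) (hL : Loops A c) :
    ∃ w : List ℕ, run 7 w = some 7 ∧ (∀ h ∈ w, h ≤ 7) ∧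
      ∀ v ≤ 7, w.count v = c v + ∑ j, (g j).count v := by
  obtain ⟨L, l1, l2, l3⟩ := hL
  refine ⟨L 0 ++ (g 0 ++ (L 1 ++ (g 1 ++ (L 2 ++ (g 2 ++ (L 3 ++ g 3)))))), ?_, ?_, ?_⟩
  · rw [← hA, run_append _ _ _ _ (l1 0), run_append _ _ _ _ hg0, run_append _ _ _ _ (l1 1),
      run_append _ _ _ _ hg1, run_append _ _ _ _ (l1 2), run_append _ _ _ _ hg2,
      run_append _ _ _ _ (l1 3), hg3]
  · intro h hh
    simp only [List.mem_append] at hh
    rcases hh with hh | hh | hh | hh | hh | hh | hh | hh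
    · exact l2 _ _ hh
    · exact hg _ _ hh
    · exact l2 _ _ hh
    · exact hg _ _ hh
    · exact l2 _ _ hh
    · exact hg _ _ hh
    · exact l2 _ _ hh
    · exact hg _ _ hh
  · intro v hv
    rw [← l3 v hv, Fin.sum_univ_four, Fin.sum_univ_four]
    simp only [List.count_append]
    ring

/-- the states of the first base word, displacements `1, 3, -2, 2, -1, -3` -/
def A1 : Fin 4 → ℕ := ![7, 11, 37, 19]

/-- the states of the second base word, displacements `3, -1, 3, -2, 2, -3, 1, -3` -/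
def A2 : Fin 4 → ℕ := ![7, 19, 21, 13]

theorem loops1 (c : ℕ → ℕ) (hb : c 4 + 2 * c 5 + 3 * c 6 + 4 * c 7 = c 2 + 2 * c 1 + 3 * c 0)
    (h0 : c 6 = 0 ∨ c 0 = 0) : Loops A1 c :=
  decomp A1 rfl
    ⟨0, [4, 2], by decide, by decide, by decide⟩
    ⟨1, [5, 1], by decide, by decide, by decide⟩
    ⟨0, [5, 2, 2], by decide, by decide, by decide⟩
    ⟨0, [4, 4, 1], by decide, by decide, by decide⟩
    ⟨1, [6, 1, 2], by decide, by decide, by decide⟩
    ⟨2, [1, 7, 1], by decide, by decide, by decide⟩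
    ⟨1, [4, 5, 0], by decide, by decide, by decide⟩
    ⟨3, [7, 2, 0], by decide, by decide, by decide⟩
    ⟨0, [6, 2, 2, 2], by decide, by decide, by decide⟩
    ⟨1, [7, 1, 2, 2], by decide, by decide, by decide⟩
    ⟨0, [6, 4, 1, 1], by decide, by decide, by decide⟩
    ⟨0, [4, 4, 4, 0], by decide, by decide, by decide⟩
    ⟨0, [5, 5, 2, 0], by decide, by decide, by decide⟩
    ⟨1, [7, 4, 0, 1], by decide, by decide, by decide⟩
    ⟨3, [5, 7, 0, 0], by decide, by decide, by decide⟩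
    ⟨0, [7, 2, 2, 2, 2], by decide, by decide, by decide⟩
    ⟨0, [6, 6, 1, 1, 1], by decide, by decide, by decide⟩
    ⟨0, [5, 5, 5, 0, 0], by decide, by decide, by decide⟩
    ⟨0, [7, 4, 4, 0, 0], by decide, by decide, by decide⟩
    ⟨2, [7, 0, 1, 7, 0], by decide, by decide, by decide⟩
    ⟨0, [7, 7, 4, 0, 0, 0], by decide, by decide, by decide⟩
    ⟨0, [7, 7, 7, 0, 0, 0, 0], by decide, by decide, by decide⟩
    _ c rfl hb (by rcases h0 with h | h; exacts [Or.inl h, Or.inr (Or.inl h)])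

theorem loops2 (c : ℕ → ℕ) (hb : c 4 + 2 * c 5 + 3 * c 6 + 4 * c 7 = c 2 + 2 * c 1 + 3 * c 0) :
    Loops A2 c :=
  decomp A2 rfl
    ⟨0, [4, 2], by decide, by decide, by decide⟩
    ⟨2, [1, 5], by decide, by decide, by decide⟩
    ⟨0, [5, 2, 2], by decide, by decide, by decide⟩
    ⟨0, [4, 4, 1], by decide, by decide, by decide⟩
    ⟨1, [2, 6, 1], by decide, by decide, by decide⟩
    ⟨1, [7, 1, 1], by decide, by decide, by decide⟩
    ⟨3, [5, 0, 4], by decide, by decide, by decide⟩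
    ⟨1, [7, 2, 0], by decide, by decide, by decide⟩
    ⟨0, [6, 2, 2, 2], by decide, by decide, by decide⟩
    ⟨1, [2, 7, 1, 2], by decide, by decide, by decide⟩
    ⟨0, [6, 4, 1, 1], by decide, by decide, by decide⟩
    ⟨0, [4, 4, 4, 0], by decide, by decide, by decide⟩
    ⟨0, [5, 5, 2, 0], by decide, by decide, by decide⟩
    ⟨2, [1, 7, 4, 0], by decide, by decide, by decide⟩
    ⟨1, [5, 7, 0, 0], by decide, by decide, by decide⟩
    ⟨0, [7, 2, 2, 2, 2], by decide, by decide, by decide⟩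
    ⟨0, [6, 6, 1, 1, 1], by decide, by decide, by decide⟩
    ⟨0, [5, 5, 5, 0, 0], by decide, by decide, by decide⟩
    ⟨0, [7, 4, 4, 0, 0], by decide, by decide, by decide⟩
    ⟨2, [7, 0, 7, 0, 1], by decide, by decide, by decide⟩
    ⟨0, [7, 7, 4, 0, 0, 0], by decide, by decide, by decide⟩
    ⟨0, [7, 7, 7, 0, 0, 0, 0], by decide, by decide, by decide⟩
    _ c rfl hb (Or.inr (Or.inr ⟨2, [6, 0], by decide, by decide, by decide⟩))

/-- **a word with prescribed numbers of throws** -/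
theorem exists_word (c : ℕ → ℕ) (hc : ∀ v ≤ 6, 1 ≤ c v)
    (hb : c 4 + 2 * c 5 + 3 * c 6 + 4 * c 7 = c 2 + 2 * c 1 + 3 * c 0) :
    ∃ w : List ℕ, run 7 w = some 7 ∧ (∀ h ∈ w, h ≤ 7) ∧ ∀ v ≤ 7, w.count v = c v := by
  have c0 := hc 0 (by norm_num)
  have c1 := hc 1 (by norm_num)
  have c2 := hc 2 (by norm_num)
  have c4 := hc 4 (by norm_num)
  have c5 := hc 5 (by norm_num)
  have c6 := hc 6 (by norm_num)
  by_cases h : 2 ≤ c 6 ∧ 2 ≤ c 0
  · obtain ⟨w, w1, w2, w3⟩ := word_of_loops A2 ![[6, 2], [6, 1], [5, 0], [4, 0]] rfl (by decide)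
      (by decide) (by decide) (by decide) (by decide)
      (fun v => c v - [2, 1, 1, 0, 1, 1, 2, 0].getD v 0) (loops2 _ (by
        show c 4 - 1 + 2 * (c 5 - 1) + 3 * (c 6 - 2) + 4 * (c 7 - 0) =
          c 2 - 1 + 2 * (c 1 - 1) + 3 * (c 0 - 2)
        omega))
    refine ⟨w, w1, w2, fun v hv => ?_⟩
    rw [w3 v hv, Fin.sum_univ_four]
    interval_cases v <;> simp <;> omega
  · obtain ⟨w, w1, w2, w3⟩ := word_of_loops A1 ![[4], [6], [1], [5, 2, 0]] rfl (by decide)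
      (by decide) (by decide) (by decide) (by decide)
      (fun v => c v - [1, 1, 1, 0, 1, 1, 1, 0].getD v 0) (loops1 _ (by
        show c 4 - 1 + 2 * (c 5 - 1) + 3 * (c 6 - 1) + 4 * (c 7 - 0) =
          c 2 - 1 + 2 * (c 1 - 1) + 3 * (c 0 - 1)
        omega) (by
        show c 6 - 1 = 0 ∨ c 0 - 1 = 0
        omega))
    refine ⟨w, w1, w2, fun v hv => ?_⟩
    rw [w3 v hv, Fin.sum_univ_four]
    interval_cases v <;> simp <;> omega

/-- negative values `-1, -2, -3` and at most four positive ones -/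
theorem core_three {t : ℕ} (m : Fin t → ℕ) (d : Fin t → ℤ) (r : ℕ) (hr : r = 3 ∨ r = 4)
    (hinj : Function.Injective d)
    (hran : ∀ z : ℤ, (-(3 : ℕ) ≤ z ∧ z ≤ r) ↔ ∃ i, d i = z)
    (hm1 : ∀ i, 1 ≤ m i) (hs : ∑ i, (m i : ℤ) * d i = 0) :
    Rz (fun x : (Σ i, Fin (m i)) => d x.1) (∑ i, m i) := by
  obtain ⟨M, hMd, hpos, hbal⟩ := Two.exists_M m d 3 r hinj hran hm1 hs
  obtain ⟨c, hc⟩ : ∃ c : ℕ → ℕ, ∀ v, c v = if v ≤ r + 3 then M ((v : ℤ) - 3) else 0 :=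
    ⟨_, fun _ => rfl⟩
  have h123 : ∑ q ∈ Icc (1 : ℕ) 3, (q : ℤ) * M (-(q : ℤ)) =
      M (-1) + 2 * M (-2) + 3 * M (-3) := by
    rw [show Icc 1 3 = ({1, 2, 3} : Finset ℕ) from rfl, sum_insert (by decide),
      sum_insert (by decide), sum_singleton]
    push_cast
    ring
  have e0 : c 0 = M (-3) := by rw [hc, if_pos (by omega)]; rfl
  have e1 : c 1 = M (-2) := by rw [hc, if_pos (by omega)]; rfl
  have e2 : c 2 = M (-1) := by rw [hc, if_pos (by omega)]; rfl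
  have e4 : c 4 = M 1 := by rw [hc, if_pos (by omega)]; rfl
  have e5 : c 5 = M 2 := by rw [hc, if_pos (by omega)]; rfl
  have e6 : c 6 = M 3 := by rw [hc, if_pos (by omega)]; rfl
  have hb : c 4 + 2 * c 5 + 3 * c 6 + 4 * c 7 = c 2 + 2 * c 1 + 3 * c 0 := by
    rw [h123] at hbal
    rcases hr with hr | hr
    · subst hr
      have e7 : c 7 = 0 := by rw [hc, if_neg (by omega)]
      rw [show Icc 1 3 = ({1, 2, 3} : Finset ℕ) from rfl, sum_insert (by decide),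
        sum_insert (by decide), sum_singleton] at hbal
      push_cast at hbal
      rw [e0, e1, e2, e4, e5, e6, e7]
      omega
    · subst hr
      have e7 : c 7 = M 4 := by rw [hc, if_pos (by omega)]; rfl
      rw [show Icc 1 4 = ({1, 2, 3, 4} : Finset ℕ) from rfl, sum_insert (by decide),
        sum_insert (by decide), sum_insert (by decide), sum_singleton] at hbal
      push_cast at hbal
      rw [e0, e1, e2, e4, e5, e6, e7]
      omega
  obtain ⟨w, w1, w2, w3⟩ := exists_word c (fun v hv => by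
    rw [hc, if_pos (by omega)]
    exact hpos _ (by omega) (by omega)) hb
  have hle : ∀ a : Fin w.length, w.getD a 0 ≤ r + 3 := by
    intro a
    have h1 : w.getD a 0 = w.get a := List.getD_eq_getElem _ _ a.2
    have h2 : w.get a ∈ w := List.get_mem w a
    rw [h1]
    have h3 := w2 _ h2
    by_contra h4
    have h5 : w.get a = 7 := by omega
    rw [h5] at h2
    have h6 := w3 7 le_rfl
    rw [hc, if_neg (by omega)] at h6
    exact (List.count_eq_zero.1 h6) h2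
  obtain ⟨φ, hφ⟩ := exists_equiv m d hinj (fun a : Fin w.length => ((w.getD a 0 : ℕ) : ℤ) - 3)
    (fun a => (hran _).1 ⟨by push_cast; omega, by have := hle a; omega⟩) (by
      intro i
      have h1 := (hran (d i)).2 ⟨i, rfl⟩
      push_cast at h1
      rw [← hMd i, show (univ.filter fun a : Fin w.length => ((w.getD a 0 : ℕ) : ℤ) - 3 = d i) =
        univ.filter fun a : Fin w.length => w.getD a 0 = (d i + 3).toNat from
        filter_congr fun a _ => by omega, cnt_word, w3 _ (by omega), hc, if_pos (by omega)]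
      congr 1
      omega)
  have h1 := rz_equiv (rz_word w w1) φ
  have h2 : w.length = ∑ i, m i := by
    have h3 := Fintype.card_congr φ
    rw [Fintype.card_sigma, Fintype.card_fin] at h3
    rw [← h3]
    exact sum_congr rfl fun i _ => Fintype.card_fin _
  have h3 : (fun x => (fun a : Fin w.length => ((w.getD a 0 : ℕ) : ℤ) - 3) (φ x)) =
      fun x : (Σ i, Fin (m i)) => d x.1 := funext hφ
  have h4 : Rz (fun x : (Σ i, Fin (m i)) => d x.1) w.length := by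
    rw [← h3]
    exact h1
  rw [h2] at h4
  exact h4

/-- **positions and shifted positions both fill an interval**: all sizes except the two extreme
ones are at least `min l r`, or `min l r ≤ 2`, or `l + r ≤ 7` -/
theorem exists_pos3 {t : ℕ} (m : Fin t → ℕ) (d : Fin t → ℤ) (l r : ℕ)
    (hinj : Function.Injective d)
    (hran : ∀ z : ℤ, (-(l : ℤ) ≤ z ∧ z ≤ r) ↔ ∃ i, d i = z)
    (hm : min l r ≤ 2 ∨ l + r ≤ 7 ∨ ∀ i, -(l : ℤ) < d i → d i < r → min l r ≤ m i)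
    (hm1 : ∀ i, 1 ≤ m i) (hs : ∑ i, (m i : ℤ) * d i = 0) :
    ∃ pos : (Σ i, Fin (m i)) → ℕ, Set.BijOn pos Set.univ (Set.Iio (∑ i, m i)) ∧
      Set.BijOn (fun x => (pos x : ℤ) + d x.1) Set.univ (Set.Ico 0 ((∑ i, m i : ℕ) : ℤ)) := by
  rcases hm with hm | hm | hm
  · exact Two.exists_pos' m d l r hinj hran (Or.inl hm) hm1 hs
  · rcases (show min l r ≤ 2 ∨ (l = 3 ∧ (r = 3 ∨ r = 4)) ∨ (r = 3 ∧ (l = 3 ∨ l = 4)) by omega)
      with h | ⟨h, h'⟩ | ⟨h, h'⟩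
    · exact Two.exists_pos' m d l r hinj hran (Or.inl h) hm1 hs
    · subst h
      exact core_three m d r h' hinj hran hm1 hs
    · subst h
      have h1 := core_three m (fun i => -d i) l h' (fun i j hij => hinj (neg_injective hij)) (by
        intro z
        have h2 := hran (-z)
        constructor
        · intro h3
          obtain ⟨i, hi⟩ := h2.1 ⟨by omega, by omega⟩
          exact ⟨i, by rw [hi, neg_neg]⟩
        · rintro ⟨i, hi⟩
          have h3 := h2.2 ⟨i, by rw [← hi, neg_neg]⟩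
          omega) hm1 (by
          rw [← neg_zero, ← hs, ← sum_neg_distrib]
          exact sum_congr rfl fun i _ => by ring)
      have h2 := rz_neg h1
      simp only [neg_neg] at h2
      exact h2
  · exact Two.exists_pos' m d l r hinj hran (Or.inr hm) hm1 hs

end Pool.Agent.SLS.Three
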