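import Pool.Agent.SLS.HalfA
import Pool.Agent.SLS.HalfB
import Pool.Agent.SLS.Three
import Pool.Agent.SLS.Gen

/-!
# All centres in `V_1`: at most eight stars, or all sizes at least `(t - 2) / 4`
-/

set_option autoImplicit false
namespace Pool.Agent.SLS.Half
open Finset Pool.Agent.StarF

/-- the case `r ≤ l` -/
theorem core_half {t : ℕ} (m : Fin t → ℕ) (d : Fin t → ℤ) (l r : ℕ) (hrl : r ≤ l)
    (hinj : Function.Injective d)
    (hran : ∀ z : ℤ, (-(l : ℤ) ≤ z ∧ z ≤ r) ↔ ∃ i, d i = z)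
    (hm : ∀ i, d i ≤ 0 → r ≤ 2 * m i)
    (hm1 : ∀ i, 1 ≤ m i) (hs : ∑ i, (m i : ℤ) * d i = 0) :
    Rz (fun x : (Σ i, Fin (m i)) => d x.1) (∑ i, m i) := by
  have hMd := Mz_apply m d hinj
  have hMr : ∀ z : ℤ, -(l : ℤ) ≤ z → z ≤ 0 → r ≤ 2 * Mz m d z := by
    intro z h1 h2
    obtain ⟨i, hi⟩ := (hran z).1 ⟨h1, by omega⟩
    rw [← hi] at h1 h2 ⊢
    rw [hMd]
    exact hm i h2
  have hM1 : ∀ z : ℤ, -(l : ℤ) ≤ z → z ≤ r → 1 ≤ Mz m d z := by
    intro z h1 h2
    obtain ⟨i, hi⟩ := (hran z).1 ⟨h1, h2⟩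
    rw [← hi, hMd]
    exact hm1 i
  obtain ⟨p, hp1, hp2, hp3⟩ := exists_sorted (fun δ => Mz m d δ) r
  obtain ⟨T, hT⟩ : ∃ T, T = ∑ δ ∈ Icc 1 r, Mz m d (δ : ℤ) := ⟨_, rfl⟩
  rw [← hT] at hp1 hp2 hp3
  have hsump : ∑ i ∈ range T, p i = ∑ q ∈ Icc 1 l, q * Mz m d (-(q : ℤ)) := by
    rw [sum_of_mult (fun δ => Mz m d δ) r T p hp2 hp3]
    exact balance m d l r hran hs
  rcases Nat.eq_zero_or_pos l with hl | hl
  · subst hl
    have hr : r = 0 := by omega
    subst hr
    exact core m d 0 0 le_rfl hinj hran (fun i h1 h2 => by omega) hm1 hs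
  · obtain ⟨x, c, k, h, u0, hx1, hx2, hc, hx3, hh⟩ := halfA l r T hl p
      (fun i hi => (hp2 i hi).2) (fun q => Mz m d (-(q : ℤ)))
      (fun q h1 h2 => hMr (-(q : ℤ)) (by omega) (by omega))
      (hM1 (-(l : ℤ)) (by omega) (by omega)) hsump
    have hx1' : ∀ i j, i ≤ j → j < T → x i + p i ≤ x j + p j :=
      fun i j hij hj => add_le_add (hx1 i j hij hj) (hp1 i j hij hj)
    rcases Nat.eq_zero_or_pos h with h0 | h0
    · subst h0
      refine rz_of_rows m d l r hinj hran T c ?_ x p hp2 hp3 hx1 hx1' hx2 fun q hq => ?_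
      · rw [hc]
        simp
      · have h1 := hx3 q hq
        simpa using h1
    · obtain ⟨hk1, hkl, h2r, hst, hxu⟩ := hh.resolve_left (by omega)
      exact rz_of_rows_swap m d l r hinj hran T c x p hp2 hp3 hx1 hx1' hx2 k h u0 hk1 hkl
        hst hxu hx3 hc (by
          have h1 := hMr 0 (by omega) le_rfl
          omega)

/-- **positions and shifted positions both fill an interval**: all sizes are at least
`min l r / 2`, or `l + r ≤ 7` -/
theorem exists_pos_half {t : ℕ} (m : Fin t → ℕ) (d : Fin t → ℤ) (l r : ℕ)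
    (hinj : Function.Injective d)
    (hran : ∀ z : ℤ, (-(l : ℤ) ≤ z ∧ z ≤ r) ↔ ∃ i, d i = z)
    (hm : l + r ≤ 7 ∨ ∀ i, min l r ≤ 2 * m i)
    (hm1 : ∀ i, 1 ≤ m i) (hs : ∑ i, (m i : ℤ) * d i = 0) :
    ∃ pos : (Σ i, Fin (m i)) → ℕ, Set.BijOn pos Set.univ (Set.Iio (∑ i, m i)) ∧
      Set.BijOn (fun x => (pos x : ℤ) + d x.1) Set.univ (Set.Ico 0 ((∑ i, m i : ℕ) : ℤ)) := by
  rcases hm with hm | hm
  · exact Three.exists_pos3 m d l r hinj hran (Or.inr (Or.inl hm)) hm1 hs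
  · rcases le_total r l with h | h
    · rw [min_eq_right h] at hm
      exact core_half m d l r h hinj hran (fun i _ => hm i) hm1 hs
    · rw [min_eq_left h] at hm
      have h1 := core_half m (fun i => -d i) r l h (fun i j hij => hinj (neg_injective hij)) (by
        intro z
        have h2 := hran (-z)
        constructor
        · intro h3
          obtain ⟨i, hi⟩ := h2.1 ⟨by omega, by omega⟩
          exact ⟨i, by rw [hi, neg_neg]⟩
        · rintro ⟨i, hi⟩
          have h3 := h2.2 ⟨i, by rw [← hi, neg_neg]⟩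
          omega) (fun i _ => hm i) hm1 (by
          rw [← neg_zero, ← hs, ← sum_neg_distrib]
          exact sum_congr rfl fun i _ => by ring)
      have h2 := rz_neg h1
      simp only [neg_neg] at h2
      exact h2

/-- **characterisation**: at most eight stars, or all sizes at least `(t - 2) / 4` -/
theorem with_iff_half {t : ℕ} (ht : 0 < t) (m : Fin t → ℕ) (hm1 : ∀ i, 1 ≤ m i)
    (hm : t ≤ 8 ∨ ∀ i, t ≤ 4 * m i + 2) :
    SSEMWith (starForest m) (centres m) ↔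
      ∃ σ : Equiv.Perm (Fin t), ∑ i, m i ∣ ∑ i, ((σ i : ℕ) + 1) * m i :=
  with_iff_gen ht m hm1 fun d l r hlr hinj hran hs =>
    exists_pos_half m d l r hinj hran (hm.imp (fun h => by omega) fun h i => by
      have := h i
      omega) hm1 hs

end Pool.Agent.SLS.Half
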