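import Pool.Agent.SLS.ThmA

/-!
# Permutations with prescribed displacements from skew diagrams
-/

set_option autoImplicit false
namespace Pool.Agent.SLS
open Finset

/-- realizable displacement functions: the positions `F a` fill `[0, N)`, and so do the points
`F a + D a` -/
def Rz {ι : Type} (D : ι → ℤ) (N : ℕ) : Prop :=
  ∃ F : ι → ℕ, Set.BijOn F Set.univ (Set.Iio N) ∧
    Set.BijOn (fun a => (F a : ℤ) + D a) Set.univ (Set.Ico 0 (N : ℤ))

theorem bijOn_cast {ι : Type} {g : ι → ℕ} {N : ℕ} (h : Set.BijOn g Set.univ (Set.Iio N)) :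
    Set.BijOn (fun a => (g a : ℤ)) Set.univ (Set.Ico 0 (N : ℤ)) := by
  refine ⟨fun a _ => ?_, fun a _ b _ hab => ?_, fun z hz => ?_⟩
  · have h1 : g a < N := h.mapsTo (Set.mem_univ a)
    show 0 ≤ ((g a : ℕ) : ℤ) ∧ ((g a : ℕ) : ℤ) < N
    omega
  · have h1 : ((g a : ℕ) : ℤ) = ((g b : ℕ) : ℤ) := hab
    exact h.injOn (Set.mem_univ a) (Set.mem_univ b) (by omega)
  · obtain ⟨a, -, ha⟩ := h.surjOn (show z.toNat ∈ Set.Iio N by
      have h1 := hz.1
      have h2 := hz.2
      show z.toNat < N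
      omega)
    refine ⟨a, Set.mem_univ a, ?_⟩
    show (g a : ℤ) = z
    rw [ha]
    exact Int.toNat_of_nonneg hz.1

/-- merge of rows and columns -/
def mg (t c : ℕ) (y : ℕ → ℕ) : Fin t ⊕ Fin c → ℕ
  | Sum.inl s => y s + s
  | Sum.inr u => u + ((range t).filter fun s => y s ≤ u).card

theorem cnt_iff {t : ℕ} {y : ℕ → ℕ} (hy : ∀ i j, i ≤ j → j < t → y i ≤ y j) (u s : ℕ)
    (hs : s < t) : s < ((range t).filter fun s => y s ≤ u).card ↔ y s ≤ u := by
  have h1 := initial_segment ((range t).filter fun s => y s ≤ u) (by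
    intro i hi j hj
    rw [mem_filter, mem_range] at hi ⊢
    exact ⟨by omega, (hy j i hj hi.1).trans hi.2⟩)
  have h2 : s ∈ ((range t).filter fun s => y s ≤ u) ↔ y s ≤ u := by
    rw [mem_filter, mem_range]
    exact ⟨fun h => h.2, fun h => ⟨hs, h⟩⟩
  rw [← h2]
  conv_rhs => rw [h1]
  rw [mem_range]

theorem merge_bij (t c : ℕ) (y : ℕ → ℕ) (hy : ∀ i j, i ≤ j → j < t → y i ≤ y j)
    (hc : ∀ i < t, y i ≤ c) : Set.BijOn (mg t c y) Set.univ (Set.Iio (t + c)) := by
  have hK : ∀ u, ((range t).filter fun s => y s ≤ u).card ≤ t := fun u =>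
    (card_filter_le _ _).trans (card_range t).le
  have hmap : ∀ a, mg t c y a < t + c := by
    rintro (s | u)
    · have h1 := hc s s.2
      have h2 := s.2
      show y s + s < t + c
      omega
    · have h1 := hK u
      have h2 := u.2
      show (u : ℕ) + ((range t).filter fun s => y s ≤ u).card < t + c
      omega
  have hcross : ∀ (s : Fin t) (u : Fin c), mg t c y (Sum.inl s) ≠ mg t c y (Sum.inr u) := by
    intro s u h
    have h0 : y s + s = u + ((range t).filter fun s => y s ≤ u).card := h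
    have h1 := cnt_iff hy u s s.2
    by_cases h2 : y s ≤ u
    · have h3 := h1.2 h2
      omega
    · have h3 : ¬ (s : ℕ) < ((range t).filter fun s => y s ≤ u).card := fun h => h2 (h1.1 h)
      omega
  have hinj : Function.Injective (mg t c y) := by
    rintro (s | u) (s' | u') h
    · have h0 : y s + s = y s' + s' := h
      rcases lt_trichotomy (s : ℕ) s' with h1 | h1 | h1
      · have h2 := hy s s' h1.le s'.2
        omega
      · rw [Fin.ext h1]
      · have h2 := hy s' s h1.le s.2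
        omega
    · exact absurd h (hcross s u')
    · exact absurd h.symm (hcross s' u)
    · have h0 : (u : ℕ) + ((range t).filter fun s => y s ≤ u).card =
        u' + ((range t).filter fun s => y s ≤ u').card := h
      have hmono : ∀ a b : ℕ, a ≤ b → ((range t).filter fun s => y s ≤ a).card ≤
          ((range t).filter fun s => y s ≤ b).card := by
        intro a b hab
        refine card_le_card fun s hs => ?_
        rw [mem_filter] at hs ⊢
        exact ⟨hs.1, hs.2.trans hab⟩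
      rcases lt_trichotomy (u : ℕ) u' with h1 | h1 | h1
      · have h2 := hmono u u' h1.le
        omega
      · rw [Fin.ext h1]
      · have h2 := hmono u' u h1.le
        omega
  have hbij : Function.Bijective (fun a => (⟨mg t c y a, hmap a⟩ : Fin (t + c))) := by
    rw [Fintype.bijective_iff_injective_and_card]
    refine ⟨fun a b hab => hinj (congrArg Fin.val hab), ?_⟩
    rw [Fintype.card_sum, Fintype.card_fin, Fintype.card_fin, Fintype.card_fin]
  refine ⟨fun a _ => hmap a, fun a _ b _ hab => hinj hab, fun v hv => ?_⟩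
  obtain ⟨a, ha⟩ := hbij.2 ⟨v, hv⟩
  exact ⟨a, Set.mem_univ a, congrArg Fin.val ha⟩

/-- rows `[x s, x s + p s)` with ascending starts and ends: the permutation -/
theorem rz_items (t c : ℕ) (x p : ℕ → ℕ) (hx : ∀ i j, i ≤ j → j < t → x i ≤ x j)
    (hp : ∀ i j, i ≤ j → j < t → x i + p i ≤ x j + p j) (he : ∀ i < t, x i + p i ≤ c) :
    Rz (fun a : Fin t ⊕ Fin c => Sum.elim (fun s : Fin t => ((p s : ℕ) : ℤ))
      (fun u : Fin c => -((((range t).filter fun s => x s ≤ (u : ℕ) ∧
        (u : ℕ) < x s + p s).card : ℕ) : ℤ)) a) (t + c) := by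
  have h1 := merge_bij t c x hx fun i hi => (Nat.le_add_right _ _).trans (he i hi)
  have h2 := merge_bij t c (fun s => x s + p s) hp he
  refine ⟨mg t c x, h1, ?_⟩
  have h3 := bijOn_cast h2
  refine (Set.EqOn.bijOn_iff ?_).1 h3
  rintro (s | u) -
  · show (((x s + p s + s : ℕ)) : ℤ) = ((x s + s : ℕ) : ℤ) + (p s : ℤ)
    push_cast
    ring
  · show (((u : ℕ) + ((range t).filter fun s => x s + p s ≤ u).card : ℕ) : ℤ) =
      (((u : ℕ) + ((range t).filter fun s => x s ≤ u).card : ℕ) : ℤ) +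
        -((((range t).filter fun s => x s ≤ (u : ℕ) ∧ (u : ℕ) < x s + p s).card : ℕ) : ℤ)
    have h4 : ((range t).filter fun s => x s ≤ (u : ℕ)).card =
        ((range t).filter fun s => x s ≤ (u : ℕ) ∧ (u : ℕ) < x s + p s).card +
        ((range t).filter fun s => x s + p s ≤ (u : ℕ)).card := by
      rw [← card_union_of_disjoint]
      · congr 1
        ext s
        simp only [mem_union, mem_filter, mem_range]
        constructor
        · rintro ⟨a, b⟩
          by_cases h : (u : ℕ) < x s + p s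
          · exact Or.inl ⟨a, b, h⟩
          · exact Or.inr ⟨a, by omega⟩
        · rintro (⟨a, b, -⟩ | ⟨a, b⟩)
          · exact ⟨a, b⟩
          · exact ⟨a, by omega⟩
      · rw [disjoint_left]
        intro s hs hs'
        rw [mem_filter] at hs hs'
        omega
    rw [h4]
    push_cast
    ring

/-- adding points which do not move -/
theorem rz_zero {ι : Type} {D : ι → ℤ} {N : ℕ} (h : Rz D N) (z : ℕ) :
    Rz (fun a : ι ⊕ Fin z => Sum.elim D (fun _ => (0 : ℤ)) a) (N + z) := by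
  obtain ⟨F, h1, h2⟩ := h
  refine ⟨fun a => Sum.elim F (fun k : Fin z => N + (k : ℕ)) a, ⟨?_, ?_, ?_⟩, ⟨?_, ?_, ?_⟩⟩
  · rintro (a | k) -
    · have h3 : F a < N := h1.mapsTo (Set.mem_univ a)
      show F a < N + z
      omega
    · have h3 := k.2
      show N + (k : ℕ) < N + z
      omega
  · rintro (a | k) - (b | k') - hab
    · exact congrArg Sum.inl (h1.injOn (Set.mem_univ a) (Set.mem_univ b) hab)
    · have h3 : F a < N := h1.mapsTo (Set.mem_univ a)
      have h4 : F a = N + (k' : ℕ) := hab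
      omega
    · have h3 : F b < N := h1.mapsTo (Set.mem_univ b)
      have h4 : N + (k : ℕ) = F b := hab
      omega
    · have h4 : N + (k : ℕ) = N + (k' : ℕ) := hab
      exact congrArg Sum.inr (Fin.ext (by omega))
  · intro v hv
    have hv' : v < N + z := hv
    by_cases h3 : v < N
    · obtain ⟨a, -, ha⟩ := h1.surjOn (show v ∈ Set.Iio N from h3)
      exact ⟨Sum.inl a, Set.mem_univ _, ha⟩
    · refine ⟨Sum.inr ⟨v - N, by omega⟩, Set.mem_univ _, ?_⟩
      show N + (v - N) = v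
      omega
  · rintro (a | k) -
    · have h3 := h2.mapsTo (Set.mem_univ a)
      have h4 : 0 ≤ (F a : ℤ) + D a := h3.1
      have h5 : (F a : ℤ) + D a < N := h3.2
      show 0 ≤ (F a : ℤ) + D a ∧ (F a : ℤ) + D a < ((N + z : ℕ) : ℤ)
      push_cast
      omega
    · have h3 := k.2
      show 0 ≤ ((N + (k : ℕ) : ℕ) : ℤ) + 0 ∧ ((N + (k : ℕ) : ℕ) : ℤ) + 0 < ((N + z : ℕ) : ℤ)
      push_cast
      omega
  · rintro (a | k) - (b | k') - hab
    · exact congrArg Sum.inl (h2.injOn (Set.mem_univ a) (Set.mem_univ b) hab)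
    · have h3 : (F a : ℤ) + D a < N := (h2.mapsTo (Set.mem_univ a)).2
      have h4 : (F a : ℤ) + D a = ((N + (k' : ℕ) : ℕ) : ℤ) + 0 := hab
      push_cast at h4
      omega
    · have h3 : (F b : ℤ) + D b < N := (h2.mapsTo (Set.mem_univ b)).2
      have h4 : ((N + (k : ℕ) : ℕ) : ℤ) + 0 = (F b : ℤ) + D b := hab
      push_cast at h4
      omega
    · have h4 : ((N + (k : ℕ) : ℕ) : ℤ) + 0 = ((N + (k' : ℕ) : ℕ) : ℤ) + 0 := hab
      push_cast at h4
      exact congrArg Sum.inr (Fin.ext (by omega))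
  · intro v hv
    have hv0 := hv.1
    have hv1 := hv.2
    push_cast at hv1
    by_cases h3 : v < N
    · obtain ⟨a, -, ha⟩ := h2.surjOn (show v ∈ Set.Ico 0 (N : ℤ) from ⟨hv0, h3⟩)
      exact ⟨Sum.inl a, Set.mem_univ _, ha⟩
    · refine ⟨Sum.inr ⟨v.toNat - N, by omega⟩, Set.mem_univ _, ?_⟩
      show ((N + (v.toNat - N) : ℕ) : ℤ) + 0 = v
      omega

theorem rz_equiv {ι κ : Type} {D : ι → ℤ} {N : ℕ} (h : Rz D N) (φ : κ ≃ ι) :
    Rz (fun b => D (φ b)) N := by
  obtain ⟨F, h1, h2⟩ := h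
  have hφ : Set.BijOn φ Set.univ Set.univ := Set.bijOn_univ.2 φ.bijective
  exact ⟨fun b => F (φ b), h1.comp hφ, h2.comp hφ⟩

/-- reflection -/
theorem rz_neg {ι : Type} {D : ι → ℤ} {N : ℕ} (h : Rz D N) : Rz (fun a => -D a) N := by
  obtain ⟨F, h1, h2⟩ := h
  refine ⟨fun a => N - 1 - F a, ⟨?_, ?_, ?_⟩, ⟨?_, ?_, ?_⟩⟩
  · intro a _
    have h3 : F a < N := h1.mapsTo (Set.mem_univ a)
    show N - 1 - F a < N
    omega
  · intro a _ b _ hab
    have h3 : F a < N := h1.mapsTo (Set.mem_univ a)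
    have h4 : F b < N := h1.mapsTo (Set.mem_univ b)
    have h5 : N - 1 - F a = N - 1 - F b := hab
    exact h1.injOn (Set.mem_univ a) (Set.mem_univ b) (by omega)
  · intro v hv
    have hv' : v < N := hv
    obtain ⟨a, -, ha⟩ := h1.surjOn (show N - 1 - v ∈ Set.Iio N by show N - 1 - v < N; omega)
    refine ⟨a, Set.mem_univ a, ?_⟩
    show N - 1 - F a = v
    omega
  · intro a _
    have h3 : F a < N := h1.mapsTo (Set.mem_univ a)
    have h4 : 0 ≤ (F a : ℤ) + D a := (h2.mapsTo (Set.mem_univ a)).1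
    have h5 : (F a : ℤ) + D a < N := (h2.mapsTo (Set.mem_univ a)).2
    show 0 ≤ ((N - 1 - F a : ℕ) : ℤ) + -D a ∧ ((N - 1 - F a : ℕ) : ℤ) + -D a < N
    omega
  · intro a _ b _ hab
    have h3 : F a < N := h1.mapsTo (Set.mem_univ a)
    have h4 : F b < N := h1.mapsTo (Set.mem_univ b)
    have h5 : ((N - 1 - F a : ℕ) : ℤ) + -D a = ((N - 1 - F b : ℕ) : ℤ) + -D b := hab
    refine h2.injOn (Set.mem_univ a) (Set.mem_univ b) ?_
    show (F a : ℤ) + D a = (F b : ℤ) + D b
    omega
  · intro v hv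
    have hv0 := hv.1
    have hv1 := hv.2
    obtain ⟨a, -, ha⟩ := h2.surjOn (show (N : ℤ) - 1 - v ∈ Set.Ico 0 (N : ℤ) from
      ⟨by omega, by omega⟩)
    have h3 : F a < N := h1.mapsTo (Set.mem_univ a)
    have h4 : (F a : ℤ) + D a = N - 1 - v := ha
    refine ⟨a, Set.mem_univ a, ?_⟩
    show ((N - 1 - F a : ℕ) : ℤ) + -D a = v
    omega

/-- indexing by the pairs `(i, k)`, `k < m i` -/
theorem exists_equiv {t : ℕ} (m : Fin t → ℕ) (d : Fin t → ℤ) (hinj : Function.Injective d)
    {ι : Type} [Fintype ι] (D : ι → ℤ) (hD : ∀ a, ∃ i, d i = D a)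
    (hc : ∀ i, (univ.filter fun a => D a = d i).card = m i) :
    ∃ φ : (Σ i, Fin (m i)) ≃ ι, ∀ x, D (φ x) = d x.1 := by
  classical
  choose g hg using hD
  have hcard : ∀ i, Fintype.card {a // g a = i} = m i := by
    intro i
    rw [Fintype.card_subtype, ← hc i]
    congr 1
    ext a
    rw [mem_filter, mem_filter]
    refine and_congr_right fun _ => ?_
    rw [← hg a]
    exact hinj.eq_iff.symm
  let ψ : (Σ i, Fin (m i)) ≃ (Σ i, {a // g a = i}) :=
    Equiv.sigmaCongrRight fun i => (Fintype.equivFinOfCardEq (hcard i)).symm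
  refine ⟨ψ.trans (Equiv.sigmaFiberEquiv g), fun x => ?_⟩
  have h1 : g ((ψ.trans (Equiv.sigmaFiberEquiv g)) x) = x.1 :=
    ((Fintype.equivFinOfCardEq (hcard x.1)).symm x.2).2
  rw [← hg, h1]

/-- an ascending sequence with prescribed multiplicities -/
theorem exists_sorted (M : ℕ → ℕ) (r : ℕ) : ∃ p : ℕ → ℕ,
    (∀ i j, i ≤ j → j < ∑ δ ∈ Icc 1 r, M δ → p i ≤ p j) ∧
    (∀ i < ∑ δ ∈ Icc 1 r, M δ, 1 ≤ p i ∧ p i ≤ r) ∧
    ∀ δ ∈ Icc 1 r, ((range (∑ δ ∈ Icc 1 r, M δ)).filter fun s => p s = δ).card = M δ := by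
  induction r with
  | zero => exact ⟨fun _ => 0, by simp, by simp, by simp⟩
  | succ r ih =>
    obtain ⟨p, h1, h2, h3⟩ := ih
    obtain ⟨T, hT⟩ : ∃ T, T = ∑ δ ∈ Icc 1 r, M δ := ⟨_, rfl⟩
    have hS : ∑ δ ∈ Icc 1 (r + 1), M δ = T + M (r + 1) := by
      rw [hT, sum_Icc_succ_top (by omega)]
    rw [← hT] at h1 h2 h3
    rw [hS]
    refine ⟨fun s => if s < T then p s else r + 1, ?_, ?_, ?_⟩
    · intro i j hij hj
      show (if i < T then p i else r + 1) ≤ if j < T then p j else r + 1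
      by_cases hjT : j < T
      · rw [if_pos hjT, if_pos (by omega)]
        exact h1 i j hij hjT
      · rw [if_neg hjT]
        by_cases hiT : i < T
        · rw [if_pos hiT]
          have := (h2 i hiT).2
          omega
        · rw [if_neg hiT]
    · intro i hi
      show 1 ≤ (if i < T then p i else r + 1) ∧ (if i < T then p i else r + 1) ≤ r + 1
      by_cases hiT : i < T
      · rw [if_pos hiT]
        have := h2 i hiT
        omega
      · rw [if_neg hiT]
        omega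
    · intro δ hδ
      rw [mem_Icc] at hδ
      by_cases hr : δ = r + 1
      · have : ((range (T + M (r + 1))).filter fun s => (if s < T then p s else r + 1) = δ) =
            Ico T (T + M (r + 1)) := by
          ext s
          rw [mem_filter, mem_range, mem_Ico]
          constructor
          · rintro ⟨a, b⟩
            refine ⟨?_, a⟩
            by_contra hs
            rw [if_pos (by omega)] at b
            have := (h2 s (by omega)).2
            omega
          · rintro ⟨a, b⟩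
            refine ⟨b, ?_⟩
            rw [if_neg (by omega), hr]
        rw [this, Nat.card_Ico, hr]
        omega
      · have : ((range (T + M (r + 1))).filter fun s => (if s < T then p s else r + 1) = δ) =
            (range T).filter fun s => p s = δ := by
          ext s
          rw [mem_filter, mem_range, mem_filter, mem_range]
          constructor
          · rintro ⟨a, b⟩
            by_cases hs : s < T
            · rw [if_pos hs] at b
              exact ⟨hs, b⟩
            · rw [if_neg hs] at b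
              omega
          · rintro ⟨a, b⟩
            refine ⟨by omega, ?_⟩
            rw [if_pos a]
            exact b
        rw [this]
        exact h3 δ (mem_Icc.2 ⟨hδ.1, by omega⟩)

theorem split_sum (f : ℤ → ℤ) (l r : ℕ) : ∑ z ∈ Icc (-(l : ℤ)) r, f z =
    f 0 + ∑ δ ∈ Icc 1 r, f δ + ∑ q ∈ Icc 1 l, f (-(q : ℤ)) := by
  have h0 : ∑ z ∈ Icc (-(l : ℤ)) 0, f z = f 0 + ∑ q ∈ Icc 1 l, f (-(q : ℤ)) := by
    induction l with
    | zero => simp
    | succ l ih =>
      have h1 : Icc (-((l + 1 : ℕ) : ℤ)) 0 = insert (-((l + 1 : ℕ) : ℤ)) (Icc (-(l : ℤ)) 0) := by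
        ext z
        rw [mem_insert, mem_Icc, mem_Icc]
        push_cast
        omega
      rw [h1, sum_insert (by
        rw [mem_Icc]
        push_cast
        omega), ih, sum_Icc_succ_top (by omega)]
      ring
  induction r with
  | zero =>
    have h1 : ((0 : ℕ) : ℤ) = 0 := rfl
    rw [h1, h0]
    simp
  | succ r ih =>
    have h1 : Icc (-(l : ℤ)) ((r + 1 : ℕ) : ℤ) =
        insert ((r + 1 : ℕ) : ℤ) (Icc (-(l : ℤ)) (r : ℤ)) := by
      ext z
      rw [mem_insert, mem_Icc, mem_Icc]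
      push_cast
      omega
    rw [h1, sum_insert (by
      rw [mem_Icc]
      push_cast
      omega), ih, sum_Icc_succ_top (by omega)]
    ring

/-- the total size of the stars with displacement `z` -/
def Mz {t : ℕ} (m : Fin t → ℕ) (d : Fin t → ℤ) (z : ℤ) : ℕ := ∑ i ∈ univ.filter fun i => d i = z, m i

theorem Mz_apply {t : ℕ} (m : Fin t → ℕ) (d : Fin t → ℤ) (hinj : Function.Injective d)
    (i : Fin t) : Mz m d (d i) = m i := by
  rw [Mz, show (univ.filter fun j => d j = d i) = {i} from by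
    ext j
    rw [mem_filter, mem_singleton]
    exact ⟨fun h => hinj h.2, fun h => ⟨mem_univ _, by rw [h]⟩⟩, sum_singleton]

/-- **from rows to the permutation**: rows `[x s, x s + p s)`, `s < T`, with ascending starts and
ends inside `[0, c)`, `Mz δ` rows of every length `δ` and `Mz (-q)` columns covered `q` times -/
theorem rz_of_rows {t : ℕ} (m : Fin t → ℕ) (d : Fin t → ℤ) (l r : ℕ)
    (hinj : Function.Injective d)
    (hran : ∀ z : ℤ, (-(l : ℤ) ≤ z ∧ z ≤ r) ↔ ∃ i, d i = z)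
    (T c : ℕ) (hc : c = ∑ q ∈ Icc 1 l, Mz m d (-(q : ℤ))) (x p : ℕ → ℕ)
    (hp2 : ∀ s < T, 1 ≤ p s ∧ p s ≤ r)
    (hp3 : ∀ δ ∈ Icc 1 r, ((range T).filter fun s => p s = δ).card = Mz m d δ)
    (hx1 : ∀ i j, i ≤ j → j < T → x i ≤ x j)
    (hx1' : ∀ i j, i ≤ j → j < T → x i + p i ≤ x j + p j)
    (hx2 : ∀ i < T, x i + p i ≤ c)
    (hx3 : ∀ q ∈ Icc 1 l, ((range c).filter fun u =>
        ((range T).filter fun s => x s ≤ u ∧ u < x s + p s).card = q).card = Mz m d (-(q : ℤ))) :
    Rz (fun x : (Σ i, Fin (m i)) => d x.1) (∑ i, m i) := by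
  classical
  obtain ⟨M, hM⟩ : ∃ M : ℤ → ℕ, M = Mz m d := ⟨_, rfl⟩
  have hMd : ∀ i, M (d i) = m i := fun i => by rw [hM, Mz_apply m d hinj]
  rw [← hM] at hc hp3 hx3
  obtain ⟨cov, hcov⟩ : ∃ cov : ℕ → ℕ, ∀ u, cov u =
    ((range T).filter fun s => x s ≤ u ∧ u < x s + p s).card := ⟨_, fun _ => rfl⟩
  simp only [← hcov] at hx3
  have hcovr : ∀ u < c, 1 ≤ cov u ∧ cov u ≤ l := by
    have h1 : ((range c).filter fun u => cov u ∈ Icc 1 l).card = (range c).card := by
      rw [card_range, card_eq_sum_card_fiberwise (s := (range c).filter fun u => cov u ∈ Icc 1 l)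
        (f := cov) (t := Icc 1 l) (fun u hu => (mem_filter.1 hu).2)]
      conv_rhs => rw [hc]
      refine sum_congr rfl fun q hq => ?_
      rw [← hx3 q hq]
      congr 1
      ext u
      simp only [mem_filter]
      constructor
      · rintro ⟨⟨a, -⟩, b⟩
        exact ⟨a, b⟩
      · rintro ⟨a, b⟩
        exact ⟨⟨a, by rw [b]; exact hq⟩, b⟩
    intro u hu
    exact mem_Icc.1 (filter_card_eq h1 u (mem_range.2 hu))
  have hR := rz_zero (rz_items T c x p hx1 hx1' hx2) (M 0)
  simp only [← hcov] at hR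
  obtain ⟨D, hDef⟩ : ∃ D : (Fin T ⊕ Fin c) ⊕ Fin (M 0) → ℤ, D = fun a => Sum.elim
    (fun a : Fin T ⊕ Fin c => Sum.elim (fun s : Fin T => ((p s : ℕ) : ℤ))
      (fun u : Fin c => -((cov u : ℕ) : ℤ)) a) (fun _ => (0 : ℤ)) a := ⟨_, rfl⟩
  rw [← hDef] at hR
  have hcount : ∀ v : ℤ, (univ.filter fun a => D a = v).card =
      ((range T).filter fun s => (p s : ℤ) = v).card +
      ((range c).filter fun u => -(cov u : ℤ) = v).card + if (0 : ℤ) = v then M 0 else 0 := by
    intro v
    rw [card_filter, Fintype.sum_sum_type, Fintype.sum_sum_type, card_filter, card_filter,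
      ← Fin.sum_univ_eq_sum_range (fun s => if (p s : ℤ) = v then 1 else 0),
      ← Fin.sum_univ_eq_sum_range (fun u => if -(cov u : ℤ) = v then 1 else 0), hDef]
    congr 1
    show ∑ _k : Fin (M 0), (if (0 : ℤ) = v then 1 else 0) = _
    rw [sum_const, card_univ, Fintype.card_fin, smul_eq_mul]
    split_ifs <;> simp
  have hDr : ∀ a, ∃ i, d i = D a := by
    intro a
    refine (hran (D a)).1 ?_
    rw [hDef]
    rcases a with (s | u) | k
    · have := hp2 s s.2
      show -(l : ℤ) ≤ ((p s : ℕ) : ℤ) ∧ ((p s : ℕ) : ℤ) ≤ r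
      omega
    · have := hcovr u u.2
      show -(l : ℤ) ≤ -((cov u : ℕ) : ℤ) ∧ -((cov u : ℕ) : ℤ) ≤ r
      omega
    · show -(l : ℤ) ≤ 0 ∧ (0 : ℤ) ≤ r
      omega
  have hDc : ∀ i, (univ.filter fun a => D a = d i).card = m i := by
    intro i
    rw [hcount, ← hMd]
    obtain ⟨hv1, hv2⟩ := (hran (d i)).2 ⟨i, rfl⟩
    generalize d i = v at hv1 hv2
    rcases lt_trichotomy v 0 with hv | hv | hv
    · have h1 : ((range T).filter fun s => (p s : ℤ) = v) = ∅ := by
        refine filter_eq_empty_iff.2 fun s _ => ?_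
        omega
      have h2 := hx3 v.natAbs (mem_Icc.2 ⟨by omega, by omega⟩)
      have h3 : -((v.natAbs : ℕ) : ℤ) = v := by omega
      rw [h3] at h2
      have h4 : ((range c).filter fun u => -(cov u : ℤ) = v) =
          (range c).filter fun u => cov u = v.natAbs := by
        refine filter_congr fun u _ => ?_
        omega
      rw [h1, h4, h2, if_neg (by omega), card_empty]
      omega
    · have h1 : ((range T).filter fun s => (p s : ℤ) = v) = ∅ := by
        refine filter_eq_empty_iff.2 fun s hs => ?_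
        have := hp2 s (mem_range.1 hs)
        omega
      have h2 : ((range c).filter fun u => -(cov u : ℤ) = v) = ∅ := by
        refine filter_eq_empty_iff.2 fun u hu => ?_
        have := hcovr u (mem_range.1 hu)
        omega
      rw [h1, h2, if_pos hv.symm, hv, card_empty]
      omega
    · have h1 := hp3 v.natAbs (mem_Icc.2 ⟨by omega, by omega⟩)
      have h3 : ((v.natAbs : ℕ) : ℤ) = v := by omega
      rw [h3] at h1
      have h4 : ((range T).filter fun s => (p s : ℤ) = v) =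
          (range T).filter fun s => p s = v.natAbs := by
        refine filter_congr fun s _ => ?_
        omega
      have h2 : ((range c).filter fun u => -(cov u : ℤ) = v) = ∅ := by
        refine filter_eq_empty_iff.2 fun u hu => ?_
        omega
      rw [h4, h1, h2, if_neg (by omega), card_empty]
      omega
  obtain ⟨φ, hφ⟩ := exists_equiv m d hinj D hDr hDc
  have hN : T + c + M 0 = ∑ i, m i := by
    have h1 := Fintype.card_congr φ
    rw [Fintype.card_sigma, Fintype.card_sum, Fintype.card_sum] at h1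
    simp only [Fintype.card_fin] at h1
    exact h1.symm
  have h2 := rz_equiv hR φ
  rw [hN] at h2
  simpa only [hφ] using h2

/-- the balance of the displacements -/
theorem balance {t : ℕ} (m : Fin t → ℕ) (d : Fin t → ℤ) (l r : ℕ)
    (hran : ∀ z : ℤ, (-(l : ℤ) ≤ z ∧ z ≤ r) ↔ ∃ i, d i = z)
    (hs : ∑ i, (m i : ℤ) * d i = 0) :
    ∑ δ ∈ Icc 1 r, δ * Mz m d (δ : ℤ) = ∑ q ∈ Icc 1 l, q * Mz m d (-(q : ℤ)) := by
  have h1 : ∑ z ∈ Icc (-(l : ℤ)) r, z * (Mz m d z : ℤ) = 0 := by
    rw [← hs, ← sum_fiberwise_of_maps_to (s := univ) (t := Icc (-(l : ℤ)) r) (g := d)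
      (fun i _ => mem_Icc.2 ((hran (d i)).2 ⟨i, rfl⟩))]
    refine sum_congr rfl fun z _ => ?_
    rw [Mz, Nat.cast_sum, mul_sum]
    refine sum_congr rfl fun i hi => ?_
    rw [(mem_filter.1 hi).2]
    ring
  rw [split_sum] at h1
  have h2 : ∑ q ∈ Icc 1 l, -(q : ℤ) * (Mz m d (-(q : ℤ)) : ℤ) =
      -∑ q ∈ Icc 1 l, (q : ℤ) * Mz m d (-(q : ℤ)) := by
    rw [← sum_neg_distrib]
    exact sum_congr rfl fun q _ => by ring
  rw [h2] at h1
  have h3 : ∑ δ ∈ Icc 1 r, (δ : ℤ) * Mz m d (δ : ℤ) =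
      ∑ q ∈ Icc 1 l, (q : ℤ) * Mz m d (-(q : ℤ)) := by linarith
  exact_mod_cast h3

/-- the sum of a sequence with given multiplicities -/
theorem sum_of_mult (M : ℕ → ℕ) (r T : ℕ) (p : ℕ → ℕ) (hp2 : ∀ s < T, 1 ≤ p s ∧ p s ≤ r)
    (hp3 : ∀ δ ∈ Icc 1 r, ((range T).filter fun s => p s = δ).card = M δ) :
    ∑ i ∈ range T, p i = ∑ δ ∈ Icc 1 r, δ * M δ := by
  rw [← sum_fiberwise_of_maps_to (s := range T) (t := Icc 1 r) (g := p)
    (fun i hi => mem_Icc.2 (hp2 i (mem_range.1 hi)))]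
  refine sum_congr rfl fun δ hδ => ?_
  rw [← hp3 δ hδ, mul_comm, ← smul_eq_mul, ← sum_const]
  exact sum_congr rfl fun i hi => (mem_filter.1 hi).2

/-- the case `r ≤ l` -/
theorem core {t : ℕ} (m : Fin t → ℕ) (d : Fin t → ℤ) (l r : ℕ) (hrl : r ≤ l)
    (hinj : Function.Injective d)
    (hran : ∀ z : ℤ, (-(l : ℤ) ≤ z ∧ z ≤ r) ↔ ∃ i, d i = z)
    (hm : ∀ i, -(l : ℤ) < d i → d i < 0 → r ≤ m i)
    (hm1 : ∀ i, 1 ≤ m i) (hs : ∑ i, (m i : ℤ) * d i = 0) :
    Rz (fun x : (Σ i, Fin (m i)) => d x.1) (∑ i, m i) := by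
  have hMd := Mz_apply m d hinj
  have hMr : ∀ z : ℤ, -(l : ℤ) < z → z < 0 → r ≤ Mz m d z := by
    intro z h1 h2
    obtain ⟨i, hi⟩ := (hran z).1 ⟨h1.le, by omega⟩
    rw [← hi] at h1 h2 ⊢
    rw [hMd]
    exact hm i h1 h2
  have hM1 : ∀ z : ℤ, -(l : ℤ) ≤ z → z ≤ r → 1 ≤ Mz m d z := by
    intro z h1 h2
    obtain ⟨i, hi⟩ := (hran z).1 ⟨h1, h2⟩
    rw [← hi, hMd]
    exact hm1 i
  obtain ⟨p, hp1, hp2, hp3⟩ := exists_sorted (fun δ => Mz m d δ) r
  obtain ⟨T, hT⟩ : ∃ T, T = ∑ δ ∈ Icc 1 r, Mz m d (δ : ℤ) := ⟨_, rfl⟩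
  rw [← hT] at hp1 hp2 hp3
  have hsump : ∑ i ∈ range T, p i = ∑ q ∈ Icc 1 l, q * Mz m d (-(q : ℤ)) := by
    rw [sum_of_mult (fun δ => Mz m d δ) r T p hp2 hp3]
    exact balance m d l r hran hs
  obtain ⟨c, hc⟩ : ∃ c, c = ∑ q ∈ Icc 1 l, Mz m d (-(q : ℤ)) := ⟨_, rfl⟩
  obtain ⟨x, hx1, hx2, hx3⟩ : ∃ x : ℕ → ℕ, (∀ i j, i ≤ j → j < T → x i ≤ x j) ∧
      (∀ i < T, x i + p i ≤ c) ∧ ∀ q ∈ Icc 1 l, ((range c).filter fun u =>
        ((range T).filter fun s => x s ≤ u ∧ u < x s + p s).card = q).card =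
          Mz m d (-(q : ℤ)) := by
    rcases Nat.eq_zero_or_pos l with hl | hl
    · subst hl
      have hr : r = 0 := by omega
      subst hr
      have hT0 : T = 0 := by rw [hT]; simp
      refine ⟨fun _ => 0, fun _ _ _ _ => le_rfl, fun i hi => by omega, fun q hq => ?_⟩
      rw [mem_Icc] at hq
      omega
    · have := thmA l r T hl p (fun i hi => (hp2 i hi).2) (fun q => Mz m d (-(q : ℤ)))
        (fun q h1 h2 => hMr (-(q : ℤ)) (by omega) (by omega))
        (hM1 (-(l : ℤ)) (by omega) (by omega)) hsump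
      rw [hc]
      exact this
  exact rz_of_rows m d l r hinj hran T c hc x p hp2 hp3 hx1
    (fun i j hij hj => add_le_add (hx1 i j hij hj) (hp1 i j hij hj)) hx2 hx3

/-- **positions and shifted positions both fill an interval** -/
theorem exists_pos {t : ℕ} (m : Fin t → ℕ) (d : Fin t → ℤ) (l r : ℕ)
    (hinj : Function.Injective d)
    (hran : ∀ z : ℤ, (-(l : ℤ) ≤ z ∧ z ≤ r) ↔ ∃ i, d i = z)
    (hm : ∀ i, -(l : ℤ) < d i → d i < r → min l r ≤ m i)
    (hm1 : ∀ i, 1 ≤ m i) (hs : ∑ i, (m i : ℤ) * d i = 0) :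
    ∃ pos : (Σ i, Fin (m i)) → ℕ, Set.BijOn pos Set.univ (Set.Iio (∑ i, m i)) ∧
      Set.BijOn (fun x => (pos x : ℤ) + d x.1) Set.univ (Set.Ico 0 ((∑ i, m i : ℕ) : ℤ)) := by
  rcases le_total r l with h | h
  · rw [min_eq_right h] at hm
    exact core m d l r h hinj hran (fun i h1 h2 => hm i h1 (by omega)) hm1 hs
  · rw [min_eq_left h] at hm
    have h1 := core m (fun i => -d i) r l h (fun i j hij => hinj (neg_injective hij)) (by
      intro z
      have h2 := hran (-z)
      constructor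
      · intro h3
        obtain ⟨i, hi⟩ := h2.1 ⟨by omega, by omega⟩
        exact ⟨i, by rw [hi, neg_neg]⟩
      · rintro ⟨i, hi⟩
        have h3 := h2.2 ⟨i, by rw [← hi, neg_neg]⟩
        omega) (fun i h2 h3 => hm i (by omega) (by omega)) hm1 (by
        rw [← neg_zero, ← hs, ← sum_neg_distrib]
        exact sum_congr rfl fun i _ => by ring)
    have h2 := rz_neg h1
    simp only [neg_neg] at h2
    exact h2

end Pool.Agent.SLS
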