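import Pool.Agent.StarF.Ext
import Pool.Agent.SLS.Perm

/-!
# Special super edge-magic labelings of star forests with all centres in `V_1`
-/

set_option autoImplicit false
namespace Pool.Agent.SLS
open Finset Pool.Agent.StarF

/-- `G` is special super edge-magic with `V_1 = A`: the statement under the quantifier `∃ A` in
`IsSSEM`. -/
def SSEMWith {V : Type} [Fintype V] (G : SimpleGraph V) (A : Set V) : Prop :=
  ∃ f : V → ℕ, (∀ u v, G.Adj u v → (u ∈ A ↔ v ∉ A)) ∧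
    Set.BijOn f Set.univ (Set.Icc 1 (Fintype.card V)) ∧ f '' A = Set.Icc 1 A.ncard ∧
    ∃ s : ℕ, {x : ℕ | ∃ u v, G.Adj u v ∧ x = f u + f v} = Set.Ico s (s + G.edgeSet.ncard)

theorem isSSEM_iff {V : Type} [Fintype V] (G : SimpleGraph V) :
    IsSSEM G ↔ ∃ A, SSEMWith G A := Iff.rfl

/-- the set of the centres of the stars -/
def centres {t : ℕ} (m : Fin t → ℕ) : Set (Σ i : Fin t, Option (Fin (m i))) := {v | v.2 = none}

theorem centres_eq {t : ℕ} (m : Fin t → ℕ) :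
    centres m = Set.range fun i : Fin t => (⟨i, none⟩ : Σ i : Fin t, Option (Fin (m i))) := by
  ext ⟨i, o⟩
  constructor
  · intro h
    have h1 : o = none := h
    exact ⟨i, by rw [h1]⟩
  · rintro ⟨j, hj⟩
    have h1 : (⟨i, o⟩ : Σ i : Fin t, Option (Fin (m i))).2 = none := by rw [← hj]
    exact h1

theorem centres_ncard {t : ℕ} (m : Fin t → ℕ) : (centres m).ncard = t := by
  rw [centres_eq, ← Set.image_univ, Set.ncard_image_of_injective, Set.ncard_univ,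
    Nat.card_eq_fintype_card, Fintype.card_fin]
  intro i j h
  exact congrArg Sigma.fst h

/-- sums along the leaves -/
theorem sums_eq {t : ℕ} (m : Fin t → ℕ) (f : (Σ i : Fin t, Option (Fin (m i))) → ℕ) :
    {x : ℕ | ∃ u v, (starForest m).Adj u v ∧ x = f u + f v} =
      Set.range fun y : (Σ i : Fin t, Fin (m i)) => f ⟨y.1, none⟩ + f ⟨y.1, some y.2⟩ := by
  ext x
  constructor
  · rintro ⟨u, v, h, rfl⟩
    rw [adj_iff] at h
    obtain ⟨i, k, ⟨rfl, rfl⟩ | ⟨rfl, rfl⟩⟩ := h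
    · exact ⟨⟨i, k⟩, rfl⟩
    · exact ⟨⟨i, k⟩, Nat.add_comm _ _⟩
  · rintro ⟨⟨i, k⟩, rfl⟩
    exact ⟨⟨i, none⟩, ⟨i, some k⟩, (adj_iff m _ _).2 ⟨i, k, Or.inl ⟨rfl, rfl⟩⟩, rfl⟩

theorem card_leaf {t : ℕ} (m : Fin t → ℕ) :
    (univ : Finset (Σ i : Fin t, Fin (m i))).card = ∑ i, m i := by
  rw [card_univ, Fintype.card_sigma]
  simp only [Fintype.card_fin]

theorem sum_vert {t : ℕ} (m : Fin t → ℕ) : ∑ i, (m i + 1) = t + ∑ i, m i := by
  rw [sum_add_distrib, sum_const, card_univ, Fintype.card_fin, smul_eq_mul, mul_one, add_comm]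

/-- **necessity** -/
theorem dvd_of_with {t : ℕ} (m : Fin t → ℕ) (h : SSEMWith (starForest m) (centres m)) :
    ∃ c : Fin t → ℕ, Set.BijOn c Set.univ (Set.Icc 1 t) ∧ ∑ i, m i ∣ ∑ i, c i * m i := by
  classical
  obtain ⟨f, -, hf, hA, s, hs⟩ := h
  rw [centres_ncard] at hA
  rw [card_vert, sum_vert] at hf
  rw [sums_eq, edge_ncard] at hs
  obtain ⟨N, hN⟩ : ∃ N, N = ∑ i, m i := ⟨_, rfl⟩
  have hL := card_leaf m
  rw [← hN] at hf hs hL ⊢
  have hinj : Function.Injective f := fun u v huv =>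
    hf.injOn (Set.mem_univ u) (Set.mem_univ v) huv
  have hcen : ∀ n, n ∈ Set.Icc 1 t ↔ ∃ i : Fin t, f ⟨i, none⟩ = n := by
    intro n
    rw [← hA, centres_eq, ← Set.range_comp]
    exact Iff.rfl
  refine ⟨fun i => f ⟨i, none⟩, ⟨fun i _ => (hcen _).2 ⟨i, rfl⟩, fun i _ j _ hij =>
    congrArg Sigma.fst (hinj hij), fun n hn => ?_⟩, ?_⟩
  · obtain ⟨i, hi⟩ := (hcen n).1 hn
    exact ⟨i, Set.mem_univ i, hi⟩
  have hginj : Function.Injective fun y : (Σ i : Fin t, Fin (m i)) => f ⟨y.1, some y.2⟩ := by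
    rintro ⟨i, k⟩ ⟨j, l⟩ hkl
    have h1 := hinj hkl
    have h2 : i = j := congrArg Sigma.fst h1
    subst h2
    have h3 : some k = some l := eq_of_heq (Sigma.mk.inj_iff.1 h1).2
    rw [Option.some.inj h3]
  have hgr : ∀ y : (Σ i : Fin t, Fin (m i)), t + 1 ≤ f ⟨y.1, some y.2⟩ ∧
      f ⟨y.1, some y.2⟩ < t + 1 + N := by
    intro y
    have h1 := Set.mem_Icc.1 (hf.mapsTo (Set.mem_univ
      (⟨y.1, some y.2⟩ : Σ i : Fin t, Option (Fin (m i)))))
    refine ⟨?_, by omega⟩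
    by_contra h2
    obtain ⟨i, hi⟩ := (hcen (f ⟨y.1, some y.2⟩)).1 (Set.mem_Icc.2 ⟨h1.1, by omega⟩)
    have h3 := congrArg (fun v : (Σ i : Fin t, Option (Fin (m i))) => v.2.isSome) (hinj hi)
    simp at h3
  have himg : (univ.image fun y : (Σ i : Fin t, Fin (m i)) => f ⟨y.1, some y.2⟩) =
      Ico (t + 1) (t + 1 + N) := by
    apply eq_of_subset_of_card_le
    · intro n hn
      obtain ⟨y, -, rfl⟩ := mem_image.1 hn
      exact mem_Ico.2 (hgr y)
    · rw [card_image_of_injective _ hginj, hL, Nat.card_Ico]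
      omega
  have hsum1 : ∑ y : (Σ i : Fin t, Fin (m i)), f ⟨y.1, some y.2⟩ =
      ∑ n ∈ Ico (t + 1) (t + 1 + N), n := by
    rw [← himg, sum_image fun a _ b _ hab => hginj hab]
  have himg2 : (univ.image fun y : (Σ i : Fin t, Fin (m i)) =>
      f ⟨y.1, none⟩ + f ⟨y.1, some y.2⟩) = Ico s (s + N) := by
    ext n
    rw [mem_image, mem_Ico]
    have h1 : n ∈ Set.Ico s (s + N) ↔ n ∈ Set.range (fun y : (Σ i : Fin t, Fin (m i)) =>
        f ⟨y.1, none⟩ + f ⟨y.1, some y.2⟩) := by rw [← hs]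
    rw [Set.mem_Ico] at h1
    rw [h1]
    simp only [mem_univ, true_and]
    exact Iff.rfl
  have hinj2 : Set.InjOn (fun y : (Σ i : Fin t, Fin (m i)) =>
      f ⟨y.1, none⟩ + f ⟨y.1, some y.2⟩) (univ : Finset (Σ i : Fin t, Fin (m i))) := by
    rw [← card_image_iff, himg2, Nat.card_Ico, hL]
    omega
  have hsum2 : ∑ y : (Σ i : Fin t, Fin (m i)), (f ⟨y.1, none⟩ + f ⟨y.1, some y.2⟩) =
      ∑ n ∈ Ico s (s + N), n := by
    rw [← himg2, sum_image hinj2]
  have hsum3 : ∑ y : (Σ i : Fin t, Fin (m i)), f ⟨y.1, none⟩ = ∑ i, f ⟨i, none⟩ * m i := by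
    rw [Fintype.sum_sigma]
    refine sum_congr rfl fun i _ => ?_
    show ∑ _k : Fin (m i), f ⟨i, none⟩ = _
    rw [sum_const, card_univ, Fintype.card_fin, smul_eq_mul, mul_comm]
  have hIco : ∀ a : ℕ, ∑ n ∈ Ico a (a + N), n = N * a + ∑ n ∈ range N, n := by
    intro a
    rw [sum_Ico_eq_sum_range, Nat.add_sub_cancel_left, sum_add_distrib, sum_const, card_range,
      smul_eq_mul]
  rw [sum_add_distrib, hsum1, hsum3, hIco, hIco] at hsum2
  show N ∣ ∑ i, f ⟨i, none⟩ * m i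
  refine (Nat.dvd_add_right (show N ∣ N * (t + 1) from Dvd.intro _ rfl)).1 ?_
  have h1 : N * (t + 1) + ∑ i, f ⟨i, none⟩ * m i = N * s := by omega
  rw [h1]
  exact Dvd.intro _ rfl

/-- **sufficiency**: an order `c` of the stars with `∑ c i * m i = w * ∑ m i` -/
theorem with_of_order {t : ℕ} (m : Fin t → ℕ) (hm1 : ∀ i, 1 ≤ m i) (c : Fin t → ℕ)
    (hc : Set.BijOn c Set.univ (Set.Icc 1 t)) (w : ℕ) (hw1 : 1 ≤ w) (hwt : w ≤ t)
    (hw : ∑ i, c i * m i = w * ∑ i, m i)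
    (hm : ∀ i, 1 < c i → c i < t → min (w - 1) (t - w) ≤ m i) :
    SSEMWith (starForest m) (centres m) := by
  classical
  have hcr : ∀ i, 1 ≤ c i ∧ c i ≤ t := fun i => Set.mem_Icc.1 (hc.mapsTo (Set.mem_univ i))
  obtain ⟨pos, hp1, hp2⟩ := exists_pos m (fun i => (c i : ℤ) - w) (w - 1) (t - w)
    (fun i j hij => hc.injOn (Set.mem_univ i) (Set.mem_univ j) (by
      have : (c i : ℤ) - w = c j - w := hij
      omega))
    (by
      intro z
      constructor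
      · intro h
        obtain ⟨i, -, hi⟩ := hc.surjOn (Set.mem_Icc.2
          (⟨by omega, by omega⟩ : 1 ≤ (z + w).toNat ∧ (z + w).toNat ≤ t))
        exact ⟨i, by
          show (c i : ℤ) - w = z
          omega⟩
      · rintro ⟨i, hi⟩
        have h1 := hcr i
        have h2 : (c i : ℤ) - w = z := hi
        omega)
    (fun i h1 h2 => hm i (by omega) (by omega)) hm1 (by
      have h1 : ∑ i, (m i : ℤ) * ((c i : ℤ) - w) = ∑ i, (c i : ℤ) * m i - w * ∑ i, (m i : ℤ) := by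
        rw [mul_sum, ← sum_sub_distrib]
        exact sum_congr rfl fun i _ => by ring
      rw [h1]
      have h2 : ((∑ i, c i * m i : ℕ) : ℤ) = ((w * ∑ i, m i : ℕ) : ℤ) := by rw [hw]
      push_cast at h2
      rw [h2, sub_self])
  obtain ⟨N, hN⟩ : ∃ N, N = ∑ i, m i := ⟨_, rfl⟩
  rw [← hN] at hp1 hp2
  have hpN : ∀ y, pos y < N := fun y => hp1.mapsTo (Set.mem_univ y)
  obtain ⟨f, hf1, hf2⟩ : ∃ f : (Σ i : Fin t, Option (Fin (m i))) → ℕ,
      (∀ i, f ⟨i, none⟩ = c i) ∧ ∀ y : (Σ i : Fin t, Fin (m i)),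
        f ⟨y.1, some y.2⟩ = t + 1 + pos y :=
    ⟨fun v => match v with
      | ⟨i, none⟩ => c i
      | ⟨i, some k⟩ => t + 1 + pos ⟨i, k⟩, fun _ => rfl, fun _ => rfl⟩
  refine ⟨f, ?_, ?_, ?_, t + 1 + w, ?_⟩
  · intro u v h
    rw [adj_iff] at h
    obtain ⟨i, k, ⟨rfl, rfl⟩ | ⟨rfl, rfl⟩⟩ := h
    · exact ⟨fun _ h => Option.some_ne_none k h, fun _ => rfl⟩
    · exact ⟨fun h => absurd h (Option.some_ne_none k), fun h => absurd rfl h⟩
  · rw [card_vert, sum_vert, ← hN]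
    refine ⟨?_, ?_, ?_⟩
    · rintro ⟨i, _ | k⟩ -
      · rw [hf1, Set.mem_Icc]
        have := hcr i
        omega
      · rw [hf2 ⟨i, k⟩, Set.mem_Icc]
        have := hpN ⟨i, k⟩
        omega
    · rintro ⟨i, _ | k⟩ - ⟨j, _ | k'⟩ - hab
      · rw [hf1, hf1] at hab
        rw [hc.injOn (Set.mem_univ i) (Set.mem_univ j) hab]
      · rw [hf1, hf2 ⟨j, k'⟩] at hab
        have := hcr i
        omega
      · rw [hf1, hf2 ⟨i, k⟩] at hab
        have := hcr j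
        omega
      · rw [hf2 ⟨i, k⟩, hf2 ⟨j, k'⟩] at hab
        have h1 := hp1.injOn (Set.mem_univ _) (Set.mem_univ _) (Nat.add_left_cancel hab)
        exact congrArg (fun y : (Σ i : Fin t, Fin (m i)) =>
          (⟨y.1, some y.2⟩ : Σ i : Fin t, Option (Fin (m i)))) h1
    · intro n hn
      rw [Set.mem_Icc] at hn
      by_cases h : n ≤ t
      · obtain ⟨i, -, hi⟩ := hc.surjOn (Set.mem_Icc.2 ⟨hn.1, h⟩)
        exact ⟨⟨i, none⟩, Set.mem_univ _, by rw [hf1, hi]⟩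
      · obtain ⟨y, -, hy⟩ := hp1.surjOn (show n - (t + 1) ∈ Set.Iio N by
          show n - (t + 1) < N
          omega)
        refine ⟨⟨y.1, some y.2⟩, Set.mem_univ _, ?_⟩
        rw [hf2, hy]
        omega
  · rw [centres_ncard, centres_eq, ← Set.range_comp, ← hc.image_eq, Set.image_univ]
    exact congrArg Set.range (funext hf1)
  · rw [sums_eq, edge_ncard, ← hN]
    ext n
    rw [Set.mem_Ico]
    constructor
    · rintro ⟨y, hy⟩
      have h1 : f ⟨y.1, none⟩ + f ⟨y.1, some y.2⟩ = n := hy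
      rw [hf1, hf2] at h1
      have h2 := Set.mem_Ico.1 (hp2.mapsTo (Set.mem_univ y))
      have h3 : 0 ≤ (pos y : ℤ) + ((c y.1 : ℤ) - w) ∧ (pos y : ℤ) + ((c y.1 : ℤ) - w) < N := h2
      omega
    · intro hn
      obtain ⟨y, -, hy⟩ := hp2.surjOn (show (n : ℤ) - (t + 1 + w) ∈ Set.Ico 0 (N : ℤ) from
        ⟨by omega, by omega⟩)
      have h3 : (pos y : ℤ) + ((c y.1 : ℤ) - w) = (n : ℤ) - (t + 1 + w) := hy
      refine ⟨y, ?_⟩
      show f ⟨y.1, none⟩ + f ⟨y.1, some y.2⟩ = n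
      rw [hf1, hf2]
      omega

/-- the quotient lies between `1` and `t` -/
theorem quot_range {t : ℕ} (ht : 0 < t) (m : Fin t → ℕ) (hm1 : ∀ i, 1 ≤ m i) (c : Fin t → ℕ)
    (hc : ∀ i, 1 ≤ c i ∧ c i ≤ t) (w : ℕ) (hw : ∑ i, c i * m i = w * ∑ i, m i) :
    1 ≤ w ∧ w ≤ t := by
  have hN : 0 < ∑ i, m i := by
    refine sum_pos (fun i _ => hm1 i) ⟨⟨0, ht⟩, mem_univ _⟩
  have h1 : ∑ i, m i ≤ ∑ i, c i * m i :=
    sum_le_sum fun i _ => Nat.le_mul_of_pos_left _ (hc i).1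
  have h2 : ∑ i, c i * m i ≤ t * ∑ i, m i := by
    rw [mul_sum]
    exact sum_le_sum fun i _ => Nat.mul_le_mul_right _ (hc i).2
  rw [hw] at h1 h2
  constructor
  · by_contra h
    have h3 : w = 0 := by omega
    rw [h3, zero_mul] at h1
    omega
  · exact Nat.le_of_mul_le_mul_right h2 hN

/-- **characterisation**: all sizes at least `(t - 1) / 2` -/
theorem with_iff {t : ℕ} (ht : 0 < t) (m : Fin t → ℕ) (hm1 : ∀ i, 1 ≤ m i)
    (hm : ∀ i, t ≤ 2 * m i + 1) :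
    SSEMWith (starForest m) (centres m) ↔
      ∃ c : Fin t → ℕ, Set.BijOn c Set.univ (Set.Icc 1 t) ∧ ∑ i, m i ∣ ∑ i, c i * m i := by
  constructor
  · exact dvd_of_with m
  · rintro ⟨c, hc, w, hw⟩
    rw [mul_comm] at hw
    have hcr : ∀ i, 1 ≤ c i ∧ c i ≤ t := fun i => Set.mem_Icc.1 (hc.mapsTo (Set.mem_univ i))
    obtain ⟨h1, h2⟩ := quot_range ht m hm1 c hcr w hw
    refine with_of_order m hm1 c hc w h1 h2 hw fun i _ _ => ?_
    have h3 := hm i
    have h4 := min_le_left (w - 1) (t - w)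
    have h5 := min_le_right (w - 1) (t - w)
    omega

/-- orders as permutations -/
theorem order_iff {t : ℕ} (m : Fin t → ℕ) :
    (∃ c : Fin t → ℕ, Set.BijOn c Set.univ (Set.Icc 1 t) ∧ ∑ i, m i ∣ ∑ i, c i * m i) ↔
      ∃ σ : Equiv.Perm (Fin t), ∑ i, m i ∣ ∑ i, ((σ i : ℕ) + 1) * m i := by
  constructor
  · rintro ⟨c, hc, hd⟩
    have hcr : ∀ i, 1 ≤ c i ∧ c i ≤ t := fun i => Set.mem_Icc.1 (hc.mapsTo (Set.mem_univ i))
    have hinj : Function.Injective fun i : Fin t => (⟨c i - 1, by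
        have := hcr i
        omega⟩ : Fin t) := by
      intro i j hij
      have h1 : c i - 1 = c j - 1 := congrArg Fin.val hij
      have h2 := hcr i
      have h3 := hcr j
      exact hc.injOn (Set.mem_univ i) (Set.mem_univ j) (by omega)
    refine ⟨Equiv.ofBijective _ (Finite.injective_iff_bijective.1 hinj), ?_⟩
    have h1 : ∑ i, ((Equiv.ofBijective _ (Finite.injective_iff_bijective.1 hinj) i : ℕ) + 1) *
        m i = ∑ i, c i * m i := by
      refine sum_congr rfl fun i _ => ?_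
      show (c i - 1 + 1) * m i = c i * m i
      rw [Nat.sub_add_cancel (hcr i).1]
    rw [h1]
    exact hd
  · rintro ⟨σ, hd⟩
    refine ⟨fun i => (σ i : ℕ) + 1, ⟨fun i _ => ?_, fun i _ j _ hij => ?_, fun n hn => ?_⟩, hd⟩
    · have h1 := (σ i).2
      show 1 ≤ (σ i : ℕ) + 1 ∧ (σ i : ℕ) + 1 ≤ t
      omega
    · have h1 : (σ i : ℕ) + 1 = (σ j : ℕ) + 1 := hij
      exact σ.injective (Fin.ext (by omega))
    · rw [Set.mem_Icc] at hn
      refine ⟨σ.symm ⟨n - 1, by omega⟩, Set.mem_univ _, ?_⟩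
      show (σ (σ.symm ⟨n - 1, by omega⟩) : ℕ) + 1 = n
      rw [Equiv.apply_symm_apply]
      show n - 1 + 1 = n
      omega

end Pool.Agent.SLS
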