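import Pool.Agent.SLS.TwoB

/-!
# Prescribed displacements when the smaller side has at most two values
-/

set_option autoImplicit false
namespace Pool.Agent.SLS.Two
open Finset

/-- rows `[x s, x s + p s)` with ascending ends: the permutation -/
theorem rz_items' (t c : ℕ) (x p : ℕ → ℕ) (hx : ∀ i j, i ≤ j → j < t → x i ≤ x j)
    (hp : ∀ i j, i ≤ j → j < t → x i + p i ≤ x j + p j) (he : ∀ i < t, x i + p i ≤ c) :
    Rz (fun a : Fin t ⊕ Fin c => Sum.elim (fun s : Fin t => ((p s : ℕ) : ℤ))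
      (fun u : Fin c => -((((range t).filter fun s => x s ≤ (u : ℕ) ∧
        (u : ℕ) < x s + p s).card : ℕ) : ℤ)) a) (t + c) := by
  have h1 := merge_bij t c x hx fun i hi => (Nat.le_add_right _ _).trans (he i hi)
  have h2 := merge_bij t c (fun s => x s + p s) hp he
  refine ⟨mg t c x, h1, ?_⟩
  have h3 := bijOn_cast h2
  refine (Set.EqOn.bijOn_iff ?_).1 h3
  rintro (s | u) -
  · show (((x s + p s + s : ℕ)) : ℤ) = ((x s + s : ℕ) : ℤ) + (p s : ℤ)
    push_cast
    ring
  · show (((u : ℕ) + ((range t).filter fun s => x s + p s ≤ u).card : ℕ) : ℤ) =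
      (((u : ℕ) + ((range t).filter fun s => x s ≤ u).card : ℕ) : ℤ) +
        -((((range t).filter fun s => x s ≤ (u : ℕ) ∧ (u : ℕ) < x s + p s).card : ℕ) : ℤ)
    have h4 : ((range t).filter fun s => x s ≤ (u : ℕ)).card =
        ((range t).filter fun s => x s ≤ (u : ℕ) ∧ (u : ℕ) < x s + p s).card +
        ((range t).filter fun s => x s + p s ≤ (u : ℕ)).card := by
      rw [← card_union_of_disjoint]
      · congr 1
        ext s
        simp only [mem_union, mem_filter, mem_range]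
        constructor
        · rintro ⟨a, b⟩
          by_cases h : (u : ℕ) < x s + p s
          · exact Or.inl ⟨a, b, h⟩
          · exact Or.inr ⟨a, by omega⟩
        · rintro (⟨a, b, -⟩ | ⟨a, b⟩)
          · exact ⟨a, b⟩
          · exact ⟨a, by omega⟩
      · rw [disjoint_left]
        intro s hs hs'
        rw [mem_filter] at hs hs'
        omega
    rw [h4]
    push_cast
    ring

/-- from rows and columns to the pairs `(i, k)` -/
theorem core_end {t : ℕ} (m : Fin t → ℕ) (d : Fin t → ℤ) (l r : ℕ)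
    (hinj : Function.Injective d)
    (hran : ∀ z : ℤ, (-(l : ℤ) ≤ z ∧ z ≤ r) ↔ ∃ i, d i = z) (M : ℤ → ℕ)
    (hMd : ∀ i, M (d i) = m i) (T c : ℕ) (p x : ℕ → ℕ)
    (hx1 : ∀ i j, i ≤ j → j < T → x i ≤ x j)
    (hp1 : ∀ i j, i ≤ j → j < T → x i + p i ≤ x j + p j)
    (hx2 : ∀ i < T, x i + p i ≤ c) (hp2 : ∀ i < T, 1 ≤ p i ∧ p i ≤ r)
    (hp3 : ∀ δ ∈ Icc 1 r, ((range T).filter fun s => p s = δ).card = M (δ : ℤ))
    (hc : c = ∑ q ∈ Icc 1 l, M (-(q : ℤ)))
    (hx3 : ∀ q ∈ Icc 1 l, ((range c).filter fun u =>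
        ((range T).filter fun s => x s ≤ u ∧ u < x s + p s).card = q).card = M (-(q : ℤ))) :
    Rz (fun x : (Σ i, Fin (m i)) => d x.1) (∑ i, m i) := by
  classical
  obtain ⟨cov, hcov⟩ : ∃ cov : ℕ → ℕ, ∀ u, cov u =
    ((range T).filter fun s => x s ≤ u ∧ u < x s + p s).card := ⟨_, fun _ => rfl⟩
  simp only [← hcov] at hx3
  have hcovr : ∀ u < c, 1 ≤ cov u ∧ cov u ≤ l := by
    have h1 : ((range c).filter fun u => cov u ∈ Icc 1 l).card = (range c).card := by
      rw [card_range, card_eq_sum_card_fiberwise (s := (range c).filter fun u => cov u ∈ Icc 1 l)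
        (f := cov) (t := Icc 1 l) (fun u hu => (mem_filter.1 hu).2)]
      conv_rhs => rw [hc]
      refine sum_congr rfl fun q hq => ?_
      rw [← hx3 q hq]
      congr 1
      ext u
      simp only [mem_filter]
      constructor
      · rintro ⟨⟨a, -⟩, b⟩
        exact ⟨a, b⟩
      · rintro ⟨a, b⟩
        exact ⟨⟨a, by rw [b]; exact hq⟩, b⟩
    intro u hu
    exact mem_Icc.1 (filter_card_eq h1 u (mem_range.2 hu))
  have hR := rz_zero (rz_items' T c x p hx1 hp1 hx2) (M 0)
  simp only [← hcov] at hR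
  obtain ⟨D, hDef⟩ : ∃ D : (Fin T ⊕ Fin c) ⊕ Fin (M 0) → ℤ, D = fun a => Sum.elim
    (fun a : Fin T ⊕ Fin c => Sum.elim (fun s : Fin T => ((p s : ℕ) : ℤ))
      (fun u : Fin c => -((cov u : ℕ) : ℤ)) a) (fun _ => (0 : ℤ)) a := ⟨_, rfl⟩
  rw [← hDef] at hR
  have hcount : ∀ v : ℤ, (univ.filter fun a => D a = v).card =
      ((range T).filter fun s => (p s : ℤ) = v).card +
      ((range c).filter fun u => -(cov u : ℤ) = v).card + if (0 : ℤ) = v then M 0 else 0 := by
    intro v
    rw [card_filter, Fintype.sum_sum_type, Fintype.sum_sum_type, card_filter, card_filter,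
      ← Fin.sum_univ_eq_sum_range (fun s => if (p s : ℤ) = v then 1 else 0),
      ← Fin.sum_univ_eq_sum_range (fun u => if -(cov u : ℤ) = v then 1 else 0), hDef]
    congr 1
    show ∑ _k : Fin (M 0), (if (0 : ℤ) = v then 1 else 0) = _
    rw [sum_const, card_univ, Fintype.card_fin, smul_eq_mul]
    split_ifs <;> simp
  have hDr : ∀ a, ∃ i, d i = D a := by
    intro a
    refine (hran (D a)).1 ?_
    rw [hDef]
    rcases a with (s | u) | k
    · have := hp2 s s.2
      show -(l : ℤ) ≤ ((p s : ℕ) : ℤ) ∧ ((p s : ℕ) : ℤ) ≤ r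
      omega
    · have := hcovr u u.2
      show -(l : ℤ) ≤ -((cov u : ℕ) : ℤ) ∧ -((cov u : ℕ) : ℤ) ≤ r
      omega
    · show -(l : ℤ) ≤ 0 ∧ (0 : ℤ) ≤ r
      omega
  have hDc : ∀ i, (univ.filter fun a => D a = d i).card = m i := by
    intro i
    rw [hcount, ← hMd]
    obtain ⟨hv1, hv2⟩ := (hran (d i)).2 ⟨i, rfl⟩
    generalize d i = v at hv1 hv2
    rcases lt_trichotomy v 0 with hv | hv | hv
    · have h1 : ((range T).filter fun s => (p s : ℤ) = v) = ∅ := by
        refine filter_eq_empty_iff.2 fun s _ => ?_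
        omega
      have h2 := hx3 v.natAbs (mem_Icc.2 ⟨by omega, by omega⟩)
      have h3 : -((v.natAbs : ℕ) : ℤ) = v := by omega
      rw [h3] at h2
      have h4 : ((range c).filter fun u => -(cov u : ℤ) = v) =
          (range c).filter fun u => cov u = v.natAbs := by
        refine filter_congr fun u _ => ?_
        omega
      rw [h1, h4, h2, if_neg (by omega), card_empty]
      omega
    · have h1 : ((range T).filter fun s => (p s : ℤ) = v) = ∅ := by
        refine filter_eq_empty_iff.2 fun s hs => ?_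
        have := hp2 s (mem_range.1 hs)
        omega
      have h2 : ((range c).filter fun u => -(cov u : ℤ) = v) = ∅ := by
        refine filter_eq_empty_iff.2 fun u hu => ?_
        have := hcovr u (mem_range.1 hu)
        omega
      rw [h1, h2, if_pos hv.symm, hv, card_empty]
      omega
    · have h1 := hp3 v.natAbs (mem_Icc.2 ⟨by omega, by omega⟩)
      have h3 : ((v.natAbs : ℕ) : ℤ) = v := by omega
      rw [h3] at h1
      have h4 : ((range T).filter fun s => (p s : ℤ) = v) =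
          (range T).filter fun s => p s = v.natAbs := by
        refine filter_congr fun s _ => ?_
        omega
      have h2 : ((range c).filter fun u => -(cov u : ℤ) = v) = ∅ := by
        refine filter_eq_empty_iff.2 fun u hu => ?_
        omega
      rw [h4, h1, h2, if_neg (by omega), card_empty]
      omega
  obtain ⟨φ, hφ⟩ := exists_equiv m d hinj D hDr hDc
  have hN : T + c + M 0 = ∑ i, m i := by
    have h1 := Fintype.card_congr φ
    rw [Fintype.card_sigma, Fintype.card_sum, Fintype.card_sum] at h1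
    simp only [Fintype.card_fin] at h1
    exact h1.symm
  have h2 := rz_equiv hR φ
  rw [hN] at h2
  simpa only [hφ] using h2

/-- the multiplicities of the values, and the balance of positive and negative values -/
theorem exists_M {t : ℕ} (m : Fin t → ℕ) (d : Fin t → ℤ) (l r : ℕ)
    (hinj : Function.Injective d)
    (hran : ∀ z : ℤ, (-(l : ℤ) ≤ z ∧ z ≤ r) ↔ ∃ i, d i = z)
    (hm1 : ∀ i, 1 ≤ m i) (hs : ∑ i, (m i : ℤ) * d i = 0) :
    ∃ M : ℤ → ℕ, (∀ i, M (d i) = m i) ∧ (∀ z : ℤ, -(l : ℤ) ≤ z → z ≤ r → 1 ≤ M z) ∧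
      ∑ δ ∈ Icc 1 r, (δ : ℤ) * M δ = ∑ q ∈ Icc 1 l, (q : ℤ) * M (-(q : ℤ)) := by
  classical
  obtain ⟨M, hM⟩ : ∃ M : ℤ → ℕ, ∀ z, M z = ∑ i ∈ univ.filter fun i => d i = z, m i :=
    ⟨_, fun _ => rfl⟩
  have hMd : ∀ i, M (d i) = m i := by
    intro i
    rw [hM, show (univ.filter fun j => d j = d i) = {i} from by
      ext j
      rw [mem_filter, mem_singleton]
      exact ⟨fun h => hinj h.2, fun h => ⟨mem_univ _, by rw [h]⟩⟩, sum_singleton]
  refine ⟨M, hMd, ?_, ?_⟩
  · intro z h1 h2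
    obtain ⟨i, hi⟩ := (hran z).1 ⟨h1, h2⟩
    rw [← hi, hMd]
    exact hm1 i
  · have h1 : ∑ z ∈ Icc (-(l : ℤ)) r, z * (M z : ℤ) = 0 := by
      rw [← hs, ← sum_fiberwise_of_maps_to (s := univ) (t := Icc (-(l : ℤ)) r) (g := d)
        (fun i _ => mem_Icc.2 ((hran (d i)).2 ⟨i, rfl⟩))]
      refine sum_congr rfl fun z _ => ?_
      rw [hM, Nat.cast_sum, mul_sum]
      refine sum_congr rfl fun i hi => ?_
      rw [(mem_filter.1 hi).2]
      ring
    rw [split_sum] at h1
    have h2 : ∑ q ∈ Icc 1 l, -(q : ℤ) * (M (-(q : ℤ)) : ℤ) =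
        -∑ q ∈ Icc 1 l, (q : ℤ) * M (-(q : ℤ)) := by
      rw [← sum_neg_distrib]
      exact sum_congr rfl fun q _ => by ring
    rw [h2] at h1
    linarith

/-- negative values `-1, -2` only -/
theorem core_two {t : ℕ} (m : Fin t → ℕ) (d : Fin t → ℤ) (r : ℕ)
    (hinj : Function.Injective d)
    (hran : ∀ z : ℤ, (-(2 : ℕ) ≤ z ∧ z ≤ r) ↔ ∃ i, d i = z)
    (hm1 : ∀ i, 1 ≤ m i) (hs : ∑ i, (m i : ℤ) * d i = 0) :
    Rz (fun x : (Σ i, Fin (m i)) => d x.1) (∑ i, m i) := by
  obtain ⟨M, hMd, hpos, hbal⟩ := exists_M m d 2 r hinj hran hm1 hs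
  have h12 : ∀ f : ℕ → ℕ, ∑ q ∈ Icc 1 2, f q = f 1 + f 2 := fun f => by
    rw [show Icc 1 2 = ({1, 2} : Finset ℕ) from rfl, sum_pair (by norm_num)]
  have hbal' : ∑ δ ∈ Icc 1 r, δ * M (δ : ℤ) = M (-1) + 2 * M (-2) := by
    have h1 : ((∑ δ ∈ Icc 1 r, δ * M (δ : ℤ) : ℕ) : ℤ) =
        ((∑ q ∈ Icc (1 : ℕ) 2, q * M (-(q : ℤ)) : ℕ) : ℤ) := by
      push_cast
      exact hbal
    have h2 : ∑ δ ∈ Icc 1 r, δ * M (δ : ℤ) = ∑ q ∈ Icc (1 : ℕ) 2, q * M (-(q : ℤ)) := by
      exact_mod_cast h1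
    rw [h2, h12]
    simp
  obtain ⟨T, p, x, h1, h2, h3, h4, h5, h6, h7⟩ := rows_two r (fun δ => M (δ : ℤ))
    (fun y a b => hpos y (by omega) (by omega)) (M (-1)) (M (-2))
    (hpos (-1) (by norm_num) (by omega)) hbal'
  refine core_end m d 2 r hinj hran M hMd T (M (-1) + M (-2)) p x h1 h2 h3 h4 h5 ?_ ?_
  · rw [h12]
    simp
  · intro q hq
    rw [mem_Icc] at hq
    rcases (show q = 1 ∨ q = 2 by omega) with h | h
    · subst h
      simpa using h6
    · subst h
      simpa using h7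

/-- **positions and shifted positions both fill an interval**: all sizes except the two extreme
ones are at least `min l r`, or `min l r ≤ 2` -/
theorem exists_pos' {t : ℕ} (m : Fin t → ℕ) (d : Fin t → ℤ) (l r : ℕ)
    (hinj : Function.Injective d)
    (hran : ∀ z : ℤ, (-(l : ℤ) ≤ z ∧ z ≤ r) ↔ ∃ i, d i = z)
    (hm : min l r ≤ 2 ∨ ∀ i, -(l : ℤ) < d i → d i < r → min l r ≤ m i)
    (hm1 : ∀ i, 1 ≤ m i) (hs : ∑ i, (m i : ℤ) * d i = 0) :
    ∃ pos : (Σ i, Fin (m i)) → ℕ, Set.BijOn pos Set.univ (Set.Iio (∑ i, m i)) ∧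
      Set.BijOn (fun x => (pos x : ℤ) + d x.1) Set.univ (Set.Ico 0 ((∑ i, m i : ℕ) : ℤ)) := by
  rcases hm with hm | hm
  · rcases (show min l r ≤ 1 ∨ l = 2 ∨ r = 2 by omega) with h | h | h
    · exact exists_pos m d l r hinj hran (fun i _ _ => h.trans (hm1 i)) hm1 hs
    · subst h
      exact core_two m d r hinj hran hm1 hs
    · subst h
      have h1 := core_two m (fun i => -d i) l (fun i j hij => hinj (neg_injective hij)) (by
        intro z
        have h2 := hran (-z)
        constructor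
        · intro h3
          obtain ⟨i, hi⟩ := h2.1 ⟨by omega, by omega⟩
          exact ⟨i, by rw [hi, neg_neg]⟩
        · rintro ⟨i, hi⟩
          have h3 := h2.2 ⟨i, by rw [← hi, neg_neg]⟩
          omega) hm1 (by
          rw [← neg_zero, ← hs, ← sum_neg_distrib]
          exact sum_congr rfl fun i _ => by ring)
      have h2 := rz_neg h1
      simp only [neg_neg] at h2
      exact h2
  · exact exists_pos m d l r hinj hran hm hm1 hs

end Pool.Agent.SLS.Two
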