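import Pool.Agent.SLS.Label
import Pool.Agent.SLS.Three

/-!
# All centres in `V_1`: at most eight stars, or all sizes at least `(t - 1) / 2`
-/

set_option autoImplicit false
namespace Pool.Agent.SLS
open Finset Pool.Agent.StarF

/-- **sufficiency**: an order `c` of the stars with `∑ c i * m i = w * ∑ m i` -/
theorem with_of_order3 {t : ℕ} (m : Fin t → ℕ) (hm1 : ∀ i, 1 ≤ m i) (c : Fin t → ℕ)
    (hc : Set.BijOn c Set.univ (Set.Icc 1 t)) (w : ℕ) (hw1 : 1 ≤ w) (hwt : w ≤ t)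
    (hw : ∑ i, c i * m i = w * ∑ i, m i)
    (hm : min (w - 1) (t - w) ≤ 2 ∨ t ≤ 8 ∨
      ∀ i, 1 < c i → c i < t → min (w - 1) (t - w) ≤ m i) :
    SSEMWith (starForest m) (centres m) := by
  classical
  have hcr : ∀ i, 1 ≤ c i ∧ c i ≤ t := fun i => Set.mem_Icc.1 (hc.mapsTo (Set.mem_univ i))
  obtain ⟨pos, hp1, hp2⟩ := Three.exists_pos3 m (fun i => (c i : ℤ) - w) (w - 1) (t - w)
    (fun i j hij => hc.injOn (Set.mem_univ i) (Set.mem_univ j) (by
      have : (c i : ℤ) - w = c j - w := hij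
      omega))
    (by
      intro z
      constructor
      · intro h
        obtain ⟨i, -, hi⟩ := hc.surjOn (Set.mem_Icc.2
          (⟨by omega, by omega⟩ : 1 ≤ (z + w).toNat ∧ (z + w).toNat ≤ t))
        exact ⟨i, by
          show (c i : ℤ) - w = z
          omega⟩
      · rintro ⟨i, hi⟩
        have h1 := hcr i
        have h2 : (c i : ℤ) - w = z := hi
        omega)
    (hm.imp_right fun h => h.imp (fun h8 => by omega) fun h i h1 h2 => h i (by omega) (by omega)) hm1 (by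
      have h1 : ∑ i, (m i : ℤ) * ((c i : ℤ) - w) = ∑ i, (c i : ℤ) * m i - w * ∑ i, (m i : ℤ) := by
        rw [mul_sum, ← sum_sub_distrib]
        exact sum_congr rfl fun i _ => by ring
      rw [h1]
      have h2 : ((∑ i, c i * m i : ℕ) : ℤ) = ((w * ∑ i, m i : ℕ) : ℤ) := by rw [hw]
      push_cast at h2
      rw [h2, sub_self])
  obtain ⟨N, hN⟩ : ∃ N, N = ∑ i, m i := ⟨_, rfl⟩
  rw [← hN] at hp1 hp2
  have hpN : ∀ y, pos y < N := fun y => hp1.mapsTo (Set.mem_univ y)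
  obtain ⟨f, hf1, hf2⟩ : ∃ f : (Σ i : Fin t, Option (Fin (m i))) → ℕ,
      (∀ i, f ⟨i, none⟩ = c i) ∧ ∀ y : (Σ i : Fin t, Fin (m i)),
        f ⟨y.1, some y.2⟩ = t + 1 + pos y :=
    ⟨fun v => match v with
      | ⟨i, none⟩ => c i
      | ⟨i, some k⟩ => t + 1 + pos ⟨i, k⟩, fun _ => rfl, fun _ => rfl⟩
  refine ⟨f, ?_, ?_, ?_, t + 1 + w, ?_⟩
  · intro u v h
    rw [adj_iff] at h
    obtain ⟨i, k, ⟨rfl, rfl⟩ | ⟨rfl, rfl⟩⟩ := h
    · exact ⟨fun _ h => Option.some_ne_none k h, fun _ => rfl⟩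
    · exact ⟨fun h => absurd h (Option.some_ne_none k), fun h => absurd rfl h⟩
  · rw [card_vert, sum_vert, ← hN]
    refine ⟨?_, ?_, ?_⟩
    · rintro ⟨i, _ | k⟩ -
      · rw [hf1, Set.mem_Icc]
        have := hcr i
        omega
      · rw [hf2 ⟨i, k⟩, Set.mem_Icc]
        have := hpN ⟨i, k⟩
        omega
    · rintro ⟨i, _ | k⟩ - ⟨j, _ | k'⟩ - hab
      · rw [hf1, hf1] at hab
        rw [hc.injOn (Set.mem_univ i) (Set.mem_univ j) hab]
      · rw [hf1, hf2 ⟨j, k'⟩] at hab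
        have := hcr i
        omega
      · rw [hf1, hf2 ⟨i, k⟩] at hab
        have := hcr j
        omega
      · rw [hf2 ⟨i, k⟩, hf2 ⟨j, k'⟩] at hab
        have h1 := hp1.injOn (Set.mem_univ _) (Set.mem_univ _) (Nat.add_left_cancel hab)
        exact congrArg (fun y : (Σ i : Fin t, Fin (m i)) =>
          (⟨y.1, some y.2⟩ : Σ i : Fin t, Option (Fin (m i)))) h1
    · intro n hn
      rw [Set.mem_Icc] at hn
      by_cases h : n ≤ t
      · obtain ⟨i, -, hi⟩ := hc.surjOn (Set.mem_Icc.2 ⟨hn.1, h⟩)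
        exact ⟨⟨i, none⟩, Set.mem_univ _, by rw [hf1, hi]⟩
      · obtain ⟨y, -, hy⟩ := hp1.surjOn (show n - (t + 1) ∈ Set.Iio N by
          show n - (t + 1) < N
          omega)
        refine ⟨⟨y.1, some y.2⟩, Set.mem_univ _, ?_⟩
        rw [hf2, hy]
        omega
  · rw [centres_ncard, centres_eq, ← Set.range_comp, ← hc.image_eq, Set.image_univ]
    exact congrArg Set.range (funext hf1)
  · rw [sums_eq, edge_ncard, ← hN]
    ext n
    rw [Set.mem_Ico]
    constructor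
    · rintro ⟨y, hy⟩
      have h1 : f ⟨y.1, none⟩ + f ⟨y.1, some y.2⟩ = n := hy
      rw [hf1, hf2] at h1
      have h2 := Set.mem_Ico.1 (hp2.mapsTo (Set.mem_univ y))
      have h3 : 0 ≤ (pos y : ℤ) + ((c y.1 : ℤ) - w) ∧ (pos y : ℤ) + ((c y.1 : ℤ) - w) < N := h2
      omega
    · intro hn
      obtain ⟨y, -, hy⟩ := hp2.surjOn (show (n : ℤ) - (t + 1 + w) ∈ Set.Ico 0 (N : ℤ) from
        ⟨by omega, by omega⟩)
      have h3 : (pos y : ℤ) + ((c y.1 : ℤ) - w) = (n : ℤ) - (t + 1 + w) := hy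
      refine ⟨y, ?_⟩
      show f ⟨y.1, none⟩ + f ⟨y.1, some y.2⟩ = n
      rw [hf1, hf2]
      omega

/-- **characterisation**: at most eight stars, or all sizes at least `(t - 1) / 2` -/
theorem with_iff3 {t : ℕ} (ht : 0 < t) (m : Fin t → ℕ) (hm1 : ∀ i, 1 ≤ m i)
    (hm : t ≤ 8 ∨ ∀ i, t ≤ 2 * m i + 1) :
    SSEMWith (starForest m) (centres m) ↔
      ∃ c : Fin t → ℕ, Set.BijOn c Set.univ (Set.Icc 1 t) ∧ ∑ i, m i ∣ ∑ i, c i * m i := by
  constructor
  · exact dvd_of_with m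
  · rintro ⟨c, hc, w, hw⟩
    rw [mul_comm] at hw
    have hcr : ∀ i, 1 ≤ c i ∧ c i ≤ t := fun i => Set.mem_Icc.1 (hc.mapsTo (Set.mem_univ i))
    obtain ⟨h1, h2⟩ := quot_range ht m hm1 c hcr w hw
    refine with_of_order3 m hm1 c hc w h1 h2 hw ?_
    rcases hm with hm | hm
    · exact Or.inr (Or.inl hm)
    · right
      right
      intro i _ _
      have h3 := hm i
      omega

end Pool.Agent.SLS
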