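import Pool.Agent.SLS.BalKey

/-!
# SLS: the key estimate for the balancing, with a condition on pairs of sizes
-/

set_option autoImplicit false

namespace Pool.Agent.SLS.Half

theorem pair_key (l r : ℕ) (n g H v τ : ℕ → ℤ)
    (hn1 : ∀ k, k ≤ l → 1 ≤ n k)
    (hn : ∀ i j, i ≤ l → j ≤ l → i ≠ j → (r : ℤ) + 1 ≤ 2 * n i + n j)
    (hg : ∀ k, 1 ≤ k → k < l → 0 ≤ g k)
    (hgs : ∑ k ∈ Finset.Ico 1 l, g k ≤ r)
    (hτ : ∀ k, 1 ≤ k → k < l → τ k = τ (k - 1) + n k - g k)
    (H0 : H 0 = 0) (Hl : ∀ k, l ≤ k → H k = 0) (Hn : ∀ k, 0 ≤ H k)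
    (hv : ∀ i, v i = τ i + H i - H (i + 1))
    (hvs : ∀ i, i + 1 < l → v i ≤ v (i + 1))
    (hv1 : ∀ i j, i < j → j < l → (∀ k, i < k → k ≤ j → 0 < H k) → v j ≤ v i + 1) :
    ∀ k, 1 ≤ k → k < l → 2 * H k ≤ g k ∧ H k ≤ n (k - 1) ∧ H k ≤ n (k + 1) := by
  have hthree : ∀ a b c, a ≤ l → b ≤ l → c ≤ l → a ≠ b → b ≠ c → a ≠ c →
      (r : ℤ) + 1 ≤ n a + n b + n c := by
    intro a b c ha hb hc hab hbc hac
    have h1 := hn a b ha hb hab
    have h2 := hn b c hb hc hbc
    have h3 := hn c a hc ha hac.symm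
    omega
  intro k hk1 hkl
  rcases (Hn k).eq_or_lt with h0 | hpos
  · rw [← h0]
    have h1 := hn1 (k - 1) (by omega)
    have h2 := hn1 (k + 1) (by omega)
    exact ⟨by simpa using hg k hk1 hkl, by omega, by omega⟩
  -- the run which contains `k`
  obtain ⟨i, hik, hi0, hi⟩ : ∃ i, i < k ∧ H i = 0 ∧ ∀ q, i < q → q < k → 0 < H q := by
    refine ⟨Nat.findGreatest (fun q => H q = 0) (k - 1), ?_, ?_, ?_⟩
    · have := Nat.findGreatest_le (P := fun q => H q = 0) (k - 1)
      omega
    · exact Nat.findGreatest_spec (P := fun q => H q = 0) (Nat.zero_le (k - 1)) H0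
    · intro q h1 h2
      have h3 := Nat.findGreatest_is_greatest h1 (by omega : q ≤ k - 1)
      exact lt_of_le_of_ne (Hn q) fun h => h3 h.symm
  obtain ⟨j, hkj, hj0, hjl, hj⟩ : ∃ j, k < j ∧ H j = 0 ∧ j ≤ l ∧
      ∀ q, k < q → q < j → 0 < H q := by
    have hex : ∃ q, k < q ∧ H q = 0 := ⟨l, hkl, Hl l le_rfl⟩
    refine ⟨Nat.find hex, (Nat.find_spec hex).1, (Nat.find_spec hex).2,
      Nat.find_min' hex ⟨hkl, Hl l le_rfl⟩, ?_⟩
    intro q h1 h2
    have h3 := Nat.find_min hex h2
    exact lt_of_le_of_ne (Hn q) fun h => h3 ⟨h1, h.symm⟩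
  have hrun : ∀ q, i < q → q < j → 0 < H q := by
    intro q h1 h2
    rcases lt_trichotomy q k with h | h | h
    · exact hi q h1 h
    · rw [h]
      exact hpos
    · exact hj q h h2
  have htel := bal_tel l n g τ hτ i j (by omega) hjl
  have hsub : ∑ q ∈ Finset.Ico (i + 1) j, g q ≤ r := by
    refine le_trans ?_ hgs
    apply Finset.sum_le_sum_of_subset_of_nonneg
    · intro q hq
      rw [Finset.mem_Ico] at hq ⊢
      omega
    · intro q hq _
      rw [Finset.mem_Ico] at hq
      exact hg q hq.1 hq.2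
  have hvj := hv1 i (j - 1) (by omega) (by omega) (fun q h1 h2 => hrun q h1 (by omega))
  have hvi := hv i
  have hvj2 := hv (j - 1)
  have hj1 : j - 1 + 1 = j := by omega
  rw [hj1, hj0] at hvj2
  have hHi := hrun (i + 1) (by omega) (by omega)
  have hHj := hrun (j - 1) (by omega) (by omega)
  have hlen : j ≤ i + 3 := by
    by_contra hcon
    have h1 : n (i + 1) + n (i + 2) + n (i + 3) ≤ ∑ q ∈ Finset.Ico (i + 1) j, n q := by
      have h2 : ∑ q ∈ Finset.Ico (i + 1) (i + 4), n q = n (i + 1) + n (i + 2) + n (i + 3) := by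
        rw [Finset.sum_Ico_succ_top (by omega), Finset.sum_Ico_succ_top (by omega),
          Finset.sum_Ico_succ_top (by omega)]
        simp
      rw [← h2]
      apply Finset.sum_le_sum_of_subset_of_nonneg
      · intro q hq
        rw [Finset.mem_Ico] at hq ⊢
        omega
      · intro q hq _
        rw [Finset.mem_Ico] at hq
        have := hn1 q (by omega)
        omega
    have h3 := hthree (i + 1) (i + 2) (i + 3) (by omega) (by omega) (by omega) (by omega)
      (by omega) (by omega)
    omega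
  have hcase : j = i + 2 ∨ j = i + 3 := by omega
  rcases hcase with rfl | rfl
  · -- a run of length one
    have hki : k = i + 1 := by omega
    subst hki
    have e1 := hτ (i + 1) (by omega) hkl
    have e2 := hn1 (i + 1) (by omega)
    have e3 : ∑ q ∈ Finset.Ico (i + 1) (i + 2), g q = g (i + 1) := by simp
    have e4 : i + 2 - 1 = i + 1 := rfl
    have e5 : i + 1 - 1 = i := rfl
    have e6 := hn i (i + 1) (by omega) (by omega) (by omega)
    have e7 := hn (i + 2) (i + 1) (by omega) (by omega) (by omega)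
    rw [e3] at hsub
    rw [e4] at hvj hvj2
    rw [e5] at e1 ⊢
    have e8 : i + 1 + 1 = i + 2 := rfl
    rw [e8]
    refine ⟨by omega, by omega, by omega⟩
  · -- a run of length two
    have e1 := hτ (i + 1) (by omega) (by omega)
    have e2 := hn1 (i + 1) (by omega)
    have e1' := hτ (i + 2) (by omega) (by omega)
    have e2' := hn1 (i + 2) (by omega)
    have e3 : ∑ q ∈ Finset.Ico (i + 1) (i + 3), g q = g (i + 1) + g (i + 2) := by
      rw [Finset.sum_Ico_succ_top (by omega), Finset.sum_Ico_succ_top (by omega)]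
      simp
    have e4 : i + 3 - 1 = i + 2 := rfl
    have e5 : i + 1 - 1 = i := rfl
    have e6 : i + 2 - 1 = i + 1 := rfl
    have e7 := hg (i + 1) (by omega) (by omega)
    have e8 := hg (i + 2) (by omega) (by omega)
    have e9 := hv (i + 1)
    have e10 : i + 1 + 1 = i + 2 := rfl
    have f1 := hv1 i (i + 1) (by omega) (by omega) (fun q h1 h2 => hrun q h1 (by omega))
    have f2 := hv1 (i + 1) (i + 2) (by omega) (by omega)
      (fun q h1 h2 => hrun q (by omega) (by omega))
    have s1 := hvs i (by omega)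
    have s2 := hvs (i + 1) (by omega)
    have p1 := hn (i + 1) (i + 2) (by omega) (by omega) (by omega)
    have p2 := hn (i + 2) (i + 1) (by omega) (by omega) (by omega)
    have p3 := hn i (i + 1) (by omega) (by omega) (by omega)
    have p4 := hn (i + 3) (i + 2) (by omega) (by omega) (by omega)
    have q1 := hthree i (i + 1) (i + 2) (by omega) (by omega) (by omega) (by omega) (by omega)
      (by omega)
    have q2 := hthree (i + 1) (i + 2) (i + 3) (by omega) (by omega) (by omega) (by omega)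
      (by omega) (by omega)
    rw [e3] at hsub
    rw [e4] at hvj hvj2
    rw [e5] at e1
    rw [e6] at e1'
    rw [e10] at e9 s2
    have hk2 : k = i + 1 ∨ k = i + 2 := by omega
    rcases hk2 with rfl | rfl
    · rw [e5, e10]
      refine ⟨by omega, by omega, by omega⟩
    · rw [e6]
      have e11 : i + 2 + 1 = i + 3 := rfl
      rw [e11]
      refine ⟨by omega, by omega, by omega⟩

end Pool.Agent.SLS.Half
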