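import Pool.Agent.SLS.HalfA
import Pool.Agent.SLS.Bal
import Pool.Agent.SLS.BalKey

/-!
# Skew diagrams up to repairable defects

List scheduling as in `ThmA`, but the release times are balanced before a round.
-/

set_option autoImplicit false
namespace Pool.Agent.SLS.Half
open Finset

section
variable (l : ℕ) (p : ℕ → ℕ) (t r : ℕ) (C : ℕ → ℤ) (Ψ : (ℕ → ℤ) → (ℕ → ℤ))

/-- ends of the schedule of the balanced release times, in descending order, minus `C` -/
def Pb (τ : ℕ → ℤ) (i : ℕ) : ℤ := if i < l then run l p (Ψ τ) t (l - 1 - i) - C i else 0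

/-- what is needed from the balancing map -/
structure Good : Prop where
  mono : ∀ τ σ : ℕ → ℤ, (∀ i, τ i ≤ σ i) → ∀ i, Ψ τ i ≤ Ψ σ i
  sorted : ∀ τ ∈ Dm l r C, ∀ i, i + 1 < l → Ψ τ i ≤ Ψ τ (i + 1)
  sum : ∀ τ ∈ Dm l r C, ∑ i ∈ range l, Ψ τ i = ∑ i ∈ range l, τ i
  last : ∀ τ ∈ Dm l r C, ∀ i < l, Ψ τ (l - 1) ≤ τ i + C i ∧ (i = 0 → Ψ τ (l - 1) < τ i + C i)

theorem pb_sum (hl : 1 ≤ l) (hG : Good l r C Ψ)
    (hC : ∑ k ∈ range t, (p k : ℤ) = ∑ i ∈ range l, C i)
    (τ : ℕ → ℤ) (h : τ ∈ Dm l r C) :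
    ∑ i ∈ range l, Pb l p t C Ψ τ i = ∑ i ∈ range l, τ i := by
  have h1 : ∑ i ∈ range l, Pb l p t C Ψ τ i =
      ∑ i ∈ range l, (run l p (Ψ τ) t (l - 1 - i) - C i) := by
    apply sum_congr rfl
    intro i hi
    unfold Pb
    rw [if_pos (by simpa using hi)]
  rw [h1, sum_sub_distrib, sum_range_reflect (fun i => run l p (Ψ τ) t i) l,
    run_total l p t hl (Ψ τ) (hG.sorted τ h), hC, hG.sum τ h]
  ring

theorem gapB (hl : 1 ≤ l) (hr : ∀ k < t, p k ≤ r) (hG : Good l r C Ψ)
    (hC : ∑ k ∈ range t, (p k : ℤ) = ∑ i ∈ range l, C i) (τ : ℕ → ℤ) (h : τ ∈ Dm l r C) :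
    run l p (Ψ τ) t (l - 1) ≤ run l p (Ψ τ) t 0 + r := by
  have hso := hG.sorted τ h
  have hs := run_sorted l p (Ψ τ) hso t
  have h1 := run_gap l p hl r (Ψ τ) hso t hr t le_rfl
  rcases le_max_iff.mp h1 with h2 | h2
  · exfalso
    have h3 := run_total l p t hl (Ψ τ) hso
    rw [hG.sum τ h, hC, ← sum_add_distrib] at h3
    have h4 : ∑ i ∈ range l, run l p (Ψ τ) t i ≤ ∑ i ∈ range l, Ψ τ (l - 1) := by
      apply sum_le_sum
      intro i hi
      have hi' : i < l := by simpa using hi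
      exact (sorted_le l _ hs i (l - 1) (by omega) (by omega)).trans h2
    have h5 := hG.last τ h
    have h6 : ∑ i ∈ range l, Ψ τ (l - 1) < ∑ i ∈ range l, (τ i + C i) :=
      sum_lt_sum (fun i hi => (h5 i (by simpa using hi)).1)
        ⟨0, by simp; omega, (h5 0 (by omega)).2 rfl⟩
    rw [h3] at h4
    linarith
  · exact h2

theorem pb_dom (hl : 1 ≤ l) (hr : ∀ k < t, p k ≤ r) (hG : Good l r C Ψ)
    (hC : ∑ k ∈ range t, (p k : ℤ) = ∑ i ∈ range l, C i) (τ : ℕ → ℤ) (h : τ ∈ Dm l r C) :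
    Pb l p t C Ψ τ ∈ Dm l r C := by
  have hs := run_sorted l p (Ψ τ) (hG.sorted τ h) t
  have hg := gapB l p t r C Ψ hl hr hG hC τ h
  refine ⟨?_, ?_⟩
  · intro i hi
    unfold Pb
    rw [if_neg (by omega)]
  · intro i j hij hj
    have e1 : Pb l p t C Ψ τ i = run l p (Ψ τ) t (l - 1 - i) - C i := by
      unfold Pb; rw [if_pos (by omega)]
    have e2 : Pb l p t C Ψ τ j = run l p (Ψ τ) t (l - 1 - j) - C j := by
      unfold Pb; rw [if_pos hj]
    have h1 := sorted_le l _ hs (l - 1 - j) (l - 1 - i) (by omega) (by omega)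
    have h2 := sorted_le l _ hs (l - 1 - i) (l - 1) (by omega) (by omega)
    have h3 := sorted_le l _ hs 0 (l - 1 - j) (by omega) (by omega)
    rw [e1, e2]
    constructor <;> linarith

theorem exists_fixedB (hl : 1 ≤ l) (hr : ∀ k < t, p k ≤ r) (hG : Good l r C Ψ)
    (hCa : ∀ i j, i ≤ j → j < l → C j ≤ C i) (hC0 : 0 ≤ C (l - 1))
    (hC : ∑ k ∈ range t, (p k : ℤ) = ∑ i ∈ range l, C i) :
    ∃ τ ∈ Dm l r C, ∀ i < l, run l p (Ψ τ) t (l - 1 - i) = τ i + C i := by
  have hr0 : (0 : ℤ) ≤ r := by positivity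
  obtain ⟨τ, hτ, he⟩ := fixedA l (Pb l p t C Ψ) (Dm l r C) (-∑ i ∈ range l, C i) (r + C 0)
    (fun τ h => pb_dom l p t r C Ψ hl hr hG hC τ h)
    (by
      intro τ h σ h'
      refine ⟨?_, ?_⟩
      · intro i hi
        simp [h.1 i hi, h'.1 i hi]
      · intro i j hij hj
        have h1 := h.2 i j hij hj
        have h2 := h'.2 i j hij hj
        simp only [Pi.inf_apply]
        rcases le_total (τ i) (σ i) with h3 | h3 <;> rcases le_total (τ j) (σ j) with h4 | h4
        · rw [inf_eq_left.2 h3, inf_eq_left.2 h4]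
          exact h1
        · rw [inf_eq_left.2 h3, inf_eq_right.2 h4]
          constructor <;> linarith [h1.1, h1.2, h2.1, h2.2]
        · rw [inf_eq_right.2 h3, inf_eq_left.2 h4]
          constructor <;> linarith [h1.1, h1.2, h2.1, h2.2]
        · rw [inf_eq_right.2 h3, inf_eq_right.2 h4]
          exact h2)
    (fun τ h => h.1)
    (by
      intro τ h hS i hi
      have hS' : ∑ j ∈ range l, (τ j + C j) = 0 := by
        rw [sum_add_distrib, hS]
        ring
      have h0 : ∑ j ∈ range l, (τ (l - 1) + C (l - 1)) ≤ ∑ j ∈ range l, (τ j + C j) :=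
        sum_le_sum fun j hj => by
          have hj' : j < l := by simpa using hj
          exact (h.2 j (l - 1) (by omega) (by omega)).1
      have h1 : ∑ j ∈ range l, (τ j + C j) ≤ ∑ j ∈ range l, (τ 0 + C 0) :=
        sum_le_sum fun j hj => by
          have hj' : j < l := by simpa using hj
          exact (h.2 0 j (by omega) (by omega)).1
      rw [hS'] at h0 h1
      rw [sum_const, card_range, nsmul_eq_mul] at h0 h1
      have hl0 : (0 : ℤ) < l := by exact_mod_cast hl
      have h2 : τ (l - 1) + C (l - 1) ≤ 0 := by nlinarith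
      have h3 : 0 ≤ τ 0 + C 0 := by nlinarith
      have h4 := h.2 0 (l - 1) (by omega) (by omega)
      have h5 := h.2 0 i (by omega) hi
      have h6 := h.2 i (l - 1) (by omega) (by omega)
      have h7 := hCa i (l - 1) (by omega) (by omega)
      have h8 := hCa 0 i (by omega) hi
      constructor <;> linarith [h4.1, h4.2, h5.1, h5.2, h6.1, h6.2])
    (by
      intro τ _ σ _ hle i
      unfold Pb
      split_ifs with hi
      · exact sub_le_sub_right (run_mono l p _ _ (hG.mono τ σ hle) t _) _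
      · exact le_rfl)
    (fun τ h => pb_sum l p t r C Ψ hl hG hC τ h)
    (fun i => if i < l then -C i else 0)
    (by
      refine ⟨fun i hi => if_neg (by omega), fun i j hij hj => ?_⟩
      simp only
      rw [if_pos (by omega : i < l), if_pos hj]
      constructor <;> linarith)
    (by
      rw [← sum_neg_distrib]
      exact sum_congr rfl fun i hi => if_pos (by simpa using hi))
  refine ⟨τ, hτ, ?_⟩
  intro i hi
  have := congrFun he i
  unfold Pb at this
  rw [if_pos hi] at this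
  linarith

/-- the flows of the balancing of an allowed vector are small -/
theorem dm_key (ν : ℕ) (hrν : r + 1 ≤ 3 * ν)
    (hC1 : ∀ k, 1 ≤ k → k < l → (ν : ℤ) ≤ C (k - 1) - C k) (τ : ℕ → ℤ) (h : τ ∈ Dm l r C)
    (v H : ℕ → ℤ) (hI : Inv l τ v H) (k : ℕ) (hk : 1 ≤ k) (hkl : k < l) :
    2 * H k ≤ τ (k - 1) + C (k - 1) - (τ k + C k) ∧ H k ≤ ν := by
  have hs : ∀ j, 1 ≤ j → j ≤ l → ∑ k ∈ Ico 1 j, (τ (k - 1) + C (k - 1) - (τ k + C k)) =
      τ 0 + C 0 - (τ (j - 1) + C (j - 1)) := by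
    intro j hj
    induction j, hj using Nat.le_induction with
    | base => intro _; simp
    | succ j hj ih =>
      intro hjl
      rw [Finset.sum_Ico_succ_top hj, ih (by omega), Nat.add_sub_cancel]
      ring
  refine bal_key l r ν hrν (fun k => C (k - 1) - C k)
    (fun k => τ (k - 1) + C (k - 1) - (τ k + C k)) H v τ hC1 (fun k h1 h2 => ?_) ?_
    (fun k h1 h2 => ?_) hI.h0 hI.hl hI.hn hI.hv hI.h1 k hk hkl
  · have := (h.2 (k - 1) k (by omega) h2).1
    show 0 ≤ τ (k - 1) + C (k - 1) - (τ k + C k)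
    linarith
  · rw [hs l (by omega) le_rfl]
    have := (h.2 0 (l - 1) (by omega) (by omega)).2
    linarith
  · show τ k = τ (k - 1) + (C (k - 1) - C k) - (τ (k - 1) + C (k - 1) - (τ k + C k))
    ring

theorem exists_good (hl : 1 ≤ l) (ν : ℕ) (hrν : r + 1 ≤ 3 * ν)
    (hC1 : ∀ k, 1 ≤ k → k < l → (ν : ℤ) ≤ C (k - 1) - C k) (hCl : (ν : ℤ) ≤ C (l - 1))
    (hCa : ∀ i j, i ≤ j → j < l → C j ≤ C i) :
    ∃ Ψ, Good l r C Ψ ∧ ∀ τ ∈ Dm l r C, ∃ H, Inv l τ (Ψ τ) H := by
  have hC0 : 0 ≤ C 0 := by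
    have := hCa 0 (l - 1) (by omega) (by omega)
    have : (0 : ℤ) ≤ ν := by positivity
    linarith
  obtain ⟨Ψ, h1, h2⟩ := exists_bal l hl (r + (C 0).toNat)
  have hB : ((r + (C 0).toNat : ℕ) : ℤ) = r + C 0 := by
    push_cast
    rw [Int.toNat_of_nonneg hC0]
  have hsp : ∀ τ ∈ Dm l r C, ∀ i j, i < l → j < l → τ i ≤ τ j + ((r + (C 0).toNat : ℕ) : ℤ) := by
    intro τ h i j hi hj
    rw [hB]
    have c1 := hCa 0 j (by omega) hj
    have c2 := hCa i (l - 1) (by omega) (by omega)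
    have c3 : (0 : ℤ) ≤ ν := by positivity
    have c4 : (0 : ℤ) ≤ r := by positivity
    rcases le_total i j with hij | hij
    · have := (h.2 i j hij hj).2
      linarith
    · have := (h.2 j i hij hi).1
      linarith
  refine ⟨Ψ, ⟨h1, fun τ h => (h2 τ (hsp τ h)).2, ?_, ?_⟩, fun τ h => (h2 τ (hsp τ h)).1⟩
  · intro τ h
    obtain ⟨H, hI⟩ := (h2 τ (hsp τ h)).1
    have e1 : ∀ j, ∑ i ∈ range j, Ψ τ i = ∑ i ∈ range j, τ i - H j := by
      intro j
      induction j with
      | zero =>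
        rw [hI.h0]
        simp
      | succ j ih =>
        rw [sum_range_succ, sum_range_succ, ih, hI.hv j]
        ring
    rw [e1, hI.hl l le_rfl, sub_zero]
  · intro τ h i hi
    obtain ⟨H, hI⟩ := (h2 τ (hsp τ h)).1
    have e1 := hI.hv (l - 1)
    have e2 : H (l - 1 + 1) = 0 := hI.hl _ (by omega)
    have e3 := (h.2 i (l - 1) (by omega) (by omega)).1
    rw [e2] at e1
    have hν : (1 : ℤ) ≤ ν := by
      have : 1 ≤ ν := by omega
      exact_mod_cast this
    rcases (show l = 1 ∨ 2 ≤ l by omega) with h0 | h0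
    · subst h0
      have e4 := hI.h0
      have e5 : H (1 - 1) = H 0 := rfl
      rw [e5, e4] at e1
      constructor
      · linarith
      · intro _
        linarith
    · have e4 := dm_key l r C ν hrν hC1 τ h _ H hI (l - 1) (by omega) (by omega)
      have e5 := hI.hn (l - 1)
      refine ⟨by linarith [e4.2], fun hi0 => ?_⟩
      subst hi0
      have e6 := (h.2 0 (l - 1 - 1) (by omega) (by omega)).1
      rcases (show H (l - 1) = 0 ∨ 0 < H (l - 1) by omega) with e7 | e7
      · linarith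
      · linarith [e4.1, e4.2]

end

/-- **rows, columns of height at least `(r + 1) / 3` times**: the number of columns of height `q`
is `n q + 2 * H q - H (q - 1) - H (q + 1)`, and there are `2 * H q` consecutive columns of height
`q` behind the starts of all rows -/
theorem thirdA (l r t ν : ℕ) (hl : 1 ≤ l) (hrν : r + 1 ≤ 3 * ν) (p : ℕ → ℕ)
    (hr : ∀ i < t, p i ≤ r) (n : ℕ → ℕ) (hn : ∀ q, 1 ≤ q → q ≤ l → ν ≤ n q)
    (hsum : ∑ i ∈ range t, p i = ∑ q ∈ Icc 1 l, q * n q) :
    ∃ (x : ℕ → ℕ) (c : ℕ) (H b : ℕ → ℕ), (∀ i j, i ≤ j → j < t → x i ≤ x j) ∧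
      (∀ i < t, x i + p i ≤ c) ∧ H 0 = 0 ∧ (∀ k, l ≤ k → H k = 0) ∧ (∀ k, H k ≤ ν) ∧
      (c = ∑ q ∈ Icc 1 l, n q + H 1) ∧
      (∀ q ∈ Icc 1 l, ((range c).filter fun u =>
        ((range t).filter fun s => x s ≤ u ∧ u < x s + p s).card = q).card
        + H (q - 1) + H (q + 1) = n q + 2 * H q) ∧
      (∀ k, 0 < H k → (∀ u, b k ≤ u → u < b k + 2 * H k → u < c ∧
        ((range t).filter fun s => x s ≤ u ∧ u < x s + p s).card = k) ∧ ∀ i < t, x i ≤ b k) := by
  set Cn : ℕ → ℕ := fun i => ∑ q ∈ Icc (i + 1) l, n q with hCn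
  have Cn_succ : ∀ i, i < l → Cn i = n (i + 1) + Cn (i + 1) := by
    intro i hi
    simp only [hCn]
    rw [← Finset.add_sum_Ioc_eq_sum_Icc (show i + 1 ≤ l by omega)]
    congr 1
    apply sum_congr _ fun _ _ => rfl
    ext q
    simp only [mem_Ioc, mem_Icc]
    omega
  have Cn_l : Cn l = 0 := by simp [hCn]
  have Cn_last : Cn (l - 1) = n l := by
    have := Cn_succ (l - 1) (by omega)
    rw [show l - 1 + 1 = l by omega, Cn_l] at this
    omega
  have Cn_anti : ∀ i j, i ≤ j → j < l → Cn j ≤ Cn i := by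
    intro i j hij
    induction j, hij using Nat.le_induction with
    | base => intro _; exact le_rfl
    | succ k hk ih =>
      intro hkl
      have h1 := Cn_succ k (by omega)
      have h2 := ih (by omega)
      omega
  -- areas
  have harea : ∀ k, k ≤ l → ∑ i ∈ range k, Cn i = ∑ q ∈ Icc 1 k, q * n q + k * Cn k := by
    intro k
    induction k with
    | zero => intro _; simp
    | succ k ih =>
      intro hk
      rw [sum_range_succ, ih (by omega), Finset.sum_Icc_succ_top (by omega), Cn_succ k (by omega)]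
      ring
  have harea' : ∑ i ∈ range t, p i = ∑ i ∈ range l, Cn i := by
    rw [harea l le_rfl, hsum, Cn_l]
    ring
  have hnl := hn l hl le_rfl
  have hC1 : ∀ k, 1 ≤ k → k < l → (ν : ℤ) ≤ (Cn (k - 1) : ℤ) - (Cn k : ℤ) := by
    intro k h1 h2
    have h3 := Cn_succ (k - 1) (by omega)
    rw [show k - 1 + 1 = k by omega] at h3
    have h4 := hn k h1 h2.le
    omega
  have hCa : ∀ i j, i ≤ j → j < l → (Cn j : ℤ) ≤ (Cn i : ℤ) := fun i j hij hj => by
    exact_mod_cast Cn_anti i j hij hj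
  obtain ⟨Ψ, hG, hH⟩ := exists_good l r (fun i => (Cn i : ℤ)) hl ν hrν hC1 (by
    rw [Cn_last]
    exact_mod_cast hnl) hCa
  obtain ⟨τ, hτ, hfix⟩ := exists_fixedB l p t r (fun i => (Cn i : ℤ)) Ψ hl hr hG hCa
    (Int.natCast_nonneg _) (by exact_mod_cast harea')
  obtain ⟨H, hI⟩ := hH τ hτ
  have hτ2 : ∀ i j, i ≤ j → j < l → τ j + (Cn j : ℤ) ≤ τ i + (Cn i : ℤ) ∧
      τ i + (Cn i : ℤ) ≤ τ j + (Cn j : ℤ) + r := hτ.2
  have hkey : ∀ k, 1 ≤ k → k < l →
      2 * H k ≤ τ (k - 1) + (Cn (k - 1) : ℤ) - (τ k + (Cn k : ℤ)) ∧ H k ≤ ν :=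
    fun k h1 h2 => dm_key l r (fun i => (Cn i : ℤ)) ν hrν hC1 τ hτ _ H hI k h1 h2
  obtain ⟨v, hv⟩ : ∃ v, v = Ψ τ := ⟨_, rfl⟩
  have hso := hG.sorted τ hτ
  rw [← hv] at hI hso hfix
  obtain ⟨G, hGH⟩ : ∃ G : ℕ → ℕ, ∀ k, (G k : ℤ) = H k :=
    ⟨fun k => (H k).toNat, fun k => Int.toNat_of_nonneg (hI.hn k)⟩
  have g0 : G 0 = 0 := by
    have h1 := hGH 0
    rw [hI.h0] at h1
    omega
  have gl : ∀ k, l ≤ k → G k = 0 := by
    intro k hk
    have h1 := hGH k
    rw [hI.hl k hk] at h1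
    omega
  have gν : ∀ k, G k ≤ ν := by
    intro k
    rcases (show k = 0 ∨ l ≤ k ∨ (1 ≤ k ∧ k < l) by omega) with h1 | h1 | h1
    · rw [h1, g0]
      omega
    · rw [gl k h1]
      omega
    · have h2 := (hkey k h1.1 h1.2).2
      have h3 := hGH k
      omega
  have hCν : ∀ i < l, ν ≤ Cn i := by
    intro i hi
    have h1 := Cn_anti i (l - 1) (by omega) (by omega)
    omega
  obtain ⟨C', hC'⟩ : ∃ C' : ℕ → ℕ, ∀ j, C' j = Cn j + G (j + 1) - G j := ⟨_, fun _ => rfl⟩
  have hC'2 : ∀ j < l, C' j + G j = Cn j + G (j + 1) := by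
    intro j hj
    have h1 := hCν j hj
    have h2 := gν j
    rw [hC']
    omega
  have hbeta : ∀ j < l, v j + C' j = τ j + Cn j := by
    intro j hj
    have h1 := hI.hv j
    have h2 := hC'2 j hj
    have h3 := hGH j
    have h4 := hGH (j + 1)
    omega
  have hfix' : ∀ j < l, run l p v t (l - 1 - j) = v j + C' j := by
    intro j hj
    rw [hbeta j hj]
    exact hfix j hj
  obtain ⟨x, a, hak, hx1, hx2, hx3, hcov⟩ := assemble l t hl p v C' hso hfix'
  have ha : ∀ j, j + 1 < l → a j ≤ a (j + 1) := by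
    intro j hj
    have h1 := hak j (by omega)
    have h2 := hak (j + 1) hj
    have h3 := hso j hj
    omega
  have hb : ∀ j k, j ≤ k → k < l → a k + C' k ≤ a j + C' j := by
    intro j k hjk hk
    have h1 := hak j (by omega)
    have h2 := hak k hk
    have h3 := hbeta j (by omega)
    have h4 := hbeta k hk
    have h7 := (hτ2 j k hjk hk).1
    omega
  have hgap : ∀ k, 1 ≤ k → k < l → a k + C' k + 2 * G k ≤ a (k - 1) + C' (k - 1) := by
    intro k h0 hk
    have h1 := hak (k - 1) (by omega)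
    have h2 := hak k hk
    have h3 := hbeta (k - 1) (by omega)
    have h4 := hbeta k hk
    have h7 := (hkey k h0 hk).1
    have h8 := hGH k
    omega
  have ha0 : a 0 = 0 := by
    have := hak 0 (by omega)
    omega
  have ham : ∀ j k, j ≤ k → k < l → a j ≤ a k := by
    intro j k hjk hk
    induction k, hjk using Nat.le_induction with
    | base => exact le_rfl
    | succ k hk' ih => exact (ih (by omega)).trans (ha k hk)
  have hC0 : (∑ q ∈ Icc 1 l, n q) = Cn 0 := rfl
  refine ⟨x, C' 0, G, fun k => a k + C' k, hx1, hx2, g0, gl, gν, ?_, ?_, ?_⟩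
  · have h1 : C' 0 + G 0 = Cn 0 + G 1 := hC'2 0 (by omega)
    rw [hC0]
    omega
  · intro q hq
    rw [mem_Icc] at hq
    simp only [hcov]
    rw [nested_count l a C' ha (fun j hj => hb j (j + 1) (by omega) hj) ha0 q hq.1 hq.2]
    have e1 := Cn_succ (q - 1) (by omega)
    rw [show q - 1 + 1 = q by omega] at e1
    have e2 := hC'2 (q - 1) (by omega)
    rw [show q - 1 + 1 = q by omega] at e2
    by_cases hql : q < l
    · rw [if_pos hql]
      have e3 := hC'2 q hql
      have e4 := hb (q - 1) q (by omega) hql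
      have e5 := ham (q - 1) q (by omega) hql
      omega
    · have e3 : q = l := by omega
      rw [if_neg hql]
      have e4 := gl q (by omega)
      have e5 := gl (q + 1) (by omega)
      rw [e3] at e1 e2 e4 e5 ⊢
      omega
  · intro k hk
    have hk0 : k ≠ 0 := fun h => by
      rw [h, g0] at hk
      omega
    have hkl : k < l := by
      by_contra h
      rw [gl k (by omega)] at hk
      omega
    have k0 := hgap k (by omega) hkl
    refine ⟨?_, ?_⟩
    · intro u hu1 hu2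
      have k1 := hb 0 (k - 1) (by omega) (by omega)
      have k2 := hb k (l - 1) (by omega) (by omega)
      have hu1' : a k + C' k ≤ u := hu1
      have hu2' : u < a k + C' k + 2 * G k := hu2
      refine ⟨by omega, ?_⟩
      rw [hcov u, show ((range l).filter fun j => a j ≤ u ∧ u < a j + C' j) = range k from ?_,
        card_range]
      ext j
      rw [mem_filter, mem_range, mem_range]
      constructor
      · rintro ⟨h1, h2, h3⟩
        by_contra h4
        have h5 := hb k j (by omega) h1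
        omega
      · intro h1
        have h2 := ham j (l - 1) (by omega) (by omega)
        have h3 := hb j (k - 1) (by omega) (by omega)
        exact ⟨by omega, by omega, by omega⟩
    · intro s hs
      exact (hx3 s hs).trans (hb k (l - 1) (by omega) (by omega))

end Pool.Agent.SLS.Half
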