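import Pool.Agent.SLS.ThirdA
import Pool.Agent.SLS.ThirdB
import Pool.Agent.SLS.Three
import Pool.Agent.SLS.Gen

/-!
# All centres in `V_1`: at most eight stars, or all sizes at least `t / 6`
-/

set_option autoImplicit false
namespace Pool.Agent.SLS.Half
open Finset Pool.Agent.StarF

/-- the case `r ≤ l` -/
theorem core_third {t : ℕ} (m : Fin t → ℕ) (d : Fin t → ℤ) (l r ν : ℕ) (hrl : r ≤ l)
    (hrν : r + 1 ≤ 3 * ν) (hinj : Function.Injective d)
    (hran : ∀ z : ℤ, (-(l : ℤ) ≤ z ∧ z ≤ r) ↔ ∃ i, d i = z)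
    (hm : ∀ i, d i ≤ 0 → ν ≤ m i)
    (hm1 : ∀ i, 1 ≤ m i) (hs : ∑ i, (m i : ℤ) * d i = 0) :
    Rz (fun x : (Σ i, Fin (m i)) => d x.1) (∑ i, m i) := by
  have hMd := Mz_apply m d hinj
  have hMr : ∀ z : ℤ, -(l : ℤ) ≤ z → z ≤ 0 → ν ≤ Mz m d z := by
    intro z h1 h2
    obtain ⟨i, hi⟩ := (hran z).1 ⟨h1, by omega⟩
    rw [← hi] at h1 h2 ⊢
    rw [hMd]
    exact hm i h2
  obtain ⟨p, hp1, hp2, hp3⟩ := exists_sorted (fun δ => Mz m d δ) r
  obtain ⟨T, hT⟩ : ∃ T, T = ∑ δ ∈ Icc 1 r, Mz m d (δ : ℤ) := ⟨_, rfl⟩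
  rw [← hT] at hp1 hp2 hp3
  have hsump : ∑ i ∈ range T, p i = ∑ q ∈ Icc 1 l, q * Mz m d (-(q : ℤ)) := by
    rw [sum_of_mult (fun δ => Mz m d δ) r T p hp2 hp3]
    exact balance m d l r hran hs
  rcases Nat.eq_zero_or_pos l with hl | hl
  · subst hl
    have hr : r = 0 := by omega
    subst hr
    exact core m d 0 0 le_rfl hinj hran (fun i h1 h2 => by omega) hm1 hs
  · obtain ⟨x, c, H, b, hx1, hx2, H0, Hl, Hν, hc, hx3, hst⟩ := thirdA l r T ν hl hrν p
      (fun i hi => (hp2 i hi).2) (fun q => Mz m d (-(q : ℤ)))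
      (fun q h1 h2 => hMr (-(q : ℤ)) (by omega) (by omega)) hsump
    exact rz_of_rows_multi m d l r hinj hran T c x p hp2 hp3 hx1
      (fun i j hij hj => add_le_add (hx1 i j hij hj) (hp1 i j hij hj)) hx2 H b H0 Hl hst hx3 hc
      ((Hν 1).trans (hMr 0 (by omega) le_rfl))

/-- **positions and shifted positions both fill an interval**: all sizes are at least
`(min l r + 1) / 3`, or `l + r ≤ 7` -/
theorem exists_pos_third {t : ℕ} (m : Fin t → ℕ) (d : Fin t → ℤ) (l r : ℕ)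
    (hinj : Function.Injective d)
    (hran : ∀ z : ℤ, (-(l : ℤ) ≤ z ∧ z ≤ r) ↔ ∃ i, d i = z)
    (hm : l + r ≤ 7 ∨ ∀ i, min l r + 1 ≤ 3 * m i)
    (hm1 : ∀ i, 1 ≤ m i) (hs : ∑ i, (m i : ℤ) * d i = 0) :
    ∃ pos : (Σ i, Fin (m i)) → ℕ, Set.BijOn pos Set.univ (Set.Iio (∑ i, m i)) ∧
      Set.BijOn (fun x => (pos x : ℤ) + d x.1) Set.univ (Set.Ico 0 ((∑ i, m i : ℕ) : ℤ)) := by
  rcases hm with hm | hm
  · exact Three.exists_pos3 m d l r hinj hran (Or.inr (Or.inl hm)) hm1 hs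
  · rcases le_total r l with h | h
    · rw [min_eq_right h] at hm
      exact core_third m d l r (r / 3 + 1) h (by omega) hinj hran
        (fun i _ => by have := hm i; omega) hm1 hs
    · rw [min_eq_left h] at hm
      have h1 := core_third m (fun i => -d i) r l (l / 3 + 1) h (by omega)
        (fun i j hij => hinj (neg_injective hij)) (by
        intro z
        have h2 := hran (-z)
        constructor
        · intro h3
          obtain ⟨i, hi⟩ := h2.1 ⟨by omega, by omega⟩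
          exact ⟨i, by rw [hi, neg_neg]⟩
        · rintro ⟨i, hi⟩
          have h3 := h2.2 ⟨i, by rw [← hi, neg_neg]⟩
          omega) (fun i _ => by have := hm i; omega) hm1 (by
          rw [← neg_zero, ← hs, ← sum_neg_distrib]
          exact sum_congr rfl fun i _ => by ring)
      have h2 := rz_neg h1
      simp only [neg_neg] at h2
      exact h2

/-- **characterisation**: at most eight stars, or all sizes at least `t / 6` -/
theorem with_iff_third {t : ℕ} (ht : 0 < t) (m : Fin t → ℕ) (hm1 : ∀ i, 1 ≤ m i)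
    (hm : t ≤ 8 ∨ ∀ i, t ≤ 6 * m i) :
    SSEMWith (starForest m) (centres m) ↔
      ∃ σ : Equiv.Perm (Fin t), ∑ i, m i ∣ ∑ i, ((σ i : ℕ) + 1) * m i :=
  with_iff_gen ht m hm1 fun d l r hlr hinj hran hs =>
    exists_pos_third m d l r hinj hran (hm.imp (fun h => by omega) fun h i => by
      have := h i
      omega) hm1 hs

end Pool.Agent.SLS.Half
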