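import Mathlib

/-!
# Skew diagrams with given row lengths and given column multiplicities

List scheduling of jobs in ascending order on `l` machines; the release times are a fixed point
of a monotone sum preserving map on integer vectors.
-/

set_option autoImplicit false
namespace Pool.Agent.SLS
open Finset

/-- one step of list scheduling, on the sorted vector of the times when the machines are free -/
def stp (l : ℕ) (p : ℤ) (v : ℕ → ℤ) (i : ℕ) : ℤ :=
  if i + 1 < l then min (v (i + 1)) (max (v i) (v 0 + p)) else max (v i) (v 0 + p)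

theorem stp_mono (l : ℕ) (p : ℤ) (v w : ℕ → ℤ) (h : ∀ i, v i ≤ w i) (i : ℕ) :
    stp l p v i ≤ stp l p w i := by
  unfold stp
  split_ifs
  · exact min_le_min (h _) (max_le_max (h _) (by have := h 0; omega))
  · exact max_le_max (h _) (by have := h 0; omega)

theorem stp_sorted (l : ℕ) (p : ℤ) (v : ℕ → ℤ) (h : ∀ i, i + 1 < l → v i ≤ v (i + 1))
    (i : ℕ) (hi : i + 1 < l) : stp l p v i ≤ stp l p v (i + 1) := by
  unfold stp
  rw [if_pos hi]
  split_ifs with h2
  · refine (min_le_left _ _).trans (le_min (h _ h2) (le_max_left _ _))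
  · exact (min_le_left _ _).trans (le_max_left _ _)

theorem le_stp_zero (l : ℕ) (p : ℤ) (v : ℕ → ℤ) (h : ∀ i, i + 1 < l → v i ≤ v (i + 1)) :
    v 0 ≤ stp l p v 0 := by
  unfold stp
  split_ifs with h2
  · exact le_min (h 0 h2) (le_max_left _ _)
  · exact le_max_left _ _

theorem stp_sum (l : ℕ) (hl : 1 ≤ l) (p : ℤ) (hp : 0 ≤ p) (v : ℕ → ℤ)
    (h : ∀ i, i + 1 < l → v i ≤ v (i + 1)) (g : ℤ → ℤ) :
    ∑ i ∈ range l, g (stp l p v i) + g (v 0) = ∑ i ∈ range l, g (v i) + g (v 0 + p) := by
  have key : ∀ k, k + 1 ≤ l → ∑ i ∈ range k, g (stp l p v i) + g (v 0)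
      = ∑ i ∈ range k, g (v i) + g (min (v k) (v 0 + p)) := by
    intro k
    induction k with
    | zero => intro _; simp [hp]
    | succ k ih =>
      intro hk
      have ih' := ih (by omega)
      rw [sum_range_succ, sum_range_succ]
      have hs : stp l p v k = min (v (k + 1)) (max (v k) (v 0 + p)) := by
        unfold stp; rw [if_pos (by omega)]
      have hv := h k (by omega)
      have e : g (min (v k) (v 0 + p)) + g (min (v (k + 1)) (max (v k) (v 0 + p)))
          = g (v k) + g (min (v (k + 1)) (v 0 + p)) := by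
        rcases le_total (v 0 + p) (v k) with h1 | h1
        · rw [min_eq_right h1, max_eq_left h1, min_eq_right hv, min_eq_right (h1.trans hv)]
          ring
        · rw [min_eq_left h1, max_eq_right h1]
      rw [hs]
      linarith
  obtain ⟨k, rfl⟩ : ∃ k, l = k + 1 := ⟨l - 1, by omega⟩
  have hk := key k le_rfl
  rw [sum_range_succ, sum_range_succ]
  have hs : stp (k + 1) p v k = max (v k) (v 0 + p) := by
    unfold stp; rw [if_neg (by omega)]
  rw [hs]
  have e : g (min (v k) (v 0 + p)) + g (max (v k) (v 0 + p)) = g (v k) + g (v 0 + p) := by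
    rcases le_total (v 0 + p) (v k) with h1 | h1
    · rw [min_eq_right h1, max_eq_left h1]; ring
    · rw [min_eq_left h1, max_eq_right h1]
  linarith

/-- the state after the first `s` jobs -/
def run (l : ℕ) (p : ℕ → ℕ) (v : ℕ → ℤ) : ℕ → ℕ → ℤ
  | 0 => v
  | s + 1 => stp l (p s) (run l p v s)

section
variable (l : ℕ) (p : ℕ → ℕ)

theorem run_mono (v w : ℕ → ℤ) (h : ∀ i, v i ≤ w i) (s i : ℕ) :
    run l p v s i ≤ run l p w s i := by
  induction s generalizing i with
  | zero => exact h i
  | succ s ih => exact stp_mono l _ _ _ ih i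

theorem run_sorted (v : ℕ → ℤ) (h : ∀ i, i + 1 < l → v i ≤ v (i + 1)) (s : ℕ) :
    ∀ i, i + 1 < l → run l p v s i ≤ run l p v s (i + 1) := by
  induction s with
  | zero => exact h
  | succ s ih => exact stp_sorted l _ _ ih

theorem run_zero_mono (v : ℕ → ℤ) (h : ∀ i, i + 1 < l → v i ≤ v (i + 1)) (s s' : ℕ)
    (hs : s ≤ s') : run l p v s 0 ≤ run l p v s' 0 := by
  induction s', hs using Nat.le_induction with
  | base => exact le_rfl
  | succ k _ ih => exact ih.trans (le_stp_zero l _ _ (run_sorted l p v h k))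

theorem run_sum (hl : 1 ≤ l) (v : ℕ → ℤ) (h : ∀ i, i + 1 < l → v i ≤ v (i + 1)) (g : ℤ → ℤ)
    (s : ℕ) : ∑ i ∈ range l, g (run l p v s i) + ∑ k ∈ range s, g (run l p v k 0)
      = ∑ i ∈ range l, g (v i) + ∑ k ∈ range s, g (run l p v k 0 + p k) := by
  induction s with
  | zero => simp [run]
  | succ s ih =>
    rw [sum_range_succ, sum_range_succ]
    have h1 := stp_sum l hl (p s) (by positivity) (run l p v s) (run_sorted l p v h s) g
    have h2 : run l p v (s + 1) = stp l (p s) (run l p v s) := rfl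
    rw [h2]
    linarith

theorem run_gap (hl : 1 ≤ l) (r : ℕ) (v : ℕ → ℤ) (h : ∀ i, i + 1 < l → v i ≤ v (i + 1)) (t : ℕ)
    (hr : ∀ k < t, p k ≤ r) : ∀ s ≤ t,
    run l p v s (l - 1) ≤ max (v (l - 1)) (run l p v s 0 + r) := by
  intro s
  induction s with
  | zero => intro _; exact le_max_left _ _
  | succ s ih =>
    intro hs
    have h1 := ih (by omega)
    have h2 : run l p v (s + 1) (l - 1) = max (run l p v s (l - 1)) (run l p v s 0 + p s) := by
      change stp l (p s) (run l p v s) (l - 1) = _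
      unfold stp
      rw [if_neg (by omega)]
    have h3 := run_zero_mono l p v h s (s + 1) (by omega)
    have h4 : (p s : ℤ) ≤ r := by exact_mod_cast hr s (by omega)
    rw [h2]
    refine max_le (h1.trans (max_le_max le_rfl (by omega))) (le_trans ?_ (le_max_right _ _))
    omega

end

/-- A monotone sum preserving self map of a set of integer vectors which is closed under meets
and bounded has a fixed point. -/
theorem fixed (l : ℕ) (Φ : (ℕ → ℤ) → (ℕ → ℤ)) (D : Set (ℕ → ℤ)) (B : ℤ)
    (hD : ∀ τ ∈ D, Φ τ ∈ D) (hinf : ∀ τ ∈ D, ∀ σ ∈ D, τ ⊓ σ ∈ D)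
    (hsupp : ∀ τ ∈ D, ∀ i, l ≤ i → τ i = 0)
    (hbd : ∀ τ ∈ D, ∑ i ∈ range l, τ i = 0 → ∀ i < l, -B ≤ τ i ∧ τ i ≤ B)
    (hmono : ∀ τ ∈ D, ∀ σ ∈ D, τ ≤ σ → Φ τ ≤ Φ σ)
    (hsum : ∀ τ ∈ D, ∑ i ∈ range l, Φ τ i = ∑ i ∈ range l, τ i)
    (τ0 : ℕ → ℤ) (h0 : τ0 ∈ D) (hs0 : ∑ i ∈ range l, τ0 i = 0) :
    ∃ τ ∈ D, Φ τ = τ := by
  set s : ℕ → ℕ → ℤ := fun n => Φ^[n] τ0 with hs
  have s_succ : ∀ n, s (n + 1) = Φ (s n) := fun n => Function.iterate_succ_apply' Φ n τ0
  have sD : ∀ n, s n ∈ D := by
    intro n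
    induction n with
    | zero => exact h0
    | succ n ih => rw [s_succ]; exact hD _ ih
  have sS : ∀ n, ∑ i ∈ range l, s n i = 0 := by
    intro n
    induction n with
    | zero => exact hs0
    | succ n ih => rw [s_succ, hsum _ (sD n)]; exact ih
  let f : ℕ → ↥(Set.Icc (fun _ : Fin l => -B) (fun _ => B)) := fun n =>
    ⟨fun i => s n i, fun i => (hbd _ (sD n) (sS n) i i.2).1, fun i => (hbd _ (sD n) (sS n) i i.2).2⟩
  have hfin : Finite ↥(Set.Icc (fun _ : Fin l => -B) (fun _ => B)) :=
    (Set.finite_Icc _ _).to_subtype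
  obtain ⟨m', n', hne, he⟩ := Finite.exists_ne_map_eq_of_infinite f
  have hval : ∀ m n, f m = f n → s m = s n := by
    intro m n h
    funext i
    by_cases hi : i < l
    · have := congrFun (congrArg Subtype.val h) ⟨i, hi⟩
      exact this
    · rw [hsupp _ (sD m) i (by omega), hsupp _ (sD n) i (by omega)]
  obtain ⟨m, n, hmn, hs1⟩ : ∃ m n, m < n ∧ s m = s n := by
    rcases lt_or_gt_of_ne hne with h | h
    · exact ⟨m', n', h, hval _ _ he⟩
    · exact ⟨n', m', h, hval _ _ he.symm⟩
  obtain ⟨k, rfl⟩ : ∃ k, n = m + (k + 1) := ⟨n - m - 1, by omega⟩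
  have hne' : (range (k + 1)).Nonempty := ⟨0, by simp⟩
  set a : ℕ → ℤ := (range (k + 1)).inf' hne' (fun j => s (m + j)) with ha
  have haD : a ∈ D := by
    refine Finset.inf'_induction hne' _ (p := fun x => x ∈ D) (fun x hx y hy => hinf x hx y hy) ?_
    intro j _
    exact sD _
  have hle : ∀ j < k + 1, a ≤ s (m + j) := fun j hj => Finset.inf'_le _ (by simpa using hj)
  have hΦ : Φ a ≤ a := by
    refine Finset.le_inf' _ _ ?_
    intro j hj
    rcases Nat.eq_zero_or_pos j with rfl | hj0
    · have := hmono _ haD _ (sD _) (hle k (by omega))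
      rw [← s_succ] at this
      rw [show m + 0 = m from rfl, hs1]
      exact this
    · have hj' : j < k + 1 := by simpa using hj
      have := hmono _ haD _ (sD _) (hle (j - 1) (by omega))
      rw [← s_succ] at this
      rwa [show m + (j - 1) + 1 = m + j by omega] at this
  refine ⟨a, haD, ?_⟩
  funext i
  by_cases hi : i < l
  · have h1 : ∑ i ∈ range l, (a i - Φ a i) = 0 := by
      rw [sum_sub_distrib, hsum _ haD]; ring
    have h2 := (sum_eq_zero_iff_of_nonneg (fun i _ => sub_nonneg.mpr (hΦ i))).mp h1 i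
      (by simpa using hi)
    linarith
  · rw [hsupp _ haD i (by omega), hsupp _ (hD _ haD) i (by omega)]


section
variable (l : ℕ) (p : ℕ → ℕ) (t : ℕ) (C : ℕ → ℤ)

/-- the release times that are allowed -/
def Dom : Set (ℕ → ℤ) :=
  {τ | (∀ i, l ≤ i → τ i = 0) ∧ ∀ i, i + 1 < l → τ i ≤ τ (i + 1) ∧
    τ (i + 1) ≤ τ i + (C i - C (i + 1))}

/-- ends, in descending order, minus `C` -/
def Phi (τ : ℕ → ℤ) (i : ℕ) : ℤ := if i < l then run l p τ t (l - 1 - i) - C i else 0

theorem dom_mono (τ : ℕ → ℤ) (h : τ ∈ Dom l C) (i j : ℕ) (hij : i ≤ j) (hj : j < l) :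
    τ i ≤ τ j := by
  induction j, hij using Nat.le_induction with
  | base => exact le_rfl
  | succ k hk ih => exact (ih (by omega)).trans (h.2 k hj).1

theorem dom_diff (τ : ℕ → ℤ) (h : τ ∈ Dom l C) (i j : ℕ) (hij : i ≤ j) (hj : j < l) :
    τ j ≤ τ i + (C i - C j) := by
  induction j, hij using Nat.le_induction with
  | base => simp
  | succ k hk ih =>
    have h1 := ih (by omega)
    have h2 := (h.2 k hj).2
    linarith

theorem sorted_le (v : ℕ → ℤ) (h : ∀ i, i + 1 < l → v i ≤ v (i + 1)) (i j : ℕ) (hij : i ≤ j)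
    (hj : j < l) : v i ≤ v j := by
  induction j, hij using Nat.le_induction with
  | base => exact le_rfl
  | succ k hk ih => exact (ih (by omega)).trans (h k hj)

theorem run_total (hl : 1 ≤ l) (τ : ℕ → ℤ) (h : ∀ i, i + 1 < l → τ i ≤ τ (i + 1)) :
    ∑ i ∈ range l, run l p τ t i = ∑ i ∈ range l, τ i + ∑ k ∈ range t, (p k : ℤ) := by
  have := run_sum l p hl τ h (fun z => z) t
  rw [sum_add_distrib] at this
  linarith

theorem phi_sum (hl : 1 ≤ l) (hC : ∑ k ∈ range t, (p k : ℤ) = ∑ i ∈ range l, C i)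
    (τ : ℕ → ℤ) (h : τ ∈ Dom l C) :
    ∑ i ∈ range l, Phi l p t C τ i = ∑ i ∈ range l, τ i := by
  have h1 : ∑ i ∈ range l, Phi l p t C τ i = ∑ i ∈ range l, (run l p τ t (l - 1 - i) - C i) := by
    apply sum_congr rfl
    intro i hi
    unfold Phi
    rw [if_pos (by simpa using hi)]
  rw [h1, sum_sub_distrib, sum_range_reflect (fun i => run l p τ t i) l,
    run_total l p t hl τ (fun i hi => (h.2 i hi).1), hC]
  ring

theorem gap_bound (hl : 1 ≤ l) (r : ℕ) (hr : ∀ k < t, p k ≤ r)
    (hC : ∑ k ∈ range t, (p k : ℤ) = ∑ i ∈ range l, C i) (hC1 : 1 ≤ C (l - 1))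
    (τ : ℕ → ℤ) (h : τ ∈ Dom l C) : run l p τ t (l - 1) ≤ run l p τ t 0 + r := by
  have hs := run_sorted l p τ (fun i hi => (h.2 i hi).1) t
  have h1 := run_gap l p hl r τ (fun i hi => (h.2 i hi).1) t hr t le_rfl
  rcases le_max_iff.mp h1 with h2 | h2
  · exfalso
    have h3 := run_total l p t hl τ (fun i hi => (h.2 i hi).1)
    have h4 : ∑ i ∈ range l, run l p τ t i ≤ ∑ i ∈ range l, τ (l - 1) := by
      apply sum_le_sum
      intro i hi
      have hi' : i < l := by simpa using hi
      exact (sorted_le l _ hs i (l - 1) (by omega) (by omega)).trans h2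
    have h5 : ∑ i ∈ range l, (τ (l - 1) + 1) ≤ ∑ i ∈ range l, (τ i + C i) := by
      apply sum_le_sum
      intro i hi
      have hi' : i < l := by simpa using hi
      have := dom_diff l C τ h i (l - 1) (by omega) (by omega)
      linarith
    rw [sum_add_distrib, sum_add_distrib] at h5
    have h6 : (0 : ℤ) < ∑ i ∈ range l, (1 : ℤ) := by
      simp; omega
    rw [h3, hC] at h4
    linarith
  · exact h2

theorem phi_dom (hl : 1 ≤ l) (r : ℕ) (hr : ∀ k < t, p k ≤ r)
    (hC : ∑ k ∈ range t, (p k : ℤ) = ∑ i ∈ range l, C i) (hC1 : 1 ≤ C (l - 1))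
    (hCr : ∀ i, i + 1 < l → (r : ℤ) ≤ C i - C (i + 1))
    (τ : ℕ → ℤ) (h : τ ∈ Dom l C) : Phi l p t C τ ∈ Dom l C := by
  have hs := run_sorted l p τ (fun i hi => (h.2 i hi).1) t
  have hg := gap_bound l p t C hl r hr hC hC1 τ h
  refine ⟨?_, ?_⟩
  · intro i hi
    unfold Phi
    rw [if_neg (by omega)]
  · intro i hi
    have e1 : Phi l p t C τ i = run l p τ t (l - 1 - i) - C i := by
      unfold Phi; rw [if_pos (by omega)]
    have e2 : Phi l p t C τ (i + 1) = run l p τ t (l - 1 - (i + 1)) - C (i + 1) := by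
      unfold Phi; rw [if_pos hi]
    have h1 := sorted_le l _ hs (l - 1 - (i + 1)) (l - 1 - i) (by omega) (by omega)
    have h2 := sorted_le l _ hs (l - 1 - i) (l - 1) (by omega) (by omega)
    have h3 := sorted_le l _ hs 0 (l - 1 - (i + 1)) (by omega) (by omega)
    have h4 := hCr i hi
    rw [e1, e2]
    constructor <;> linarith

theorem exists_fixed (hl : 1 ≤ l) (r : ℕ) (hr : ∀ k < t, p k ≤ r)
    (hC : ∑ k ∈ range t, (p k : ℤ) = ∑ i ∈ range l, C i) (hC1 : 1 ≤ C (l - 1))
    (hCr : ∀ i, i + 1 < l → (r : ℤ) ≤ C i - C (i + 1)) :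
    ∃ τ ∈ Dom l C, ∀ i < l, run l p τ t (l - 1 - i) = τ i + C i := by
  have hzero : (fun _ => 0 : ℕ → ℤ) ∈ Dom l C := by
    refine ⟨fun _ _ => rfl, fun i hi => ⟨le_rfl, ?_⟩⟩
    have := hCr i hi
    simp only
    have h0 : (0 : ℤ) ≤ r := by positivity
    linarith
  obtain ⟨τ, hτ, he⟩ := fixed l (Phi l p t C) (Dom l C) (C 0)
    (fun τ h => phi_dom l p t C hl r hr hC hC1 hCr τ h)
    (by
      intro τ h σ h'
      refine ⟨?_, ?_⟩
      · intro i hi
        simp [h.1 i hi, h'.1 i hi]
      · intro i hi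
        have h1 := h.2 i hi
        have h2 := h'.2 i hi
        simp only [Pi.inf_apply]
        refine ⟨min_le_min h1.1 h2.1, ?_⟩
        rcases le_total (τ i) (σ i) with h3 | h3
        · have e : τ i ⊓ σ i = τ i := min_eq_left h3
          rw [e]
          exact (min_le_left _ _).trans h1.2
        · have e : τ i ⊓ σ i = σ i := min_eq_right h3
          rw [e]
          exact (min_le_right _ _).trans h2.2)
    (fun τ h => h.1)
    (by
      intro τ h hS i hi
      have h0 : ∑ j ∈ range l, τ 0 ≤ ∑ j ∈ range l, τ j :=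
        sum_le_sum fun j hj => dom_mono l C τ h 0 j (by omega) (by simpa using hj)
      have h1 : ∑ j ∈ range l, τ j ≤ ∑ j ∈ range l, τ (l - 1) :=
        sum_le_sum fun j hj => by
          have hj' : j < l := by simpa using hj
          exact dom_mono l C τ h j (l - 1) (by omega) (by omega)
      rw [hS] at h0 h1
      rw [sum_const, card_range, nsmul_eq_mul] at h0 h1
      have hl0 : (0 : ℤ) < l := by exact_mod_cast hl
      have h2 : τ 0 ≤ 0 := by nlinarith
      have h3 : 0 ≤ τ (l - 1) := by nlinarith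
      have h4 := dom_diff l C τ h 0 (l - 1) (by omega) (by omega)
      have h5 := dom_mono l C τ h 0 i (by omega) hi
      have h6 := dom_mono l C τ h i (l - 1) (by omega) (by omega)
      constructor <;> linarith)
    (by
      intro τ _ σ _ hle i
      unfold Phi
      split_ifs with hi
      · exact sub_le_sub_right (run_mono l p τ σ hle t _) _
      · exact le_rfl)
    (fun τ h => phi_sum l p t C hl hC τ h)
    (fun _ => 0) hzero (by simp)
  refine ⟨τ, hτ, ?_⟩
  intro i hi
  have := congrFun he i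
  unfold Phi at this
  rw [if_pos hi] at this
  linarith

end


theorem initial_segment (A : Finset ℕ) (h : ∀ i ∈ A, ∀ j ≤ i, j ∈ A) : A = range A.card := by
  apply eq_of_subset_of_card_le
  · intro i hi
    have h1 : range (i + 1) ⊆ A := by
      intro j hj
      exact h i hi j (by simpa [Nat.lt_succ_iff] using hj)
    have h2 := card_le_card h1
    rw [card_range] at h2
    simp
    omega
  · simp

/-- Nested intervals `[a i, a i + C i)`, `i < l`: the number of points in exactly `q` of them. -/
theorem nested_count (l : ℕ) (a C : ℕ → ℕ) (ha : ∀ i, i + 1 < l → a i ≤ a (i + 1))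
    (hb : ∀ i, i + 1 < l → a (i + 1) + C (i + 1) ≤ a i + C i) (ha0 : a 0 = 0) (q : ℕ)
    (hq : 1 ≤ q) (hql : q ≤ l) :
    ((range (C 0)).filter fun u => ((range l).filter fun i => a i ≤ u ∧ u < a i + C i).card = q).card
      = C (q - 1) - (if q < l then C q else 0) := by
  have hamono : ∀ i j, i ≤ j → j < l → a i ≤ a j := by
    intro i j hij hj
    induction j, hij using Nat.le_induction with
    | base => exact le_rfl
    | succ k hk ih => exact (ih (by omega)).trans (ha k hj)
  have hbmono : ∀ i j, i ≤ j → j < l → a j + C j ≤ a i + C i := by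
    intro i j hij hj
    induction j, hij using Nat.le_induction with
    | base => exact le_rfl
    | succ k hk ih => exact (hb k hj).trans (ih (by omega))
  have hseg : ∀ u, ((range l).filter fun i => a i ≤ u ∧ u < a i + C i)
      = range ((range l).filter fun i => a i ≤ u ∧ u < a i + C i).card := by
    intro u
    apply initial_segment
    intro i hi j hj
    rw [mem_filter, mem_range] at hi ⊢
    have h1 := hamono j i hj hi.1
    have h2 := hbmono j i hj hi.1
    omega
  have hiff : ∀ u, ((range l).filter fun i => a i ≤ u ∧ u < a i + C i).card = q ↔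
      (a (q - 1) ≤ u ∧ u < a (q - 1) + C (q - 1)) ∧ ¬ (q < l ∧ a q ≤ u ∧ u < a q + C q) := by
    intro u
    have hm : ∀ i, (i < l ∧ a i ≤ u ∧ u < a i + C i) ↔
        i < ((range l).filter fun i => a i ≤ u ∧ u < a i + C i).card := by
      intro i
      rw [← mem_range (m := i) (n := ((range l).filter fun i => a i ≤ u ∧ u < a i + C i).card),
        ← hseg u, mem_filter, mem_range]
    have h1 := hm (q - 1)
    have h2 := hm q
    constructor
    · intro h
      rw [h] at h1 h2
      refine ⟨(h1.mpr (by omega)).2, fun h3 => ?_⟩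
      exact absurd (h2.mp h3) (by omega)
    · rintro ⟨h3, h4⟩
      have h5 := h1.mp ⟨by omega, h3⟩
      have h6 : ¬ q < ((range l).filter fun i => a i ≤ u ∧ u < a i + C i).card :=
        fun h => h4 (h2.mpr h)
      omega
  have hset : ((range (C 0)).filter fun u =>
      ((range l).filter fun i => a i ≤ u ∧ u < a i + C i).card = q)
      = Ico (a (q - 1)) (a (q - 1) + C (q - 1)) \ (if q < l then Ico (a q) (a q + C q) else ∅) := by
    ext u
    rw [mem_filter, hiff, mem_sdiff, mem_range, mem_Ico]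
    have h0 := hbmono 0 (q - 1) (by omega) (by omega)
    rw [ha0] at h0
    by_cases h : q < l
    · rw [if_pos h, mem_Ico]
      constructor
      · rintro ⟨_, h1, h2⟩
        exact ⟨h1, fun h3 => h2 ⟨h, h3⟩⟩
      · rintro ⟨h1, h2⟩
        exact ⟨by omega, h1, fun h3 => h2 h3.2⟩
    · rw [if_neg h]
      constructor
      · rintro ⟨_, h1, _⟩
        exact ⟨h1, by simp⟩
      · rintro ⟨h1, _⟩
        exact ⟨by omega, h1, fun h3 => h h3.1⟩
  rw [hset]
  by_cases h : q < l
  · rw [if_pos h, if_pos h, card_sdiff_of_subset, Nat.card_Ico, Nat.card_Ico]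
    · omega
    · intro u hu
      rw [mem_Ico] at hu ⊢
      have h1 := hamono (q - 1) q (by omega) h
      have h2 := hbmono (q - 1) q (by omega) h
      omega
  · rw [if_neg h, if_neg h]
    simp

theorem run_last_mono (l : ℕ) (hl : 1 ≤ l) (p : ℕ → ℕ) (v : ℕ → ℤ) (s s' : ℕ) (h : s ≤ s') :
    run l p v s (l - 1) ≤ run l p v s' (l - 1) := by
  induction s', h using Nat.le_induction with
  | base => exact le_rfl
  | succ k _ ih =>
    refine ih.trans ?_
    change run l p v k (l - 1) ≤ stp l (p k) (run l p v k) (l - 1)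
    unfold stp
    rw [if_neg (by omega)]
    exact le_max_left _ _

/-- THEOREM A.  Rows `p 0 ≤ … ≤ p (t-1) ≤ r`, columns of height `q` with multiplicity `n q`
(`1 ≤ q ≤ l`), equal areas, `n l ≥ 1` and `n q ≥ r` for `q < l`: there is a skew diagram, row `s`
occupying the columns `x s, …, x s + p s - 1`, with these column heights. -/
theorem thmA (l r t : ℕ) (hl : 1 ≤ l) (p : ℕ → ℕ) (hr : ∀ i < t, p i ≤ r) (n : ℕ → ℕ)
    (hn : ∀ q, 1 ≤ q → q < l → r ≤ n q) (hnl : 1 ≤ n l)
    (hsum : ∑ i ∈ range t, p i = ∑ q ∈ Icc 1 l, q * n q) :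
    ∃ x : ℕ → ℕ, (∀ i j, i ≤ j → j < t → x i ≤ x j) ∧
      (∀ i < t, x i + p i ≤ ∑ q ∈ Icc 1 l, n q) ∧
      ∀ q ∈ Icc 1 l, ((range (∑ q ∈ Icc 1 l, n q)).filter fun u =>
        ((range t).filter fun s => x s ≤ u ∧ u < x s + p s).card = q).card = n q := by
  set Cn : ℕ → ℕ := fun i => ∑ q ∈ Icc (i + 1) l, n q with hCn
  have Cn_succ : ∀ i, i < l → Cn i = n (i + 1) + Cn (i + 1) := by
    intro i hi
    simp only [hCn]
    rw [← Finset.add_sum_Ioc_eq_sum_Icc (show i + 1 ≤ l by omega)]
    congr 1
    apply sum_congr _ fun _ _ => rfl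
    ext q
    simp only [mem_Ioc, mem_Icc]
    omega
  have Cn_last : Cn (l - 1) = n l := by
    have := Cn_succ (l - 1) (by omega)
    rw [show l - 1 + 1 = l by omega] at this
    rw [this]
    simp [hCn]
  -- areas
  have harea : ∀ k, k ≤ l → ∑ i ∈ range k, Cn i = ∑ q ∈ Icc 1 k, q * n q + k * Cn k := by
    intro k
    induction k with
    | zero => intro _; simp
    | succ k ih =>
      intro hk
      rw [sum_range_succ, ih (by omega), Finset.sum_Icc_succ_top (by omega), Cn_succ k (by omega)]
      ring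
  have harea' : ∑ i ∈ range t, p i = ∑ i ∈ range l, Cn i := by
    rw [harea l le_rfl, hsum]
    have : Cn l = 0 := by simp [hCn]
    rw [this]
    ring
  obtain ⟨τ, hτ, hfix⟩ := exists_fixed l p t (fun i => (Cn i : ℤ)) hl r hr
    (by exact_mod_cast harea') (by
      rw [Cn_last]
      exact_mod_cast hnl) (by
      intro i hi
      have h1 := Cn_succ i (by omega)
      have h2 := hn (i + 1) (by omega) hi
      rw [h1]
      push_cast
      have : (r : ℤ) ≤ n (i + 1) := by exact_mod_cast h2
      linarith)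
  have hτs : ∀ i, i + 1 < l → τ i ≤ τ (i + 1) := fun i hi => (hτ.2 i hi).1
  have hx0 : ∀ k, τ 0 ≤ run l p τ k 0 := fun k => run_zero_mono l p τ hτs 0 k (by omega)
  set x : ℕ → ℕ := fun k => (run l p τ k 0 - τ 0).toNat with hx
  set a : ℕ → ℕ := fun i => (τ i - τ 0).toNat with ha
  have hxk : ∀ k, (x k : ℤ) = run l p τ k 0 - τ 0 := by
    intro k
    have := hx0 k
    simp only [hx]
    omega
  have hak : ∀ i < l, (a i : ℤ) = τ i - τ 0 := by
    intro i hi
    have := dom_mono l _ τ hτ 0 i (by omega) hi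
    simp only [ha]
    omega
  refine ⟨x, ?_, ?_, ?_⟩
  · intro i j hij _
    have h1 := run_zero_mono l p τ hτs i j hij
    have h2 := hxk i
    have h3 := hxk j
    omega
  · intro i hi
    have h1 : run l p τ i 0 + p i ≤ run l p τ (i + 1) (l - 1) := by
      change _ ≤ stp l (p i) (run l p τ i) (l - 1)
      unfold stp
      rw [if_neg (by omega)]
      exact le_max_right _ _
    have h2 := run_last_mono l hl p τ (i + 1) t (by omega)
    have h3 := hfix 0 (by omega)
    rw [show l - 1 - 0 = l - 1 by omega] at h3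
    have h4 := hxk i
    have h5 : (Cn 0 : ℤ) = ((∑ q ∈ Icc 1 l, n q : ℕ) : ℤ) := rfl
    have h6 : run l p τ t (l - 1) = τ 0 + (Cn 0 : ℤ) := h3
    omega
  · intro q hq
    rw [mem_Icc] at hq
    -- the number of busy machines
    have hcov : ∀ u : ℕ, ((range t).filter fun s => x s ≤ u ∧ u < x s + p s).card
        = ((range l).filter fun i => a i ≤ u ∧ u < a i + Cn i).card := by
      intro u
      set g : ℤ → ℤ := fun z => if z ≤ τ 0 + u then 1 else 0 with hg
      have h1 := run_sum l p hl τ hτs g t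
      have h2 : ∑ i ∈ range l, g (run l p τ t i) = ∑ i ∈ range l, g (τ i + Cn i) := by
        rw [← sum_range_reflect (fun i => g (run l p τ t i)) l]
        apply sum_congr rfl
        intro i hi
        rw [hfix i (by simpa using hi)]
      have h3 : (((range t).filter fun s => x s ≤ u ∧ u < x s + p s).card : ℤ)
          = ∑ s ∈ range t, (g (run l p τ s 0) - g (run l p τ s 0 + p s)) := by
        rw [card_filter]
        push_cast
        apply sum_congr rfl
        intro s _
        have := hxk s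
        simp only [hg]
        split_ifs <;> omega
      have h4 : (((range l).filter fun i => a i ≤ u ∧ u < a i + Cn i).card : ℤ)
          = ∑ i ∈ range l, (g (τ i) - g (τ i + Cn i)) := by
        rw [card_filter]
        push_cast
        apply sum_congr rfl
        intro i hi
        have := hak i (by simpa using hi)
        simp only [hg]
        split_ifs <;> omega
      rw [sum_sub_distrib] at h3 h4
      have h5 : (((range t).filter fun s => x s ≤ u ∧ u < x s + p s).card : ℤ)
          = (((range l).filter fun i => a i ≤ u ∧ u < a i + Cn i).card : ℤ) := by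
        rw [h3, h4]
        linarith
      exact_mod_cast h5
    have hC0 : (∑ q ∈ Icc 1 l, n q) = Cn 0 := rfl
    rw [hC0]
    simp only [hcov]
    rw [nested_count l a Cn ?_ ?_ ?_ q hq.1 hq.2]
    · have h1 := Cn_succ (q - 1) (by omega)
      rw [show q - 1 + 1 = q by omega] at h1
      split_ifs with h
      · omega
      · have : q = l := by omega
        subst this
        rw [Cn_last]
        omega
    · intro i hi
      have h1 := hak i (by omega)
      have h2 := hak (i + 1) hi
      have h3 := hτs i hi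
      omega
    · intro i hi
      have h1 := hak i (by omega)
      have h2 := hak (i + 1) hi
      have h3 := (hτ.2 i hi).2
      simp only at h3
      omega
    · simp [ha]

end Pool.Agent.SLS
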