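import Pool.Agent.SLS.Perm

/-!
# Coverage at most two: no lower bound on the multiplicities
-/

set_option autoImplicit false
namespace Pool.Agent.SLS.Two
open Finset

/-- the residual after using the rows of the list, from residual `ρ` -/
def fin : List ℕ → ℕ → ℕ
  | [], ρ => ρ
  | p :: L, ρ => fin L (p - ρ)

/-- the residual is never larger than the next row -/
def Ok : List ℕ → ℕ → Prop
  | [], _ => True
  | p :: L, ρ => ρ ≤ p ∧ Ok L (p - ρ)

/-- a good order of the rows -/
theorem exists_order : ∀ x m : ℕ, ∀ (M : ℕ → ℕ) (ρ : ℕ), M x = m →
    (∀ y, 1 ≤ y → y < x → 1 ≤ M y) → ((1 ≤ m ∧ ρ ≤ x) ∨ ρ ≤ 1) →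
    ∃ L : List ℕ, (∀ y ∈ L, 1 ≤ y ∧ y ≤ x) ∧ (∀ y, 1 ≤ y → y ≤ x → L.count y = M y) ∧
      Ok L ρ ∧ fin L ρ ≤ 1 := by
  intro x
  induction x with
  | zero =>
    intro m M ρ _ _ h
    refine ⟨[], by simp, fun y h1 h2 => by omega, trivial, ?_⟩
    show ρ ≤ 1
    omega
  | succ x ihx =>
    intro m
    induction m with
    | zero =>
      intro M ρ hM hpos h
      obtain ⟨L, h1, h2, h3, h4⟩ := ihx (M x) M ρ rfl (fun y a b => hpos y a (by omega))
        (Or.inr (by omega))
      refine ⟨L, fun y hy => ⟨(h1 y hy).1, (h1 y hy).2.trans (by omega)⟩, ?_, h3, h4⟩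
      intro y hy1 hy2
      rcases Nat.lt_or_ge x y with hxy | hxy
      · have hy : y = x + 1 := by omega
        subst hy
        rw [hM, List.count_eq_zero]
        intro hmem
        have := (h1 _ hmem).2
        omega
      · exact h2 y hy1 hxy
    | succ m ihm =>
      intro M ρ hM hpos h
      have hρ : ρ ≤ x + 1 := by omega
      rcases Nat.eq_zero_or_pos m with hm | hm
      · subst hm
        rcases Nat.eq_zero_or_pos ρ with h0 | h0
        · subst h0
          rcases Nat.eq_zero_or_pos x with hx | hx
          · subst hx
            refine ⟨[1], by simp, ?_, ⟨by omega, trivial⟩, ?_⟩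
            · intro y hy1 hy2
              have hy : y = 1 := by omega
              subst hy
              rw [hM]
              simp
            · show 1 - 0 ≤ 1
              omega
          · obtain ⟨M', hM'⟩ : ∃ M' : ℕ → ℕ, M' = Function.update M x (M x - 1) := ⟨_, rfl⟩
            have hM'x : M' x = M x - 1 := by rw [hM', Function.update_self]
            have hM'n : ∀ y, y ≠ x → M' y = M y := fun y hy => by
              rw [hM', Function.update_of_ne hy]
            obtain ⟨L, h1, h2, h3, h4⟩ := ihx (M' x) M' 1 rfl
              (fun y a b => by rw [hM'n y (by omega)]; exact hpos y a (by omega))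
              (Or.inr le_rfl)
            refine ⟨x :: (x + 1) :: L, ?_, ?_, ?_, ?_⟩
            · intro y hy
              rw [List.mem_cons, List.mem_cons] at hy
              rcases hy with hy | hy | hy
              · omega
              · omega
              · have := h1 y hy
                omega
            · intro y hy1 hy2
              rw [List.count_cons, List.count_cons]
              rcases Nat.lt_or_ge x y with hxy | hxy
              · have hy : y = x + 1 := by omega
                subst hy
                have h5 : L.count (x + 1) = 0 := by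
                  rw [List.count_eq_zero]
                  intro hmem
                  have := (h1 _ hmem).2
                  omega
                rw [h5, hM]
                simp
              · have h5 := h2 y hy1 hxy
                rcases eq_or_ne y x with hyx | hyx
                · subst hyx
                  have h6 := hpos y hy1 (by omega)
                  rw [h5, hM'x]
                  simp
                  omega
                · rw [h5, hM'n y hyx]
                  have h7 : ¬ x = y := fun h => hyx h.symm
                  have h8 : ¬ x + 1 = y := by omega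
                  simp [h7, h8]
            · refine ⟨Nat.zero_le _, ?_, ?_⟩
              · show x - 0 ≤ x + 1
                omega
              · show Ok L (x + 1 - (x - 0))
                rw [show x + 1 - (x - 0) = 1 by omega]
                exact h3
            · show fin L (x + 1 - (x - 0)) ≤ 1
              rw [show x + 1 - (x - 0) = 1 by omega]
              exact h4
        · obtain ⟨L, h1, h2, h3, h4⟩ := ihx (M x) M (x + 1 - ρ) rfl
            (fun y a b => hpos y a (by omega)) (by
              rcases Nat.eq_zero_or_pos x with hx | hx
              · right; omega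
              · left
                exact ⟨hpos x hx (by omega), by omega⟩)
          refine ⟨(x + 1) :: L, ?_, ?_, ⟨hρ, h3⟩, h4⟩
          · intro y hy
            rw [List.mem_cons] at hy
            rcases hy with hy | hy
            · omega
            · have := h1 y hy
              omega
          · intro y hy1 hy2
            rw [List.count_cons]
            rcases Nat.lt_or_ge x y with hxy | hxy
            · have hy : y = x + 1 := by omega
              subst hy
              have h5 : L.count (x + 1) = 0 := by
                rw [List.count_eq_zero]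
                intro hmem
                have := (h1 _ hmem).2
                omega
              rw [h5, hM]
              simp
            · have h8 : ¬ x + 1 = y := by omega
              rw [h2 y hy1 hxy]
              simp [h8]
      · obtain ⟨M', hM'⟩ : ∃ M' : ℕ → ℕ, M' = Function.update M (x + 1) m := ⟨_, rfl⟩
        have hM'x : M' (x + 1) = m := by rw [hM', Function.update_self]
        have hM'n : ∀ y, y ≠ x + 1 → M' y = M y := fun y hy => by
          rw [hM', Function.update_of_ne hy]
        obtain ⟨L, h1, h2, h3, h4⟩ := ihm M' (x + 1 - ρ) hM'x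
          (fun y a b => by rw [hM'n y (by omega)]; exact hpos y a b)
          (Or.inl ⟨hm, by omega⟩)
        refine ⟨(x + 1) :: L, ?_, ?_, ⟨hρ, h3⟩, h4⟩
        · intro y hy
          rw [List.mem_cons] at hy
          rcases hy with hy | hy
          · omega
          · exact h1 y hy
        · intro y hy1 hy2
          rw [List.count_cons, h2 y hy1 hy2]
          rcases eq_or_ne y (x + 1) with hyx | hyx
          · subst hyx
            rw [hM'x, hM]
            simp
          · rw [hM'n y hyx]
            have h7 : ¬ x + 1 = y := fun h => hyx h.symm
            simp [h7]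

/-- residuals of a sequence -/
def R (p : ℕ → ℕ) (ρ : ℕ) : ℕ → ℕ
  | 0 => ρ
  | s + 1 => p s - R p ρ s

theorem R_shift (p : ℕ → ℕ) (ρ : ℕ) (s : ℕ) :
    R p ρ (s + 1) = R (fun k => p (k + 1)) (p 0 - ρ) s := by
  induction s with
  | zero => rfl
  | succ s ih =>
    show p (s + 1) - R p ρ (s + 1) = p (s + 1) - R (fun k => p (k + 1)) (p 0 - ρ) s
    rw [ih]

theorem ok_iff (L : List ℕ) : ∀ ρ, Ok L ρ →
    ∀ s < L.length, R (fun k => L.getD k 0) ρ s ≤ L.getD s 0 := by
  induction L with
  | nil => intro ρ _ s hs; exact absurd hs (Nat.not_lt_zero _)
  | cons a L ih =>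
    intro ρ h s hs
    cases s with
    | zero => exact h.1
    | succ s =>
      rw [R_shift]
      have h1 := ih _ h.2 s (by simpa using hs)
      simpa using h1

theorem fin_eq (L : List ℕ) : ∀ ρ, fin L ρ = R (fun k => L.getD k 0) ρ L.length := by
  induction L with
  | nil => intro ρ; rfl
  | cons a L ih =>
    intro ρ
    rw [List.length_cons, R_shift]
    show fin L (a - ρ) = _
    rw [ih]
    rfl

theorem count_eq (L : List ℕ) (δ : ℕ) :
    ((range L.length).filter fun s => L.getD s 0 = δ).card = L.count δ := by
  rw [card_filter]
  induction L with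
  | nil => rfl
  | cons a L ih =>
    rw [List.length_cons, sum_range_succ', List.count_cons, ← ih]
    simp

/-- a good order as a sequence -/
theorem exists_seq (r : ℕ) (M : ℕ → ℕ) (hM : ∀ y, 1 ≤ y → y ≤ r → 1 ≤ M y) :
    ∃ (T : ℕ) (p : ℕ → ℕ), (∀ i < T, 1 ≤ p i ∧ p i ≤ r) ∧
      (∀ δ ∈ Icc 1 r, ((range T).filter fun s => p s = δ).card = M δ) ∧
      (∀ s < T, R p 0 s ≤ p s) ∧ R p 0 T ≤ 1 := by
  obtain ⟨L, h1, h2, h3, h4⟩ := exists_order r (M r) M 0 rfl
    (fun y a b => hM y a b.le) (Or.inr (Nat.zero_le _))
  refine ⟨L.length, fun k => L.getD k 0, ?_, ?_, ok_iff L 0 h3, ?_⟩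
  · intro i hi
    have : L.getD i 0 ∈ L := by
      rw [List.getD_eq_getElem L 0 hi]
      exact List.getElem_mem hi
    exact h1 _ this
  · intro δ hδ
    rw [mem_Icc] at hδ
    show ((range L.length).filter fun s => L.getD s 0 = δ).card = M δ
    rw [count_eq]
    exact h2 δ hδ.1 hδ.2
  · rw [← fin_eq]
    exact h4

end Pool.Agent.SLS.Two
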