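import Pool.Agent.SLS.TwoA

/-!
# Coverage at most two: the positions of the rows
-/

set_option autoImplicit false
namespace Pool.Agent.SLS.Two
open Finset

theorem mono_of_step {T : ℕ} {y : ℕ → ℕ} (h : ∀ s, s + 1 < T → y s ≤ y (s + 1)) :
    ∀ i j, i ≤ j → j < T → y i ≤ y j := by
  intro i j hij
  induction j, hij using Nat.le_induction with
  | base => intro _; exact le_rfl
  | succ j hij ih => intro hj; exact (ih (by omega)).trans (h j hj)

/-- the coverage is one or two everywhere -/
theorem cov_two {T c : ℕ} {p x : ℕ → ℕ} (hT : 1 ≤ T) (h0 : x 0 = 0)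
    (h1 : ∀ s, s + 1 < T → x (s + 1) ≤ x s + p s)
    (hx : ∀ i j, i ≤ j → j < T → x i ≤ x j)
    (h2 : ∀ s, s + 2 < T → x s + p s ≤ x (s + 2))
    (hc : x (T - 1) + p (T - 1) = c) (u : ℕ) (hu : u < c) :
    1 ≤ ((range T).filter fun s => x s ≤ u ∧ u < x s + p s).card ∧
      ((range T).filter fun s => x s ≤ u ∧ u < x s + p s).card ≤ 2 := by
  classical
  have hex : ∃ s, s < T ∧ u < x s + p s := ⟨T - 1, by omega, by rw [hc]; exact hu⟩
  obtain ⟨s, hs⟩ : ∃ s, s = Nat.find hex := ⟨_, rfl⟩
  have hs1 : s < T ∧ u < x s + p s := by rw [hs]; exact Nat.find_spec hex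
  have hs2 : ∀ s' < s, ¬ (s' < T ∧ u < x s' + p s') := fun s' h => by
    rw [hs] at h
    exact Nat.find_min hex h
  have hs3 : x s ≤ u := by
    rcases Nat.eq_zero_or_pos s with hz | hz
    · rw [hz, h0]; exact Nat.zero_le _
    · have h3 := hs2 (s - 1) (by omega)
      have h4 := h1 (s - 1) (by omega)
      rw [show s - 1 + 1 = s by omega] at h4
      by_contra h5
      exact h3 ⟨by omega, by omega⟩
  constructor
  · rw [Nat.one_le_iff_ne_zero, ← Nat.pos_iff_ne_zero, card_pos]
    exact ⟨s, by rw [mem_filter, mem_range]; exact ⟨hs1.1, hs3, hs1.2⟩⟩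
  · have hsub : ((range T).filter fun s => x s ≤ u ∧ u < x s + p s) ⊆ {s, s + 1} := by
      intro s' hs'
      rw [mem_filter, mem_range] at hs'
      rw [mem_insert, mem_singleton]
      by_contra hne
      have h3 : ¬ s' < s := fun h => hs2 s' h ⟨hs'.1, hs'.2.2⟩
      have h4 : s + 2 ≤ s' := by omega
      have h5 := h2 s (by omega)
      have h6 := hx (s + 2) s' h4 hs'.1
      omega
    exact (card_le_card hsub).trans (card_le_two)

/-- the total coverage -/
theorem cov_sum {T c : ℕ} {p x : ℕ → ℕ} (he : ∀ i < T, x i + p i ≤ c) :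
    ∑ u ∈ range c, ((range T).filter fun s => x s ≤ u ∧ u < x s + p s).card =
      ∑ s ∈ range T, p s := by
  simp only [card_filter]
  rw [sum_comm]
  refine sum_congr rfl fun s hs => ?_
  rw [mem_range] at hs
  rw [← card_filter]
  have : ((range c).filter fun u => x s ≤ u ∧ u < x s + p s) = Ico (x s) (x s + p s) := by
    ext u
    rw [mem_filter, mem_range, mem_Ico]
    have := he s hs
    constructor
    · exact fun h => h.2
    · intro h
      exact ⟨by omega, h⟩
  rw [this, Nat.card_Ico]
  omega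

/-- two values: the counts -/
theorem counts {c W a b : ℕ} {f : ℕ → ℕ} (h : ∀ u < c, 1 ≤ f u ∧ f u ≤ 2)
    (hs : ∑ u ∈ range c, f u = W) (hc : c = a + b) (hW : W = a + 2 * b) :
    ((range c).filter fun u => f u = 1).card = a ∧
      ((range c).filter fun u => f u = 2).card = b := by
  have h1 : ∑ u ∈ range c, f u = ((range c).filter fun u => f u = 1).card +
      2 * ((range c).filter fun u => f u = 2).card := by
    rw [card_filter, card_filter, mul_sum, ← sum_add_distrib]
    refine sum_congr rfl fun u hu => ?_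
    rw [mem_range] at hu
    have := h u hu
    rcases (show f u = 1 ∨ f u = 2 by omega) with h2 | h2
    · rw [h2]; simp
    · rw [h2]; simp
  have h2 : c = ((range c).filter fun u => f u = 1).card +
      ((range c).filter fun u => f u = 2).card := by
    conv_lhs => rw [← card_range c, card_eq_sum_ones]
    rw [card_filter, card_filter, ← sum_add_distrib]
    refine sum_congr rfl fun u hu => ?_
    rw [mem_range] at hu
    have := h u hu
    rcases (show f u = 1 ∨ f u = 2 by omega) with h2 | h2
    · rw [h2]; simp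
    · rw [h2]; simp
  rw [hs] at h1
  omega

/-- rows of prescribed lengths `1, ..., r` and columns of heights one and two -/
theorem rows_two (r : ℕ) (M : ℕ → ℕ) (hM : ∀ y, 1 ≤ y → y ≤ r → 1 ≤ M y) (a b : ℕ)
    (ha : 1 ≤ a) (hsum : ∑ δ ∈ Icc 1 r, δ * M δ = a + 2 * b) :
    ∃ (T : ℕ) (p x : ℕ → ℕ), (∀ i j, i ≤ j → j < T → x i ≤ x j) ∧
      (∀ i j, i ≤ j → j < T → x i + p i ≤ x j + p j) ∧ (∀ i < T, x i + p i ≤ a + b) ∧
      (∀ i < T, 1 ≤ p i ∧ p i ≤ r) ∧
      (∀ δ ∈ Icc 1 r, ((range T).filter fun s => p s = δ).card = M δ) ∧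
      (((range (a + b)).filter fun u =>
        ((range T).filter fun s => x s ≤ u ∧ u < x s + p s).card = 1).card = a) ∧
      (((range (a + b)).filter fun u =>
        ((range T).filter fun s => x s ≤ u ∧ u < x s + p s).card = 2).card = b) := by
  obtain ⟨T, p, hp1, hp2, hR1, hR2⟩ := exists_seq r M hM
  have hW : ∑ s ∈ range T, p s = a + 2 * b := by
    rw [← hsum, ← sum_fiberwise_of_maps_to (s := range T) (t := Icc 1 r) (g := p)
      (fun i hi => mem_Icc.2 (hp1 i (mem_range.1 hi)))]
    refine sum_congr rfl fun δ hδ => ?_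
    rw [← hp2 δ hδ, mul_comm, ← smul_eq_mul, ← sum_const]
    exact sum_congr rfl fun i hi => (mem_filter.1 hi).2
  obtain ⟨ρ, hρ⟩ : ∃ ρ : ℕ → ℕ, ρ = R p 0 := ⟨_, rfl⟩
  rw [← hρ] at hR1 hR2
  have hρ0 : ρ 0 = 0 := by rw [hρ]; rfl
  have hρs : ∀ s, ρ (s + 1) = p s - ρ s := fun s => by rw [hρ]; rfl
  obtain ⟨A, hA⟩ : ∃ A : ℕ → ℕ, A = fun s => ∑ i ∈ range s, p i := ⟨_, rfl⟩
  obtain ⟨S, hS⟩ : ∃ S : ℕ → ℕ, S = fun s => ∑ i ∈ range (s + 1), ρ i := ⟨_, rfl⟩
  have hA0 : A 0 = 0 := by rw [hA]; rfl
  have hAs : ∀ s, A (s + 1) = A s + p s := fun s => by rw [hA]; exact sum_range_succ _ _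
  have hS0 : S 0 = 0 := by rw [hS]; simp [hρ0]
  have hSs : ∀ s, S (s + 1) = S s + ρ (s + 1) := fun s => by rw [hS]; exact sum_range_succ _ _
  have hAT : A T = a + 2 * b := by rw [hA]; exact hW
  have key : ∀ s ≤ T, A s + ρ s = 2 * S s ∧ ρ s ≤ S s := by
    intro s
    induction s with
    | zero => intro _; omega
    | succ s ih =>
      intro hs
      have h1 := ih (by omega)
      have h2 := hAs s
      have h3 := hSs s
      have h4 := hρs s
      have h5 := hR1 s (by omega)
      omega
  have hT : 1 ≤ T := by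
    rcases Nat.eq_zero_or_pos T with h | h
    · rw [h, hA0] at hAT; omega
    · exact h
  obtain ⟨x, hx⟩ : ∃ x : ℕ → ℕ, x = fun s => A s - min (S s) b := ⟨_, rfl⟩
  have hxs : ∀ s, x s = A s - min (S s) b := fun s => by rw [hx]
  have s1 : ∀ s, s + 1 < T → x s ≤ x (s + 1) := by
    intro s hs
    have := key s (by omega)
    have := key (s + 1) (by omega)
    have := hAs s
    have := hSs s
    have := hρs s
    have := hR1 s (by omega)
    rw [hxs, hxs]
    omega
  have s2 : ∀ s, s + 1 < T → x s + p s ≤ x (s + 1) + p (s + 1) := by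
    intro s hs
    have := key s (by omega)
    have := key (s + 1) (by omega)
    have := hAs s
    have := hSs s
    have := hρs s
    have := hR1 s (by omega)
    have := hR1 (s + 1) (by omega)
    rw [hxs, hxs]
    omega
  have s3 : ∀ s, s + 1 < T → x (s + 1) ≤ x s + p s := by
    intro s hs
    have := key s (by omega)
    have := key (s + 1) (by omega)
    have := hAs s
    have := hSs s
    rw [hxs, hxs]
    omega
  have s4 : ∀ s, s + 2 < T → x s + p s ≤ x (s + 2) := by
    intro s hs
    have := key s (by omega)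
    have := key (s + 1) (by omega)
    have := key (s + 2) (by omega)
    have := hAs s
    have := hSs s
    have := hAs (s + 1)
    have := hSs (s + 1)
    have := hρs s
    have h6 := hρs (s + 1)
    have := hR1 s (by omega)
    have := hR1 (s + 1) (by omega)
    rw [hxs, hxs]
    rw [show s + 1 + 1 = s + 2 by omega] at *
    omega
  have s5 : x (T - 1) + p (T - 1) = a + b := by
    have h1 := key (T - 1) (by omega)
    have h2 := key T le_rfl
    have h3 := hAs (T - 1)
    have h4 := hSs (T - 1)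
    rw [show T - 1 + 1 = T by omega] at h3 h4
    rw [hxs]
    omega
  have m1 := mono_of_step s1
  have m2 := mono_of_step (y := fun s => x s + p s) s2
  have he : ∀ i < T, x i + p i ≤ a + b := by
    intro i hi
    rw [← s5]
    exact m2 i (T - 1) (by omega) (by omega)
  have hx0 : x 0 = 0 := by rw [hxs, hA0]; omega
  have hcov := counts (f := fun u => ((range T).filter fun s => x s ≤ u ∧ u < x s + p s).card)
    (fun u hu => cov_two hT hx0 s3 m1 s4 s5 u hu) ((cov_sum he).trans hW) rfl rfl
  exact ⟨T, p, x, m1, m2, he, hp1, hp2, hcov.1, hcov.2⟩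

end Pool.Agent.SLS.Two
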