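import Pool.Agent.SLS.PairC

/-!
# All centres in `V_1`: all but two sizes at least `t - 5`
-/

set_option autoImplicit false
namespace Pool.Agent.SLS.Half
open Finset Pool.Agent.StarF

/-- the columns on the side of the negative values -/
theorem core_side {t : ℕ} (m : Fin t → ℕ) (d : Fin t → ℤ) (l r : ℕ) (hl : 1 ≤ l)
    (hinj : Function.Injective d)
    (hran : ∀ z : ℤ, (-(l : ℤ) ≤ z ∧ z ≤ r) ↔ ∃ i, d i = z)
    (hm : ∀ i j, i ≠ j → d i ≤ 0 → d j ≤ 0 → r + 1 ≤ 2 * m i + m j)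
    (hm1 : ∀ i, 1 ≤ m i) (hs : ∑ i, (m i : ℤ) * d i = 0) :
    Rz (fun x : (Σ i, Fin (m i)) => d x.1) (∑ i, m i) := by
  have hMd := Mz_apply m d hinj
  have hM1 : ∀ q : ℕ, q ≤ l → 1 ≤ Mz m d (-(q : ℤ)) := by
    intro q h1
    obtain ⟨i, hi⟩ := (hran (-(q : ℤ))).1 ⟨by omega, by omega⟩
    rw [← hi, hMd]
    exact hm1 i
  have hM2 : ∀ a b : ℕ, a ≤ l → b ≤ l → a ≠ b →
      r + 1 ≤ 2 * Mz m d (-(a : ℤ)) + Mz m d (-(b : ℤ)) := by
    intro a b ha hb hab
    obtain ⟨i, hi⟩ := (hran (-(a : ℤ))).1 ⟨by omega, by omega⟩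
    obtain ⟨j, hj⟩ := (hran (-(b : ℤ))).1 ⟨by omega, by omega⟩
    rw [← hi, ← hj, hMd, hMd]
    refine hm i j (fun h => hab ?_) (by omega) (by omega)
    rw [h, hj] at hi
    omega
  obtain ⟨p, hp1, hp2, hp3⟩ := exists_sorted (fun δ => Mz m d δ) r
  obtain ⟨T, hT⟩ : ∃ T, T = ∑ δ ∈ Icc 1 r, Mz m d (δ : ℤ) := ⟨_, rfl⟩
  rw [← hT] at hp1 hp2 hp3
  have hsump : ∑ i ∈ range T, p i = ∑ q ∈ Icc 1 l, q * Mz m d (-(q : ℤ)) := by
    rw [sum_of_mult (fun δ => Mz m d δ) r T p hp2 hp3]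
    exact balance m d l r hran hs
  obtain ⟨x, c, H, b, hx1, hx2, H0, Hl, H1, hc, hx3, hst⟩ := pairA l r T hl p
    (fun i hi => (hp2 i hi).2) (fun q => Mz m d (-(q : ℤ))) hM1 hM2 hsump
  exact rz_of_rows_multi m d l r hinj hran T c x p hp2 hp3 hx1
    (fun i j hij hj => add_le_add (hx1 i j hij hj) (hp1 i j hij hj)) hx2 H b H0 Hl hst hx3 hc
    (by simpa using H1)

/-- the columns on the side of the positive values -/
theorem core_side_neg {t : ℕ} (m : Fin t → ℕ) (d : Fin t → ℤ) (l r : ℕ) (hr : 1 ≤ r)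
    (hinj : Function.Injective d)
    (hran : ∀ z : ℤ, (-(l : ℤ) ≤ z ∧ z ≤ r) ↔ ∃ i, d i = z)
    (hm : ∀ i j, i ≠ j → 0 ≤ d i → 0 ≤ d j → l + 1 ≤ 2 * m i + m j)
    (hm1 : ∀ i, 1 ≤ m i) (hs : ∑ i, (m i : ℤ) * d i = 0) :
    Rz (fun x : (Σ i, Fin (m i)) => d x.1) (∑ i, m i) := by
  have h1 := core_side m (fun i => -d i) r l hr
    (fun i j hij => hinj (neg_injective hij)) (by
    intro z
    have h2 := hran (-z)
    constructor
    · intro h3
      obtain ⟨i, hi⟩ := h2.1 ⟨by omega, by omega⟩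
      exact ⟨i, by rw [hi, neg_neg]⟩
    · rintro ⟨i, hi⟩
      have h3 := h2.2 ⟨i, by rw [← hi, neg_neg]⟩
      omega) (fun i j hij h1 h2 => hm i j hij (by omega) (by omega)) hm1 (by
      rw [← neg_zero, ← hs, ← sum_neg_distrib]
      exact sum_congr rfl fun i _ => by ring)
  have h2 := rz_neg h1
  simp only [neg_neg] at h2
  exact h2

/-- **positions and shifted positions both fill an interval**: all sizes but two are at least
`max l r - 1` -/
theorem exists_pos_two {t : ℕ} (m : Fin t → ℕ) (d : Fin t → ℤ) (l r : ℕ)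
    (hinj : Function.Injective d)
    (hran : ∀ z : ℤ, (-(l : ℤ) ≤ z ∧ z ≤ r) ↔ ∃ i, d i = z)
    (a b : Fin t) (hm : 3 ≤ l → 3 ≤ r → ∀ i, i ≠ a → i ≠ b → max l r ≤ m i + 1)
    (hm1 : ∀ i, 1 ≤ m i) (hs : ∑ i, (m i : ℤ) * d i = 0) :
    ∃ pos : (Σ i, Fin (m i)) → ℕ, Set.BijOn pos Set.univ (Set.Iio (∑ i, m i)) ∧
      Set.BijOn (fun x => (pos x : ℤ) + d x.1) Set.univ (Set.Ico 0 ((∑ i, m i : ℕ) : ℤ)) := by
  by_cases h2 : min l r ≤ 2
  · exact Three.exists_pos3 m d l r hinj hran (Or.inl h2) hm1 hs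
  · have hm' := hm (by omega) (by omega)
    have key : ∀ i j, i ≠ j → ¬ ((i = a ∨ i = b) ∧ (j = a ∨ j = b)) →
        max l r + 1 ≤ 2 * m i + m j := by
      intro i j hij h
      have k1 := hm1 i
      have k2 := hm1 j
      by_cases hi : i = a ∨ i = b
      · have hj : ¬ (j = a ∨ j = b) := fun hj => h ⟨hi, hj⟩
        push Not at hj
        have k3 := hm' j hj.1 hj.2
        omega
      · push Not at hi
        have k3 := hm' i hi.1 hi.2
        omega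
    by_cases hab : d a ≤ 0 ∧ d b ≤ 0
    · refine core_side_neg m d l r (by omega) hinj hran (fun i j hij h1 h2 => ?_) hm1 hs
      have h3 := key i j hij fun h => hij (hinj (by
        rcases h.1 with h4 | h4 <;> rcases h.2 with h5 | h5 <;> rw [h4] at h1 ⊢ <;>
          rw [h5] at h2 ⊢ <;> omega))
      omega
    · refine core_side m d l r (by omega) hinj hran (fun i j hij h1 h2 => ?_) hm1 hs
      have h3 := key i j hij fun h => by
        rcases h.1 with h4 | h4 <;> rcases h.2 with h5 | h5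
        · exact hij (h4.trans h5.symm)
        · exact hab ⟨h4 ▸ h1, h5 ▸ h2⟩
        · exact hab ⟨h5 ▸ h2, h4 ▸ h1⟩
        · exact hij (h4.trans h5.symm)
      omega

/-- **characterisation**: at most eight stars, or `t ≤ 4 * m i + 2 * m j` for all `i ≠ j`, or all
but two sizes at least `t - 5` -/
theorem with_iff_two {t : ℕ} (ht : 0 < t) (m : Fin t → ℕ) (hm1 : ∀ i, 1 ≤ m i)
    (hm : t ≤ 8 ∨ (∀ i j, i ≠ j → t ≤ 4 * m i + 2 * m j) ∨
      ∃ a b, ∀ i, i ≠ a → i ≠ b → t ≤ m i + 5) :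
    SSEMWith (starForest m) (centres m) ↔
      ∃ σ : Equiv.Perm (Fin t), ∑ i, m i ∣ ∑ i, ((σ i : ℕ) + 1) * m i := by
  rcases hm with hm | hm | ⟨a, b, hm⟩
  · exact with_iff_pair ht m hm1 (Or.inl hm)
  · exact with_iff_pair ht m hm1 (Or.inr hm)
  · exact with_iff_gen ht m hm1 fun d l r hlr hinj hran hs =>
      exists_pos_two m d l r hinj hran a b (fun h1 h2 i hi hi' => by
        have := hm i hi hi'
        omega) hm1 hs

end Pool.Agent.SLS.Half
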